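import Pool.Agent.Lib.MP_42948a_nt.AC.Defs
import Pool.Agent.Lib.MP_9c2ea5_nt.AChar

/-!
# Bound for `L(s, χ)` on a disc (job S2)

`re s ≥ 1/2`, `‖s‖ ≤ 7/2` on the disc; `LFun_approx` (`MP_9c2ea5_nt/AChar.lean`) with `M = 1`:
`‖L(s) - 1‖ ≤ 2 m (1 + ‖s‖/re s) ≤ 2 m * 8 = 16 m` (the sum over `Ioc 0 1` is `χ 1 * 1^(-s) = 1`).
-/

namespace Pool.Agent.Lib.MP_42948a_nt.AC

open Finset Complex

theorem LFun_disc {m : ℕ} [NeZero m] (χ : DirichletCharacter ℂ m) (hχ : χ ≠ 1) (s : ℂ)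
    (hs : s ∈ Metric.closedBall (2 : ℂ) (3 / 2)) : ‖DirichletCharacter.LFunction χ s‖ ≤ 17 * m := by
  rw [Metric.mem_closedBall, dist_eq_norm] at hs
  have h1 : 1 / 2 ≤ s.re := by
    have h2 := (abs_le.1 ((Complex.abs_re_le_norm (s - 2)).trans hs)).1
    have h3 : (s - 2).re = s.re - 2 := by
      rw [Complex.sub_re]
      rfl
    rw [h3] at h2
    linarith
  have h2 : ‖s‖ ≤ 7 / 2 := by
    have h3 := norm_sub_norm_le s 2
    have h4 : ‖(2 : ℂ)‖ = 2 := Complex.norm_ofNat 2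
    linarith
  have hs0 : 0 < s.re := by linarith
  have h3 := Pool.Agent.Lib.MP_9c2ea5_nt.An.LFun_approx χ hχ s hs0 1 le_rfl
  have h4 : ∑ k ∈ Finset.Ioc (0 : ℕ) 1, χ (k : ZMod m) * (k : ℂ) ^ (-s) = 1 := by
    have e : Finset.Ioc (0 : ℕ) 1 = {1} := rfl
    rw [e, Finset.sum_singleton, Nat.cast_one, Nat.cast_one, map_one, Complex.one_cpow, mul_one]
  rw [h4, Nat.cast_one, Real.one_rpow, mul_one] at h3
  have h5 : ‖s‖ / s.re ≤ 7 := by
    rw [div_le_iff₀ hs0]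
    linarith
  have hm : (1 : ℝ) ≤ m := by
    exact_mod_cast Nat.one_le_iff_ne_zero.2 (NeZero.ne m)
  have h6 := norm_sub_norm_le (DirichletCharacter.LFunction χ s) 1
  rw [norm_one] at h6
  nlinarith

end Pool.Agent.Lib.MP_42948a_nt.AC
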