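import Pool.Agent.Lib.MP_42948a_nt.AC.S6a

/-!
# `ζ(s) L(s, χ₁) L(s, χ₂) L(s, χ₁ χ₂)` (job S6)

Let `r = χ₁.zetaMul` (`= ζ * χ₁`, an arithmetic function) and `r2 = n ↦ χ₂ n * r n` (for `n ≠ 0`; i.e. `pmul`); since `χ₂` is
completely multiplicative `r2 = χ₂ * (χ₁ χ₂)` (convolution; `toArithmeticFunction`). Take `a = r * r2`. It is multiplicative, `a 1 = 1`.
At a prime power `a (p^k) = ∑_{i+j=k} r (p^i) χ₂(p)^j r (p^j)`, `r (p^i) = ∑_{s ≤ i} χ₁(p)^s` (`Nat.divisorsAntidiagonal` of a prime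
power: `Nat.sum_divisorsAntidiagonal`-like, `ArithmeticFunction.mul_apply`, `Nat.divisors_prime_pow`), which is `≥ 0` by `conv_nonneg`
(`χ_i(p) ∈ {0, 1, -1}`); then `a n ≥ 0` for all `n` by multiplicativity (as in `zetaMul_nonneg` in
`Mathlib/NumberTheory/LSeries/Nonvanishing.lean`). L-series: `LSeries_convolution'` and `ArithmeticFunction.LSeriesSummable_mul`,
`L χ₂ * L (χ₁χ₂)` for `r2`, `riemannZeta * L χ₁` for `r` (see the private lemma `F_eq_LSeries` there), with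
`DirichletCharacter.LFunction_eq_LSeries` for `1 < re s`.
-/

namespace Pool.Agent.Lib.MP_42948a_nt.AC

open Finset Complex

private theorem S6_zm {m : ℕ} (χ : DirichletCharacter ℂ m) {p : ℕ} (hp : p.Prime) (k : ℕ) :
    χ.zetaMul (p ^ k) = ∑ i ∈ Finset.range (k + 1), (χ p) ^ i := by
  simp only [DirichletCharacter.zetaMul, ArithmeticFunction.coe_zeta_mul_apply, Nat.sum_divisors_prime_pow hp]
  refine Finset.sum_congr rfl fun i _ => ?_
  rw [← DirichletCharacter.apply_eq_toArithmeticFunction_apply χ (pow_ne_zero _ hp.ne_zero)]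
  simp

private theorem S6_conv {m : ℕ} (χ : DirichletCharacter ℂ m) :
    ⇑(χ.zetaMul) = LSeries.convolution (1 : ℕ → ℂ) (χ ·) := by
  rw [LSeries.one_convolution_eq_zeta_convolution, LSeries.convolution, DirichletCharacter.zetaMul]
  congr 1
  congr 1
  ext n
  simp [toArithmeticFunction]

private theorem S6_r2 {m : ℕ} (χ₁ χ₂ : DirichletCharacter ℂ m) :
    ⇑((toArithmeticFunction (χ₂ ·)).pmul χ₁.zetaMul) = ((χ₂ ·) : ℕ → ℂ) * (LSeries.convolution (1 : ℕ → ℂ) (χ₁ ·)) := by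
  rw [← S6_conv]
  ext n
  by_cases hn : n = 0
  · subst hn; simp
  · rw [ArithmeticFunction.pmul_apply, ← DirichletCharacter.apply_eq_toArithmeticFunction_apply χ₂ hn,
      Pi.mul_apply]

private theorem S6_real {m : ℕ} (χ : DirichletCharacter ℂ m) (h : χ ^ 2 = 1) (p : ℕ) :
    ∃ a : ℝ, (a = 0 ∨ a = 1 ∨ a = -1) ∧ χ p = (a : ℂ) := by
  rcases MulChar.isQuadratic_iff_sq_eq_one.mpr h p with h | h | h
  · exact ⟨0, Or.inl rfl, by simp [h]⟩
  · exact ⟨1, Or.inr (Or.inl rfl), by simp [h]⟩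
  · exact ⟨-1, Or.inr (Or.inr rfl), by simp [h]⟩

open scoped ComplexOrder in
private theorem S6_pp {m : ℕ} (χ₁ χ₂ : DirichletCharacter ℂ m) (h₁ : χ₁ ^ 2 = 1) (h₂ : χ₂ ^ 2 = 1)
    {p : ℕ} (hp : p.Prime) (k : ℕ) :
    0 ≤ (χ₁.zetaMul * ((toArithmeticFunction (χ₂ ·)).pmul χ₁.zetaMul)) (p ^ k) := by
  obtain ⟨a, ha, ha'⟩ := S6_real χ₁ h₁ p
  obtain ⟨b, hb, hb'⟩ := S6_real χ₂ h₂ p
  have key : (χ₁.zetaMul * ((toArithmeticFunction (χ₂ ·)).pmul χ₁.zetaMul)) (p ^ k)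
      = ((∑ q ∈ Finset.HasAntidiagonal.antidiagonal k,
      (∑ s ∈ Finset.range (q.1 + 1), a ^ s) * (b ^ q.2 * ∑ t ∈ Finset.range (q.2 + 1), a ^ t) : ℝ) : ℂ) := by
    rw [ArithmeticFunction.mul_apply,
      Nat.sum_divisorsAntidiagonal (fun x y => χ₁.zetaMul x * ((toArithmeticFunction (χ₂ ·)).pmul χ₁.zetaMul) y),
      Nat.sum_divisors_prime_pow hp,
      Finset.Nat.sum_antidiagonal_eq_sum_range_succ (fun i j =>
      (∑ s ∈ Finset.range (i + 1), a ^ s) * (b ^ j * ∑ t ∈ Finset.range (j + 1), a ^ t))]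
    push_cast
    refine Finset.sum_congr rfl fun i hi => ?_
    have hik : i ≤ k := Nat.lt_succ_iff.mp (Finset.mem_range.mp hi)
    rw [Nat.pow_div hik hp.pos, ArithmeticFunction.pmul_apply, S6_zm χ₁ hp, S6_zm χ₁ hp,
      ← DirichletCharacter.apply_eq_toArithmeticFunction_apply χ₂ (pow_ne_zero _ hp.ne_zero), ha']
    simp [hb']
  rw [key]
  exact_mod_cast conv_nonneg a b ha hb k

open scoped ComplexOrder in
theorem quad_L {m : ℕ} [NeZero m] (χ₁ χ₂ : DirichletCharacter ℂ m) (h₁ : χ₁ ^ 2 = 1) (h₂ : χ₂ ^ 2 = 1) :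
    ∃ a : ℕ → ℂ, (∀ n, 0 ≤ a n) ∧ a 1 = 1 ∧ (∀ s : ℂ, 1 < s.re → LSeriesSummable a s) ∧
      ∀ s : ℂ, 1 < s.re → LSeries a s = riemannZeta s * (DirichletCharacter.LFunction χ₁ s *
        DirichletCharacter.LFunction χ₂ s * DirichletCharacter.LFunction (χ₁ * χ₂) s) := by
  have hm1 : χ₁.zetaMul.IsMultiplicative := χ₁.isMultiplicative_zetaMul
  have hm2 : ((toArithmeticFunction (χ₂ ·)).pmul χ₁.zetaMul).IsMultiplicative :=
    χ₂.isMultiplicative_toArithmeticFunction.pmul hm1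
  have hm : (χ₁.zetaMul * ((toArithmeticFunction (χ₂ ·)).pmul χ₁.zetaMul)).IsMultiplicative := hm1.mul hm2
  have hsum1 : ∀ s : ℂ, 1 < s.re → LSeriesSummable (1 : ℕ → ℂ) s := fun s hs => LSeriesSummable_one_iff.mpr hs
  have hsr : ∀ s : ℂ, 1 < s.re → LSeriesSummable χ₁.zetaMul s := fun s hs => χ₁.LSeriesSummable_zetaMul hs
  have hr2e : ⇑((toArithmeticFunction (χ₂ ·)).pmul χ₁.zetaMul)
      = LSeries.convolution (((χ₂ ·) : ℕ → ℂ)) (((χ₁ * χ₂ : DirichletCharacter ℂ m) ·) : ℕ → ℂ) := by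
    rw [S6_r2, ← DirichletCharacter.mul_convolution_distrib]
    congr 1
    · simp
    · ext n
      simp [mul_comm]
  have hsr2 : ∀ s : ℂ, 1 < s.re →
      LSeriesSummable ((toArithmeticFunction (χ₂ ·)).pmul χ₁.zetaMul) s := by
    intro s hs
    rw [hr2e]
    exact (χ₂.LSeriesSummable_of_one_lt_re hs).convolution ((χ₁ * χ₂).LSeriesSummable_of_one_lt_re hs)
  refine ⟨⇑(χ₁.zetaMul * ((toArithmeticFunction (χ₂ ·)).pmul χ₁.zetaMul)), ?_, hm.map_one, ?_, ?_⟩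
  · intro n
    rcases eq_or_ne n 0 with rfl | hn
    · simp only [ArithmeticFunction.map_zero, le_refl]
    · rw [hm.multiplicative_factorization _ hn, Finsupp.prod]
      exact Finset.prod_nonneg fun p hp => S6_pp χ₁ χ₂ h₁ h₂ (Nat.prime_of_mem_primeFactors (by simpa using hp)) _
  · intro s hs
    exact ArithmeticFunction.LSeriesSummable_mul (hsr s hs) (hsr2 s hs)
  · intro s hs
    rw [ArithmeticFunction.LSeries_mul' (hsr s hs) (hsr2 s hs), hr2e, S6_conv,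
      LSeries_convolution' (hsum1 s hs) (χ₁.LSeriesSummable_of_one_lt_re hs),
      LSeries_convolution' (χ₂.LSeriesSummable_of_one_lt_re hs) ((χ₁ * χ₂).LSeriesSummable_of_one_lt_re hs),
      LSeries_one_eq_riemannZeta hs, DirichletCharacter.LFunction_eq_LSeries χ₁ hs,
      DirichletCharacter.LFunction_eq_LSeries χ₂ hs, DirichletCharacter.LFunction_eq_LSeries (χ₁ * χ₂) hs]
    ring

end Pool.Agent.Lib.MP_42948a_nt.AC
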