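import Pool.Agent.Lib.MP_42948a_nt.AC.S1
import Pool.Agent.Lib.MP_42948a_nt.AC.S2
import Pool.Agent.Lib.MP_42948a_nt.AC.S6
import Pool.Agent.Lib.MP_9c2ea5_nt.ALev
import Pool.Agent.Lib.MP_9c2ea5_nt.AUpper

/-!
# Siegel's theorem when there is an exceptional zero (job S8)

Let `M = m₁ m`, `χ₁' = changeLevel χ₁`, `χ' = changeLevel χ` modulo `M` (both `≠ 1`: `DirichletCharacter.changeLevel_eq_one_iff`-like,
and quadratic: `map_pow`), `l = log (4 M) + 4` (so `4 ≤ l`, `M * 4 ≤ exp l`). Case 1: `χ₁' * χ' = 1`. Then `χ' = χ₁'` (`χ₁'^2 = 1`),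
and by `level_bounds` `‖L(1, χ₁)‖ ≤ 2 l ‖L(1, χ₁')‖ = 2 l ‖L(1, χ')‖ ≤ 4 l^2 ‖L(1, χ)‖`, where `‖L(1, χ₁)‖ > 0`
(`DirichletCharacter.LFunction_apply_one_ne_zero`). Case 2: `χ₁' * χ' ≠ 1`. `estermann` with
`P = L(·, χ₁') L(·, χ') L(·, χ₁' χ')`, `a` from `quad_L`, `B = (17 M)^3` (`LFun_disc`), `β = β₁`; `P β₁ = 0` since
`L(β₁, χ₁') = L(β₁, χ₁) ∏ ... = 0` (`DirichletCharacter.LFunction_changeLevel`). So
`(1-β₁)/4 (C (17 M)^3)^(-4(1-β₁)) ≤ ‖P 1‖ ≤ (10 l) (10 l) ‖L(1, χ')‖ ≤ 200 l^3 ‖L(1, χ)‖` (`LFun_upper` with `s = 1`,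
`level_bounds`). Both: `l ≤ const * M^τ` for every `τ > 0` (`Real.log_le_rpow_div`), `M = m₁ m`, and `12 (1-β₁) < δ` (in case 1
`δ > 0` is enough).
-/

namespace Pool.Agent.Lib.MP_42948a_nt.AC

open Finset Complex

private lemma S8_log (τ : ℝ) (hτ : 0 < τ) (M : ℝ) (hM : 1 ≤ M) :
    Real.log (4 * M) + 4 ≤ (4 ^ τ / τ + 4) * M ^ τ := by
  have h1 := Real.log_le_rpow_div (by linarith : (0 : ℝ) ≤ 4 * M) hτ
  have h2 : (4 * M) ^ τ = 4 ^ τ * M ^ τ := Real.mul_rpow (by norm_num) (by linarith)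
  have h3 : (1 : ℝ) ≤ M ^ τ := Real.one_le_rpow hM hτ.le
  rw [h2] at h1
  have h4 : (4 ^ τ / τ + 4) * M ^ τ = 4 ^ τ * M ^ τ / τ + 4 * M ^ τ := by ring
  rw [h4]
  linarith

private lemma S8_case1 (m₁ : ℕ) [NeZero m₁] (χ₁ : DirichletCharacter ℂ m₁) (h₁ : χ₁ ^ 2 = 1) (n₁ : χ₁ ≠ 1)
    (τ : ℝ) (hτ : 0 < τ) (m : ℕ) [NeZero m] (χ : DirichletCharacter ℂ m) (hχ1 : χ ≠ 1)
    (hprod : DirichletCharacter.changeLevel (Nat.dvd_mul_right m₁ m) χ₁ *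
      DirichletCharacter.changeLevel (Nat.dvd_mul_left m m₁) χ = 1) :
    ‖DirichletCharacter.LFunction χ₁ 1‖ / (4 * (4 ^ τ / τ + 4) ^ 2 * (m₁ : ℝ) ^ (2 * τ)) *
      (m : ℝ) ^ (-(2 * τ)) ≤ ‖DirichletCharacter.LFunction χ 1‖ := by
  have hm₁ : (1 : ℝ) ≤ (m₁ : ℝ) := by exact_mod_cast Nat.one_le_iff_ne_zero.2 (NeZero.ne m₁)
  have hm : (1 : ℝ) ≤ (m : ℝ) := by exact_mod_cast Nat.one_le_iff_ne_zero.2 (NeZero.ne m)
  have hMc : ((m₁ * m : ℕ) : ℝ) = (m₁ : ℝ) * m := by push_cast; rfl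
  have hM : (1 : ℝ) ≤ ((m₁ * m : ℕ) : ℝ) := by rw [hMc]; nlinarith
  have hsq : (DirichletCharacter.changeLevel (Nat.dvd_mul_right m₁ m) χ₁) ^ 2 = 1 := by
    rw [← map_pow, h₁, map_one]
  have heq : DirichletCharacter.changeLevel (Nat.dvd_mul_left m m₁) χ =
      DirichletCharacter.changeLevel (Nat.dvd_mul_right m₁ m) χ₁ := by
    calc DirichletCharacter.changeLevel (Nat.dvd_mul_left m m₁) χ =
        (DirichletCharacter.changeLevel (Nat.dvd_mul_right m₁ m) χ₁) ^ 2 *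
          DirichletCharacter.changeLevel (Nat.dvd_mul_left m m₁) χ := by rw [hsq, one_mul]
      _ = DirichletCharacter.changeLevel (Nat.dvd_mul_right m₁ m) χ₁ *
          (DirichletCharacter.changeLevel (Nat.dvd_mul_right m₁ m) χ₁ *
            DirichletCharacter.changeLevel (Nat.dvd_mul_left m m₁) χ) := by
        rw [pow_two, mul_assoc]
      _ = DirichletCharacter.changeLevel (Nat.dvd_mul_right m₁ m) χ₁ := by rw [hprod, mul_one]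
  set M : ℝ := ((m₁ * m : ℕ) : ℝ) with hMdef
  set l : ℝ := Real.log (4 * M) + 4 with hl
  have hl4 : 4 ≤ l := by
    have := Real.log_nonneg (by linarith : (1 : ℝ) ≤ 4 * M)
    linarith
  have hMl : M ≤ Real.exp l := by
    rw [hl, Real.exp_add, Real.exp_log (by linarith)]
    have := Real.add_one_le_exp (4 : ℝ)
    nlinarith
  obtain ⟨_, b1⟩ := Pool.Agent.Lib.MP_9c2ea5_nt.An.level_bounds (Nat.dvd_mul_right m₁ m) χ₁ n₁ l hl4 hMl
  obtain ⟨b2, _⟩ := Pool.Agent.Lib.MP_9c2ea5_nt.An.level_bounds (Nat.dvd_mul_left m m₁) χ hχ1 l hl4 hMl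
  rw [heq] at b2
  have b3 : ‖DirichletCharacter.LFunction χ₁ 1‖ ≤
      4 * l ^ 2 * ‖DirichletCharacter.LFunction χ 1‖ := by
    have := mul_le_mul_of_nonneg_left b2 (by linarith : (0 : ℝ) ≤ 2 * l)
    calc ‖DirichletCharacter.LFunction χ₁ 1‖ ≤ _ := b1
      _ ≤ _ := this
      _ = 4 * l ^ 2 * ‖DirichletCharacter.LFunction χ 1‖ := by ring
  have hK : 0 < 4 ^ τ / τ + 4 := by positivity
  have b4 : l ^ 2 ≤ (4 ^ τ / τ + 4) ^ 2 * (m₁ : ℝ) ^ (2 * τ) * (m : ℝ) ^ (2 * τ) := by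
    have h1 := S8_log τ hτ M hM
    have h2 : l ^ 2 ≤ ((4 ^ τ / τ + 4) * M ^ τ) ^ 2 := pow_le_pow_left₀ (by linarith) h1 2
    have h3 : (M ^ τ) ^ 2 = (m₁ : ℝ) ^ (2 * τ) * (m : ℝ) ^ (2 * τ) := by
      rw [hMc, Real.mul_rpow (by linarith) (by linarith), mul_pow, ← Real.rpow_natCast, ← Real.rpow_natCast,
        ← Real.rpow_mul (by linarith), ← Real.rpow_mul (by linarith)]
      norm_num [mul_comm]
    rw [mul_pow, h3, ← mul_assoc] at h2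
    exact h2
  have hmp : 0 < (m₁ : ℝ) ^ (2 * τ) := Real.rpow_pos_of_pos (by linarith) _
  have hmq : 0 < (m : ℝ) ^ (2 * τ) := Real.rpow_pos_of_pos (by linarith) _
  rw [Real.rpow_neg (by linarith), ← div_eq_mul_inv, div_div, div_le_iff₀ (by positivity)]
  refine b3.trans ?_
  have := mul_le_mul_of_nonneg_left b4 (by positivity : 0 ≤ 4 * ‖DirichletCharacter.LFunction χ 1‖)
  calc 4 * l ^ 2 * ‖DirichletCharacter.LFunction χ 1‖ =
      4 * ‖DirichletCharacter.LFunction χ 1‖ * l ^ 2 := by ring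
    _ ≤ _ := this
    _ = _ := by ring

private lemma S8_case2 (m₁ : ℕ) [NeZero m₁] (χ₁ : DirichletCharacter ℂ m₁) (h₁ : χ₁ ^ 2 = 1) (n₁ : χ₁ ≠ 1)
    (β₁ : ℝ) (hβ : 99 / 100 ≤ β₁) (hβ1 : β₁ < 1) (hz : DirichletCharacter.LFunction χ₁ (β₁ : ℂ) = 0)
    (τ : ℝ) (hτ : 0 < τ) (C : ℝ) (hC : 1 ≤ C)
    (hest : ∀ (P : ℂ → ℂ) (a : ℕ → ℂ) (B β : ℝ), Differentiable ℂ P → (∀ n, (0 : ℝ) ≤ (a n).re ∧ (a n).im = 0) → a 1 = 1 →
      (∀ s : ℂ, 1 < s.re → LSeriesSummable a s) → (∀ s : ℂ, 1 < s.re → LSeries a s = riemannZeta s * P s) → 1 ≤ B →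
      (∀ s ∈ Metric.closedBall (2 : ℂ) (3 / 2), ‖P s‖ ≤ B) → 7 / 8 ≤ β → β < 1 →
      (riemannZeta (β : ℂ) * P (β : ℂ)).re ≤ 0 →
      (1 - β) / 4 * (C * B) ^ (-(4 * (1 - β))) ≤ ‖P 1‖)
    (m : ℕ) [NeZero m] (χ : DirichletCharacter ℂ m) (hχ : χ ^ 2 = 1) (hχ1 : χ ≠ 1)
    (hprod : DirichletCharacter.changeLevel (Nat.dvd_mul_right m₁ m) χ₁ *
      DirichletCharacter.changeLevel (Nat.dvd_mul_left m m₁) χ ≠ 1) :
    (1 - β₁) / 4 * (C * 17 ^ 3) ^ (-(4 * (1 - β₁))) / (200 * (4 ^ τ / τ + 4) ^ 3) *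
      (m₁ : ℝ) ^ (-(12 * (1 - β₁) + 3 * τ)) * (m : ℝ) ^ (-(12 * (1 - β₁) + 3 * τ)) ≤
      ‖DirichletCharacter.LFunction χ 1‖ := by
  have hm₁ : (1 : ℝ) ≤ (m₁ : ℝ) := by exact_mod_cast Nat.one_le_iff_ne_zero.2 (NeZero.ne m₁)
  have hm : (1 : ℝ) ≤ (m : ℝ) := by exact_mod_cast Nat.one_le_iff_ne_zero.2 (NeZero.ne m)
  have hMc : ((m₁ * m : ℕ) : ℝ) = (m₁ : ℝ) * m := by push_cast; rfl
  have hM : (1 : ℝ) ≤ ((m₁ * m : ℕ) : ℝ) := by rw [hMc]; nlinarith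
  set ψ₁ := DirichletCharacter.changeLevel (Nat.dvd_mul_right m₁ m) χ₁ with hψ₁
  set ψ := DirichletCharacter.changeLevel (Nat.dvd_mul_left m m₁) χ with hψ
  have hsq₁ : ψ₁ ^ 2 = 1 := by rw [hψ₁, ← map_pow, h₁, map_one]
  have hsq : ψ ^ 2 = 1 := by rw [hψ, ← map_pow, hχ, map_one]
  have nψ₁ : ψ₁ ≠ 1 := fun h => n₁ ((DirichletCharacter.changeLevel_eq_one_iff _).1 h)
  have nψ : ψ ≠ 1 := fun h => hχ1 ((DirichletCharacter.changeLevel_eq_one_iff _).1 h)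
  have hz' : DirichletCharacter.LFunction ψ₁ (β₁ : ℂ) = 0 := by
    rw [hψ₁, DirichletCharacter.LFunction_changeLevel _ _ (Or.inl n₁), hz, zero_mul]
  set M : ℝ := ((m₁ * m : ℕ) : ℝ) with hMdef
  set l : ℝ := Real.log (4 * M) + 4 with hl
  have hl4 : 4 ≤ l := by
    have := Real.log_nonneg (by linarith : (1 : ℝ) ≤ 4 * M)
    linarith
  have he5 : (5 : ℝ) ≤ Real.exp 4 := by
    have := Real.add_one_le_exp (4 : ℝ)
    linarith
  have hexpl : Real.exp l = 4 * M * Real.exp 4 := by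
    rw [hl, Real.exp_add, Real.exp_log (by linarith)]
  have hMl : M ≤ Real.exp l := by
    rw [hexpl]
    nlinarith
  have hM4 : M * (|(1 : ℂ).im| + 4) ≤ Real.exp l := by
    rw [hexpl, Complex.one_im, abs_zero, zero_add]
    nlinarith
  have hone : 1 - 1 / l ≤ (1 : ℂ).re := by
    rw [Complex.one_re]
    have : 0 < 1 / l := by positivity
    linarith
  have u1 := Pool.Agent.Lib.MP_9c2ea5_nt.An.LFun_upper ψ₁ nψ₁ l hl4 1 hone hM4
  have u2 := Pool.Agent.Lib.MP_9c2ea5_nt.An.LFun_upper (ψ₁ * ψ) hprod l hl4 1 hone hM4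
  obtain ⟨b2, _⟩ := Pool.Agent.Lib.MP_9c2ea5_nt.An.level_bounds (Nat.dvd_mul_left m m₁) χ hχ1 l hl4 hMl
  obtain ⟨a, ha0, ha1, hs, hL⟩ := quad_L ψ₁ ψ hsq₁ hsq
  have hP := hest (fun s => DirichletCharacter.LFunction ψ₁ s * DirichletCharacter.LFunction ψ s *
      DirichletCharacter.LFunction (ψ₁ * ψ) s) a ((17 * M) ^ 3) β₁
    (((DirichletCharacter.differentiable_LFunction nψ₁).mul
      (DirichletCharacter.differentiable_LFunction nψ)).mul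
      (DirichletCharacter.differentiable_LFunction hprod))
    (fun n => by
      obtain ⟨h1, h2⟩ := Complex.le_def.1 (ha0 n)
      exact ⟨h1, h2.symm⟩) ha1 hs hL (one_le_pow₀ (by linarith)) ?_ (by linarith) hβ1 ?_
  · have e1 : (C * (17 * M) ^ 3) ^ (-(4 * (1 - β₁))) =
        (C * 17 ^ 3) ^ (-(4 * (1 - β₁))) * M ^ (-(12 * (1 - β₁))) := by
      have h1 : C * (17 * M) ^ 3 = C * 17 ^ 3 * M ^ 3 := by ring
      rw [h1, Real.mul_rpow (by positivity) (by positivity), ← Real.rpow_natCast M 3,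
        ← Real.rpow_mul (by linarith)]
      congr 2
      push_cast
      ring
    rw [e1] at hP
    have e2 : ‖DirichletCharacter.LFunction ψ₁ 1 * DirichletCharacter.LFunction ψ 1 *
        DirichletCharacter.LFunction (ψ₁ * ψ) 1‖ ≤
        200 * l ^ 3 * ‖DirichletCharacter.LFunction χ 1‖ := by
      rw [norm_mul, norm_mul]
      calc ‖DirichletCharacter.LFunction ψ₁ 1‖ * ‖DirichletCharacter.LFunction ψ 1‖ *
          ‖DirichletCharacter.LFunction (ψ₁ * ψ) 1‖ ≤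
          (10 * l) * (2 * l * ‖DirichletCharacter.LFunction χ 1‖) * (10 * l) := by
            refine mul_le_mul (mul_le_mul u1 b2 (norm_nonneg _) (by linarith)) u2 (norm_nonneg _)
              (by positivity)
        _ = 200 * l ^ 3 * ‖DirichletCharacter.LFunction χ 1‖ := by ring
    have hK : 0 < 4 ^ τ / τ + 4 := by positivity
    have hMp : 0 < M ^ (3 * τ) := Real.rpow_pos_of_pos (by linarith) _
    have b4 : l ^ 3 ≤ (4 ^ τ / τ + 4) ^ 3 * M ^ (3 * τ) := by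
      have h1 := S8_log τ hτ M hM
      have h2 : l ^ 3 ≤ ((4 ^ τ / τ + 4) * M ^ τ) ^ 3 := pow_le_pow_left₀ (by linarith) h1 3
      have h3 : (M ^ τ) ^ 3 = M ^ (3 * τ) := by
        rw [← Real.rpow_natCast, ← Real.rpow_mul (by linarith)]
        congr 1
        push_cast
        ring
      rw [mul_pow, h3] at h2
      exact h2
    have e3 := hP.trans e2
    have e4 : 200 * l ^ 3 * ‖DirichletCharacter.LFunction χ 1‖ ≤
        200 * ((4 ^ τ / τ + 4) ^ 3 * M ^ (3 * τ)) * ‖DirichletCharacter.LFunction χ 1‖ :=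
      mul_le_mul_of_nonneg_right (mul_le_mul_of_nonneg_left b4 (by norm_num)) (norm_nonneg _)
    have e5 := e3.trans e4
    have e6 : M ^ (-(12 * (1 - β₁) + 3 * τ)) = M ^ (-(12 * (1 - β₁))) / M ^ (3 * τ) := by
      rw [neg_add, Real.rpow_add (by linarith), Real.rpow_neg (by linarith) (3 * τ), div_eq_mul_inv]
    have e7 : (m₁ : ℝ) ^ (-(12 * (1 - β₁) + 3 * τ)) * (m : ℝ) ^ (-(12 * (1 - β₁) + 3 * τ)) =
        M ^ (-(12 * (1 - β₁))) / M ^ (3 * τ) := by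
      rw [← e6, hMc, Real.mul_rpow (by linarith) (by linarith)]
    rw [mul_assoc, e7, div_mul_div_comm, div_le_iff₀ (by positivity)]
    calc (1 - β₁) / 4 * (C * 17 ^ 3) ^ (-(4 * (1 - β₁))) * M ^ (-(12 * (1 - β₁))) =
        (1 - β₁) / 4 * ((C * 17 ^ 3) ^ (-(4 * (1 - β₁))) * M ^ (-(12 * (1 - β₁)))) := by ring
      _ ≤ _ := e5
      _ = _ := by ring
  · intro s hs
    have v1 := LFun_disc ψ₁ nψ₁ s hs
    have v2 := LFun_disc ψ nψ s hs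
    have v3 := LFun_disc (ψ₁ * ψ) hprod s hs
    rw [norm_mul, norm_mul]
    calc ‖DirichletCharacter.LFunction ψ₁ s‖ * ‖DirichletCharacter.LFunction ψ s‖ *
        ‖DirichletCharacter.LFunction (ψ₁ * ψ) s‖ ≤ (17 * M) * (17 * M) * (17 * M) := by
          refine mul_le_mul (mul_le_mul v1 v2 (norm_nonneg _) (by linarith)) v3 (norm_nonneg _)
            (by positivity)
      _ = (17 * M) ^ 3 := by ring
  · simp only [hz', zero_mul, mul_zero, Complex.zero_re, le_refl]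

theorem siegel_B (m₁ : ℕ) [NeZero m₁] (χ₁ : DirichletCharacter ℂ m₁) (h₁ : χ₁ ^ 2 = 1) (n₁ : χ₁ ≠ 1) (β₁ : ℝ)
    (hβ : 99 / 100 ≤ β₁) (hβ1 : β₁ < 1) (hz : DirichletCharacter.LFunction χ₁ (β₁ : ℂ) = 0) (δ : ℝ)
    (hδ : 12 * (1 - β₁) < δ) :
    ∃ c : ℝ, 0 < c ∧ ∀ (m : ℕ) [NeZero m] (χ : DirichletCharacter ℂ m), χ ^ 2 = 1 → χ ≠ 1 →
      c * (m : ℝ) ^ (-δ) ≤ ‖DirichletCharacter.LFunction χ 1‖ := by
  obtain ⟨C, hC1, hest⟩ := estermann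
  have hm₁ : (1 : ℝ) ≤ (m₁ : ℝ) := by exact_mod_cast Nat.one_le_iff_ne_zero.2 (NeZero.ne m₁)
  set τ : ℝ := (δ - 12 * (1 - β₁)) / 3 with hτdef
  have hτ : 0 < τ := by
    rw [hτdef]
    linarith
  have hδ3 : 12 * (1 - β₁) + 3 * τ = δ := by
    rw [hτdef]
    ring
  have hL0 : 0 < ‖DirichletCharacter.LFunction χ₁ 1‖ :=
    norm_pos_iff.2 (DirichletCharacter.LFunction_apply_one_ne_zero n₁)
  set c₁ : ℝ := ‖DirichletCharacter.LFunction χ₁ 1‖ / (4 * (4 ^ τ / τ + 4) ^ 2 * (m₁ : ℝ) ^ (2 * τ)) with hc₁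
  set c₂ : ℝ := (1 - β₁) / 4 * (C * 17 ^ 3) ^ (-(4 * (1 - β₁))) / (200 * (4 ^ τ / τ + 4) ^ 3) *
      (m₁ : ℝ) ^ (-δ) with hc₂
  have hc₁0 : 0 < c₁ := by
    have : 0 < (m₁ : ℝ) ^ (2 * τ) := Real.rpow_pos_of_pos (by linarith) _
    rw [hc₁]
    positivity
  have hc₂0 : 0 < c₂ := by
    have h1 : 0 < (m₁ : ℝ) ^ (-δ) := Real.rpow_pos_of_pos (by linarith) _
    have h2 : 0 < (C * 17 ^ 3) ^ (-(4 * (1 - β₁))) := Real.rpow_pos_of_pos (by positivity) _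
    have h3 : 0 < (1 - β₁) / 4 := by linarith
    rw [hc₂]
    positivity
  refine ⟨min c₁ c₂, lt_min hc₁0 hc₂0, fun m _ χ hχ hχ1 => ?_⟩
  have hm : (1 : ℝ) ≤ (m : ℝ) := by exact_mod_cast Nat.one_le_iff_ne_zero.2 (NeZero.ne m)
  have hmp : 0 < (m : ℝ) ^ (-δ) := Real.rpow_pos_of_pos (by linarith) _
  by_cases hprod : DirichletCharacter.changeLevel (Nat.dvd_mul_right m₁ m) χ₁ *
      DirichletCharacter.changeLevel (Nat.dvd_mul_left m m₁) χ = 1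
  · have h1 := S8_case1 m₁ χ₁ h₁ n₁ τ hτ m χ hχ1 hprod
    refine le_trans ?_ h1
    refine mul_le_mul (min_le_left _ _) ?_ hmp.le hc₁0.le
    exact Real.rpow_le_rpow_of_exponent_le hm (by linarith)
  · have h1 := S8_case2 m₁ χ₁ h₁ n₁ β₁ hβ hβ1 hz τ hτ C hC1 (fun P a B β q1 q2 q3 q4 q5 q6 q7 q8 q9 q10 =>
      hest P a B β q1 (fun n => Complex.le_def.2 ⟨(q2 n).1, (q2 n).2.symm⟩) q3 q4 q5 q6 q7 q8 q9 q10)
      m χ hχ hχ1 hprod
    rw [hδ3] at h1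
    refine le_trans ?_ h1
    exact mul_le_mul_of_nonneg_right (min_le_right _ _) hmp.le

end Pool.Agent.Lib.MP_42948a_nt.AC
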