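import Pool.Agent.Lib.MP_42948a_nt.AC.S7
import Pool.Agent.Lib.MP_42948a_nt.AC.S8

/-!
# Siegel's theorem (job S9)

Let `β = max (99/100) (1 - δ/13)`. If no quadratic `χ ≠ 1` has a real zero in `[β, 1)`: `siegel_A`, `4 (1-β) ≤ δ`, `m ≥ 1`. Otherwise
`siegel_B` with such a character and zero, `12 (1 - β₁) ≤ 12 (1 - β) < δ`.
-/

namespace Pool.Agent.Lib.MP_42948a_nt.AC

open Finset Complex

theorem siegel (δ : ℝ) (hδ : 0 < δ) :
    ∃ c : ℝ, 0 < c ∧ ∀ (m : ℕ) [NeZero m] (χ : DirichletCharacter ℂ m), χ ^ 2 = 1 → χ ≠ 1 →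
      c * (m : ℝ) ^ (-δ) ≤ ‖DirichletCharacter.LFunction χ 1‖ := by
  set β : ℝ := max (99 / 100) (1 - δ / 13) with hβdef
  have hβ : 99 / 100 ≤ β := le_max_left _ _
  have hβ' : 1 - δ / 13 ≤ β := le_max_right _ _
  have hβ1 : β < 1 := max_lt (by norm_num) (by linarith)
  by_cases hz : ∀ (m : ℕ) [NeZero m] (χ : DirichletCharacter ℂ m), χ ^ 2 = 1 → χ ≠ 1 →
      ∀ x : ℝ, β ≤ x → x < 1 → DirichletCharacter.LFunction χ (x : ℂ) ≠ 0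
  · obtain ⟨c, hc, h⟩ := siegel_A β hβ hβ1
    refine ⟨c, hc, fun m _ χ h1 h2 => ?_⟩
    refine le_trans ?_ (h m χ h1 h2 (hz m χ h1 h2))
    have hm1 : (1 : ℝ) ≤ (m : ℝ) := by exact_mod_cast Nat.one_le_iff_ne_zero.2 (NeZero.ne m)
    refine mul_le_mul_of_nonneg_left ?_ hc.le
    exact Real.rpow_le_rpow_of_exponent_le hm1 (by linarith)
  · push Not at hz
    obtain ⟨m₁, _, χ₁, h1, h2, x, hx1, hx2, hx3⟩ := hz
    exact siegel_B m₁ χ₁ h1 h2 x (hβ.trans hx1) hx2 hx3 δ (by linarith)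

end Pool.Agent.Lib.MP_42948a_nt.AC
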