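import Pool.Agent.Lib.MP_42948a_nt.AC.N0

/-!
# Few bad pairs (job BP)

For `p = (p.1, p.2)` in the set, `n = p.1 * p.2` is rough, `1 ≤ n ≤ X2 * X2 ≤ X`, its class is the unit `κ p.1 * κ p.2`, and
`g n = g p.1 * g p.2 ≠ E (κ p.1 * κ p.2)`, so `κ p.1 * κ p.2 ∈ B0` by `hB`. Map the set by `p ↦ p.1 * p.2`: the image is in the set
of `class_count` (at most `#B0 (X / d + 1)` elements), and the fibre over `n` injects by `p ↦ p.1` into `n.divisors`, which has at
most `T` elements (`Finset.card_le_mul_card_image`).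
-/

namespace Pool.Agent.Lib.MP_42948a_nt.AC

open Finset Pool.Agent.Lib.MP_42948a_nt.OA

open Classical in
theorem BP_class (d X : ℕ) [NeZero d] (B : Finset (ZMod d)ˣ) :
    ((Icc 1 X).filter (fun n : ℕ => ∃ b ∈ B, (n : ZMod d) = (b : ZMod d))).card ≤
      B.card * (X / d + 1) := by
  have h1 : (Icc 1 X).filter (fun n : ℕ => ∃ b ∈ B, (n : ZMod d) = (b : ZMod d)) ⊆
      B.biUnion fun b => (Icc 1 X).filter (fun n : ℕ => (n : ZMod d) = (b : ZMod d)) := by
    intro n hn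
    obtain ⟨h1, b, hb, h2⟩ := Finset.mem_filter.1 hn
    exact Finset.mem_biUnion.2 ⟨b, hb, Finset.mem_filter.2 ⟨h1, h2⟩⟩
  refine (Finset.card_le_card h1).trans (Finset.card_biUnion_le_card_mul _ _ _ fun b _ => ?_)
  have h2 : ((Icc 1 X).filter (fun n : ℕ => (n : ZMod d) = (b : ZMod d))).card ≤
      (Finset.range (X / d + 1)).card := by
    refine Finset.card_le_card_of_injOn (fun n => n / d) ?_ ?_
    · intro n hn
      have h3 := (Finset.mem_Icc.1 (Finset.mem_filter.1 (Finset.mem_coe.1 hn)).1).2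
      exact Finset.mem_coe.2 (Finset.mem_range.2 (Nat.lt_succ_of_le (Nat.div_le_div_right h3)))
    · intro n hn m hm hnm
      have h3 := (Finset.mem_filter.1 (Finset.mem_coe.1 hn)).2
      have h4 := (Finset.mem_filter.1 (Finset.mem_coe.1 hm)).2
      have h5 : (n : ZMod d) = (m : ZMod d) := h3.trans h4.symm
      have h6 : n % d = m % d := (ZMod.natCast_eq_natCast_iff' n m d).1 h5
      have h7 : n / d = m / d := hnm
      rw [← Nat.div_add_mod n d, ← Nat.div_add_mod m d, h6, h7]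
  rwa [Finset.card_range] at h2

open Classical in
theorem bad_pairs (d z X2 X T : ℕ) [NeZero d] (g : ℕ → ℤˣ) (hg : ∀ m n : ℕ, 0 < m → 0 < n → g (m * n) = g m * g n)
    (E : (ZMod d)ˣ → ℤˣ) (B0 : Finset (ZMod d)ˣ)
    (hB : ∀ b ∉ B0, ∀ n : ℕ, Rough z n → n ≤ X → (n : ZMod d) = (b : ZMod d) → g n = E b)
    (hX : X2 * X2 ≤ X) (hT : ∀ n : ℕ, Rough z n → n ≤ X → n.divisors.card ≤ T)
    (κ : ℕ → (ZMod d)ˣ) (hκ : ∀ n : ℕ, n.Coprime d → ((κ n : (ZMod d)ˣ) : ZMod d) = (n : ZMod d)) :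
    (((RC d z X2) ×ˢ (RC d z X2)).filter (fun p => g p.1 * g p.2 ≠ E (κ p.1 * κ p.2))).card ≤
      B0.card * (X / d + 1) * T := by
  have hmem : ∀ p ∈ ((RC d z X2) ×ˢ (RC d z X2)).filter
      (fun p => g p.1 * g p.2 ≠ E (κ p.1 * κ p.2)), Rough z (p.1 * p.2) ∧ p.1 * p.2 ≤ X ∧
        ∃ b ∈ B0, ((p.1 * p.2 : ℕ) : ZMod d) = (b : ZMod d) := by
    intro p hp
    obtain ⟨hp1, hp2⟩ := Finset.mem_filter.1 hp
    obtain ⟨h1, h2⟩ := Finset.mem_product.1 hp1
    unfold RC at h1 h2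
    obtain ⟨h1a, h1b, h1c⟩ := Finset.mem_filter.1 h1
    obtain ⟨h2a, h2b, h2c⟩ := Finset.mem_filter.1 h2
    rw [Finset.mem_Icc] at h1a h2a
    have hr := h1b.mul h2b
    have hX' : p.1 * p.2 ≤ X := (Nat.mul_le_mul h1a.2 h2a.2).trans hX
    have hcl : ((p.1 * p.2 : ℕ) : ZMod d) = ((κ p.1 * κ p.2 : (ZMod d)ˣ) : ZMod d) := by
      rw [Nat.cast_mul, Units.val_mul, hκ _ h1c, hκ _ h2c]
    refine ⟨hr, hX', κ p.1 * κ p.2, ?_, hcl⟩
    by_contra hb
    exact hp2 (by rw [← hg _ _ h1b.1 h2b.1]; exact hB _ hb _ hr hX' hcl)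
  have h1 := Finset.card_le_mul_card_image (f := fun p : ℕ × ℕ => p.1 * p.2)
    (((RC d z X2) ×ˢ (RC d z X2)).filter (fun p => g p.1 * g p.2 ≠ E (κ p.1 * κ p.2))) T (by
      intro n hn
      obtain ⟨q, hq, rfl⟩ := Finset.mem_image.1 hn
      obtain ⟨hr, hX', -⟩ := hmem q hq
      refine le_trans ?_ (hT _ hr hX')
      refine Finset.card_le_card_of_injOn (fun x => x.1) ?_ ?_
      · intro x hx
        have hx2 := (Finset.mem_filter.1 (Finset.mem_coe.1 hx)).2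
        refine Finset.mem_coe.2 (Nat.mem_divisors.2 ⟨?_, hr.1.ne'⟩)
        exact ⟨x.2, hx2.symm⟩
      · intro x hx y hy hxy
        have hx2 := (Finset.mem_filter.1 (Finset.mem_coe.1 hx)).2
        have hy2 := (Finset.mem_filter.1 (Finset.mem_coe.1 hy)).2
        have hxy' : x.1 = y.1 := hxy
        refine Prod.ext hxy' ?_
        rw [← hy2, hxy'] at hx2
        have hy1 : 0 < y.1 := Nat.pos_of_ne_zero fun h0 => by
          rw [h0, zero_mul] at hy2
          have := hr.1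
          omega
        exact Nat.eq_of_mul_eq_mul_left hy1 hx2)
  refine h1.trans ?_
  rw [mul_comm]
  refine Nat.mul_le_mul_right T (le_trans (Finset.card_le_card ?_) (BP_class d X B0))
  intro n hn
  obtain ⟨q, hq, rfl⟩ := Finset.mem_image.1 hn
  obtain ⟨hr, hX', hb⟩ := hmem q hq
  exact Finset.mem_filter.2 ⟨Finset.mem_Icc.2 ⟨hr.1, hX'⟩, hb⟩

end Pool.Agent.Lib.MP_42948a_nt.AC
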