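import Pool.Agent.Lib.MP_42948a_nt.AC.Defs
import Pool.Agent.Lib.MP_42948a_nt.OA.EC

/-!
# Fibres of `b ↦ t b⁻¹` (job C0)

If `t b₀⁻¹ = u` for some `b₀`, then every `b` of the fibre has `t (b⁻¹ - b₀⁻¹) = 0`, and `b ↦ b⁻¹ - b₀⁻¹` is injective into the
kernel of `x ↦ t x`, which has at most `gcd(t.val, d)` elements (`EC_ker`).
-/

namespace Pool.Agent.Lib.MP_42948a_nt.AC

open Finset Pool.Agent.Lib.MP_42948a_nt.OA

open Classical in
theorem unit_fiber (d : ℕ) [NeZero d] (t u : ZMod d) :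
    ((univ : Finset (ZMod d)ˣ).filter (fun b => t * ((b⁻¹ : (ZMod d)ˣ) : ZMod d) = u)).card ≤ Nat.gcd t.val d := by
  rcases ((univ : Finset (ZMod d)ˣ).filter
    (fun b => t * ((b⁻¹ : (ZMod d)ˣ) : ZMod d) = u)).eq_empty_or_nonempty with h | ⟨b₀, hb₀⟩
  · rw [h, Finset.card_empty]
    exact Nat.zero_le _
  · refine le_trans ?_ (EC_ker t)
    have h0 := (Finset.mem_filter.1 hb₀).2
    refine Finset.card_le_card_of_injOn
      (fun b => ((b⁻¹ : (ZMod d)ˣ) : ZMod d) - ((b₀⁻¹ : (ZMod d)ˣ) : ZMod d)) ?_ ?_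
    · intro b hb
      have h1 := (Finset.mem_filter.1 (Finset.mem_coe.1 hb)).2
      refine Finset.mem_coe.2 (Finset.mem_filter.2 ⟨Finset.mem_univ _, ?_⟩)
      rw [mul_sub, h1, h0, sub_self]
    · intro b _ b' _ h
      have h1 : ((b⁻¹ : (ZMod d)ˣ) : ZMod d) = ((b'⁻¹ : (ZMod d)ˣ) : ZMod d) := sub_left_injective h
      exact inv_injective (Units.ext h1)

end Pool.Agent.Lib.MP_42948a_nt.AC
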