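import Pool.Agent.Lib.MP_42948a_nt.AC.C0
import Pool.Agent.Lib.MP_42948a_nt.OA.EB

/-!
# Parseval over dilations (job C1)

With `Φ(u) = ‖∑_{a ∈ A} e(-(u a))‖^2 ≥ 0` the left side is `∑_b Φ(t b⁻¹) = ∑_u #{b : t b⁻¹ = u} Φ(u) ≤ gcd(t.val, d) ∑_u Φ(u)`
(`unit_fiber`, `Finset.sum_fiberwise`-like), and `∑_{u : ZMod d} Φ(u) = d #A`: this is `parseval` for
`S = A.image (fun a => (a : ZMod d))` (injective, `Units.ext`/`Units.val_injective`), after `u ↦ -u`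
(`Equiv.sum_comp (Equiv.neg _)`), so that `e(-(u a)) = e((-u) a)`.
-/

namespace Pool.Agent.Lib.MP_42948a_nt.AC

open Finset Pool.Agent.Lib.MP_42948a_nt.OA

theorem dil_parseval (d : ℕ) [NeZero d] (A : Finset (ZMod d)ˣ) (t : ZMod d) :
    ∑ b : (ZMod d)ˣ, ‖∑ a ∈ A, ZMod.stdAddChar (-(t * (a : ZMod d) * ((b⁻¹ : (ZMod d)ˣ) : ZMod d)))‖ ^ 2 ≤
      (Nat.gcd t.val d : ℝ) * d * A.card := by
  classical
  set Φ : ZMod d → ℝ := fun u => ‖∑ a ∈ A, (ZMod.stdAddChar (-(u * (a : ZMod d))) : ℂ)‖ ^ 2 with hΦ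
  have hΦ0 : ∀ u, 0 ≤ Φ u := fun u => by positivity
  have h1 : ∀ b : (ZMod d)ˣ,
      ‖∑ a ∈ A, (ZMod.stdAddChar (-(t * (a : ZMod d) * ((b⁻¹ : (ZMod d)ˣ) : ZMod d))) : ℂ)‖ ^ 2 =
        Φ (t * ((b⁻¹ : (ZMod d)ˣ) : ZMod d)) := by
    intro b
    rw [hΦ]
    have h2 : ∀ a ∈ A, (ZMod.stdAddChar (-(t * (a : ZMod d) * ((b⁻¹ : (ZMod d)ˣ) : ZMod d))) : ℂ) =
        ZMod.stdAddChar (-(t * ((b⁻¹ : (ZMod d)ˣ) : ZMod d) * (a : ZMod d))) := by
      intro a _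
      congr 1
      ring
    rw [Finset.sum_congr rfl h2]
  have hsum : ∑ u : ZMod d, Φ u = (d : ℝ) * A.card := by
    have h3 := parseval d (A.image (fun a : (ZMod d)ˣ => (a : ZMod d)))
    rw [Finset.card_image_of_injective A Units.val_injective] at h3
    rw [← h3, ← Equiv.sum_comp (Equiv.neg (ZMod d))]
    refine Finset.sum_congr rfl fun u _ => ?_
    rw [hΦ]
    simp only [Equiv.neg_apply]
    rw [Finset.sum_image (fun a _ b _ h => Units.val_injective h)]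
    have h4 : ∀ a ∈ A, (ZMod.stdAddChar (-(-u * (a : ZMod d))) : ℂ) =
        ZMod.stdAddChar (u * (a : ZMod d)) := by
      intro a _
      congr 1
      ring
    rw [Finset.sum_congr rfl h4]
  rw [Finset.sum_congr rfl fun b _ => h1 b]
  have h5 : ∑ b : (ZMod d)ˣ, Φ (t * ((b⁻¹ : (ZMod d)ˣ) : ZMod d)) =
      ∑ u : ZMod d, ∑ b ∈ (univ : Finset (ZMod d)ˣ).filter
        (fun b => t * ((b⁻¹ : (ZMod d)ˣ) : ZMod d) = u), Φ u := by
    rw [← Finset.sum_fiberwise (univ : Finset (ZMod d)ˣ)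
      (fun b => t * ((b⁻¹ : (ZMod d)ˣ) : ZMod d)) (fun b => Φ (t * ((b⁻¹ : (ZMod d)ˣ) : ZMod d)))]
    refine Finset.sum_congr rfl fun u _ => ?_
    refine Finset.sum_congr rfl fun b hb => ?_
    rw [(Finset.mem_filter.mp hb).2]
  rw [h5]
  calc ∑ u : ZMod d, ∑ b ∈ (univ : Finset (ZMod d)ˣ).filter
        (fun b => t * ((b⁻¹ : (ZMod d)ˣ) : ZMod d) = u), Φ u
      ≤ ∑ u : ZMod d, (Nat.gcd t.val d : ℝ) * Φ u := by
        refine Finset.sum_le_sum fun u _ => ?_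
        rw [Finset.sum_const, nsmul_eq_mul]
        refine mul_le_mul_of_nonneg_right ?_ (hΦ0 u)
        exact_mod_cast unit_fiber d t u
    _ = (Nat.gcd t.val d : ℝ) * d * A.card := by
        rw [← Finset.mul_sum, hsum, mul_assoc]

end Pool.Agent.Lib.MP_42948a_nt.AC
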