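import Pool.Agent.Lib.MP_42948a_nt.AC.Defs
import Pool.Agent.Lib.MP_42948a_nt.OA.ED

/-!
# The number of `m ≤ M` with `m b ∈ A` (job C2a)

As `EF_card`/`coset_count` in `OA/EF.lean` (whose private lemmas may be copied). `m b = a` iff `m = a b⁻¹`; for given `m`, `b` at most
one `a ∈ A` has this property. Orthogonality (`AddChar.sum_mulShift` etc., see `EF_ind`):
`d #HT A M ∅ b = ∑_{t : ZMod d} (∑_{m ∈ Icc 1 M} e(t m)) (∑_{a ∈ A} e(-(t a b⁻¹)))`. The term `t = 0` is `M #A`. For `t ≠ 0` use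
`geom_bound`: first factor `≤ d / (2 min(t.val, d - t.val))`. Divide by `d`, and reindex `t ↦ t.val` (`EF_reindex`), where
`((t.val : ℕ) : ZMod d) = t` (`ZMod.natCast_zmod_val`).
-/

namespace Pool.Agent.Lib.MP_42948a_nt.AC

open Finset Pool.Agent.Lib.MP_42948a_nt.OA

private theorem C2a_reindex (d : ℕ) [NeZero d] (f : ℕ → ℝ) :
    ∑ t ∈ (univ : Finset (ZMod d)).erase 0, f t.val = ∑ t ∈ Icc 1 (d - 1), f t := by
  refine Finset.sum_nbij' (fun t : ZMod d => t.val) (fun j => (j : ZMod d)) ?_ ?_ ?_ ?_ ?_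
  · intro t ht
    rw [mem_erase] at ht
    rw [mem_Icc]
    have h1 := ZMod.val_lt t
    have h0 : t.val ≠ 0 := (ZMod.val_ne_zero t).2 ht.1
    omega
  · intro j hj
    rw [mem_Icc] at hj
    rw [mem_erase]
    refine ⟨?_, mem_univ _⟩
    intro h
    have h2 := congrArg ZMod.val h
    rw [ZMod.val_natCast_of_lt (by omega), ZMod.val_zero] at h2
    omega
  · intro t _
    exact ZMod.natCast_zmod_val t
  · intro j hj
    rw [mem_Icc] at hj
    exact ZMod.val_natCast_of_lt (by omega)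
  · intro t _
    rfl

private theorem C2a_eq (d : ℕ) (b a : (ZMod d)ˣ) (x : ZMod d) :
    x - (a : ZMod d) * ((b⁻¹ : (ZMod d)ˣ) : ZMod d) = 0 ↔ x * (b : ZMod d) = (a : ZMod d) := by
  rw [sub_eq_zero]
  constructor
  · intro h
    rw [h, mul_assoc, Units.inv_mul, mul_one]
  · intro h
    rw [← h, mul_assoc, Units.mul_inv, mul_one]

open Classical in
private theorem C2a_ind (d : ℕ) [NeZero d] (A : Finset (ZMod d)ˣ) (b : (ZMod d)ˣ) (m : ℕ) :
    ∑ a ∈ A, ∑ t : ZMod d, ZMod.stdAddChar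
      (t * ((m : ZMod d) - (a : ZMod d) * ((b⁻¹ : (ZMod d)ˣ) : ZMod d))) =
      if hit A b m then (d : ℂ) else 0 := by
  have h1 : ∀ a : (ZMod d)ˣ, ∑ t : ZMod d, ZMod.stdAddChar
      (t * ((m : ZMod d) - (a : ZMod d) * ((b⁻¹ : (ZMod d)ˣ) : ZMod d))) =
      if (m : ZMod d) * (b : ZMod d) = (a : ZMod d) then (d : ℂ) else 0 := by
    intro a
    rw [AddChar.sum_mulShift _ (ZMod.isPrimitive_stdAddChar d)]
    rw [ZMod.card]
    by_cases hh : (m : ZMod d) * (b : ZMod d) = (a : ZMod d)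
    · rw [if_pos hh, if_pos ((C2a_eq d b a m).2 hh)]
    · rw [if_neg hh, if_neg (fun h => hh ((C2a_eq d b a m).1 h)), Nat.cast_zero]
  rw [Finset.sum_congr rfl fun a _ => h1 a]
  by_cases hx : hit A b m
  · rw [if_pos hx]
    obtain ⟨a0, ha0, he⟩ := hx
    rw [Finset.sum_eq_single_of_mem a0 ha0, if_pos he]
    intro a _ hne
    rw [if_neg]
    intro h
    exact hne (Units.ext (h.symm.trans he))
  · rw [if_neg hx]
    apply Finset.sum_eq_zero
    intro a ha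
    rw [if_neg]
    intro h
    exact hx ⟨a, ha, h⟩

private theorem C2a_HT {d M : ℕ} {A : Finset (ZMod d)ˣ} {b : (ZMod d)ˣ} {n : ℕ} :
    n ∈ HT A M ∅ b ↔ n ∈ Icc 1 M ∧ hit A b n := by
  classical
  unfold HT
  rw [mem_filter]
  constructor
  · rintro ⟨h1, _, h2⟩
    exact ⟨h1, h2⟩
  · rintro ⟨h1, h2⟩
    exact ⟨h1, fun p hp => absurd hp (Finset.notMem_empty p), h2⟩

private theorem C2a_card (d : ℕ) [NeZero d] (A : Finset (ZMod d)ˣ) (M : ℕ) (b : (ZMod d)ˣ) :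
    (d : ℂ) * ((HT A M ∅ b).card : ℂ) =
      ∑ t : ZMod d, (∑ n ∈ Icc 1 M, ZMod.stdAddChar (t * (n : ZMod d))) *
        ∑ a ∈ A, ZMod.stdAddChar (-(t * (a : ZMod d) * ((b⁻¹ : (ZMod d)ˣ) : ZMod d))) := by
  classical
  have h1 : (d : ℂ) * ((HT A M ∅ b).card : ℂ) =
      ∑ n ∈ Icc 1 M, if hit A b n then (d : ℂ) else 0 := by
    rw [← Finset.sum_filter, Finset.sum_const, nsmul_eq_mul, mul_comm]
    congr 2
    apply congrArg
    ext n
    rw [C2a_HT, mem_filter]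
  rw [h1]
  have h2 : ∀ n ∈ Icc 1 M, (if hit A b n then (d : ℂ) else 0) =
      ∑ t : ZMod d, ∑ a ∈ A, ZMod.stdAddChar (t * (n : ZMod d)) *
        ZMod.stdAddChar (-(t * (a : ZMod d) * ((b⁻¹ : (ZMod d)ˣ) : ZMod d))) := by
    intro n _
    rw [← C2a_ind d A b n, Finset.sum_comm]
    apply Finset.sum_congr rfl
    intro t _
    apply Finset.sum_congr rfl
    intro a _
    rw [← AddChar.map_add_eq_mul]
    congr 1
    ring
  rw [Finset.sum_congr rfl h2, Finset.sum_comm]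
  apply Finset.sum_congr rfl
  intro t _
  rw [Finset.sum_mul_sum]

theorem HT_fourier (d : ℕ) [NeZero d] (A : Finset (ZMod d)ˣ) (M : ℕ) (b : (ZMod d)ˣ) :
    |((HT A M ∅ b).card : ℝ) - (M : ℝ) * A.card / d| ≤
      ∑ t ∈ Icc 1 (d - 1), (1 / (2 * (min t (d - t) : ℕ)) : ℝ) *
        ‖∑ a ∈ A, ZMod.stdAddChar (-((t : ZMod d) * (a : ZMod d) * ((b⁻¹ : (ZMod d)ˣ) : ZMod d)))‖ := by
  classical
  have hd0 : 0 < d := Nat.pos_of_ne_zero (NeZero.ne d)
  have hd : (0 : ℝ) < d := by exact_mod_cast hd0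
  obtain ⟨f, hf⟩ : ∃ f : ZMod d → ℂ, f = fun t => ∑ n ∈ Icc 1 M, ZMod.stdAddChar (t * (n : ZMod d)) :=
    ⟨_, rfl⟩
  obtain ⟨g, hg⟩ : ∃ g : ZMod d → ℂ, g = fun t =>
      ∑ a ∈ A, ZMod.stdAddChar (-(t * (a : ZMod d) * ((b⁻¹ : (ZMod d)ˣ) : ZMod d))) := ⟨_, rfl⟩
  have hcard : (d : ℂ) * ((HT A M ∅ b).card : ℂ) = ∑ t : ZMod d, f t * g t := by
    rw [C2a_card, hf, hg]
  have hf0 : f 0 = M := by
    rw [hf]
    dsimp only
    have : ∀ n ∈ Icc 1 M, (ZMod.stdAddChar ((0 : ZMod d) * (n : ZMod d)) : ℂ) = 1 := by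
      intro n _
      rw [zero_mul, AddChar.map_zero_eq_one]
    rw [Finset.sum_congr rfl this, Finset.sum_const, nsmul_eq_mul, mul_one, Nat.card_Icc,
      Nat.add_sub_cancel]
  have hg0 : g 0 = (A.card : ℂ) := by
    rw [hg]
    dsimp only
    have : ∀ a ∈ A, (ZMod.stdAddChar (-((0 : ZMod d) * (a : ZMod d) *
        ((b⁻¹ : (ZMod d)ˣ) : ZMod d))) : ℂ) = 1 := by
      intro a _
      rw [zero_mul, zero_mul, neg_zero, AddChar.map_zero_eq_one]
    rw [Finset.sum_congr rfl this, Finset.sum_const, nsmul_eq_mul, mul_one]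
  have hsplit : (d : ℂ) * ((HT A M ∅ b).card : ℂ) - M * (A.card : ℂ) =
      ∑ t ∈ (univ : Finset (ZMod d)).erase 0, f t * g t := by
    rw [hcard, ← Finset.add_sum_erase univ (fun t => f t * g t) (mem_univ (0 : ZMod d)), hf0, hg0]
    ring
  have hterm : ∀ t ∈ (univ : Finset (ZMod d)).erase 0, ‖f t * g t‖ ≤
      (d : ℝ) * ((1 / (2 * (min t.val (d - t.val) : ℕ)) : ℝ) * ‖g ((t.val : ℕ) : ZMod d)‖) := by
    intro t ht
    rw [mem_erase] at ht
    have h1 := geom_bound d t ht.1 M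
    rw [norm_mul, ZMod.natCast_zmod_val]
    have h3 : ‖f t‖ ≤ (d : ℝ) / (2 * (min t.val (d - t.val) : ℕ)) := by
      rw [hf]
      exact h1
    calc ‖f t‖ * ‖g t‖ ≤ (d : ℝ) / (2 * (min t.val (d - t.val) : ℕ)) * ‖g t‖ :=
          mul_le_mul_of_nonneg_right h3 (norm_nonneg _)
      _ = _ := by ring
  have hnorm : ‖(d : ℂ) * ((HT A M ∅ b).card : ℂ) - M * (A.card : ℂ)‖ ≤
      (d : ℝ) * ∑ t ∈ Icc 1 (d - 1), (1 / (2 * (min t (d - t) : ℕ)) : ℝ) *
        ‖g (t : ZMod d)‖ := by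
    rw [hsplit]
    refine le_trans (norm_sum_le _ _) (le_trans (Finset.sum_le_sum hterm) ?_)
    rw [← Finset.mul_sum]
    apply mul_le_mul_of_nonneg_left _ hd.le
    rw [C2a_reindex d (fun t => (1 / (2 * (min t (d - t) : ℕ)) : ℝ) * ‖g ((t : ℕ) : ZMod d)‖)]
  have hreal : (d : ℝ) * |((HT A M ∅ b).card : ℝ) - (M : ℝ) * A.card / d| =
      ‖(d : ℂ) * ((HT A M ∅ b).card : ℂ) - M * (A.card : ℂ)‖ := by
    have h1 : (d : ℂ) * ((HT A M ∅ b).card : ℂ) - M * (A.card : ℂ) =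
        (((d : ℝ) * (((HT A M ∅ b).card : ℝ) - (M : ℝ) * A.card / d) : ℝ) : ℂ) := by
      have h2 : (d : ℝ) * (((HT A M ∅ b).card : ℝ) - (M : ℝ) * A.card / d) =
          (d : ℝ) * ((HT A M ∅ b).card : ℝ) - (M : ℝ) * A.card := by
        field_simp
      rw [h2]
      push_cast
      ring
    rw [h1, Complex.norm_real, Real.norm_eq_abs, abs_mul, abs_of_pos hd]
  have h5 : (d : ℝ) * |((HT A M ∅ b).card : ℝ) - (M : ℝ) * A.card / d| ≤
      (d : ℝ) * ∑ t ∈ Icc 1 (d - 1), (1 / (2 * (min t (d - t) : ℕ)) : ℝ) *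
        ‖g (t : ZMod d)‖ := by
    rw [hreal]
    exact hnorm
  have h6 := le_of_mul_le_mul_left h5 hd
  rw [hg] at h6
  exact h6

end Pool.Agent.Lib.MP_42948a_nt.AC
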