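import Pool.Agent.Lib.MP_42948a_nt.AC.C1
import Pool.Agent.Lib.MP_42948a_nt.AC.C2a
import Pool.Agent.Lib.MP_42948a_nt.OA.EE

/-!
# Variance over dilations (job C2)

Write `w_t = 1/(2 min(t, d-t)) ≥ 0`, `g_t = gcd(t, d) ≥ 1` for `1 ≤ t ≤ d-1`, `F_b(t)` for the exponential sum in `HT_fourier`. By
Cauchy-Schwarz (`Finset.sum_mul_sq_le_sq_mul_sq` or `inner_mul_le_norm_mul_norm`),
`(∑_t w_t |F_b(t)|)^2 ≤ (∑_t w_t √g_t) (∑_t (w_t / √g_t) |F_b(t)|^2)`. Sum over `b`, use `dil_parseval` (with `(t : ZMod d).val = t`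
for `t < d`, `ZMod.val_natCast_of_lt`): `∑_b |F_b(t)|^2 ≤ g_t d #A`; so the total is
`≤ (∑_t w_t √g_t) d #A (∑_t w_t √g_t) ≤ d #A (τ(d) (1 + log d))^2 = #A (BB d)^2` (`gcd_sum`; `√d ^ 2 = d`).
-/

namespace Pool.Agent.Lib.MP_42948a_nt.AC

open Finset Pool.Agent.Lib.MP_42948a_nt.OA

theorem variance (d : ℕ) [NeZero d] (A : Finset (ZMod d)ˣ) (M : ℕ) :
    ∑ b : (ZMod d)ˣ, (((HT A M ∅ b).card : ℝ) - (M : ℝ) * A.card / d) ^ 2 ≤ A.card * (BB d) ^ 2 := by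
  have hd1 : 1 ≤ d := Nat.one_le_iff_ne_zero.2 (NeZero.ne d)
  obtain ⟨w, hw⟩ : ∃ w : ℕ → ℝ, w = fun t => 1 / (2 * ((min t (d - t) : ℕ) : ℝ)) := ⟨_, rfl⟩
  obtain ⟨F, hF⟩ : ∃ F : (ZMod d)ˣ → ℕ → ℝ, F = fun (b : (ZMod d)ˣ) (t : ℕ) =>
    ‖∑ a ∈ A, ZMod.stdAddChar (-((t : ZMod d) * (a : ZMod d) * ((b⁻¹ : (ZMod d)ˣ) : ZMod d)))‖ :=
    ⟨_, rfl⟩
  have hw0 : ∀ t, 0 ≤ w t := fun t => by rw [hw]; positivity
  have hg0 : ∀ t, 0 < √(Nat.gcd t d : ℝ) := fun t => by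
    refine Real.sqrt_pos.2 ?_
    exact_mod_cast Nat.gcd_pos_of_pos_right t hd1
  have hgg : ∀ t, √(Nat.gcd t d : ℝ) * √(Nat.gcd t d : ℝ) = (Nat.gcd t d : ℝ) := fun t =>
    Real.mul_self_sqrt (by positivity)
  obtain ⟨L, hL⟩ : ∃ L : ℝ, L = ∑ t ∈ Icc 1 (d - 1), w t * √(Nat.gcd t d : ℝ) := ⟨_, rfl⟩
  have hL0 : 0 ≤ L := by
    rw [hL]
    exact Finset.sum_nonneg fun t _ => mul_nonneg (hw0 t) (hg0 t).le
  have hL1 : L ≤ (d.divisors.card : ℝ) * (1 + Real.log d) := by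
    refine le_trans (le_of_eq ?_) (gcd_sum d hd1)
    rw [hL]
    refine Finset.sum_congr rfl fun t _ => ?_
    rw [hw]
    ring
  have hb : ∀ b : (ZMod d)ˣ, (((HT A M ∅ b).card : ℝ) - (M : ℝ) * A.card / d) ^ 2 ≤
      L * ∑ t ∈ Icc 1 (d - 1), (w t / √(Nat.gcd t d : ℝ)) * F b t ^ 2 := by
    intro b
    have h1 : |((HT A M ∅ b).card : ℝ) - (M : ℝ) * A.card / d| ≤
        ∑ t ∈ Icc 1 (d - 1), w t * F b t := by
      have := HT_fourier d A M b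
      rw [hw, hF]
      exact this
    have h2 : (((HT A M ∅ b).card : ℝ) - (M : ℝ) * A.card / d) ^ 2 ≤
        (∑ t ∈ Icc 1 (d - 1), w t * F b t) ^ 2 := by
      rw [← sq_abs]
      exact pow_le_pow_left₀ (abs_nonneg _) h1 2
    refine h2.trans ?_
    rw [hL]
    refine Finset.sum_sq_le_sum_mul_sum_of_sq_le_mul (Icc 1 (d - 1))
      (fun t _ => mul_nonneg (hw0 t) (hg0 t).le)
      (fun t _ => mul_nonneg (div_nonneg (hw0 t) (hg0 t).le) (sq_nonneg _))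
      (fun t _ => le_of_eq ?_)
    have := (hg0 t).ne'
    field_simp
  have hpar : ∀ t ∈ Icc 1 (d - 1), ∑ b : (ZMod d)ˣ, F b t ^ 2 ≤ (Nat.gcd t d : ℝ) * d * A.card := by
    intro t ht
    rw [Finset.mem_Icc] at ht
    have h1 := dil_parseval d A (t : ZMod d)
    rw [ZMod.val_natCast_of_lt (by omega)] at h1
    rw [hF]
    exact h1
  have hd0 : (0 : ℝ) ≤ (d : ℝ) := Nat.cast_nonneg d
  have hA0 : (0 : ℝ) ≤ (A.card : ℝ) := Nat.cast_nonneg _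
  have hlog : 0 ≤ Real.log d := Real.log_natCast_nonneg d
  calc ∑ b : (ZMod d)ˣ, (((HT A M ∅ b).card : ℝ) - (M : ℝ) * A.card / d) ^ 2
      ≤ ∑ b : (ZMod d)ˣ, L * ∑ t ∈ Icc 1 (d - 1), (w t / √(Nat.gcd t d : ℝ)) * F b t ^ 2 :=
        Finset.sum_le_sum fun b _ => hb b
    _ = L * ∑ t ∈ Icc 1 (d - 1), (w t / √(Nat.gcd t d : ℝ)) * ∑ b : (ZMod d)ˣ, F b t ^ 2 := by
        rw [← Finset.mul_sum, Finset.sum_comm]
        congr 1
        refine Finset.sum_congr rfl fun t _ => ?_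
        rw [Finset.mul_sum]
    _ ≤ L * ∑ t ∈ Icc 1 (d - 1), (w t / √(Nat.gcd t d : ℝ)) * ((Nat.gcd t d : ℝ) * d * A.card) := by
        refine mul_le_mul_of_nonneg_left ?_ hL0
        refine Finset.sum_le_sum fun t ht => ?_
        exact mul_le_mul_of_nonneg_left (hpar t ht) (div_nonneg (hw0 t) (hg0 t).le)
    _ = L * (L * (d * A.card)) := by
        congr 1
        rw [hL, Finset.sum_mul]
        refine Finset.sum_congr rfl fun t _ => ?_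
        have h1 := (hg0 t).ne'
        have h2 : (Nat.gcd t d : ℝ) / √(Nat.gcd t d : ℝ) = √(Nat.gcd t d : ℝ) := by
          rw [div_eq_iff h1]
          exact (hgg t).symm
        calc w t / √(Nat.gcd t d : ℝ) * ((Nat.gcd t d : ℝ) * d * A.card)
            = w t * ((Nat.gcd t d : ℝ) / √(Nat.gcd t d : ℝ)) * (d * A.card) := by ring
          _ = w t * √(Nat.gcd t d : ℝ) * (d * A.card) := by rw [h2]
    _ ≤ ((d.divisors.card : ℝ) * (1 + Real.log d)) *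
          (((d.divisors.card : ℝ) * (1 + Real.log d)) * (d * A.card)) := by
        have h3 : 0 ≤ (d : ℝ) * A.card := mul_nonneg hd0 hA0
        exact mul_le_mul hL1 (mul_le_mul_of_nonneg_right hL1 h3) (mul_nonneg hL0 h3)
          (by positivity)
    _ = A.card * (BB d) ^ 2 := by
        unfold BB
        rw [mul_pow, mul_pow, Real.sq_sqrt hd0]
        ring

end Pool.Agent.Lib.MP_42948a_nt.AC
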