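import Pool.Agent.Lib.MP_42948a_nt.AC.C2
import Pool.Agent.Lib.MP_42948a_nt.OA.EG

/-!
# Variance over dilations, with divisibility conditions (job C2b)

Let `P = ∏ p ∈ T, p`, coprime to `d`, so `P` is (the value of) a unit `u` (`ZMod.unitOfCoprime`). The `m ≤ M` divisible by all `p ∈ T`
are the `m = P m'` with `m' ≤ M / P` (`EG_dvd_iff` in `OA/EG.lean`, may be imported), and `m b = m' (u b)`; so
`#HT A M T b = #HT A (M / P) ∅ (u * b)` (bijection `m' ↦ P m'`). With `M' = M / P` (floor), `(x + y)^2 ≤ 2 x^2 + 2 y^2`, and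
`|M' #A / d - M #A / (d P)| ≤ #A / d`, so the sum is `≤ 2 ∑_b (#HT A M' ∅ (u b) - M' #A / d)^2 + 2 #G (#A / d)^2`; the first is
`≤ 2 #A (BB d)^2` by `variance` and the bijection `b ↦ u b` (`Equiv.mulLeft`, `Equiv.sum_comp`/`Fintype.sum_equiv`); in the second
`#G ≤ d` (`ZMod.card_units_eq_totient`, `Nat.totient_le`), `#A ≤ #G ≤ d`, so it is `≤ 2 #A ≤ 2 #A (BB d)^2` since `BB d ≥ 1`
(`√d ≥ 1`, `τ(d) ≥ 1`, `1 + log d ≥ 1`).
-/

namespace Pool.Agent.Lib.MP_42948a_nt.AC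

open Finset Pool.Agent.Lib.MP_42948a_nt.OA

private theorem C2b_card (d : ℕ) [NeZero d] (A : Finset (ZMod d)ˣ) (M : ℕ) (T : Finset ℕ)
    (hT : ∀ p ∈ T, p.Prime) (b u : (ZMod d)ˣ) (hu : (u : ZMod d) = ((∏ p ∈ T, p : ℕ) : ZMod d)) :
    (HT A M T b).card = (HT A (M / ∏ p ∈ T, p) ∅ (u * b)).card := by
  classical
  obtain ⟨P, hP⟩ : ∃ P : ℕ, P = ∏ p ∈ T, p := ⟨_, rfl⟩
  have hP0 : 0 < P := by rw [hP]; exact Finset.prod_pos (fun p hp => (hT p hp).pos)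
  rw [← hP] at hu ⊢
  have hhit : ∀ m : ℕ, hit A (u * b) m ↔ hit A b (P * m) := by
    intro m
    have e : (m : ZMod d) * ((u * b : (ZMod d)ˣ) : ZMod d) = ((P * m : ℕ) : ZMod d) * (b : ZMod d) := by
      rw [Units.val_mul, hu, Nat.cast_mul]
      ring
    unfold hit
    rw [e]
  symm
  apply Finset.card_bij (fun m _ => P * m)
  · intro m hm
    unfold HT at hm ⊢
    rw [mem_filter, mem_Icc] at hm ⊢
    obtain ⟨⟨hm1, hm2⟩, -, hm3⟩ := hm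
    refine ⟨⟨Nat.mul_pos hP0 hm1, ?_⟩, ?_, (hhit m).1 hm3⟩
    · rw [Nat.le_div_iff_mul_le hP0] at hm2
      rw [mul_comm]; exact hm2
    · rw [EG_dvd_iff T hT, ← hP]
      exact Dvd.intro _ rfl
  · intro m _ m' _ h
    exact Nat.eq_of_mul_eq_mul_left hP0 h
  · intro n hn
    unfold HT at hn
    rw [mem_filter, mem_Icc] at hn
    obtain ⟨⟨hn1, hn2⟩, hn3, hn4⟩ := hn
    rw [EG_dvd_iff T hT, ← hP] at hn3
    obtain ⟨m, rfl⟩ := hn3
    refine ⟨m, ?_, rfl⟩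
    unfold HT
    rw [mem_filter, mem_Icc]
    refine ⟨⟨Nat.pos_of_mul_pos_left hn1, ?_⟩, by simp, (hhit m).2 hn4⟩
    rw [Nat.le_div_iff_mul_le hP0, mul_comm]
    exact hn2

private theorem C2b_BB (d : ℕ) [NeZero d] : 1 ≤ BB d := by
  have hd1 : 1 ≤ d := Nat.one_le_iff_ne_zero.2 (NeZero.ne d)
  have h1 : (1 : ℝ) ≤ √(d : ℝ) := by
    rw [Real.one_le_sqrt]
    exact_mod_cast hd1
  have h2 : (1 : ℝ) ≤ (d.divisors.card : ℝ) := by
    have : 0 < d.divisors.card := Finset.card_pos.2 ⟨1, by simp; omega⟩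
    exact_mod_cast this
  have h3 : 1 ≤ 1 + Real.log d := by
    have : 0 ≤ Real.log d := Real.log_natCast_nonneg d
    linarith
  unfold BB
  have h4 := one_le_mul_of_one_le_of_one_le h1 h2
  exact one_le_mul_of_one_le_of_one_le h4 h3

theorem variance_T (d : ℕ) [NeZero d] (A : Finset (ZMod d)ˣ) (M : ℕ) (T : Finset ℕ) (hT : ∀ p ∈ T, p.Prime)
    (hco : ∀ p ∈ T, ¬ p ∣ d) :
    ∑ b : (ZMod d)ˣ, (((HT A M T b).card : ℝ) - (M : ℝ) * A.card / (d * ∏ p ∈ T, (p : ℝ))) ^ 2 ≤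
      4 * A.card * (BB d) ^ 2 := by
  have hd1 : 1 ≤ d := Nat.one_le_iff_ne_zero.2 (NeZero.ne d)
  have hd0 : (0 : ℝ) < (d : ℝ) := by exact_mod_cast hd1
  have hco' : Nat.Coprime (∏ p ∈ T, p) d :=
    Nat.Coprime.prod_left fun p hp => ((hT p hp).coprime_iff_not_dvd).2 (hco p hp)
  obtain ⟨u, hu⟩ : ∃ u : (ZMod d)ˣ, (u : ZMod d) = ((∏ p ∈ T, p : ℕ) : ZMod d) :=
    ⟨ZMod.unitOfCoprime _ hco', ZMod.coe_unitOfCoprime _ hco'⟩
  have hcard := fun b => C2b_card d A M T hT b u hu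
  obtain ⟨P, hP⟩ : ∃ P : ℕ, P = ∏ p ∈ T, p := ⟨_, rfl⟩
  have hP0 : 0 < P := by rw [hP]; exact Finset.prod_pos (fun p hp => (hT p hp).pos)
  have hP0' : (0 : ℝ) < (P : ℝ) := by exact_mod_cast hP0
  have hPr : ∏ p ∈ T, (p : ℝ) = (P : ℝ) := by rw [hP]; push_cast; rfl
  rw [← hP] at hcard
  rw [hPr]
  obtain ⟨z, hz⟩ : ∃ z : ℝ, z = ((M / P : ℕ) : ℝ) * A.card / d - (M : ℝ) * A.card / (d * P) := ⟨_, rfl⟩
  have hA0 : (0 : ℝ) ≤ (A.card : ℝ) := Nat.cast_nonneg _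
  have hGd : Fintype.card (ZMod d)ˣ ≤ d := by
    rw [ZMod.card_units_eq_totient]
    exact Nat.totient_le d
  have hAd : (A.card : ℝ) ≤ d := by
    exact_mod_cast (Finset.card_le_univ A).trans hGd
  have hzb : |z| ≤ A.card / d := by
    have e : z = (((M / P : ℕ) : ℝ) - (M : ℝ) / P) * (A.card / d) := by
      rw [hz]
      field_simp
    have h1 : ((M / P : ℕ) : ℝ) ≤ (M : ℝ) / P := Nat.cast_div_le
    have h2 : (M : ℝ) / P ≤ ((M / P : ℕ) : ℝ) + 1 := by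
      rw [div_le_iff₀ hP0']
      have h3 : M < P * (M / P + 1) := Nat.lt_mul_div_succ M hP0
      rw [mul_comm] at h3
      exact_mod_cast h3.le
    rw [e, abs_mul, abs_of_nonneg (div_nonneg hA0 hd0.le)]
    have h4 : |((M / P : ℕ) : ℝ) - (M : ℝ) / P| ≤ 1 := by
      rw [abs_le]
      constructor <;> linarith
    calc |((M / P : ℕ) : ℝ) - (M : ℝ) / P| * (A.card / d) ≤ 1 * (A.card / d) :=
          mul_le_mul_of_nonneg_right h4 (div_nonneg hA0 hd0.le)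
      _ = A.card / d := one_mul _
  have hz2 : z ^ 2 ≤ (A.card / d : ℝ) ^ 2 := by
    rw [← sq_abs]
    exact pow_le_pow_left₀ (abs_nonneg _) hzb 2
  have hBB := C2b_BB d
  have hBB2 : 1 ≤ BB d ^ 2 := one_le_pow₀ hBB
  have hterm : ∀ b : (ZMod d)ˣ,
      (((HT A M T b).card : ℝ) - (M : ℝ) * A.card / (d * P)) ^ 2 ≤
      2 * (((HT A (M / P) ∅ (u * b)).card : ℝ) - ((M / P : ℕ) : ℝ) * A.card / d) ^ 2 +
        2 * (A.card / d : ℝ) ^ 2 := by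
    intro b
    rw [hcard b]
    have e : ((HT A (M / P) ∅ (u * b)).card : ℝ) - (M : ℝ) * A.card / (d * P) =
        (((HT A (M / P) ∅ (u * b)).card : ℝ) - ((M / P : ℕ) : ℝ) * A.card / d) + z := by
      rw [hz]; ring
    rw [e]
    have h5 := add_sq_le (a := ((HT A (M / P) ∅ (u * b)).card : ℝ) - ((M / P : ℕ) : ℝ) * A.card / d)
      (b := z)
    linarith
  have hsum := variance d A (M / P)
  have hre : ∑ b : (ZMod d)ˣ,
      (((HT A (M / P) ∅ (u * b)).card : ℝ) - ((M / P : ℕ) : ℝ) * A.card / d) ^ 2 =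
      ∑ b : (ZMod d)ˣ, (((HT A (M / P) ∅ b).card : ℝ) - ((M / P : ℕ) : ℝ) * A.card / d) ^ 2 :=
    Equiv.sum_comp (Equiv.mulLeft u)
      (fun b => (((HT A (M / P) ∅ b).card : ℝ) - ((M / P : ℕ) : ℝ) * A.card / d) ^ 2)
  have hcst : ∑ _b : (ZMod d)ˣ, (A.card / d : ℝ) ^ 2 ≤ A.card * (BB d) ^ 2 := by
    rw [Finset.sum_const, Finset.card_univ, nsmul_eq_mul]
    have h6 : ((Fintype.card (ZMod d)ˣ : ℕ) : ℝ) ≤ d := by exact_mod_cast hGd
    calc ((Fintype.card (ZMod d)ˣ : ℕ) : ℝ) * (A.card / d : ℝ) ^ 2 ≤ d * (A.card / d : ℝ) ^ 2 :=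
          mul_le_mul_of_nonneg_right h6 (sq_nonneg _)
      _ = A.card * (A.card / d) := by field_simp
      _ ≤ A.card * 1 := by
          refine mul_le_mul_of_nonneg_left ?_ hA0
          rw [div_le_one hd0]
          exact hAd
      _ ≤ A.card * (BB d) ^ 2 := mul_le_mul_of_nonneg_left hBB2 hA0
  calc ∑ b : (ZMod d)ˣ, (((HT A M T b).card : ℝ) - (M : ℝ) * A.card / (d * P)) ^ 2
      ≤ ∑ b : (ZMod d)ˣ, (2 * (((HT A (M / P) ∅ (u * b)).card : ℝ) -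
          ((M / P : ℕ) : ℝ) * A.card / d) ^ 2 + 2 * (A.card / d : ℝ) ^ 2) :=
        Finset.sum_le_sum fun b _ => hterm b
    _ = 2 * ∑ b : (ZMod d)ˣ, (((HT A (M / P) ∅ b).card : ℝ) - ((M / P : ℕ) : ℝ) * A.card / d) ^ 2 +
        2 * ∑ _b : (ZMod d)ˣ, (A.card / d : ℝ) ^ 2 := by
        rw [Finset.sum_add_distrib, ← Finset.mul_sum, ← Finset.mul_sum, hre]
    _ ≤ 4 * A.card * (BB d) ^ 2 := by linarith

end Pool.Agent.Lib.MP_42948a_nt.AC
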