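import Pool.Agent.Lib.MP_42948a_nt.AC.C2b

/-!
# Few classes are not covered (job C3)

If `M = 0` or `A = ∅` the left side is `0`. Otherwise put `X = M #A / d > 0`, `ρ = X / (8 z^(K+2))`, `g p = if p ∣ d then 0 else 1/p`.
Let `b ∈ uncov z M A`. Claim: there is `T ⊆ PP z` with `∏ p ∈ T, p ≤ z ^ K`, no `p ∈ T` dividing `d`, and
`ρ < |#HT A M T b - M #A / (d ∏ p)|`. Otherwise `SieveProp K` (as in `OA/EI.lean`, `exists_rough_coset`; weights `1` on the set
`HT A M ∅ b`, remainder bound `ρ`; if some `p ∈ T` divides `d` then `HT A M T b = ∅` as `m b = a` makes `m` a unit mod `d`, and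
`∏ g = 0`) gives at least `X/(4 z^2) - z^K ρ = X/(8 z^2) > 0` rough elements `m` of `HT A M ∅ b`, contradicting `b ∈ uncov`. Hence
`#uncov ρ^2 ≤ ∑_{T} ∑_b (#HT A M T b - ...)^2 ≤ (number of T) 4 #A (BB d)^2`, the sum over the `T ⊆ PP z` with `∏ p ≤ z^K` and
coprime to `d`; there are at most `z^K` such `T` since `T ↦ ∏ p ∈ T, p ∈ [1, z^K]` is injective on sets of primes
(`(∏ p ∈ T, p).primeFactors = T`, `Nat.primeFactors_prod`). Multiply out: `ρ^2 = M^2 #A^2 / (64 z^(2K+4) d^2)`.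
-/

namespace Pool.Agent.Lib.MP_42948a_nt.AC

open Finset Pool.Agent.Lib.MP_42948a_nt.OA

/-- the sets of primes of the sieve -/
private theorem C3_sets (K z : ℕ) (Q : Finset ℕ → Prop) [DecidablePred Q] :
    (((PP z).powerset.filter (fun T => ∏ p ∈ T, p ≤ z ^ K ∧ Q T)).card : ℝ) ≤ (z : ℝ) ^ K := by
  have hprime : ∀ T ∈ (PP z).powerset.filter (fun T => ∏ p ∈ T, p ≤ z ^ K ∧ Q T),
      ∀ p ∈ T, p.Prime := by
    intro T hT p hp
    rw [mem_filter, mem_powerset] at hT
    have := hT.1 hp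
    unfold PP at this
    rw [mem_filter] at this
    exact this.2
  have h1 : ((PP z).powerset.filter (fun T => ∏ p ∈ T, p ≤ z ^ K ∧ Q T)).card ≤
      (Icc 1 (z ^ K)).card := by
    apply card_le_card_of_injOn (fun T => ∏ p ∈ T, p)
    · intro T hT
      rw [mem_coe] at hT
      have h2 := hprime T hT
      rw [mem_filter] at hT
      rw [mem_coe, mem_Icc]
      exact ⟨Nat.one_le_iff_ne_zero.2 (prod_ne_zero_iff.2 fun p hp => (h2 p hp).ne_zero), hT.2.1⟩
    · intro T hT T' hT' h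
      rw [mem_coe] at hT hT'
      have h2 := Nat.primeFactors_prod (hprime T hT)
      have h3 := Nat.primeFactors_prod (hprime T' hT')
      simp only at h
      rw [← h2, ← h3, h]
  rw [Nat.card_Icc, Nat.add_sub_cancel] at h1
  calc _ ≤ ((z ^ K : ℕ) : ℝ) := by exact_mod_cast h1
    _ = _ := by push_cast; ring

private theorem C3_claim (K : ℕ) (hK : SieveProp K) (z d M : ℕ) (hz : 2 ≤ z) [NeZero d]
    (A : Finset (ZMod d)ˣ) (hM : 0 < M) (hA : 0 < A.card) (b : (ZMod d)ˣ) (hb : b ∈ uncov z M A) :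
    ∃ T ⊆ PP z, (∏ p ∈ T, p ≤ z ^ K ∧ ∀ p ∈ T, ¬ p ∣ d) ∧
      (M : ℝ) * A.card / d / (8 * (z : ℝ) ^ (K + 2)) <
        |((HT A M T b).card : ℝ) - (M : ℝ) * A.card / (d * ∏ p ∈ T, (p : ℝ))| := by
  classical
  by_contra hcon
  push Not at hcon
  have hd0 : (0 : ℝ) < d := by exact_mod_cast Nat.pos_of_ne_zero (NeZero.ne d)
  have hz0 : (0 : ℝ) < z := by
    have : 0 < z := by omega
    exact_mod_cast this
  have hM0 : (0 : ℝ) < M := by exact_mod_cast hM
  have hA0 : (0 : ℝ) < A.card := by exact_mod_cast hA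
  set X : ℝ := (M : ℝ) * A.card / d with hX
  have hX0 : 0 < X := by positivity
  set g : ℕ → ℝ := fun p => if p ∣ d then 0 else 1 / p with hg
  have key := hK z hz (HT A M ∅ b) (fun _ => 1) g X (X / (8 * (z : ℝ) ^ (K + 2)))
    (fun _ _ => zero_le_one) ?_ hX0.le (by positivity) ?_
  · -- conclusion
    have hpos : 0 < ∑ n ∈ (HT A M ∅ b).filter (fun n => ∀ p ∈ PP z, ¬ p ∣ n), (1 : ℝ) := by
      refine lt_of_lt_of_le ?_ key
      have h1 : X / (4 * (z : ℝ) ^ 2) - (z : ℝ) ^ K * (X / (8 * (z : ℝ) ^ (K + 2))) =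
          X / (8 * (z : ℝ) ^ 2) := by
        rw [pow_add]
        field_simp
        norm_num
      rw [h1]
      positivity
    have hne : ((HT A M ∅ b).filter (fun n => ∀ p ∈ PP z, ¬ p ∣ n)).Nonempty := by
      by_contra hcon
      rw [not_nonempty_iff_eq_empty] at hcon
      rw [hcon, sum_empty] at hpos
      exact lt_irrefl _ hpos
    obtain ⟨n, hn⟩ := hne
    rw [mem_filter] at hn
    obtain ⟨hn1, hn2⟩ := hn
    unfold HT at hn1
    rw [mem_filter, mem_Icc] at hn1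
    obtain ⟨⟨hn3, hn4⟩, -, hn5⟩ := hn1
    unfold uncov at hb
    rw [mem_filter] at hb
    refine hb.2 ⟨n, ⟨hn3, fun p hp hpn => ?_⟩, hn4, hn5⟩
    by_contra hcon
    push Not at hcon
    refine hn2 p ?_ hpn
    unfold PP
    rw [mem_filter, mem_Icc]
    exact ⟨⟨hp.one_le, hcon⟩, hp⟩
  · -- densities
    intro p hp
    unfold PP at hp
    rw [mem_filter, mem_Icc] at hp
    have hp2 : (2 : ℝ) ≤ p := by exact_mod_cast hp.2.two_le
    have hp0 : (0 : ℝ) < p := by linarith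
    simp only [hg]
    split_ifs with h
    · refine ⟨le_refl _, by norm_num, by positivity⟩
    · refine ⟨by positivity, ?_, ?_⟩
      · rw [div_le_iff₀ hp0]; linarith
      · gcongr; norm_num
  · -- remainders
    intro T hT hTK
    have hTp : ∀ p ∈ T, p.Prime := by
      intro p hp
      have := hT hp
      unfold PP at this
      rw [mem_filter] at this
      exact this.2
    have hsum : ∑ n ∈ (HT A M ∅ b).filter (fun n => ∀ p ∈ T, p ∣ n), (1 : ℝ) =
        ((HT A M T b).card : ℝ) := by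
      rw [sum_const, nsmul_eq_mul, mul_one]
      congr 2
      ext n
      unfold HT
      simp only [mem_filter, mem_Icc, notMem_empty, false_implies, implies_true, true_and]
      tauto
    rw [hsum]
    by_cases hex : ∃ p ∈ T, p ∣ d
    · obtain ⟨p, hpT, hpd⟩ := hex
      have h1 : ∏ p ∈ T, g p = 0 := by
        apply prod_eq_zero hpT
        simp only [hg]
        rw [if_pos hpd]
      have h2 : HT A M T b = ∅ := by
        rw [eq_empty_iff_forall_notMem]
        intro n hn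
        unfold HT at hn
        rw [mem_filter, mem_Icc] at hn
        obtain ⟨-, hn1, a, ha, hn2⟩ := hn
        have hu : IsUnit (n : ZMod d) := by
          have h3 : (n : ZMod d) = ((a * b⁻¹ : (ZMod d)ˣ) : ZMod d) := by
            rw [Units.val_mul, ← hn2, mul_assoc, Units.mul_inv, mul_one]
          rw [h3]; exact Units.isUnit _
        rw [ZMod.isUnit_iff_coprime] at hu
        have := Nat.dvd_gcd (hn1 p hpT) hpd
        rw [hu] at this
        exact (hTp p hpT).one_lt.ne' (Nat.dvd_one.mp this)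
      rw [h1, h2]
      simp
      positivity
    · push Not at hex
      have h1 : ∏ p ∈ T, g p = 1 / ∏ p ∈ T, (p : ℝ) := by
        rw [one_div, ← prod_inv_distrib]
        apply prod_congr rfl
        intro p hp
        simp only [hg]
        rw [if_neg (hex p hp), one_div]
      have h2 := hcon T hT ⟨hTK, hex⟩
      rw [h1]
      have h3 : X * (1 / ∏ p ∈ T, (p : ℝ)) = (M : ℝ) * A.card / (d * ∏ p ∈ T, (p : ℝ)) := by
        rw [hX, div_mul_div_comm, mul_one]
      rw [h3]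
      exact h2

theorem cover (K : ℕ) (hK : SieveProp K) (z d M : ℕ) (hz : 2 ≤ z) [NeZero d] (A : Finset (ZMod d)ˣ) :
    ((uncov z M A).card : ℝ) * (M : ℝ) ^ 2 * A.card ≤ 256 * (z : ℝ) ^ (3 * K + 4) * ((d : ℝ) * BB d) ^ 2 := by
  classical
  rcases Nat.eq_zero_or_pos M with hM | hM
  · rw [hM]
    simp only [CharP.cast_eq_zero, ne_eq, OfNat.ofNat_ne_zero, not_false_eq_true, zero_pow,
      mul_zero, zero_mul]
    positivity
  rcases Nat.eq_zero_or_pos A.card with hA | hA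
  · rw [hA]
    simp only [CharP.cast_eq_zero, mul_zero]
    positivity
  have hd0 : (0 : ℝ) < d := by exact_mod_cast Nat.pos_of_ne_zero (NeZero.ne d)
  have hz0 : (0 : ℝ) < z := by
    have : 0 < z := by omega
    exact_mod_cast this
  have hM0 : (0 : ℝ) < M := by exact_mod_cast hM
  have hA0 : (0 : ℝ) < A.card := by exact_mod_cast hA
  set ρ : ℝ := (M : ℝ) * A.card / d / (8 * (z : ℝ) ^ (K + 2)) with hρ
  have hρ0 : 0 < ρ := by positivity
  set 𝒯 : Finset (Finset ℕ) :=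
    (PP z).powerset.filter (fun T => ∏ p ∈ T, p ≤ z ^ K ∧ ∀ p ∈ T, ¬ p ∣ d) with h𝒯
  set E : (ZMod d)ˣ → Finset ℕ → ℝ := fun b T =>
    (((HT A M T b).card : ℝ) - (M : ℝ) * A.card / (d * ∏ p ∈ T, (p : ℝ))) ^ 2 with hE
  have h1 : ∀ b ∈ uncov z M A, ρ ^ 2 ≤ ∑ T ∈ 𝒯, E b T := by
    intro b hb
    obtain ⟨T, hT1, hT2, hT3⟩ := C3_claim K hK z d M hz A hM hA b hb
    have hTm : T ∈ 𝒯 := by
      rw [h𝒯, mem_filter, mem_powerset]
      exact ⟨hT1, hT2⟩
    calc ρ ^ 2 ≤ |((HT A M T b).card : ℝ) - (M : ℝ) * A.card / (d * ∏ p ∈ T, (p : ℝ))| ^ 2 := by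
          gcongr
      _ = E b T := sq_abs _
      _ ≤ ∑ T ∈ 𝒯, E b T := single_le_sum (f := E b) (fun T _ => sq_nonneg _) hTm
  have h2 : ((uncov z M A).card : ℝ) * ρ ^ 2 ≤ (z : ℝ) ^ K * (4 * A.card * (BB d) ^ 2) := by
    calc ((uncov z M A).card : ℝ) * ρ ^ 2 = ∑ b ∈ uncov z M A, ρ ^ 2 := by
          rw [sum_const, nsmul_eq_mul]
      _ ≤ ∑ b ∈ uncov z M A, ∑ T ∈ 𝒯, E b T := sum_le_sum h1
      _ ≤ ∑ b : (ZMod d)ˣ, ∑ T ∈ 𝒯, E b T :=
          sum_le_sum_of_subset_of_nonneg (subset_univ _)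
            fun b _ _ => sum_nonneg fun T _ => sq_nonneg _
      _ = ∑ T ∈ 𝒯, ∑ b : (ZMod d)ˣ, E b T := sum_comm
      _ ≤ ∑ T ∈ 𝒯, (4 * A.card * (BB d) ^ 2) := by
          apply sum_le_sum
          intro T hT
          rw [h𝒯, mem_filter, mem_powerset] at hT
          refine variance_T d A M T (fun p hp => ?_) hT.2.2
          have := hT.1 hp
          unfold PP at this
          rw [mem_filter] at this
          exact this.2
      _ = (𝒯.card : ℝ) * (4 * A.card * (BB d) ^ 2) := by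
          rw [sum_const, nsmul_eq_mul]
      _ ≤ (z : ℝ) ^ K * (4 * A.card * (BB d) ^ 2) := by
          gcongr
          exact C3_sets K z _
  have h3 : ((uncov z M A).card : ℝ) * (M : ℝ) ^ 2 * A.card * (A.card : ℝ) =
      (((uncov z M A).card : ℝ) * ρ ^ 2) * (64 * (z : ℝ) ^ (2 * K + 4) * (d : ℝ) ^ 2) := by
    rw [hρ]
    have h4 : (z : ℝ) ^ (2 * K + 4) = ((z : ℝ) ^ (K + 2)) ^ 2 := by
      rw [← pow_mul]
      congr 1
      ring
    rw [h4]
    field_simp
    ring
  have h5 : ((uncov z M A).card : ℝ) * (M : ℝ) ^ 2 * A.card * (A.card : ℝ) ≤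
      256 * (z : ℝ) ^ (3 * K + 4) * ((d : ℝ) * BB d) ^ 2 * A.card := by
    rw [h3]
    calc _ ≤ ((z : ℝ) ^ K * (4 * A.card * (BB d) ^ 2)) *
          (64 * (z : ℝ) ^ (2 * K + 4) * (d : ℝ) ^ 2) := by gcongr
      _ = 256 * ((z : ℝ) ^ K * (z : ℝ) ^ (2 * K + 4)) * ((d : ℝ) * BB d) ^ 2 * A.card := by ring
      _ = _ := by
        rw [← pow_add]
        congr 4
        ring
  exact le_of_mul_le_mul_right h5 hA0

end Pool.Agent.Lib.MP_42948a_nt.AC
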