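import Pool.Agent.Lib.MP_42948a_nt.OA.Defs

/-!
# Almost all residue classes: definitions

`OA` is the library of the theorem `OddAlmostPrimes`: `Rough`, `PP`, `SieveProp`, `BB`, `cls`, `Hgen`, `primesOff`, `chi`, `rr`,
`SwT`, `LL`, `gg` come from there.
-/

namespace Pool.Agent.Lib.MP_42948a_nt.AC

open Finset Pool.Agent.Lib.MP_42948a_nt.OA

/-- the class of `m b` lies in `A` -/
def hit {d : ℕ} (A : Finset (ZMod d)ˣ) (b : (ZMod d)ˣ) (m : ℕ) : Prop :=
  ∃ a ∈ A, (m : ZMod d) * (b : ZMod d) = (a : ZMod d)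

open Classical in
/-- the `m ≤ M` divisible by all `p ∈ T` with `m b ∈ A` -/
noncomputable def HT {d : ℕ} (A : Finset (ZMod d)ˣ) (M : ℕ) (T : Finset ℕ) (b : (ZMod d)ˣ) : Finset ℕ :=
  (Icc 1 M).filter (fun m => (∀ p ∈ T, p ∣ m) ∧ hit A b m)

open Classical in
/-- the classes `b` for which no rough `x ≤ M` has `x b ∈ A` -/
noncomputable def uncov {d : ℕ} [NeZero d] (z M : ℕ) (A : Finset (ZMod d)ˣ) : Finset (ZMod d)ˣ :=
  univ.filter (fun b => ¬ ∃ x : ℕ, Rough z x ∧ x ≤ M ∧ hit A b x)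

/-- products of at most `n` elements of `U ∪ U⁻¹` -/
def Word {G : Type*} [Group G] (U : Set G) (n : ℕ) : Set G :=
  {x | ∃ l : List G, l.length ≤ n ∧ (∀ u ∈ l, u ∈ U ∨ u⁻¹ ∈ U) ∧ l.prod = x}

/-- the classes of the rough numbers `≤ Y`; `Hgen d z Y` is the subgroup generated by it (by `rfl`) -/
def smallU (d z Y : ℕ) : Set (ZMod d)ˣ := {c | ∃ u : ℕ, Rough z u ∧ u ≤ Y ∧ (u : ZMod d) = (c : ZMod d)}

theorem Hgen_eq (d z Y : ℕ) : Hgen d z Y = Subgroup.closure (smallU d z Y) := rfl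

open Classical in
/-- rough numbers `≤ M` coprime to `d` -/
noncomputable def RC (d z M : ℕ) : Finset ℕ := (Icc 1 M).filter (fun m => Rough z m ∧ m.Coprime d)

open Classical in
/-- rough numbers `≤ D` coprime to `d` with all prime factors `≤ w` -/
noncomputable def SS (d z w D : ℕ) : Finset ℕ :=
  (Icc 1 D).filter (fun s => Rough z s ∧ s.Coprime d ∧ ∀ p : ℕ, p.Prime → p ∣ s → p ≤ w)

/-- the Liouville function -/
noncomputable def lio (n : ℕ) : ℝ := (-1 : ℝ) ^ (ArithmeticFunction.cardFactors n)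

/-- real characters modulo `d` as functions of natural numbers -/
structure RealChar (d : ℕ) (χ : ℕ → ℝ) : Prop where
  mul : ∀ m n, χ (m * n) = χ m * χ n
  one : χ 1 = 1
  val : ∀ n, χ n = 0 ∨ χ n = 1 ∨ χ n = -1
  zero : ∀ n : ℕ, ¬ n.Coprime d → χ n = 0
  ne : ∀ n : ℕ, n.Coprime d → χ n ≠ 0

open Classical in
/-- the rough `n ≤ X` coprime to `d` at which `χ` is not the Liouville function -/
noncomputable def Nm (d z X : ℕ) (χ : ℕ → ℝ) : Finset ℕ := (RC d z X).filter (fun n => χ n ≠ lio n)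

open Classical in
/-- primes `p ∈ (D, 2D]`, `z < p ≤ X`, with `χ p = 1` -/
noncomputable def PD (d z X : ℕ) (χ : ℕ → ℝ) (D : ℕ) : Finset ℕ :=
  (Ioc D (2 * D)).filter (fun p => p.Prime ∧ z < p ∧ p ≤ X ∧ χ p = 1)

theorem lio_mul {m n : ℕ} (hm : 0 < m) (hn : 0 < n) : lio (m * n) = lio m * lio n := by
  unfold lio
  rw [ArithmeticFunction.cardFactors_mul hm.ne' hn.ne', pow_add]

theorem lio_val (n : ℕ) : lio n = 1 ∨ lio n = -1 := neg_one_pow_eq_or ℝ _

theorem lio_prime {p : ℕ} (hp : p.Prime) : lio p = -1 := by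
  unfold lio
  rw [ArithmeticFunction.cardFactors_apply_prime hp, pow_one]

end Pool.Agent.Lib.MP_42948a_nt.AC
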