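import Pool.Agent.Lib.MP_42948a_nt.AC.N0
import Pool.Agent.Lib.MP_42948a_nt.OA.EJ

/-!
# Few disagreements (job F0)

`n ∈ Nm` is coprime to `d`, so its class is a unit `b`; if `b ∉ B` then `lio n = chi ψ n`, contradicting `n ∈ Nm`. So `Nm` is contained
in the set of `class_count`.
-/

namespace Pool.Agent.Lib.MP_42948a_nt.AC

open Finset Pool.Agent.Lib.MP_42948a_nt.OA

open Classical in
private theorem F0_class (d X : ℕ) [NeZero d] (b : (ZMod d)ˣ) :
    ((Icc 1 X).filter (fun n : ℕ => (n : ZMod d) = (b : ZMod d))).card ≤ X / d + 1 := by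
  rw [← Finset.card_range (X / d + 1)]
  refine Finset.card_le_card_of_injOn (fun n => n / d) ?_ ?_
  · intro n hn
    rw [Finset.mem_coe, mem_filter, mem_Icc] at hn
    rw [Finset.mem_coe, Finset.mem_range]
    exact Nat.lt_succ_of_le (Nat.div_le_div_right hn.1.2)
  · intro n hn m hm h
    rw [Finset.mem_coe, mem_filter] at hn hm
    have h1 : n % d = m % d :=
      (ZMod.natCast_eq_natCast_iff' n m d).1 (hn.2.trans hm.2.symm)
    have h2 : n / d = m / d := h
    rw [← Nat.div_add_mod n d, ← Nat.div_add_mod m d, h1, h2]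

open Classical in
/-- the number of integers in given classes -/
theorem F0_count (d X : ℕ) [NeZero d] (B : Finset (ZMod d)ˣ) :
    ((Icc 1 X).filter (fun n : ℕ => ∃ b ∈ B, (n : ZMod d) = (b : ZMod d))).card ≤
      B.card * (X / d + 1) := by
  have hsub : (Icc 1 X).filter (fun n : ℕ => ∃ b ∈ B, (n : ZMod d) = (b : ZMod d)) ⊆
      B.biUnion (fun b => (Icc 1 X).filter (fun n : ℕ => (n : ZMod d) = (b : ZMod d))) := by
    intro n hn
    rw [mem_filter] at hn
    obtain ⟨hX, b, hb, h⟩ := hn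
    rw [Finset.mem_biUnion]
    exact ⟨b, hb, mem_filter.2 ⟨hX, h⟩⟩
  refine (Finset.card_le_card hsub).trans ?_
  exact Finset.card_biUnion_le_card_mul B _ _ fun b _ => F0_class d X b

theorem card_Nm (d z X : ℕ) [NeZero d] (ψ : (ZMod d)ˣ →* ℤˣ) (B : Finset (ZMod d)ˣ)
    (hB : ∀ b ∉ B, ∀ n : ℕ, Rough z n → n ≤ X → (n : ZMod d) = (b : ZMod d) → lio n = chi ψ n) :
    (Nm d z X (chi ψ)).card ≤ B.card * (X / d + 1) := by
  classical
  refine le_trans (Finset.card_le_card ?_) (F0_count d X B)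
  intro n hn
  unfold Nm RC at hn
  rw [mem_filter, mem_filter] at hn
  obtain ⟨⟨hX, hr, hc⟩, hne⟩ := hn
  rw [mem_filter]
  refine ⟨hX, ?_⟩
  have hcoe : (n : ZMod d) = ((ZMod.unitOfCoprime n hc : (ZMod d)ˣ) : ZMod d) :=
    (ZMod.coe_unitOfCoprime n hc).symm
  refine ⟨ZMod.unitOfCoprime n hc, ?_, hcoe⟩
  by_contra hb
  exact hne (hB _ hb n hr (Finset.mem_Icc.1 hX).2 hcoe).symm

end Pool.Agent.Lib.MP_42948a_nt.AC
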