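import Pool.Agent.Lib.MP_42948a_nt.AC.Defs

/-!
# No disagreement at small numbers (job F1)

Suppose `u` is rough, coprime to `d`, `u ≤ w`, `χ u ≠ lio u`. For `m ∈ RC d z (X / w)` one has `u m ≤ X`, `u m ∈ RC d z X`. If
`m ∉ Nm` then `χ m = lio m ≠ 0`, so `χ (u m) = χ u χ m ≠ lio u lio m = lio (u m)`, `u m ∈ Nm`. So `RC d z (X / w)` is contained in
the union of `Nm` and the preimage of `Nm` under the injection `m ↦ u m`, and has at most `2 #Nm` elements.
-/

namespace Pool.Agent.Lib.MP_42948a_nt.AC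

open Finset Pool.Agent.Lib.MP_42948a_nt.OA

theorem small_agree (d z X w : ℕ) (χ : ℕ → ℝ) (hχ : RealChar d χ) (hw : 0 < w)
    (hc : 2 * (Nm d z X χ).card < (RC d z (X / w)).card) (u : ℕ) (hu : Rough z u) (huw : u ≤ w)
    (hud : u.Coprime d) : χ u = lio u := by
  classical
  by_contra hne
  have hu0 : 0 < u := hu.1
  have hmem : ∀ m ∈ RC d z (X / w), m ∈ RC d z X ∧ u * m ∈ RC d z X := by
    intro m hm
    simp only [RC, Finset.mem_filter, Finset.mem_Icc] at hm ⊢
    obtain ⟨⟨h1, h2⟩, h3, h4⟩ := hm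
    have h5 : m ≤ X := h2.trans (Nat.div_le_self X w)
    have h6 : u * m ≤ X := by
      calc u * m ≤ w * (X / w) := Nat.mul_le_mul huw h2
        _ ≤ X := Nat.mul_div_le X w
    exact ⟨⟨⟨h1, h5⟩, h3, h4⟩, ⟨⟨Nat.mul_pos hu0 h1, h6⟩, hu.mul h3, Nat.Coprime.mul_left hud h4⟩⟩
  have hsub : RC d z (X / w) ⊆ Nm d z X χ ∪ (RC d z (X / w)).filter (fun m => u * m ∈ Nm d z X χ) := by
    intro m hm
    obtain ⟨h1, h2⟩ := hmem m hm
    by_cases hmN : m ∈ Nm d z X χ
    · exact Finset.mem_union_left _ hmN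
    · refine Finset.mem_union_right _ (Finset.mem_filter.2 ⟨hm, ?_⟩)
      have h3 : χ m = lio m := by
        by_contra h4
        exact hmN (Finset.mem_filter.2 ⟨h1, h4⟩)
      refine Finset.mem_filter.2 ⟨h2, ?_⟩
      have hm0 : 0 < m := by
        simp only [RC, Finset.mem_filter, Finset.mem_Icc] at h1
        exact h1.1.1
      rw [hχ.mul, lio_mul hu0 hm0, h3]
      intro h5
      have h6 : lio m ≠ 0 := by
        rcases lio_val m with h | h <;> rw [h] <;> norm_num
      exact hne (mul_right_cancel₀ h6 h5)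
  have hcard : ((RC d z (X / w)).filter (fun m => u * m ∈ Nm d z X χ)).card ≤ (Nm d z X χ).card := by
    refine Finset.card_le_card_of_injOn (fun m => u * m) ?_ ?_
    · intro m hm
      exact (Finset.mem_filter.1 hm).2
    · intro a _ b _ hab
      exact Nat.eq_of_mul_eq_mul_left hu0 hab
  have h1 := Finset.card_le_card hsub
  have h2 := Finset.card_union_le (Nm d z X χ)
    ((RC d z (X / w)).filter (fun m => u * m ∈ Nm d z X χ))
  omega

end Pool.Agent.Lib.MP_42948a_nt.AC
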