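import Pool.Agent.Lib.MP_42948a_nt.AC.Defs

/-!
# Few split primes (job F2)

Put `M = X / (2 D)` (floor), `N = #(Nm d z X χ)`, `N1 = #(RC d z M ∩ Nm)`. (i) For `m ∈ RC d z M ∩ Nm` and `s ∈ SS d z w D` one has
`χ s = lio s` (`hF1` for the prime factors of `s`, complete multiplicativity: induction on `s`, e.g. `Nat.recOnMul`-like, or strong
induction dividing by the least prime factor; a rough number `≤ w` prime is covered by `hF1`), so `χ (s m) ≠ lio (s m)` and
`s m ∈ Nm` (`s m ≤ D M ≤ X`); the map `(m, s) ↦ s m` takes each value at most `T` times (divisors of the value), so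
`N1 * #SS ≤ T * N`. With `h`: `2 N1 #SS ≤ 2 T N ≤ #RC(M) #SS`, and `#SS ≥ 1` (`1 ∈ SS`), so `2 N1 ≤ #RC(M)`, and
`#(RC(M) \ Nm) ≥ #RC(M) / 2`. (ii) For `p ∈ PD` and `m ∈ RC(M) \ Nm`: `p` is coprime to `d` (`χ p = 1 ≠ 0`, `hχ.zero`), rough,
`χ (p m) = χ m = lio m ≠ - lio m = lio (p m)`, and `p m ≤ 2 D M ≤ X`, so `p m ∈ Nm`; again each value is taken at most `T` times:
`#PD * #(RC(M) \ Nm) ≤ T N`. Multiply by `2`.
-/

namespace Pool.Agent.Lib.MP_42948a_nt.AC

open Finset Pool.Agent.Lib.MP_42948a_nt.OA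

private theorem F2_count (A B C : Finset ℕ) (T : ℕ) (hA : ∀ a ∈ A, 0 < a)
    (hC : ∀ n ∈ C, 0 < n ∧ n.divisors.card ≤ T) (h : ∀ a ∈ A, ∀ b ∈ B, a * b ∈ C) :
    A.card * B.card ≤ T * C.card := by
  rw [← card_product]
  refine card_le_mul_card_image_of_maps_to (f := fun q : ℕ × ℕ => q.1 * q.2) ?_ T ?_
  · intro q hq
    rw [mem_product] at hq
    exact h _ hq.1 _ hq.2
  · intro n hn
    refine le_trans ?_ (hC n hn).2
    refine card_le_card_of_injOn Prod.fst ?_ ?_
    · intro q hq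
      rw [mem_coe, mem_filter] at hq
      rw [mem_coe, Nat.mem_divisors]
      exact ⟨⟨q.2, hq.2.symm⟩, (hC n hn).1.ne'⟩
    · intro q hq q' hq' he
      rw [mem_coe, mem_filter, mem_product] at hq hq'
      have h1 : q.1 * q.2 = q'.1 * q'.2 := hq.2.trans hq'.2.symm
      rw [← he] at h1
      exact Prod.ext he (Nat.eq_of_mul_eq_mul_left (hA _ hq.1.1) h1)

private theorem F2_chi (d z w : ℕ) (χ : ℕ → ℝ) (hχ : RealChar d χ)
    (hF1 : ∀ u : ℕ, Rough z u → u ≤ w → u.Coprime d → χ u = lio u) (s : ℕ) :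
    Rough z s → s.Coprime d → (∀ p : ℕ, p.Prime → p ∣ s → p ≤ w) → χ s = lio s := by
  induction s using induction_on_primes with
  | zero => exact fun h => absurd h.1 (lt_irrefl _)
  | one =>
    intro _ _ _
    rw [hχ.one]
    unfold lio
    rw [ArithmeticFunction.cardFactors_one, pow_zero]
  | prime_mul p a hp ih =>
    intro h1 h2 h3
    have ha : 0 < a := Nat.pos_of_mul_pos_left h1.1
    rw [hχ.mul, lio_mul hp.pos ha,
      hF1 p (h1.of_dvd (Dvd.intro _ rfl)) (h3 p hp (Dvd.intro _ rfl)) (Nat.Coprime.coprime_mul_right h2),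
      ih (h1.of_dvd (Dvd.intro_left _ rfl)) (Nat.Coprime.coprime_mul_left h2)
        (fun q hq hqa => h3 q hq (hqa.mul_left _))]

private theorem F2_lio_ne (n : ℕ) : lio n ≠ 0 := by
  rcases lio_val n with h | h <;> rw [h] <;> norm_num

theorem split_count (d z X w D T : ℕ) (χ : ℕ → ℝ) (hχ : RealChar d χ)
    (hF1 : ∀ u : ℕ, Rough z u → u ≤ w → u.Coprime d → χ u = lio u)
    (hT : ∀ n : ℕ, Rough z n → n ≤ X → n.divisors.card ≤ T) (hD : 1 ≤ D)
    (h : 2 * T * (Nm d z X χ).card ≤ (RC d z (X / (2 * D))).card * (SS d z w D).card) :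
    (PD d z X χ D).card * (RC d z (X / (2 * D))).card ≤ 2 * T * (Nm d z X χ).card := by
  classical
  set M : ℕ := X / (2 * D) with hM
  set R : Finset ℕ := RC d z M with hR
  set N : ℕ := (Nm d z X χ).card with hN
  have hMX : 2 * D * M ≤ X := Nat.mul_div_le X (2 * D)
  have hR1 : ∀ m ∈ R, 1 ≤ m ∧ m ≤ M ∧ Rough z m ∧ m.Coprime d := by
    intro m hm
    rw [hR, RC, mem_filter, mem_Icc] at hm
    exact ⟨hm.1.1, hm.1.2, hm.2.1, hm.2.2⟩
  have hNm : ∀ n : ℕ, Rough z n → n ≤ X → n.Coprime d → χ n ≠ lio n → n ∈ Nm d z X χ := by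
    intro n h1 h2 h3 h4
    rw [Nm, mem_filter, RC, mem_filter, mem_Icc]
    exact ⟨⟨⟨h1.1, h2⟩, h1, h3⟩, h4⟩
  have hNm' : ∀ n ∈ Nm d z X χ, 0 < n ∧ n.divisors.card ≤ T := by
    intro n hn
    rw [Nm, mem_filter, RC, mem_filter, mem_Icc] at hn
    exact ⟨hn.1.1.1, hT n hn.1.2.1 hn.1.1.2⟩
  -- (i)
  have hi : (R.filter fun m => ¬ χ m = lio m).card * (SS d z w D).card ≤ T * N := by
    refine F2_count _ _ _ T ?_ hNm' ?_
    · intro m hm
      exact (hR1 m (mem_filter.mp hm).1).1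
    · intro m hm s hs
      obtain ⟨hm1, hm2⟩ := mem_filter.mp hm
      obtain ⟨g1, g2, g3, g4⟩ := hR1 m hm1
      rw [SS, mem_filter, mem_Icc] at hs
      obtain ⟨⟨e1, e2⟩, e3, e4, e5⟩ := hs
      refine hNm _ (g3.mul e3) ?_ (Nat.Coprime.mul_left g4 e4) ?_
      · calc m * s ≤ M * D := Nat.mul_le_mul g2 e2
          _ ≤ 2 * D * M := by nlinarith
          _ ≤ X := hMX
      · rw [hχ.mul, lio_mul g1 e1, F2_chi d z w χ hχ hF1 s e3 e4 e5]
        intro he
        exact hm2 (mul_right_cancel₀ (F2_lio_ne s) he)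
  have hSS : 1 ≤ (SS d z w D).card := by
    rw [Nat.one_le_iff_ne_zero, ← Nat.pos_iff_ne_zero, card_pos]
    refine ⟨1, ?_⟩
    rw [SS, mem_filter, mem_Icc]
    refine ⟨⟨le_rfl, hD⟩, Rough.one z, Nat.coprime_one_left d, ?_⟩
    intro p hp hp1
    exact absurd (Nat.dvd_one.mp hp1) hp.one_lt.ne'
  have hbad : 2 * (R.filter fun m => ¬ χ m = lio m).card ≤ R.card := by
    refine Nat.le_of_mul_le_mul_right ?_ hSS
    calc 2 * (R.filter fun m => ¬ χ m = lio m).card * (SS d z w D).card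
        = 2 * ((R.filter fun m => ¬ χ m = lio m).card * (SS d z w D).card) := by ring
      _ ≤ 2 * (T * N) := Nat.mul_le_mul_left 2 hi
      _ = 2 * T * N := by ring
      _ ≤ R.card * (SS d z w D).card := h
  have hsplit := card_filter_add_card_filter_not (s := R) (fun m => χ m = lio m)
  have hgood : R.card ≤ 2 * (R.filter fun m => χ m = lio m).card := by omega
  -- (ii)
  have hii : (PD d z X χ D).card * (R.filter fun m => χ m = lio m).card ≤ T * N := by
    refine F2_count _ _ _ T ?_ hNm' ?_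
    · intro p hp
      rw [PD, mem_filter] at hp
      exact hp.2.1.pos
    · intro p hp m hm
      obtain ⟨hm1, hm2⟩ := mem_filter.mp hm
      obtain ⟨g1, g2, g3, g4⟩ := hR1 m hm1
      rw [PD, mem_filter, mem_Ioc] at hp
      obtain ⟨⟨e1, e2⟩, e3, e4, e5, e6⟩ := hp
      have hpr : Rough z p := by
        refine ⟨e3.pos, fun q hq hqp => ?_⟩
        rw [(Nat.prime_dvd_prime_iff_eq hq e3).mp hqp]
        exact e4
      have hpc : p.Coprime d := by
        by_contra hc
        rw [hχ.zero p hc] at e6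
        exact zero_ne_one e6
      refine hNm _ (hpr.mul g3) ?_ (Nat.Coprime.mul_left hpc g4) ?_
      · calc p * m ≤ 2 * D * M := Nat.mul_le_mul e2 g2
          _ ≤ X := hMX
      · rw [hχ.mul, lio_mul e3.pos g1, e6, hm2, lio_prime e3, one_mul, neg_one_mul]
        intro he
        have := F2_lio_ne m
        apply this
        linarith
  calc (PD d z X χ D).card * R.card
      ≤ (PD d z X χ D).card * (2 * (R.filter fun m => χ m = lio m).card) :=
        Nat.mul_le_mul_left _ hgood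
    _ = 2 * ((PD d z X χ D).card * (R.filter fun m => χ m = lio m).card) := by ring
    _ ≤ 2 * (T * N) := Nat.mul_le_mul_left 2 hii
    _ = 2 * T * N := by ring

end Pool.Agent.Lib.MP_42948a_nt.AC
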