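import Pool.Agent.Lib.MP_42948a_nt.AC.Defs

/-!
# Split primes, the two extreme ranges (job F2b)

First: a prime `p ∈ PD` is rough (its only prime factor is `p > z`), coprime to `d` (as `χ p = 1 ≠ 0`), `p ≤ 2 D ≤ w`, so
`1 = χ p = lio p = -1`. Second: `p ∈ PD` is in `RC d z X` and `χ p = 1 ≠ -1 = lio p`, so `PD ⊆ Nm`.
-/

namespace Pool.Agent.Lib.MP_42948a_nt.AC

open Finset Pool.Agent.Lib.MP_42948a_nt.OA

private theorem F2b_rough {z p : ℕ} (hp : p.Prime) (hz : z < p) : Rough z p := by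
  refine ⟨hp.pos, fun q hq hqp => ?_⟩
  rw [(Nat.prime_dvd_prime_iff_eq hq hp).1 hqp]
  exact hz

private theorem F2b_coprime {d : ℕ} {χ : ℕ → ℝ} (hχ : RealChar d χ) {p : ℕ} (h : χ p = 1) :
    p.Coprime d := by
  by_contra hc
  have := hχ.zero p hc
  rw [h] at this
  exact one_ne_zero this

theorem split_small (d z X w D : ℕ) (χ : ℕ → ℝ) (hχ : RealChar d χ)
    (hF1 : ∀ u : ℕ, Rough z u → u ≤ w → u.Coprime d → χ u = lio u) (hD : 2 * D ≤ w) :
    PD d z X χ D = ∅ := by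
  classical
  rw [Finset.eq_empty_iff_forall_notMem]
  intro p hp
  unfold PD at hp
  rw [mem_filter, mem_Ioc] at hp
  obtain ⟨⟨_, h2⟩, hpp, hz, _, h1⟩ := hp
  have h := hF1 p (F2b_rough hpp hz) (h2.trans hD) (F2b_coprime hχ h1)
  rw [h1, lio_prime hpp] at h
  norm_num at h

theorem split_le (d z X D : ℕ) (χ : ℕ → ℝ) (hχ : RealChar d χ) :
    (PD d z X χ D).card ≤ (Nm d z X χ).card := by
  classical
  refine Finset.card_le_card ?_
  intro p hp
  unfold PD at hp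
  rw [mem_filter, mem_Ioc] at hp
  obtain ⟨_, hpp, hz, hX, h1⟩ := hp
  unfold Nm RC
  rw [mem_filter, mem_filter, mem_Icc]
  refine ⟨⟨⟨hpp.one_le, hX⟩, F2b_rough hpp hz, F2b_coprime hχ h1⟩, ?_⟩
  rw [h1, lio_prime hpp]
  norm_num

end Pool.Agent.Lib.MP_42948a_nt.AC
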