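import Pool.Agent.Lib.MP_42948a_nt.AC.F3a
import Pool.Agent.Lib.MP_42948a_nt.OA.RH
import Pool.Agent.Lib.MP_42948a_nt.OA.RA

/-!
# Upper bound for the sieved sum (job F3)

All `n` in the sum are rough: a prime factor `p ≤ z` would be in `PP z`. Split the sum. (a) `n` with a prime factor `p`, `χ p = 1`
(then `z < p`): `0 ≤ rr χ n ≤ n.divisors.card ≤ T` (each `χ a ≤ 1`), `max 0 (1 - n/X) ≤ 1`; their number is bounded by
`split_multiples`. (b) The others: every prime factor `p` has `χ p = 0`, and then `p ∣ d` (otherwise `p` is coprime to `d` and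
`hχ.ne`), or `χ p = -1`; by `RH_shape` `rr χ n = 0` or `rr χ n = 1` and `n = b^2 e` with `e ∣ d`; the number of such `n ≤ X` is at
most `τ(d) √X` (as in the proof of `rough_upper` in `OA/RH.lean`, which may be copied: there the hypothesis on `χ` is used only to get
this alternative for the prime factors).
-/

namespace Pool.Agent.Lib.MP_42948a_nt.AC

open Finset Pool.Agent.Lib.MP_42948a_nt.OA

private theorem F3_rr_le (χ : ℕ → ℝ) (hv : ∀ n, χ n = 0 ∨ χ n = 1 ∨ χ n = -1) (n : ℕ) :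
    rr χ n ≤ (n.divisors.card : ℝ) := by
  unfold rr
  calc ∑ a ∈ n.divisors, χ a ≤ ∑ _a ∈ n.divisors, (1 : ℝ) := by
        apply sum_le_sum
        intro a _
        rcases hv a with h | h | h <;> rw [h] <;> norm_num
    _ = (n.divisors.card : ℝ) := by rw [sum_const, nsmul_eq_mul, mul_one]

private theorem F3_max (X n : ℕ) : max 0 (1 - (n : ℝ) / X) ≤ 1 := by
  apply max_le zero_le_one
  have : (0 : ℝ) ≤ (n : ℝ) / X := by positivity
  linarith

open Classical in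
private theorem F3_nonsplit (d : ℕ) (hd : 0 < d) (z X : ℕ) (χ : ℕ → ℝ) (hχ : RealChar d χ) :
    ∑ n ∈ ((Icc 1 X).filter (fun n => ∀ p ∈ PP z, ¬ p ∣ n)).filter
      (fun n => ¬ ∃ p : ℕ, p.Prime ∧ z < p ∧ p ∣ n ∧ χ p = 1), rr χ n * max 0 (1 - (n : ℝ) / X) ≤
      (d.divisors.card : ℝ) * √(X : ℝ) := by
  have hprime : ∀ n ∈ ((Icc 1 X).filter (fun n => ∀ p ∈ PP z, ¬ p ∣ n)).filter
      (fun n => ¬ ∃ p : ℕ, p.Prime ∧ z < p ∧ p ∣ n ∧ χ p = 1),
      ∀ p : ℕ, p.Prime → p ∣ n → (p ∣ d ∧ χ p = 0) ∨ χ p = -1 := by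
    intro n hn p hp hpn
    rw [mem_filter, mem_filter, mem_Icc] at hn
    obtain ⟨⟨hn1, hn2⟩, hn3⟩ := hn
    have hpz : z < p := by
      by_contra hle
      exact hn2 p (by unfold PP; rw [mem_filter, mem_Icc]; exact ⟨⟨hp.one_lt.le, by omega⟩, hp⟩) hpn
    by_cases hpd : p ∣ d
    · left
      exact ⟨hpd, hχ.zero p (fun hc => (Nat.Prime.coprime_iff_not_dvd hp).1 hc hpd)⟩
    · right
      have h0 := hχ.ne p ((Nat.Prime.coprime_iff_not_dvd hp).2 hpd)
      rcases hχ.val p with h | h | h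
      · exact absurd h h0
      · exact absurd ⟨p, hp, hpz, hpn, h⟩ hn3
      · exact h
  set S := ((Icc 1 X).filter (fun n => ∀ p ∈ PP z, ¬ p ∣ n)).filter
      (fun n => ¬ ∃ p : ℕ, p.Prime ∧ z < p ∧ p ∣ n ∧ χ p = 1) with hS
  have hshape : ∀ n ∈ S, rr χ n = 0 ∨ (rr χ n = 1 ∧ ∃ b e : ℕ, n = b ^ 2 * e ∧ e ∣ d) := by
    intro n hn
    have hn' := hn
    rw [hS, mem_filter, mem_filter, mem_Icc] at hn'
    exact RH_shape d χ hχ.mul hχ.one n (by omega) (hprime n hn)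
  have hle : ∑ n ∈ S, rr χ n * max 0 (1 - (n : ℝ) / X) ≤ ∑ n ∈ S, if rr χ n ≠ 0 then (1 : ℝ) else 0 := by
    apply sum_le_sum
    intro n hn
    rcases hshape n hn with h3 | ⟨h3, -⟩
    · rw [h3, zero_mul]
      simp
    · rw [h3, one_mul, if_pos one_ne_zero]
      exact F3_max X n
  refine hle.trans ?_
  rw [← sum_filter, sum_const, nsmul_eq_mul, mul_one]
  have hsub : S.filter (fun n => rr χ n ≠ 0) ⊆
      (d.divisors ×ˢ Icc 1 (Nat.sqrt X)).image (fun q : ℕ × ℕ => q.2 ^ 2 * q.1) := by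
    intro n hn
    rw [mem_filter] at hn
    have hn1 := hn.1
    rw [hS, mem_filter, mem_filter, mem_Icc] at hn1
    rcases hshape n hn.1 with h3 | ⟨-, b, e, he, hed⟩
    · exact absurd h3 hn.2
    · have hb : 0 < b := by
        rcases Nat.eq_zero_or_pos b with rfl | h
        · rw [he] at hn1
          simp at hn1
        · exact h
      have he0 : 0 < e := Nat.pos_of_dvd_of_pos hed hd
      rw [mem_image]
      refine ⟨(e, b), ?_, he.symm⟩
      rw [mem_product, Nat.mem_divisors, mem_Icc]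
      refine ⟨⟨hed, hd.ne'⟩, hb, ?_⟩
      simp only
      rw [Nat.le_sqrt']
      calc b ^ 2 ≤ b ^ 2 * e := Nat.le_mul_of_pos_right _ he0
        _ = n := he.symm
        _ ≤ X := hn1.1.1.2
  have hcard : (S.filter (fun n => rr χ n ≠ 0)).card ≤ d.divisors.card * Nat.sqrt X := by
    refine (card_le_card hsub).trans (card_image_le.trans ?_)
    rw [card_product, Nat.card_Icc]
    exact le_of_eq (by simp)
  calc ((S.filter (fun n => rr χ n ≠ 0)).card : ℝ) ≤ ((d.divisors.card * Nat.sqrt X : ℕ) : ℝ) := by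
        exact_mod_cast hcard
    _ = (d.divisors.card : ℝ) * (Nat.sqrt X : ℝ) := by push_cast; ring
    _ ≤ (d.divisors.card : ℝ) * √(X : ℝ) :=
        mul_le_mul_of_nonneg_left Real.nat_sqrt_le_real_sqrt (Nat.cast_nonneg _)

theorem upper_sum (d : ℕ) (hd : 0 < d) (z X T : ℕ) (χ : ℕ → ℝ) (hχ : RealChar d χ) (δ : ℝ) (hδ : 0 ≤ δ)
    (hP : ∀ D : ℕ, 1 ≤ D → ((PD d z X χ D).card : ℝ) ≤ δ * D)
    (hT : ∀ n : ℕ, Rough z n → n ≤ X → n.divisors.card ≤ T) :
    ∑ n ∈ (Icc 1 X).filter (fun n => ∀ p ∈ PP z, ¬ p ∣ n), rr χ n * max 0 (1 - (n : ℝ) / X) ≤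
      (d.divisors.card : ℝ) * √(X : ℝ) + T * (δ * X * (Nat.log 2 X + 1)) := by
  classical
  have hsp := split_multiples d z X χ δ hP
  rw [← sum_filter_add_sum_filter_not ((Icc 1 X).filter (fun n => ∀ p ∈ PP z, ¬ p ∣ n))
    (fun n => ∃ p : ℕ, p.Prime ∧ z < p ∧ p ∣ n ∧ χ p = 1)
    (fun n => rr χ n * max 0 (1 - (n : ℝ) / X)), add_comm]
  refine add_le_add (F3_nonsplit d hd z X χ hχ) ?_
  set A := (Icc 1 X).filter (fun n => ∃ p : ℕ, p.Prime ∧ z < p ∧ p ∣ n ∧ χ p = 1) with hA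
  have hsub : ((Icc 1 X).filter (fun n => ∀ p ∈ PP z, ¬ p ∣ n)).filter
      (fun n => ∃ p : ℕ, p.Prime ∧ z < p ∧ p ∣ n ∧ χ p = 1) ⊆ A := by
    intro n hn
    rw [mem_filter, mem_filter] at hn
    rw [hA, mem_filter]
    exact ⟨hn.1.1, hn.2⟩
  have hT0 : (0 : ℝ) ≤ T := Nat.cast_nonneg _
  calc ∑ n ∈ ((Icc 1 X).filter (fun n => ∀ p ∈ PP z, ¬ p ∣ n)).filter
        (fun n => ∃ p : ℕ, p.Prime ∧ z < p ∧ p ∣ n ∧ χ p = 1), rr χ n * max 0 (1 - (n : ℝ) / X)
      ≤ ∑ _n ∈ ((Icc 1 X).filter (fun n => ∀ p ∈ PP z, ¬ p ∣ n)).filter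
        (fun n => ∃ p : ℕ, p.Prime ∧ z < p ∧ p ∣ n ∧ χ p = 1), (T : ℝ) := by
        apply sum_le_sum
        intro n hn
        rw [mem_filter, mem_filter, mem_Icc] at hn
        obtain ⟨⟨hn1, hn2⟩, -⟩ := hn
        have hrough : Rough z n := by
          refine ⟨by omega, fun p hp hpn => ?_⟩
          by_contra hle
          exact hn2 p (by unfold PP; rw [mem_filter, mem_Icc]; exact ⟨⟨hp.one_lt.le, by omega⟩, hp⟩)
            hpn
        have h1 : rr χ n ≤ T := by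
          refine (F3_rr_le χ hχ.val n).trans ?_
          exact_mod_cast hT n hrough hn1.2
        calc rr χ n * max 0 (1 - (n : ℝ) / X) ≤ T * 1 :=
              mul_le_mul h1 (F3_max X n) (le_max_left _ _) hT0
          _ = T := mul_one _
    _ = T * (((((Icc 1 X).filter (fun n => ∀ p ∈ PP z, ¬ p ∣ n)).filter
        (fun n => ∃ p : ℕ, p.Prime ∧ z < p ∧ p ∣ n ∧ χ p = 1)).card : ℕ) : ℝ) := by
        rw [sum_const, nsmul_eq_mul, mul_comm]
    _ ≤ T * ((A.card : ℕ) : ℝ) := by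
        apply mul_le_mul_of_nonneg_left _ hT0
        exact_mod_cast card_le_card hsub
    _ ≤ T * (δ * X * (Nat.log 2 X + 1)) := by
        apply mul_le_mul_of_nonneg_left _ hT0
        exact hsp

end Pool.Agent.Lib.MP_42948a_nt.AC
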