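import Pool.Agent.Lib.MP_42948a_nt.AC.Defs

/-!
# Numbers with a split prime factor (job F3a)

Every such `n` is divisible by a prime `p` with `z < p ≤ X`, `χ p = 1`; `p ≥ 2` lies in `(2^j, 2^(j+1)]` for `j = Nat.log 2 (p - 1)`,
`2^j < p ≤ X` gives `j ≤ Nat.log 2 X`, i.e. `p ∈ PD d z X χ (2^j)`; the number of multiples of `p` in `[1, X]` is
`X / p ≤ X / 2^j` (as real numbers). So the count is `≤ ∑_{j ≤ log2 X} #PD(2^j) X / 2^j ≤ ∑_j δ X = δ X (log2 X + 1)`.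
-/

namespace Pool.Agent.Lib.MP_42948a_nt.AC

open Finset Pool.Agent.Lib.MP_42948a_nt.OA

open Classical in
theorem split_multiples (d z X : ℕ) (χ : ℕ → ℝ) (δ : ℝ) (hP : ∀ D : ℕ, 1 ≤ D → ((PD d z X χ D).card : ℝ) ≤ δ * D) :
    (((Icc 1 X).filter (fun n => ∃ p : ℕ, p.Prime ∧ z < p ∧ p ∣ n ∧ χ p = 1)).card : ℝ) ≤
      δ * X * (Nat.log 2 X + 1) := by
  have hδ : 0 ≤ δ := by
    have h1 := hP 1 le_rfl
    have h0 : (0 : ℝ) ≤ ((PD d z X χ 1).card : ℝ) := Nat.cast_nonneg _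
    rw [Nat.cast_one, mul_one] at h1
    exact h0.trans h1
  have hsub : (Icc 1 X).filter (fun n => ∃ p : ℕ, p.Prime ∧ z < p ∧ p ∣ n ∧ χ p = 1) ⊆
      (range (Nat.log 2 X + 1)).biUnion (fun j => (PD d z X χ (2 ^ j)).biUnion
        (fun p => (Icc 1 X).filter (fun n => p ∣ n))) := by
    intro n hn
    rw [mem_filter, mem_Icc] at hn
    obtain ⟨⟨hn1, hnX⟩, p, hp, hzp, hpn, hχ⟩ := hn
    have hpX : p ≤ X := (Nat.le_of_dvd hn1 hpn).trans hnX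
    have hp2 := hp.two_le
    have hp1 : p - 1 ≠ 0 := by omega
    have hlo : 2 ^ Nat.log 2 (p - 1) ≤ p - 1 := Nat.pow_log_le_self 2 hp1
    have hhi : p - 1 < 2 ^ (Nat.log 2 (p - 1) + 1) := Nat.lt_pow_succ_log_self one_lt_two _
    rw [pow_succ] at hhi
    have hj : Nat.log 2 (p - 1) ≤ Nat.log 2 X := Nat.log_mono_right (by omega)
    rw [mem_biUnion]
    refine ⟨Nat.log 2 (p - 1), mem_range.mpr (by omega), ?_⟩
    rw [mem_biUnion]
    refine ⟨p, ?_, mem_filter.mpr ⟨mem_Icc.mpr ⟨hn1, hnX⟩, hpn⟩⟩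
    unfold PD
    rw [mem_filter, mem_Ioc]
    exact ⟨⟨by omega, by omega⟩, hp, hzp, hpX, hχ⟩
  have hterm : ∀ j : ℕ, ∀ p ∈ PD d z X χ (2 ^ j),
      ((((Icc 1 X).filter (fun n => p ∣ n)).card : ℕ) : ℝ) ≤ (X : ℝ) / 2 ^ j := by
    intro j p hp
    unfold PD at hp
    rw [mem_filter, mem_Ioc] at hp
    have hlt : 2 ^ j < p := hp.1.1
    have h1 : ((Icc 1 X).filter (fun n => p ∣ n)).card = X / p := by
      rw [← Nat.Ioc_filter_dvd_card_eq_div X p]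
      rfl
    rw [h1]
    have h2 : ((X / p : ℕ) : ℝ) ≤ (X : ℝ) / (p : ℝ) := Nat.cast_div_le
    have h3 : (2 : ℝ) ^ j ≤ (p : ℝ) := by exact_mod_cast hlt.le
    have h4 : (0 : ℝ) < 2 ^ j := by positivity
    exact h2.trans (div_le_div_of_nonneg_left (Nat.cast_nonneg X) h4 h3)
  have hinner : ∀ j : ℕ, ((((PD d z X χ (2 ^ j)).biUnion
        (fun p => (Icc 1 X).filter (fun n => p ∣ n))).card : ℕ) : ℝ) ≤ δ * X := by
    intro j
    have h1 : ((((PD d z X χ (2 ^ j)).biUnion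
        (fun p => (Icc 1 X).filter (fun n => p ∣ n))).card : ℕ) : ℝ) ≤
        ∑ p ∈ PD d z X χ (2 ^ j), (((Icc 1 X).filter (fun n => p ∣ n)).card : ℝ) := by
      exact_mod_cast card_biUnion_le
    have h2 : ∑ p ∈ PD d z X χ (2 ^ j), (((Icc 1 X).filter (fun n => p ∣ n)).card : ℝ) ≤
        ∑ p ∈ PD d z X χ (2 ^ j), (X : ℝ) / 2 ^ j := sum_le_sum (hterm j)
    rw [sum_const, nsmul_eq_mul] at h2
    have h3 := hP (2 ^ j) Nat.one_le_two_pow
    push_cast at h3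
    have h4 : (0 : ℝ) < 2 ^ j := by positivity
    have h5 : ((PD d z X χ (2 ^ j)).card : ℝ) * ((X : ℝ) / 2 ^ j) ≤ δ * 2 ^ j * ((X : ℝ) / 2 ^ j) :=
      mul_le_mul_of_nonneg_right h3 (by positivity)
    have h6 : δ * 2 ^ j * ((X : ℝ) / 2 ^ j) = δ * X := by
      field_simp
    linarith
  have hcard : ((((Icc 1 X).filter (fun n => ∃ p : ℕ, p.Prime ∧ z < p ∧ p ∣ n ∧ χ p = 1)).card : ℕ) : ℝ) ≤
      ∑ j ∈ range (Nat.log 2 X + 1), ((((PD d z X χ (2 ^ j)).biUnion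
        (fun p => (Icc 1 X).filter (fun n => p ∣ n))).card : ℕ) : ℝ) := by
    exact_mod_cast (card_le_card hsub).trans card_biUnion_le
  refine hcard.trans ((sum_le_sum fun j _ => hinner j).trans ?_)
  rw [sum_const, card_range, nsmul_eq_mul]
  push_cast
  exact le_of_eq (by ring)

end Pool.Agent.Lib.MP_42948a_nt.AC
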