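import Pool.Agent.Lib.MP_42948a_nt.AC.Defs
import Pool.Agent.Lib.MP_42948a_nt.OA.RI

/-!
# Lower bound for the sieved sum (job F4)

This is the first part of the proof of `no_imitation` in `OA/RI.lean` (copy it): `SieveProp K` with weights
`rr χ n * max 0 (1 - n/X)`, densities `gg χ`, main term `X/2 * LL χ X ≥ 0`, remainder `z^(2K) E`.
-/

namespace Pool.Agent.Lib.MP_42948a_nt.AC

open Finset Pool.Agent.Lib.MP_42948a_nt.OA

theorem lower_sum (K : ℕ) (hK : SieveProp K) (z X : ℕ) (hz : 2 ≤ z) (hX : 1 ≤ X)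
    (χ : ℕ → ℝ) (hmul : ∀ m n, χ (m * n) = χ m * χ n) (h1 : χ 1 = 1)
    (hv : ∀ n, χ n = 0 ∨ χ n = 1 ∨ χ n = -1)
    (M E : ℝ) (hM : ∀ N : ℕ, |∑ n ∈ Icc 1 N, χ n| ≤ M) (hE : M * (2 + Real.log X) ≤ E) (hE0 : 0 < E)
    (hLL : 0 ≤ LL χ X) :
    (X : ℝ) * LL χ X / (8 * (z : ℝ) ^ 2) - (z : ℝ) ^ (3 * K) * E ≤
      ∑ n ∈ (Icc 1 X).filter (fun n => ∀ p ∈ PP z, ¬ p ∣ n), rr χ n * max 0 (1 - (n : ℝ) / X) := by
  have hbase : ∀ t : ℝ, 0 < t → t ≤ X → |SwT χ X ∅ t - t / 2 * LL χ X| ≤ E := by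
    intro t ht htN
    exact (Sw_bound χ M hM X hX t ht htN).trans hE
  have hX0 : (0 : ℝ) < X := by exact_mod_cast hX
  have hz0 : (0 : ℝ) < z := by
    have : 0 < z := by omega
    exact_mod_cast this
  have hs := hK z hz (Icc 1 X) (fun n => rr χ n * max 0 (1 - (n : ℝ) / X)) (gg χ)
    ((X : ℝ) / 2 * LL χ X) ((z : ℝ) ^ (2 * K) * E)
    (fun n _ => mul_nonneg (rr_nonneg χ hmul h1 hv n) (le_max_left _ _))
    (fun p hp => by
      unfold PP at hp
      rw [mem_filter] at hp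
      exact RI_gg χ hv hp.2)
    (by positivity) (by positivity)
    (fun T hT hprod => by
      have hTp : ∀ q ∈ T, q.Prime := by
        intro q hq
        have := hT hq
        unfold PP at this
        rw [mem_filter] at this
        exact this.2
      have h2 := SwT_bound χ hmul hv X E hbase T hTp X hX0 le_rfl
      unfold SwT at h2
      refine h2.trans ?_
      apply mul_le_mul_of_nonneg_right _ hE0.le
      refine (RI_pow T hT).trans ?_
      rw [mul_comm 2 K, pow_mul]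
      apply pow_le_pow_left₀ (Nat.cast_nonneg _)
      exact_mod_cast hprod)
  have h6 : (z : ℝ) ^ K * ((z : ℝ) ^ (2 * K) * E) = (z : ℝ) ^ (3 * K) * E := by
    rw [← mul_assoc, ← pow_add]
    congr 2
    ring
  have h7 : (X : ℝ) * LL χ X / (8 * (z : ℝ) ^ 2) = (X : ℝ) / 2 * LL χ X / (4 * (z : ℝ) ^ 2) := by
    field_simp
    ring
  rw [h7]
  linarith

end Pool.Agent.Lib.MP_42948a_nt.AC
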