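import Pool.Agent.Lib.MP_42948a_nt.AC.Defs

/-!
# Words are short (job G1)

`Word U a * Word U b ⊆ Word U (a + b)` (concatenate lists), `Word U` is closed under inverses of the same length (reverse the list
and invert, `List.prod_inv_reverse`), `Word U a ⊆ Word U b` for `a ≤ b`, and every element of the closure is in some `Word U n`
(`Subgroup.closure_induction`). Let `h` be in the closure, `n` minimal with `h ∈ Word U n` (`Nat.find`), and suppose
`C (2k+1) < n`. Take a list `l` for `h`; its length is exactly `n` by minimality. For `i ≤ C` let `h_i` be the product of the first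
`i (2k+1)` letters. The translates `h_i V` (`i = 0, ..., C`) lie in the closure and are disjoint: if `h_i v = h_j v'` with `i < j` then
`h = h_i (v v'⁻¹) (product of the letters after position j (2k+1))` is a word of length
`≤ i (2k+1) + 2k + n - j (2k+1) < n`, a contradiction. So `(C + 1) #V ≤ #closure ≤ C #V`, impossible as `V` is nonempty.
-/

namespace Pool.Agent.Lib.MP_42948a_nt.AC

open Finset Pool.Agent.Lib.MP_42948a_nt.OA

private theorem G1_mul {G : Type*} [Group G] {U : Set G} {x y : G} {a b : ℕ} (hx : x ∈ Word U a)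
    (hy : y ∈ Word U b) : x * y ∈ Word U (a + b) := by
  obtain ⟨l, h1, h2, rfl⟩ := hx
  obtain ⟨l', h1', h2', rfl⟩ := hy
  refine ⟨l ++ l', ?_, ?_, List.prod_append⟩
  · rw [List.length_append]
    omega
  · intro u hu
    rcases List.mem_append.1 hu with h | h
    · exact h2 u h
    · exact h2' u h

private theorem G1_inv {G : Type*} [Group G] {U : Set G} {x : G} {a : ℕ} (hx : x ∈ Word U a) :
    x⁻¹ ∈ Word U a := by
  obtain ⟨l, h1, h2, rfl⟩ := hx
  refine ⟨(l.map fun x => x⁻¹).reverse, ?_, ?_, (List.prod_inv_reverse l).symm⟩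
  · rw [List.length_reverse, List.length_map]
    exact h1
  · intro u hu
    rw [List.mem_reverse, List.mem_map] at hu
    obtain ⟨v, hv, rfl⟩ := hu
    rw [inv_inv]
    exact (h2 v hv).symm

private theorem G1_mono {G : Type*} [Group G] {U : Set G} {x : G} {a b : ℕ} (hx : x ∈ Word U a)
    (h : a ≤ b) : x ∈ Word U b := by
  obtain ⟨l, h1, h2⟩ := hx
  exact ⟨l, h1.trans h, h2⟩

private theorem G1_closure {G : Type*} [Group G] {U : Set G} {h : G}
    (hh : h ∈ Subgroup.closure U) : ∃ n, h ∈ Word U n := by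
  induction hh using Subgroup.closure_induction with
  | mem x hx => exact ⟨1, [x], by simp, by simpa using Or.inl hx, by simp⟩
  | one => exact ⟨0, [], by simp, by simp, by simp⟩
  | mul x y _ _ ihx ihy =>
    obtain ⟨a, ha⟩ := ihx
    obtain ⟨b, hb⟩ := ihy
    exact ⟨a + b, G1_mul ha hb⟩
  | inv x _ ih =>
    obtain ⟨a, ha⟩ := ih
    exact ⟨a, G1_inv ha⟩

private theorem G1_mem {G : Type*} [Group G] {U : Set G} {x : G} {a : ℕ} (hx : x ∈ Word U a) :
    x ∈ Subgroup.closure U := by
  obtain ⟨l, -, h2, rfl⟩ := hx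
  refine Subgroup.list_prod_mem _ fun u hu => ?_
  rcases h2 u hu with h | h
  · exact Subgroup.subset_closure h
  · exact (Subgroup.inv_mem_iff _).1 (Subgroup.subset_closure h)

theorem word_length {G : Type*} [Group G] [Finite G] (U : Set G) (V : Finset G) (k C : ℕ)
    (hV : ∀ v ∈ V, v ∈ Word U k) (hne : V.Nonempty) (hC : Nat.card (Subgroup.closure U) ≤ C * V.card) :
    ∀ h ∈ Subgroup.closure U, h ∈ Word U (C * (2 * k + 1)) := by
  classical
  intro h hh
  by_contra hcon
  have hex := G1_closure hh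
  obtain ⟨n, hn, hmin⟩ : ∃ n, h ∈ Word U n ∧ ∀ m, m < n → h ∉ Word U m :=
    ⟨Nat.find hex, Nat.find_spec hex, fun m hm => Nat.find_min hex hm⟩
  have hCn : C * (2 * k + 1) < n := by
    by_contra hle
    exact hcon (G1_mono hn (not_lt.1 hle))
  obtain ⟨l, hl1, hl2, hl3⟩ := hn
  have htake : ∀ j, (l.take j).prod ∈ Word U j := fun j =>
    ⟨l.take j, by rw [List.length_take]; omega, fun u hu => hl2 u (List.mem_of_mem_take hu), rfl⟩
  have hdrop : ∀ j, (l.drop j).prod ∈ Word U (n - j) := fun j =>
    ⟨l.drop j, by rw [List.length_drop]; omega, fun u hu => hl2 u (List.mem_of_mem_drop hu), rfl⟩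
  have hlt : ∀ i j, i < j → j ≤ C → ∀ v ∈ V, ∀ v' ∈ V,
      (l.take (i * (2 * k + 1))).prod * v ≠ (l.take (j * (2 * k + 1))).prod * v' := by
    intro i j hij hj v hv v' hv' heq
    have h1 : h = (l.take (i * (2 * k + 1))).prod * v * v'⁻¹ *
        (l.drop (j * (2 * k + 1))).prod := by
      rw [heq, mul_inv_cancel_right, ← List.prod_append, List.take_append_drop, hl3]
    have h2 := G1_mul (G1_mul (G1_mul (htake (i * (2 * k + 1))) (hV v hv)) (G1_inv (hV v' hv')))
      (hdrop (j * (2 * k + 1)))
    rw [← h1] at h2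
    refine hmin _ ?_ h2
    have h3 : (i + 1) * (2 * k + 1) ≤ j * (2 * k + 1) := Nat.mul_le_mul_right _ hij
    have h4 : j * (2 * k + 1) ≤ C * (2 * k + 1) := Nat.mul_le_mul_right _ hj
    have h5 : (i + 1) * (2 * k + 1) = i * (2 * k + 1) + (2 * k + 1) := by ring
    omega
  have hinj : Set.InjOn (fun p : ℕ × G => (l.take (p.1 * (2 * k + 1))).prod * p.2)
      (range (C + 1) ×ˢ V : Finset (ℕ × G)) := by
    rintro ⟨i, v⟩ h1 ⟨j, v'⟩ h2 heq
    rw [mem_coe, mem_product, mem_range] at h1 h2
    simp only at h1 h2 heq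
    rcases lt_trichotomy i j with hij | hij | hij
    · exact absurd heq (hlt i j hij (by omega) v h1.2 v' h2.2)
    · subst hij
      rw [mul_left_cancel heq]
    · exact absurd heq.symm (hlt j i hij (by omega) v' h2.2 v h1.2)
  have hcard : (C + 1) * V.card ≤ Nat.card (Subgroup.closure U) := by
    have h1 := card_image_of_injOn hinj
    rw [card_product, card_range] at h1
    rw [← h1, ← Set.ncard_coe_finset, ← SetLike.coe_sort_coe, Nat.card_coe_set_eq]
    apply Set.ncard_le_ncard _ (Set.toFinite _)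
    intro x hx
    rw [mem_coe, mem_image] at hx
    obtain ⟨⟨i, v⟩, h2, rfl⟩ := hx
    rw [mem_product] at h2
    exact (Subgroup.closure U).mul_mem (G1_mem (htake _)) (G1_mem (hV v h2.2))
  have h1 := hcard.trans hC
  have h2 : 0 < V.card := hne.card_pos
  rw [add_mul, one_mul] at h1
  omega

end Pool.Agent.Lib.MP_42948a_nt.AC
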