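import Pool.Agent.Lib.MP_42948a_nt.AC.Defs

/-!
# Errors add up along words (job G2)

Induction on the list (prove: for every list `l` all of whose letters or their inverses lie in `U`, there is a sign `s` with at most
`l.length * m` elements `b` with `f (l.prod * b) ≠ s * f b`; then weaken `l.length ≤ n`). Empty list: `s = 1`, no exceptions. Step
`u :: l`: `f (u * (l.prod * b)) = s_u * f (l.prod * b)` unless `l.prod * b` is exceptional for `u` (the number of such `b` is the
number of exceptions of `u`, by the bijection `b ↦ l.prod * b`). If `u⁻¹ ∈ U` with sign `s`: `f (u⁻¹ * c) = s * f c` for all but `m`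
elements `c`; put `c = u * b`: `f b = s * f (u * b)`, i.e. `f (u * b) = s * f b` (`s * s = 1` in `ℤˣ`).
-/

namespace Pool.Agent.Lib.MP_42948a_nt.AC

open Finset Pool.Agent.Lib.MP_42948a_nt.OA

private theorem G2_card {G : Type*} [Group G] [Fintype G] [DecidableEq G] (P Q : G → Prop)
    [DecidablePred P] [DecidablePred Q] (x : G) (h : ∀ b, P b → Q (x * b)) :
    ((univ : Finset G).filter P).card ≤ ((univ : Finset G).filter Q).card := by
  apply card_le_card_of_injOn (fun b => x * b)
  · intro b hb
    rw [mem_coe, mem_filter] at hb ⊢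
    exact ⟨mem_univ _, h b hb.2⟩
  · intro a _ b _ hab
    exact mul_left_cancel hab

private theorem G2_letter {G : Type*} [Group G] [Fintype G] (U : Set G) (f : G → ℤˣ) (m : ℕ)
    (hU : ∀ u ∈ U, ∃ s : ℤˣ, ((univ : Finset G).filter (fun b => f (u * b) ≠ s * f b)).card ≤ m)
    (u : G) (hu : u ∈ U ∨ u⁻¹ ∈ U) :
    ∃ s : ℤˣ, ((univ : Finset G).filter (fun b => f (u * b) ≠ s * f b)).card ≤ m := by
  classical
  rcases hu with hu | hu
  · exact hU u hu
  · obtain ⟨s, hs⟩ := hU _ hu
    refine ⟨s, le_trans (G2_card _ _ u fun b hb => ?_) hs⟩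
    intro h
    apply hb
    rw [inv_mul_cancel_left] at h
    rw [h, ← mul_assoc, Int.units_mul_self, one_mul]

private theorem G2_list {G : Type*} [Group G] [Fintype G] (U : Set G) (f : G → ℤˣ) (m : ℕ)
    (hU : ∀ u ∈ U, ∃ s : ℤˣ, ((univ : Finset G).filter (fun b => f (u * b) ≠ s * f b)).card ≤ m)
    (l : List G) (hl : ∀ u ∈ l, u ∈ U ∨ u⁻¹ ∈ U) :
    ∃ s : ℤˣ, ((univ : Finset G).filter (fun b => f (l.prod * b) ≠ s * f b)).card ≤
      l.length * m := by
  classical
  induction l with
  | nil => exact ⟨1, by simp⟩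
  | cons u l ih =>
    obtain ⟨s, hs⟩ := ih fun v hv => hl v (List.mem_cons_of_mem u hv)
    obtain ⟨t, ht⟩ := G2_letter U f m hU u (hl u List.mem_cons_self)
    refine ⟨t * s, ?_⟩
    have h1 : ((univ : Finset G).filter (fun b => f ((u :: l).prod * b) ≠ t * s * f b)) ⊆
        ((univ : Finset G).filter (fun b => f (l.prod * b) ≠ s * f b)) ∪
        ((univ : Finset G).filter (fun b => f (u * (l.prod * b)) ≠ t * f (l.prod * b))) := by
      intro b hb
      rw [mem_filter, List.prod_cons, mul_assoc] at hb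
      rw [mem_union, mem_filter, mem_filter]
      by_contra hcon
      push Not at hcon
      apply hb.2
      rw [hcon.2 (mem_univ b), hcon.1 (mem_univ b), mul_assoc]
    have h2 : ((univ : Finset G).filter
        (fun b => f (u * (l.prod * b)) ≠ t * f (l.prod * b))).card ≤ m :=
      le_trans (G2_card _ _ l.prod fun b hb => hb) ht
    calc _ ≤ _ := card_le_card h1
      _ ≤ _ := card_union_le _ _
      _ ≤ l.length * m + m := Nat.add_le_add hs h2
      _ = (u :: l).length * m := by
        rw [List.length_cons]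
        ring

theorem word_error {G : Type*} [Group G] [Fintype G] (U : Set G) (f : G → ℤˣ) (m : ℕ)
    (hU : ∀ u ∈ U, ∃ s : ℤˣ, ((univ : Finset G).filter (fun b => f (u * b) ≠ s * f b)).card ≤ m) (n : ℕ) :
    ∀ h ∈ Word U n, ∃ s : ℤˣ, ((univ : Finset G).filter (fun b => f (h * b) ≠ s * f b)).card ≤ n * m := by
  rintro h ⟨l, h1, h2, rfl⟩
  obtain ⟨s, hs⟩ := G2_list U f m hU l h2
  exact ⟨s, hs.trans (Nat.mul_le_mul_right _ h1)⟩

end Pool.Agent.Lib.MP_42948a_nt.AC
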