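import Pool.Agent.Lib.MP_42948a_nt.AC.Defs

/-!
# A function almost equivariant under a subgroup is close to an equivariant one (job G3)

Choose for every `h : H` a sign `s h` with `#{b | f (h b) ≠ s h * f b} ≤ m`. For `h, h'`: outside `3 m < #G` elements `b` one has
`f (h (h' b)) = s h f (h' b)` (bijection `b ↦ h' b`), `f (h' b) = s h' f b`, `f (h h' b) = s (h h') f b`; at such a `b`,
`s (h h') = s h * s h'`. So `s` is a homomorphism (`MonoidHom.mk'`). For a coset representative `r` (use the quotient by `H`,
`Quotient.out`, or `QuotientGroup.out`; `G` is commutative) let `e r = 1` if at least half of the `h ∈ H` have `s h * f (h r) = 1`,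
and `e r = -1` otherwise, and `E b = s (b r⁻¹) * e r` for `b` in the coset of `r`. Then `E (h b) = s h * E b`. If `f b ≠ E b`, then
at least half of the `h ∈ H` have `s h * f (h b) ≠ f b`, i.e. `f (h b) ≠ s h * f b`: writing `b = h₀ r`,
`s h f (h h₀ r) = s h₀ * (s (h h₀) f (h h₀ r))`, and at least half of the `h` have `s (h h₀) f (h h₀ r) = e r`, for which
`s h f (h b) = s h₀ e r = E b ≠ f b`. Double counting of the pairs `(h, b)` with `f (h b) ≠ s h f b`:
`#{b | f b ≠ E b} * #H ≤ 2 * #pairs ≤ 2 * #H * m`.
-/

namespace Pool.Agent.Lib.MP_42948a_nt.AC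

open Finset Pool.Agent.Lib.MP_42948a_nt.OA

private theorem G3_unit (a b c : ℤˣ) (h : a ≠ b) (h' : c = b) : c ≠ a := by
  rw [h']
  exact Ne.symm h

private theorem G3_sq (a : ℤˣ) : a * a = 1 := Int.units_mul_self a

theorem equivariant {G : Type*} [CommGroup G] [Fintype G] (H : Subgroup G) (f : G → ℤˣ) (m : ℕ)
    (hH : ∀ h ∈ H, ∃ s : ℤˣ, ((univ : Finset G).filter (fun b => f (h * b) ≠ s * f b)).card ≤ m)
    (hm : 3 * m < Fintype.card G) :
    ∃ (s : H →* ℤˣ) (E : G → ℤˣ), (∀ (h : H) (c : G), E ((h : G) * c) = s h * E c) ∧
      ((univ : Finset G).filter (fun b => f b ≠ E b)).card ≤ 2 * m := by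
  classical
  choose s0 hs0 using fun h : H => hH h h.2
  -- the homomorphism
  have hmul : ∀ h h' : H, s0 (h * h') = s0 h * s0 h' := by
    intro h h'
    set B1 : Finset G := (univ : Finset G).filter (fun b => f ((h : G) * b) ≠ s0 h * f b) with hB1
    set B2 : Finset G := (univ : Finset G).filter (fun b => f ((h' : G) * b) ≠ s0 h' * f b) with hB2
    set B3 : Finset G := (univ : Finset G).filter
      (fun b => f (((h * h' : H) : G) * b) ≠ s0 (h * h') * f b) with hB3
    set B1' : Finset G := (univ : Finset G).filter (fun b => (h' : G) * b ∈ B1) with hB1'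
    have c1 : B1'.card ≤ m := by
      refine le_trans ?_ (hs0 h)
      refine Finset.card_le_card_of_injOn (fun b => (h' : G) * b) ?_ ?_
      · intro b hb
        have hb : b ∈ B1' := hb
        rw [hB1', mem_filter] at hb
        exact hb.2
      · intro a _ b _ hab
        exact mul_left_cancel hab
    have c2 : B2.card ≤ m := hs0 h'
    have c3 : B3.card ≤ m := hs0 (h * h')
    have c4 : (B1' ∪ (B2 ∪ B3)).card < Fintype.card G := by
      have h1 := Finset.card_union_le B1' (B2 ∪ B3)
      have h2 := Finset.card_union_le B2 B3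
      omega
    obtain ⟨b, hb⟩ : ∃ b, b ∉ B1' ∪ (B2 ∪ B3) := by
      by_contra hcon
      push Not at hcon
      have : B1' ∪ (B2 ∪ B3) = univ := Finset.eq_univ_iff_forall.2 hcon
      rw [this, Finset.card_univ] at c4
      exact lt_irrefl _ c4
    rw [mem_union, mem_union, not_or, not_or] at hb
    obtain ⟨hb1, hb2, hb3⟩ := hb
    have e1 : f ((h : G) * ((h' : G) * b)) = s0 h * f ((h' : G) * b) := by
      by_contra hcon
      apply hb1
      rw [hB1', mem_filter, hB1, mem_filter]
      exact ⟨mem_univ _, mem_univ _, hcon⟩
    have e2 : f ((h' : G) * b) = s0 h' * f b := by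
      by_contra hcon
      apply hb2
      rw [hB2, mem_filter]
      exact ⟨mem_univ _, hcon⟩
    have e3 : f (((h * h' : H) : G) * b) = s0 (h * h') * f b := by
      by_contra hcon
      apply hb3
      rw [hB3, mem_filter]
      exact ⟨mem_univ _, hcon⟩
    have e4 : ((h * h' : H) : G) * b = (h : G) * ((h' : G) * b) := by
      rw [Subgroup.coe_mul, mul_assoc]
    rw [e4, e1, e2, ← mul_assoc] at e3
    exact (mul_right_cancel e3).symm
  set s : H →* ℤˣ := MonoidHom.mk' s0 hmul with hs
  have hsb : ∀ h : H, ((univ : Finset G).filter (fun b => f ((h : G) * b) ≠ s h * f b)).card ≤ m :=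
    hs0
  -- representatives
  set rep : G → G := fun b => ((b : G ⧸ H)).out with hrep
  have hrep1 : ∀ b, b * (rep b)⁻¹ ∈ H := by
    intro b
    obtain ⟨h, hh⟩ := QuotientGroup.mk_out_eq_mul H b
    have : b * (rep b)⁻¹ = ((h⁻¹ : H) : G) := by
      rw [hrep]
      simp only
      rw [hh, mul_inv_rev, Subgroup.coe_inv, mul_comm ((h : G)⁻¹), mul_inv_cancel_left]
    rw [this]
    exact (h⁻¹).2
  have hrep2 : ∀ (h : H) (b : G), rep ((h : G) * b) = rep b := by
    intro h b
    have : (((h : G) * b : G) : G ⧸ H) = (b : G ⧸ H) := by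
      rw [QuotientGroup.eq, mul_inv_rev, mul_comm b⁻¹, mul_assoc, inv_mul_cancel, mul_one]
      exact H.inv_mem h.2
    simp only [hrep, this]
  set e : G → ℤˣ := fun r =>
    if Fintype.card H ≤ 2 * ((univ : Finset H).filter (fun h : H => s h * f ((h : G) * r) = 1)).card
    then 1 else -1 with he
  have hhalf : ∀ r, Fintype.card H ≤
      2 * ((univ : Finset H).filter (fun h : H => s h * f ((h : G) * r) = e r)).card := by
    intro r
    by_cases hr : Fintype.card H ≤
      2 * ((univ : Finset H).filter (fun h : H => s h * f ((h : G) * r) = 1)).card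
    · have : e r = 1 := by simp only [he, if_pos hr]
      rw [this]
      exact hr
    · have h1 : e r = -1 := by simp only [he, if_neg hr]
      rw [h1]
      have h2 : ((univ : Finset H).filter (fun h : H => s h * f ((h : G) * r) = 1)).card +
          ((univ : Finset H).filter (fun h : H => ¬ (s h * f ((h : G) * r) = 1))).card =
          Fintype.card H := by
        rw [Finset.card_filter_add_card_filter_not, Finset.card_univ]
      have h3 : ((univ : Finset H).filter (fun h : H => ¬ (s h * f ((h : G) * r) = 1))) =
          ((univ : Finset H).filter (fun h : H => s h * f ((h : G) * r) = -1)) := by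
        refine Finset.filter_congr fun h _ => ?_
        constructor
        · intro h4
          exact (Int.units_eq_one_or _).resolve_left h4
        · intro h4 h5
          rw [h4] at h5
          exact absurd h5 (by decide)
      rw [h3] at h2
      omega
  set E : G → ℤˣ := fun b => s ⟨b * (rep b)⁻¹, hrep1 b⟩ * e (rep b) with hE
  refine ⟨s, E, ?_, ?_⟩
  · intro h c
    simp only [hE]
    have h1 : (⟨(h : G) * c * (rep ((h : G) * c))⁻¹, hrep1 ((h : G) * c)⟩ : H) =
        h * ⟨c * (rep c)⁻¹, hrep1 c⟩ := by
      apply Subtype.ext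
      rw [Subgroup.coe_mul]
      simp only
      rw [hrep2, mul_assoc]
    rw [h1, map_mul, hrep2, mul_assoc]
  · -- bad points have many bad pairs
    have hbad : ∀ b, f b ≠ E b → Fintype.card H ≤
        2 * ((univ : Finset H).filter (fun h : H => f ((h : G) * b) ≠ s h * f b)).card := by
      intro b hb
      refine (hhalf (rep b)).trans (Nat.mul_le_mul_left 2 ?_)
      set h₀ : H := ⟨b * (rep b)⁻¹, hrep1 b⟩ with hh₀
      have hb0 : (h₀ : G) * rep b = b := by
        simp only [hh₀]
        rw [inv_mul_cancel_right]
      refine Finset.card_le_card_of_injOn (fun h : H => h * h₀⁻¹) ?_ ?_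
      · intro h hh
        have hh : h ∈ ((univ : Finset H).filter
          (fun h : H => s h * f ((h : G) * rep b) = e (rep b))) := hh
        rw [mem_filter] at hh
        have h1 := hh.2
        change h * h₀⁻¹ ∈ ((univ : Finset H).filter (fun h : H => f ((h : G) * b) ≠ s h * f b))
        rw [mem_filter]
        refine ⟨mem_univ _, ?_⟩
        intro hcon
        apply hb
        have h2 : ((h * h₀⁻¹ : H) : G) * b = (h : G) * rep b := by
          rw [Subgroup.coe_mul, mul_assoc]
          congr 1
          rw [Subgroup.coe_inv, inv_mul_eq_iff_eq_mul, hb0]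
        rw [h2] at hcon
        rw [hcon, map_mul, map_inv] at h1
        have h3 : (s h₀)⁻¹ = s h₀ := by
          rw [inv_eq_iff_mul_eq_one, G3_sq]
        rw [h3] at h1
        have h4 : s h * (s h * s h₀ * f b) = (s h * s h) * (s h₀ * f b) := by
          simp only [mul_assoc]
        rw [h4, G3_sq, one_mul] at h1
        have h5 : E b = s h₀ * e (rep b) := rfl
        rw [h5, ← h1, ← mul_assoc, G3_sq, one_mul]
      · intro a _ b _ hab
        exact mul_right_cancel hab
    -- double counting
    have h1 : ∑ b : G, ((univ : Finset H).filter (fun h : H => f ((h : G) * b) ≠ s h * f b)).card =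
        ∑ h : H, ((univ : Finset G).filter (fun b => f ((h : G) * b) ≠ s h * f b)).card := by
      simp only [Finset.card_filter]
      exact Finset.sum_comm
    have h2 : ∑ h : H, ((univ : Finset G).filter (fun b => f ((h : G) * b) ≠ s h * f b)).card ≤
        Fintype.card H * m := by
      refine (Finset.sum_le_card_nsmul _ _ m (fun h _ => hsb h)).trans ?_
      rw [Finset.card_univ, smul_eq_mul]
    have h3 : ((univ : Finset G).filter (fun b => f b ≠ E b)).card * Fintype.card H ≤
        2 * ∑ b : G, ((univ : Finset H).filter (fun h : H => f ((h : G) * b) ≠ s h * f b)).card := by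
      rw [Finset.mul_sum]
      have h4 : ((univ : Finset G).filter (fun b => f b ≠ E b)).card * Fintype.card H ≤
          ∑ b ∈ (univ : Finset G).filter (fun b => f b ≠ E b),
            2 * ((univ : Finset H).filter (fun h : H => f ((h : G) * b) ≠ s h * f b)).card := by
        rw [← smul_eq_mul]
        refine Finset.card_nsmul_le_sum _ _ _ fun b hb => ?_
        rw [mem_filter] at hb
        exact hbad b hb.2
      refine h4.trans ?_
      exact Finset.sum_le_sum_of_subset (Finset.filter_subset _ _)
    have h5 : 0 < Fintype.card H := Fintype.card_pos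
    have h6 : ((univ : Finset G).filter (fun b => f b ≠ E b)).card * Fintype.card H ≤
        2 * m * Fintype.card H := by
      rw [h1] at h3
      calc _ ≤ _ := h3
        _ ≤ 2 * (Fintype.card H * m) := Nat.mul_le_mul_left 2 h2
        _ = 2 * m * Fintype.card H := by ring
    exact Nat.le_of_mul_le_mul_right h6 h5

end Pool.Agent.Lib.MP_42948a_nt.AC
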