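import Pool.Agent.Lib.MP_42948a_nt.AC.Defs

/-!
# Majority argument (job G4)

Write `M(c) = {m ∈ M | κ m * c⁻¹ ∈ H}`. For `m ∈ M(c)` let `μ_c(m) = lam m * s (κ m * c⁻¹) ∈ {±1}`. For `m1 ∈ M(c1)`, `m2 ∈ M(c2)`:
`E (κ m1 * κ m2) = s (κ m1 c1⁻¹) s (κ m2 c2⁻¹) E (c1 c2)`, so `lam m1 * lam m2 = E (κ m1 κ m2)` iff
`μ_{c1}(m1) * μ_{c2}(m2) = E (c1 c2)`. Let `P_c = ∑_{m ∈ M(c)} μ_c(m) ∈ ℤ`. Then `P_{c1} P_{c2} = ∑ μ μ = E(c1 c2) (all - 2 bad)`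
with `2 bad < all`, so `P_{c1} P_{c2}` is nonzero with the sign of `E (c1 c2)`. Let `S c` be the sign of `P_c` (`P_c ≠ 0`, take
`c1 = c2 = c`). Then `E (c1 c2) = S c1 * S c2` for all `c1, c2`; `E 1 = S 1 * S 1 = 1`, `E c = S c * S 1`, so
`E (c1 c2) = S c1 S c2 = E c1 * E c2` (as `S 1 * S 1 = 1`), and `E` is a homomorphism.
-/

namespace Pool.Agent.Lib.MP_42948a_nt.AC

open Finset Pool.Agent.Lib.MP_42948a_nt.OA

private theorem G4_prod {G : Type*} [CommGroup G] (H : Subgroup G) (s : H →* ℤˣ) (E : G → ℤˣ)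
    (hE : ∀ (h : H) (c : G), E ((h : G) * c) = s h * E c) (a b c1 c2 : G) (h1 : a * c1⁻¹ ∈ H)
    (h2 : b * c2⁻¹ ∈ H) :
    E (a * b) = s ⟨a * c1⁻¹, h1⟩ * (s ⟨b * c2⁻¹, h2⟩ * E (c1 * c2)) := by
  rw [← hE, ← hE]
  have h : a * c1⁻¹ * (b * c2⁻¹ * (c1 * c2)) = a * b * (c1⁻¹ * c1) * (c2⁻¹ * c2) := by
    ac_rfl
  rw [inv_mul_cancel, inv_mul_cancel, mul_one, mul_one] at h
  exact congrArg E h.symm

private theorem G4_units (l1 l2 s1 s2 e : ℤˣ) :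
    (((l1 * s1 : ℤˣ) : ℤ) * ((l2 * s2 : ℤˣ) : ℤ)) * (e : ℤ) =
      1 - 2 * (if l1 * l2 ≠ s1 * (s2 * e) then 1 else 0) := by
  rcases Int.units_eq_one_or l1 with rfl | rfl <;> rcases Int.units_eq_one_or l2 with rfl | rfl <;>
    rcases Int.units_eq_one_or s1 with rfl | rfl <;> rcases Int.units_eq_one_or s2 with rfl | rfl <;>
    rcases Int.units_eq_one_or e with rfl | rfl <;> decide

open Classical in
private noncomputable def G4_mu {G : Type*} [CommGroup G] (H : Subgroup G) (s : H →* ℤˣ) {ι : Type*}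
    (κ : ι → G) (lam : ι → ℤˣ) (c : G) (m : ι) : ℤ :=
  if h : κ m * c⁻¹ ∈ H then ((lam m * s ⟨κ m * c⁻¹, h⟩ : ℤˣ) : ℤ) else 0

open Classical in
private theorem G4_pos {G : Type*} [CommGroup G] (H : Subgroup G) (s : H →* ℤˣ) (E : G → ℤˣ)
    (hE : ∀ (h : H) (c : G), E ((h : G) * c) = s h * E c) {ι : Type*} (M : Finset ι) (κ : ι → G) (lam : ι → ℤˣ)
    (c1 c2 : G)
    (hmaj : 2 * (((M ×ˢ M).filter (fun p => κ p.1 * c1⁻¹ ∈ H ∧ κ p.2 * c2⁻¹ ∈ H ∧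
        lam p.1 * lam p.2 ≠ E (κ p.1 * κ p.2))).card) <
      (M.filter (fun m => κ m * c1⁻¹ ∈ H)).card * (M.filter (fun m => κ m * c2⁻¹ ∈ H)).card) :
    0 < (∑ m ∈ M, G4_mu H s κ lam c1 m) * (∑ m ∈ M, G4_mu H s κ lam c2 m) * (E (c1 * c2) : ℤ) := by
  have h1 : (∑ m ∈ M, G4_mu H s κ lam c1 m) * (∑ m ∈ M, G4_mu H s κ lam c2 m) * (E (c1 * c2) : ℤ) =
      ∑ p ∈ M ×ˢ M, ((if κ p.1 * c1⁻¹ ∈ H ∧ κ p.2 * c2⁻¹ ∈ H then 1 else 0) -
        2 * (if κ p.1 * c1⁻¹ ∈ H ∧ κ p.2 * c2⁻¹ ∈ H ∧ lam p.1 * lam p.2 ≠ E (κ p.1 * κ p.2) then (1 : ℤ) else 0)) := by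
    rw [Finset.sum_mul_sum, ← Finset.sum_product', Finset.sum_mul]
    refine Finset.sum_congr rfl fun p _ => ?_
    unfold G4_mu
    by_cases ha : κ p.1 * c1⁻¹ ∈ H
    · by_cases hb : κ p.2 * c2⁻¹ ∈ H
      · rw [dif_pos ha, dif_pos hb, G4_units, G4_prod H s E hE (κ p.1) (κ p.2) c1 c2 ha hb]
        simp only [ha, hb, true_and, and_self, if_true]
      · rw [dif_neg hb, mul_zero, zero_mul, if_neg fun h => hb h.2, if_neg fun h => hb h.2.1]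
        rfl
    · rw [dif_neg ha, zero_mul, zero_mul, if_neg fun h => ha h.1, if_neg fun h => ha h.1]
      rfl
  have h2 : ((M ×ˢ M).filter (fun p => κ p.1 * c1⁻¹ ∈ H ∧ κ p.2 * c2⁻¹ ∈ H)).card =
      (M.filter (fun m => κ m * c1⁻¹ ∈ H)).card * (M.filter (fun m => κ m * c2⁻¹ ∈ H)).card := by
    rw [← Finset.card_product]
    congr 1
    ext p
    simp only [Finset.mem_filter, Finset.mem_product]
    tauto
  rw [h1, Finset.sum_sub_distrib, ← Finset.mul_sum, Finset.sum_boole, Finset.sum_boole, h2]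
  have h3 : (2 * ((((M ×ˢ M).filter (fun p => κ p.1 * c1⁻¹ ∈ H ∧ κ p.2 * c2⁻¹ ∈ H ∧
        lam p.1 * lam p.2 ≠ E (κ p.1 * κ p.2))).card : ℕ) : ℤ)) <
      (((M.filter (fun m => κ m * c1⁻¹ ∈ H)).card * (M.filter (fun m => κ m * c2⁻¹ ∈ H)).card : ℕ) : ℤ) := by
    exact_mod_cast hmaj
  exact sub_pos.2 h3

open Classical in
theorem majority {G : Type*} [CommGroup G] (H : Subgroup G) (s : H →* ℤˣ) (E : G → ℤˣ)
    (hE : ∀ (h : H) (c : G), E ((h : G) * c) = s h * E c) {ι : Type*} (M : Finset ι) (κ : ι → G) (lam : ι → ℤˣ)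
    (hmaj : ∀ c1 c2 : G,
      2 * (((M ×ˢ M).filter (fun p => κ p.1 * c1⁻¹ ∈ H ∧ κ p.2 * c2⁻¹ ∈ H ∧
        lam p.1 * lam p.2 ≠ E (κ p.1 * κ p.2))).card) <
      (M.filter (fun m => κ m * c1⁻¹ ∈ H)).card * (M.filter (fun m => κ m * c2⁻¹ ∈ H)).card) :
    ∃ ψ : G →* ℤˣ, ∀ c, E c = ψ c := by
  set P : G → ℤ := fun c => ∑ m ∈ M, G4_mu H s κ lam c m with hP
  have hpos : ∀ c1 c2, 0 < P c1 * P c2 * (E (c1 * c2) : ℤ) := fun c1 c2 =>
    G4_pos H s E hE M κ lam c1 c2 (hmaj c1 c2)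
  have hS : ∀ c, ∃ S : ℤˣ, 0 < (S : ℤ) * P c := by
    intro c
    have h1 : P c ≠ 0 := by
      intro h0
      have h2 := hpos c c
      rw [h0, zero_mul, zero_mul] at h2
      exact lt_irrefl _ h2
    rcases lt_or_gt_of_ne h1 with h | h
    · refine ⟨-1, ?_⟩
      rw [Units.val_neg, Units.val_one]
      linarith
    · refine ⟨1, ?_⟩
      rw [Units.val_one]
      linarith
  choose S hS using hS
  have hES : ∀ c1 c2, E (c1 * c2) = S c1 * S c2 := by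
    intro c1 c2
    have h1 := hpos c1 c2
    have h2 := hS c1
    have h3 := hS c2
    rcases Int.units_eq_one_or (E (c1 * c2)) with he | he <;>
      rcases Int.units_eq_one_or (S c1) with h4 | h4 <;>
      rcases Int.units_eq_one_or (S c2) with h5 | h5 <;>
      rw [he] at h1 ⊢ <;> rw [h4] at h2 ⊢ <;> rw [h5] at h3 ⊢ <;>
      simp only [Units.val_neg, Units.val_one] at h1 h2 h3 <;>
      first
      | rfl
      | (exfalso; nlinarith)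
  have hE1 : ∀ c, E c = S c * S 1 := fun c => by
    rw [← hES, mul_one]
  refine ⟨MonoidHom.mk' E fun c1 c2 => ?_, fun c => rfl⟩
  rw [hES c1 c2, hE1 c1, hE1 c2, mul_mul_mul_comm, Int.units_mul_self, mul_one]

end Pool.Agent.Lib.MP_42948a_nt.AC
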