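import Pool.Agent.Lib.MP_42948a_nt.AC.GS1
import Pool.Agent.Lib.MP_42948a_nt.AC.G4
import Pool.Agent.Lib.MP_42948a_nt.AC.BP

/-!
# The function of classes is almost a character (job GS)

Let `s`, `E` be as in `struct1`, `m = C (2k+1) m0`, `B0 = U ∪ {b | F b ≠ E b}`, `#B0 ≤ m0 + 2 m`. For `b ∉ B0` all rough `n ≤ X` of
class `b` have `g n = F b = E b`. Let `κ n` be the unit of class `n` for `n` coprime to `d` (`ZMod.unitOfCoprime`) and `1` otherwise,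
`M = RC d z X2`, `lam = g`. Apply `majority`: for `c1, c2` the bad pairs are among those of `bad_pairs`, at most
`#B0 (X / d + 1) T`, and `#{m ∈ M | κ m * c⁻¹ ∈ Hgen} ≥ P` by `hP` (`m = c h` in `ZMod d` means `κ m = c h` as units, so
`κ m c⁻¹ = h`; a number whose class is a unit is coprime to `d`, `ZMod.isUnit_iff_coprime`). So `E = ψ`, and `B = B0` works.
-/

namespace Pool.Agent.Lib.MP_42948a_nt.AC

open Finset Pool.Agent.Lib.MP_42948a_nt.OA

open Classical in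
theorem core_alg (d z X1 X2 Y X k C m0 T P : ℕ) [NeZero d] (g : ℕ → ℤˣ)
    (hg : ∀ m n : ℕ, 0 < m → 0 < n → g (m * n) = g m * g n) (U : Finset (ZMod d)ˣ) (F : (ZMod d)ˣ → ℤˣ)
    (hU : ∀ b ∉ U, ∀ n : ℕ, Rough z n → n ≤ X → (n : ZMod d) = (b : ZMod d) → g n = F b)
    (hn : ∀ b : (ZMod d)ˣ, ∃ n : ℕ, Rough z n ∧ n ≤ X1 ∧ (n : ZMod d) = (b : ZMod d) ∧ g n = F b)
    (h1 : X1 * Y ≤ X) (h2 : X2 * X2 ≤ X) (hUc : U.card ≤ m0)
    (V : Finset (ZMod d)ˣ) (hV : ∀ v ∈ V, v ∈ Word (smallU d z Y) k) (hne : V.Nonempty)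
    (hC : Nat.card (Hgen d z Y) ≤ C * V.card)
    (h3 : 3 * (C * (2 * k + 1) * m0) < Fintype.card (ZMod d)ˣ)
    (hT : ∀ n : ℕ, Rough z n → n ≤ X → n.divisors.card ≤ T)
    (hP : ∀ c : (ZMod d)ˣ, P ≤ ((Icc 1 X2).filter (fun n => Rough z n ∧
      ∃ h ∈ Hgen d z Y, (n : ZMod d) = ((c * h : (ZMod d)ˣ) : ZMod d))).card)
    (hPP : 2 * ((m0 + 2 * (C * (2 * k + 1) * m0)) * (X / d + 1) * T) < P * P) :
    ∃ (ψ : (ZMod d)ˣ →* ℤˣ) (B : Finset (ZMod d)ˣ), B.card ≤ m0 + 2 * (C * (2 * k + 1) * m0) ∧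
      ∀ b ∉ B, ∀ n : ℕ, Rough z n → n ≤ X → (n : ZMod d) = (b : ZMod d) → g n = ψ b := by
  obtain ⟨s, E, hE, hEc⟩ := struct1 d z X1 Y X k C m0 g hg U F hU hn h1 hUc V hV hne hC h3
  set m : ℕ := C * (2 * k + 1) * m0 with hm
  set B0 : Finset (ZMod d)ˣ := U ∪ (univ : Finset (ZMod d)ˣ).filter (fun b => F b ≠ E b) with hB0
  have hB0c : B0.card ≤ m0 + 2 * m := by
    refine (Finset.card_union_le _ _).trans (Nat.add_le_add hUc ?_)
    refine le_trans (Finset.card_le_card fun b hb => ?_) hEc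
    rw [Finset.mem_filter] at hb ⊢
    exact hb
  have hB : ∀ b ∉ B0, ∀ n : ℕ, Rough z n → n ≤ X → (n : ZMod d) = (b : ZMod d) → g n = E b := by
    intro b hb n hn1 hn2 hn3
    rw [hB0, Finset.mem_union, not_or, Finset.mem_filter] at hb
    have h5 : F b = E b := by
      by_contra h6
      exact hb.2 ⟨Finset.mem_univ _, h6⟩
    rw [← h5]
    exact hU b hb.1 n hn1 hn2 hn3
  let κ : ℕ → (ZMod d)ˣ := fun n => if h : n.Coprime d then ZMod.unitOfCoprime n h else 1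
  have hκ : ∀ n : ℕ, n.Coprime d → ((κ n : (ZMod d)ˣ) : ZMod d) = (n : ZMod d) := by
    intro n h
    show (((if h : n.Coprime d then ZMod.unitOfCoprime n h else 1 : (ZMod d)ˣ)) : ZMod d) = _
    rw [dif_pos h, ZMod.coe_unitOfCoprime]
  have hbad := bad_pairs d z X2 X T g hg E B0 hB h2 hT κ hκ
  have hPc : ∀ c : (ZMod d)ˣ, P ≤ ((RC d z X2).filter (fun n => κ n * c⁻¹ ∈ Hgen d z Y)).card := by
    intro c
    refine (hP c).trans (Finset.card_le_card ?_)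
    intro n hn
    rw [Finset.mem_filter] at hn
    obtain ⟨hn1, hn2, h, hh, hnh⟩ := hn
    have hu : IsUnit (n : ZMod d) := by
      rw [hnh]
      exact Units.isUnit _
    have hcop : n.Coprime d := (ZMod.isUnit_iff_coprime n d).mp hu
    rw [Finset.mem_filter]
    constructor
    · unfold RC
      rw [Finset.mem_filter]
      exact ⟨hn1, hn2, hcop⟩
    · have h6 : κ n = c * h := by
        apply Units.ext
        rw [hκ n hcop, hnh]
      rw [h6, mul_comm c h, mul_inv_cancel_right]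
      exact hh
  obtain ⟨ψ, hψ⟩ := majority (Hgen d z Y) s E hE (RC d z X2) κ g (by
    intro c1 c2
    have h7 : (((RC d z X2) ×ˢ (RC d z X2)).filter (fun p => κ p.1 * c1⁻¹ ∈ Hgen d z Y ∧
        κ p.2 * c2⁻¹ ∈ Hgen d z Y ∧ g p.1 * g p.2 ≠ E (κ p.1 * κ p.2))).card ≤
        (m0 + 2 * m) * (X / d + 1) * T := by
      refine le_trans (Finset.card_le_card ?_) (hbad.trans ?_)
      · intro p hp
        rw [Finset.mem_filter] at hp ⊢
        exact ⟨hp.1, hp.2.2.2⟩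
      · gcongr
    calc _ ≤ 2 * ((m0 + 2 * m) * (X / d + 1) * T) := Nat.mul_le_mul_left 2 h7
      _ < P * P := hPP
      _ ≤ _ := Nat.mul_le_mul (hPc c1) (hPc c2))
  refine ⟨ψ, B0, hB0c, ?_⟩
  intro b hb n hn1 hn2 hn3
  rw [hB b hb n hn1 hn2 hn3, hψ]

end Pool.Agent.Lib.MP_42948a_nt.AC
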