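import Pool.Agent.Lib.MP_42948a_nt.AC.G1
import Pool.Agent.Lib.MP_42948a_nt.AC.G2
import Pool.Agent.Lib.MP_42948a_nt.AC.G3

/-!
# The function of classes is almost equivariant (job GS1)

Every `u ∈ smallU d z Y` (class of a rough `v ≤ Y`) has `F (u * b) = g v * F b` unless `u * b ∈ U`: with `n` the rough number `≤ X1` of
class `b` (`hn`), `v n ≤ X1 * Y ≤ X` is rough of class `u b`, so `F (u b) = g (v n) = g v * g n = g v * F b`. So the number of
exceptions is at most `#U ≤ m0` (bijection `b ↦ u b`). By `word_error` (with `m = m0`) and `word_length` (`V`, `C`; `Hgen_eq`) every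
`h ∈ Hgen d z Y` has a sign with at most `C (2k+1) m0` exceptions. Apply `equivariant`.
-/

namespace Pool.Agent.Lib.MP_42948a_nt.AC

open Finset Pool.Agent.Lib.MP_42948a_nt.OA

theorem struct1 (d z X1 Y X k C m0 : ℕ) [NeZero d] (g : ℕ → ℤˣ)
    (hg : ∀ m n : ℕ, 0 < m → 0 < n → g (m * n) = g m * g n) (U : Finset (ZMod d)ˣ) (F : (ZMod d)ˣ → ℤˣ)
    (hU : ∀ b ∉ U, ∀ n : ℕ, Rough z n → n ≤ X → (n : ZMod d) = (b : ZMod d) → g n = F b)
    (hn : ∀ b : (ZMod d)ˣ, ∃ n : ℕ, Rough z n ∧ n ≤ X1 ∧ (n : ZMod d) = (b : ZMod d) ∧ g n = F b)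
    (h1 : X1 * Y ≤ X) (hUc : U.card ≤ m0)
    (V : Finset (ZMod d)ˣ) (hV : ∀ v ∈ V, v ∈ Word (smallU d z Y) k) (hne : V.Nonempty)
    (hC : Nat.card (Hgen d z Y) ≤ C * V.card)
    (h3 : 3 * (C * (2 * k + 1) * m0) < Fintype.card (ZMod d)ˣ) :
    ∃ (s : Hgen d z Y →* ℤˣ) (E : (ZMod d)ˣ → ℤˣ),
      (∀ (h : Hgen d z Y) (c : (ZMod d)ˣ), E ((h : (ZMod d)ˣ) * c) = s h * E c) ∧
      ((univ : Finset (ZMod d)ˣ).filter (fun b => F b ≠ E b)).card ≤ 2 * (C * (2 * k + 1) * m0) := by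
  have step : ∀ u ∈ smallU d z Y, ∃ t : ℤˣ,
      ((univ : Finset (ZMod d)ˣ).filter (fun b => F (u * b) ≠ t * F b)).card ≤ m0 := by
    rintro u ⟨v, hv, hvY, hvu⟩
    refine ⟨g v, le_trans ?_ hUc⟩
    refine Finset.card_le_card_of_injOn (fun b => u * b) ?_ (fun a _ b _ h => mul_left_cancel h)
    intro b hb
    rw [Finset.mem_coe, Finset.mem_filter] at hb
    rw [Finset.mem_coe]
    by_contra hcon
    apply hb.2
    obtain ⟨n, hn1, hn2, hn3, hn4⟩ := hn b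
    have hX : v * n ≤ X := by
      calc v * n ≤ Y * X1 := Nat.mul_le_mul hvY hn2
        _ = X1 * Y := Nat.mul_comm _ _
        _ ≤ X := h1
    have hcl : ((v * n : ℕ) : ZMod d) = ((u * b : (ZMod d)ˣ) : ZMod d) := by
      rw [Nat.cast_mul, hvu, hn3, Units.val_mul]
    have h2 := hU (u * b) hcon (v * n) (hv.mul hn1) hX hcl
    rw [← h2, hg v n hv.1 hn1.1, hn4]
  have herr := word_error (smallU d z Y) F m0 step (C * (2 * k + 1))
  have hlen := word_length (smallU d z Y) V k C hV hne hC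
  exact equivariant (Hgen d z Y) F (C * (2 * k + 1) * m0) (fun h hh => herr h (hlen h hh)) h3

end Pool.Agent.Lib.MP_42948a_nt.AC
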