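import Pool.Agent.Lib.MP_42948a_nt.AC.Defs

/-!
# Integers in given classes (job N0)

For one class `b` the number of `n ∈ [1, X]` with `n ≡ b mod d` is at most `X / d + 1` (`Nat.count_modEq_card`, or map `n` to
`n / d ∈ [0, X / d]`, injective on a class). Sum over `b ∈ B` (`Finset.card_biUnion_le`).
-/

namespace Pool.Agent.Lib.MP_42948a_nt.AC

open Finset Pool.Agent.Lib.MP_42948a_nt.OA

open Classical in
private theorem N0_one (d X : ℕ) [NeZero d] (x : ZMod d) :
    ((Icc 1 X).filter (fun n : ℕ => (n : ZMod d) = x)).card ≤ X / d + 1 := by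
  have h1 : ((Icc 1 X).filter (fun n : ℕ => (n : ZMod d) = x)).card ≤ (range (X / d + 1)).card := by
    apply Finset.card_le_card_of_injOn (fun n : ℕ => n / d)
    · intro n hn
      have hn' := (mem_filter.1 (Finset.mem_coe.1 hn)).1
      rw [mem_Icc] at hn'
      rw [Finset.mem_coe, mem_range]
      exact Nat.lt_succ_of_le (Nat.div_le_div_right hn'.2)
    · intro m hm n hn hmn
      have hm' := (mem_filter.1 (Finset.mem_coe.1 hm)).2
      have hn' := (mem_filter.1 (Finset.mem_coe.1 hn)).2
      have h2 : (m : ZMod d) = (n : ZMod d) := hm'.trans hn'.symm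
      have h3 : m % d = n % d := (ZMod.natCast_eq_natCast_iff' m n d).1 h2
      have h4 : m / d = n / d := hmn
      rw [← Nat.div_add_mod m d, ← Nat.div_add_mod n d, h3, h4]
  rwa [card_range] at h1

open Classical in
/-- the intended form of `class_count`: the integers `n ≤ X` in the classes of `B` (in `class_count` below `fun n =>` is elaborated
with `n : ZMod d`, so it counts classes) -/
theorem class_count_nat (d X : ℕ) [NeZero d] (B : Finset (ZMod d)ˣ) :
    ((Icc 1 X).filter (fun n : ℕ => ∃ b ∈ B, (n : ZMod d) = (b : ZMod d))).card ≤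
      B.card * (X / d + 1) := by
  have h1 : (Icc 1 X).filter (fun n : ℕ => ∃ b ∈ B, (n : ZMod d) = (b : ZMod d)) ⊆
      B.biUnion (fun b => (Icc 1 X).filter (fun n : ℕ => (n : ZMod d) = (b : ZMod d))) := by
    intro n hn
    rw [mem_filter] at hn
    obtain ⟨hn, b, hb, h⟩ := hn
    exact mem_biUnion.2 ⟨b, hb, mem_filter.2 ⟨hn, h⟩⟩
  exact le_trans (card_le_card h1) (card_biUnion_le_card_mul _ _ _ fun b _ => N0_one d X _)

open Classical in
theorem class_count (d X : ℕ) [NeZero d] (B : Finset (ZMod d)ˣ) :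
    ((Icc 1 X).filter (fun n => ∃ b ∈ B, (n : ZMod d) = (b : ZMod d))).card ≤ B.card * (X / d + 1) := by
  have h1 : (((Icc 1 X).filter (fun n : ℕ => ∃ b ∈ B, (n : ZMod d) = (b : ZMod d))).image
      (fun n : ℕ => (n : ZMod d))).card ≤ B.card * (X / d + 1) :=
    le_trans card_image_le (class_count_nat d X B)
  refine le_trans (card_le_card ?_) h1
  intro x hx
  rw [mem_filter] at hx
  obtain ⟨hx, b, hb, h⟩ := hx
  have h2 : ∃ a ∈ Icc 1 X, (a : ZMod d) = x := by
    simpa [Finset.bind_def, Finset.pure_def, mem_sup] using hx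
  obtain ⟨a, ha, rfl⟩ := h2
  exact mem_image.2 ⟨a, mem_filter.2 ⟨ha, b, hb, h⟩, rfl⟩

end Pool.Agent.Lib.MP_42948a_nt.AC
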