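import Pool.Agent.Lib.MP_42948a_nt.AC.Defs
import Pool.Agent.Lib.MP_42948a_nt.OA.EG

/-!
# The number of rough numbers in a coset (job N1)

This is the proof of `exists_rough_coset` in `OA/EI.lean` (copy it), keeping the cardinality instead of deducing nonemptiness: the sum
of `1` over `A.filter (∀ p ∈ PP z, ¬ p ∣ n)` is its cardinality and this set is contained in the set on the right.
-/

namespace Pool.Agent.Lib.MP_42948a_nt.AC

open Finset Pool.Agent.Lib.MP_42948a_nt.OA

open Classical in
theorem card_rough_coset (K : ℕ) (hK : SieveProp K) (z d N : ℕ) (hz : 2 ≤ z) [NeZero d]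
    (H : Subgroup (ZMod d)ˣ) (q : (ZMod d)ˣ) :
    (N : ℝ) * (Nat.card H : ℝ) / (4 * d * (z : ℝ) ^ 2) - (z : ℝ) ^ K * (1 + BB d) ≤
      (((Icc 1 N).filter (fun n => Rough z n ∧ ∃ h ∈ H, (n : ZMod d) = ((q * h : (ZMod d)ˣ) : ZMod d))).card : ℝ) := by
  classical
  have hd0 : (0 : ℝ) < d := by exact_mod_cast Nat.pos_of_ne_zero (NeZero.ne d)
  have hd1 : (1 : ℝ) ≤ d := by exact_mod_cast Nat.pos_of_ne_zero (NeZero.ne d)
  have hz0 : (0 : ℝ) < z := by
    have : 0 < z := by omega
    exact_mod_cast this
  have hB : 0 ≤ BB d := by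
    unfold BB
    have := Real.log_nonneg hd1
    positivity
  set A : Finset ℕ := cls N ∅ (cosetSet H q) with hA
  set g : ℕ → ℝ := fun p => if p ∣ d then 0 else 1 / p with hg
  set X : ℝ := (N : ℝ) * (Nat.card H : ℝ) / d with hX
  have key := hK z hz A (fun _ => 1) g X (1 + BB d) (fun _ _ => zero_le_one) ?_ (by positivity)
    (by positivity) ?_
  · -- conclusion
    have h1 : X / (4 * (z : ℝ) ^ 2) = (N : ℝ) * (Nat.card H : ℝ) / (4 * d * (z : ℝ) ^ 2) := by
      rw [hX]; field_simp
    rw [h1, sum_const, nsmul_eq_mul, mul_one] at key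
    refine key.trans ?_
    have hsub : A.filter (fun n => ∀ p ∈ PP z, ¬ p ∣ n) ⊆ (Icc 1 N).filter (fun n => Rough z n ∧
        ∃ h ∈ H, (n : ZMod d) = ((q * h : (ZMod d)ˣ) : ZMod d)) := by
      intro n hn
      rw [mem_filter] at hn
      obtain ⟨hn1, hn2⟩ := hn
      rw [hA] at hn1
      unfold cls at hn1
      rw [mem_filter, mem_Icc] at hn1
      obtain ⟨⟨hn3, hn4⟩, -, hn5⟩ := hn1
      rw [mem_filter, mem_Icc]
      refine ⟨⟨hn3, hn4⟩, ⟨hn3, fun p hp hpn => ?_⟩, hn5⟩
      by_contra hcon
      push Not at hcon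
      refine hn2 p ?_ hpn
      unfold PP
      rw [mem_filter, mem_Icc]
      exact ⟨⟨hp.one_le, hcon⟩, hp⟩
    exact_mod_cast card_le_card hsub
  · -- densities
    intro p hp
    unfold PP at hp
    rw [mem_filter, mem_Icc] at hp
    have hp2 : (2 : ℝ) ≤ p := by exact_mod_cast hp.2.two_le
    have hp0 : (0 : ℝ) < p := by linarith
    simp only [hg]
    split_ifs with h
    · refine ⟨le_refl _, by norm_num, by positivity⟩
    · refine ⟨by positivity, ?_, ?_⟩
      · rw [div_le_iff₀ hp0]; linarith
      · gcongr; norm_num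
  · -- remainders
    intro T hT _
    have hTp : ∀ p ∈ T, p.Prime := by
      intro p hp
      have := hT hp
      unfold PP at this
      rw [mem_filter] at this
      exact this.2
    have hsum : ∑ n ∈ A.filter (fun n => ∀ p ∈ T, p ∣ n), (1 : ℝ) = ((cls N T (cosetSet H q)).card : ℝ) := by
      rw [sum_const, nsmul_eq_mul, mul_one]
      congr 2
      ext n
      rw [hA]
      unfold cls
      simp only [mem_filter, mem_Icc, notMem_empty, false_implies, implies_true, true_and]
      tauto
    rw [hsum]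
    by_cases hex : ∃ p ∈ T, p ∣ d
    · obtain ⟨p, hpT, hpd⟩ := hex
      have h1 : ∏ p ∈ T, g p = 0 := by
        apply prod_eq_zero hpT
        simp only [hg]
        rw [if_pos hpd]
      have h2 : cls N T (cosetSet H q) = ∅ := by
        rw [eq_empty_iff_forall_notMem]
        intro n hn
        unfold cls at hn
        rw [mem_filter, mem_Icc] at hn
        obtain ⟨-, hn1, h, hh, hn2⟩ := hn
        have hu : IsUnit (n : ZMod d) := by
          rw [hn2]; exact Units.isUnit _
        rw [ZMod.isUnit_iff_coprime] at hu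
        have := Nat.dvd_gcd (hn1 p hpT) hpd
        rw [hu] at this
        exact (hTp p hpT).one_lt.ne' (Nat.dvd_one.mp this)
      rw [h1, h2]
      simp
      positivity
    · push Not at hex
      have h1 : ∏ p ∈ T, g p = 1 / ∏ p ∈ T, (p : ℝ) := by
        rw [one_div, ← prod_inv_distrib]
        apply prod_congr rfl
        intro p hp
        simp only [hg]
        rw [if_neg (hex p hp), one_div]
      have h2 := coset_count_mul d H q T hTp hex N
      rw [h1, hX]
      have h3 : (N : ℝ) * (Nat.card H : ℝ) / d * (1 / ∏ p ∈ T, (p : ℝ)) =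
          (N : ℝ) * (Nat.card H : ℝ) / (d * ∏ p ∈ T, (p : ℝ)) := by
        rw [div_mul_div_comm, mul_one]
      rw [h3]
      exact h2

end Pool.Agent.Lib.MP_42948a_nt.AC
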