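import Pool.Agent.Lib.MP_42948a_nt.AC.Defs

/-!
# Many short words (job N2)

The proof of `card_Hgen` in `OA/FA.lean` (copy it): take `V` = the image of `S` under `f ↦ ∏ i, ZMod.unitOfCoprime (f i) _`
(e.g. `V = (S.image P).attach.image F` with the `F` of that proof, or the set of all units of the form `∏ i, c i` that are classes
of `P f`). Each element of `V` is a product of `k` elements of `smallU d z Y` (use the list `List.ofFn`), so it is in `Word _ k`.
-/

namespace Pool.Agent.Lib.MP_42948a_nt.AC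

open Finset Pool.Agent.Lib.MP_42948a_nt.OA

theorem exists_V (d z Y k : ℕ) (hd : 2 ≤ d) (hY : Y ^ k ≤ d) :
    ∃ V : Finset (ZMod d)ˣ, (∀ v ∈ V, v ∈ Word (smallU d z Y) k) ∧
      ((primesOff d z Y).card) ^ k ≤ k ^ k * V.card := by
  classical
  have : NeZero d := ⟨by omega⟩
  set Q := primesOff d z Y with hQ
  set S : Finset (Fin k → ℕ) := Fintype.piFinset (fun _ : Fin k => Q) with hS
  set P : (Fin k → ℕ) → ℕ := fun f => ∏ i, f i with hP
  have hmemQ : ∀ p ∈ Q, p.Prime ∧ z < p ∧ p ≤ Y ∧ p.Coprime d := by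
    intro p hp
    rw [hQ] at hp
    unfold primesOff at hp
    rw [mem_filter, mem_Icc] at hp
    exact ⟨hp.2.1, hp.2.2.1, hp.1.2, (Nat.Prime.coprime_iff_not_dvd hp.2.1).2 hp.2.2.2⟩
  have hfS : ∀ f ∈ S, ∀ i, f i ∈ Q := fun f hf i => (Fintype.mem_piFinset.1 hf) i
  have hcardS : S.card = Q.card ^ k := by
    rw [hS, Fintype.card_piFinset_const]
  -- the fibres of the product
  have hfib : ∀ f0 ∈ S, (S.filter fun f => P f = P f0).card ≤ k ^ k := by
    intro f0 hf0
    have h1 : (P f0).primeFactors ⊆ univ.image f0 := by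
      intro p hp
      have hpp := Nat.prime_of_mem_primeFactors hp
      have hd := Nat.dvd_of_mem_primeFactors hp
      obtain ⟨i, _, hi⟩ := (hpp.prime.dvd_finsetProd_iff _).1 hd
      have h2 := (hmemQ _ (hfS f0 hf0 i)).1
      exact mem_image.2 ⟨i, mem_univ _, ((Nat.prime_dvd_prime_iff_eq hpp h2).1 hi).symm⟩
    have h2 : (P f0).primeFactors.card ≤ k :=
      (card_le_card h1).trans (card_image_le.trans (by simp))
    have h3 : (S.filter fun f => P f = P f0) ⊆
        Fintype.piFinset (fun _ : Fin k => (P f0).primeFactors) := by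
      intro f hf
      rw [mem_filter] at hf
      rw [Fintype.mem_piFinset]
      intro i
      have h4 := (hmemQ _ (hfS f hf.1 i)).1
      refine Nat.mem_primeFactors.2 ⟨h4, ?_, ?_⟩
      · rw [← hf.2]
        exact Finset.dvd_prod_of_mem f (mem_univ i)
      · exact Finset.prod_ne_zero_iff.2 fun j _ => (hmemQ _ (hfS f0 hf0 j)).1.ne_zero
    calc (S.filter fun f => P f = P f0).card ≤ _ := card_le_card h3
      _ = (P f0).primeFactors.card ^ k := by rw [Fintype.card_piFinset_const]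
      _ ≤ k ^ k := Nat.pow_le_pow_left h2 k
  have hcop : ∀ f ∈ S, (P f).Coprime d := fun f hf =>
    Nat.Coprime.prod_left fun i _ => (hmemQ _ (hfS f hf i)).2.2.2
  have hlt : ∀ f ∈ S, P f < d := by
    intro f hf
    have h1 : P f ≤ Y ^ k := by
      calc P f ≤ ∏ _i : Fin k, Y := Finset.prod_le_prod' fun i _ => (hmemQ _ (hfS f hf i)).2.2.1
        _ = Y ^ k := by simp
    rcases Nat.lt_or_ge (P f) d with h2 | h2
    · exact h2
    · have h3 : P f = d := le_antisymm (h1.trans hY) h2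
      have h4 := hcop f hf
      rw [h3, Nat.coprime_self] at h4
      omega
  -- the classes
  let c : ℕ → (ZMod d)ˣ := fun p => if h : p.Coprime d then ZMod.unitOfCoprime p h else 1
  have hc : ∀ p ∈ Q, ((c p : (ZMod d)ˣ) : ZMod d) = (p : ZMod d) := by
    intro p hp
    simp only [c]
    rw [dif_pos (hmemQ p hp).2.2.2, ZMod.coe_unitOfCoprime]
  have hcU : ∀ p ∈ Q, c p ∈ smallU d z Y := by
    intro p hp
    refine ⟨p, ⟨(hmemQ p hp).1.pos, fun r hr hrp => ?_⟩, (hmemQ p hp).2.2.1, (hc p hp).symm⟩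
    rw [(Nat.prime_dvd_prime_iff_eq hr (hmemQ p hp).1).1 hrp]
    exact (hmemQ p hp).2.1
  let G : (Fin k → ℕ) → (ZMod d)ˣ := fun f => ∏ i, c (f i)
  have hG : ∀ f ∈ S, ((G f : (ZMod d)ˣ) : ZMod d) = ((P f : ℕ) : ZMod d) := by
    intro f hf
    simp only [G, hP]
    rw [Units.coe_prod, Nat.cast_prod]
    exact Finset.prod_congr rfl fun i _ => hc _ (hfS f hf i)
  refine ⟨S.image G, ?_, ?_⟩
  · intro v hv
    obtain ⟨f, hf, rfl⟩ := mem_image.1 hv
    refine ⟨List.ofFn fun i => c (f i), ?_, ?_, ?_⟩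
    · rw [List.length_ofFn]
    · intro u hu
      obtain ⟨i, rfl⟩ := (List.mem_ofFn' _ _).1 hu
      exact Or.inl (hcU _ (hfS f hf i))
    · exact List.prod_ofFn
  · rw [← hcardS]
    refine card_le_mul_card_image S (k ^ k) ?_
    intro v hv
    obtain ⟨f0, hf0, rfl⟩ := mem_image.1 hv
    refine le_trans (card_le_card ?_) (hfib f0 hf0)
    intro f hf
    rw [mem_filter] at hf ⊢
    refine ⟨hf.1, ?_⟩
    have h1 : ((P f : ℕ) : ZMod d) = ((P f0 : ℕ) : ZMod d) := by
      rw [← hG f hf.1, ← hG f0 hf0, hf.2]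
    rw [ZMod.natCast_eq_natCast_iff] at h1
    exact Nat.ModEq.eq_of_lt_of_lt h1 (hlt f hf.1) (hlt f0 hf0)

end Pool.Agent.Lib.MP_42948a_nt.AC
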