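import Pool.Agent.Lib.MP_42948a_nt.AC.Defs

/-!
# Uniform lower bound for the number of primes (job N3)

Adapt `OA/FB.lean` (copy its private lemmas): `#primesOff d z Y ≥ π(Y) - z - ω(d)`, `ω(d) log 2 ≤ log d`; here `Y ≥ d^α`, so
`z ≤ d^(α/2) ≤ Y^(1/2)`, `log d ≤ (log Y)/α`; and eventually `y^(1-κ) + y^(1/2) + k log y / log 2 ≤ π(⌊y⌋)` (`FB_asym` with
`k = ⌈1/α⌉`, `k * y^(1-κ) ≥ y^(1-κ)`), applied at `y = Y` which is large as `Y ≥ d^α ≥ d0^α`.
-/

namespace Pool.Agent.Lib.MP_42948a_nt.AC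

open Finset Pool.Agent.Lib.MP_42948a_nt.OA

private theorem N3_omega (d : ℕ) (hd : 0 < d) :
    (d.primeFactors.card : ℝ) * Real.log 2 ≤ Real.log d := by
  have h1 : 2 ^ d.primeFactors.card ≤ d := by
    calc 2 ^ d.primeFactors.card = ∏ p ∈ d.primeFactors, 2 := by rw [prod_const]
      _ ≤ ∏ p ∈ d.primeFactors, p :=
        Finset.prod_le_prod (fun _ _ => Nat.zero_le _) fun p hp => (Nat.prime_of_mem_primeFactors hp).two_le
      _ ≤ d := Nat.le_of_dvd hd (Nat.prod_primeFactors_dvd d)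
  have h2 : ((2 : ℝ) ^ d.primeFactors.card) ≤ d := by exact_mod_cast h1
  rw [← Real.log_pow]
  exact Real.log_le_log (by positivity) h2

private theorem N3_card (d z Y : ℕ) (hd : 0 < d) :
    Nat.primeCounting Y ≤ (primesOff d z Y).card + z + d.primeFactors.card := by
  rw [Nat.primeCounting, Nat.primeCounting', Nat.count_eq_card_filter_range]
  refine le_trans (card_le_card (t := primesOff d z Y ∪ Icc 1 z ∪ d.primeFactors) ?_) ?_
  · intro p hp
    rw [mem_filter, mem_range] at hp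
    rw [mem_union, mem_union]
    by_cases h1 : p ≤ z
    · left; right
      rw [mem_Icc]
      exact ⟨hp.2.one_lt.le, h1⟩
    · by_cases h2 : p ∣ d
      · right
        exact Nat.mem_primeFactors.2 ⟨hp.2, h2, hd.ne'⟩
      · left; left
        unfold primesOff
        rw [mem_filter, mem_Icc]
        exact ⟨⟨hp.2.one_lt.le, by omega⟩, hp.2, by omega, h2⟩
  · have h2 := card_union_le (primesOff d z Y ∪ Icc 1 z) d.primeFactors
    have h3 := card_union_le (primesOff d z Y) (Icc 1 z)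
    rw [Nat.card_Icc] at h3
    omega

private theorem N3_log (r c : ℝ) (hr : 0 < r) (hc : 0 < c) :
    ∀ᶠ x : ℝ in Filter.atTop, Real.log x ≤ c * x ^ r := by
  have h := (isLittleO_log_rpow_atTop hr).def hc
  filter_upwards [h, Filter.eventually_ge_atTop (1 : ℝ)] with x hx h1
  rw [Real.norm_eq_abs, Real.norm_eq_abs, abs_of_nonneg (Real.log_nonneg h1),
    abs_of_nonneg (by positivity)] at hx
  exact hx

private theorem N3_asym (k : ℕ) (hk : 1 ≤ k) (κ : ℝ) (hκ : 0 < κ) :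
    ∀ᶠ x : ℝ in Filter.atTop, (k : ℝ) * x ^ (1 - κ) + x ^ (1 / 2 : ℝ) + k * Real.log x / Real.log 2 ≤
      (Nat.primeCounting ⌊x⌋₊ : ℝ) := by
  have hk' : (1 : ℝ) ≤ k := by exact_mod_cast hk
  have e1 := N3_log κ (1 / (100 * k)) hκ (by positivity)
  have e2 := N3_log (1 / 2) (1 / (20 * k)) (by norm_num) (by positivity)
  filter_upwards [e1, e2, Filter.eventually_ge_atTop (1000 : ℝ)] with x h1 h2 hx
  have hx0 : 0 < x := by linarith
  have hL : 0 < Real.log x := Real.log_pos (by linarith)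
  obtain ⟨L, hLd⟩ : ∃ L, Real.log x = L := ⟨_, rfl⟩
  obtain ⟨Y, hY⟩ : ∃ Y, ⌊x⌋₊ = Y := ⟨_, rfl⟩
  have hYx : (Y : ℝ) ≤ x := by rw [← hY]; exact Nat.floor_le hx0.le
  have hYx' : x < Y + 1 := by rw [← hY]; exact Nat.lt_floor_add_one x
  have hY1 : (1 : ℝ) < Y := by linarith
  have hlog2 : Real.log 2 < 0.7 := by linarith [Real.log_two_lt_d9]
  have hlog2' : 0.69 < Real.log 2 := by linarith [Real.log_two_gt_d9]
  have hpi := Chebyshev.pi_ge Y
  rw [div_le_iff₀ (Real.log_pos hY1)] at hpi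
  have hlogY : Real.log Y ≤ L := by
    rw [← hLd]
    exact Real.log_le_log (by linarith) hYx
  have hlogY1 : Real.log (Y + 1) ≤ 1 + L := by
    have h3 : Real.log ((Y : ℝ) + 1) ≤ Real.log (2 * x) := Real.log_le_log (by linarith) (by linarith)
    rw [Real.log_mul (by norm_num) hx0.ne', hLd] at h3
    linarith
  rw [hY, hLd]
  rw [hLd] at h1 h2 hL
  have hp0 : (0 : ℝ) ≤ (Nat.primeCounting Y : ℝ) := Nat.cast_nonneg _
  have hsq : x ^ (1 / 2 : ℝ) * x ^ (1 / 2 : ℝ) = x := by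
    rw [← Real.rpow_add hx0]
    norm_num
  have hhalf : (0 : ℝ) < x ^ (1 / 2 : ℝ) := by positivity
  have hhalf1 : (1 : ℝ) ≤ x ^ (1 / 2 : ℝ) := Real.one_le_rpow (by linarith) (by norm_num)
  have hL2 : L ≤ 1 / 20 * x ^ (1 / 2 : ℝ) := by
    refine le_trans h2 (mul_le_mul_of_nonneg_right ?_ hhalf.le)
    apply one_div_le_one_div_of_le (by norm_num)
    linarith
  have hLx : L ≤ x / 20 := by nlinarith
  have hpiL : x / 2 ≤ (Nat.primeCounting Y : ℝ) * L := by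
    have h3 : (Nat.primeCounting Y : ℝ) * Real.log Y ≤ (Nat.primeCounting Y : ℝ) * L :=
      mul_le_mul_of_nonneg_left hlogY hp0
    have h4 : 0.69 * (x - 1) ≤ (Y : ℝ) * Real.log 2 := by nlinarith
    linarith
  have t1 : (k : ℝ) * x ^ (1 - κ) * L ≤ x / 100 := by
    have h3 : (k : ℝ) * x ^ (1 - κ) * L ≤ (k : ℝ) * x ^ (1 - κ) * (1 / (100 * k) * x ^ κ) :=
      mul_le_mul_of_nonneg_left h1 (by positivity)
    have h4 : x ^ (1 - κ) * x ^ κ = x := by
      rw [← Real.rpow_add hx0]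
      have : 1 - κ + κ = 1 := by ring
      rw [this, Real.rpow_one]
    have h5 : (k : ℝ) * x ^ (1 - κ) * (1 / (100 * k) * x ^ κ) = (x ^ (1 - κ) * x ^ κ) / 100 := by
      field_simp
    rw [h5, h4] at h3
    exact h3
  have t2 : x ^ (1 / 2 : ℝ) * L ≤ x / 20 := by
    have h3 : x ^ (1 / 2 : ℝ) * L ≤ x ^ (1 / 2 : ℝ) * (1 / 20 * x ^ (1 / 2 : ℝ)) :=
      mul_le_mul_of_nonneg_left hL2 hhalf.le
    have h4 : x ^ (1 / 2 : ℝ) * (1 / 20 * x ^ (1 / 2 : ℝ)) = x / 20 := by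
      rw [← mul_assoc, mul_comm (x ^ (1 / 2 : ℝ)) (1 / 20), mul_assoc, hsq]
      ring
    rw [h4] at h3
    exact h3
  have t3 : (k : ℝ) * L / Real.log 2 * L ≤ x / 10 := by
    have h3 : (k : ℝ) * L ≤ 1 / 20 * x ^ (1 / 2 : ℝ) := by
      have h6 := mul_le_mul_of_nonneg_left h2 (by linarith : (0 : ℝ) ≤ k)
      have h7 : (k : ℝ) * (1 / (20 * k) * x ^ (1 / 2 : ℝ)) = 1 / 20 * x ^ (1 / 2 : ℝ) := by
        field_simp
      rw [h7] at h6
      exact h6
    have h4 : (k : ℝ) * L * L ≤ 1 / 20 * x ^ (1 / 2 : ℝ) * (1 / 20 * x ^ (1 / 2 : ℝ)) :=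
      mul_le_mul h3 hL2 hL.le (by positivity)
    have h5 : 1 / 20 * x ^ (1 / 2 : ℝ) * (1 / 20 * x ^ (1 / 2 : ℝ)) = x / 400 := by
      have : 1 / 20 * x ^ (1 / 2 : ℝ) * (1 / 20 * x ^ (1 / 2 : ℝ)) =
          x ^ (1 / 2 : ℝ) * x ^ (1 / 2 : ℝ) / 400 := by ring
      rw [this, hsq]
    rw [h5] at h4
    rw [div_mul_eq_mul_div, div_le_iff₀ (by linarith)]
    nlinarith
  have hfin : ((k : ℝ) * x ^ (1 - κ) + x ^ (1 / 2 : ℝ) + k * L / Real.log 2) * L ≤
      (Nat.primeCounting Y : ℝ) * L := by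
    have : ((k : ℝ) * x ^ (1 - κ) + x ^ (1 / 2 : ℝ) + k * L / Real.log 2) * L =
      (k : ℝ) * x ^ (1 - κ) * L + x ^ (1 / 2 : ℝ) * L + (k : ℝ) * L / Real.log 2 * L := by ring
    rw [this]
    linarith
  exact le_of_mul_le_mul_right hfin hL

theorem primes_unif (α κ : ℝ) (hα : 0 < α) (hκ : 0 < κ) (hκ1 : κ < 1) :
    ∃ d0 : ℕ, ∀ d : ℕ, d0 ≤ d → ∀ z : ℕ, (z : ℝ) ≤ (d : ℝ) ^ (α / 2) → ∀ Y : ℕ, (d : ℝ) ^ α ≤ (Y : ℝ) →
      (Y : ℝ) ^ (1 - κ) ≤ ((primesOff d z Y).card : ℝ) := by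
  obtain ⟨k, hkdef⟩ : ∃ k : ℕ, ⌈1 / α⌉₊ = k := ⟨_, rfl⟩
  have hk : 1 ≤ k := by
    rw [← hkdef]
    exact Nat.one_le_ceil_iff.mpr (by positivity)
  have hkα : 1 / α ≤ k := by
    rw [← hkdef]
    exact Nat.le_ceil _
  obtain ⟨x0, hx0⟩ := Filter.eventually_atTop.1 (N3_asym k hk κ hκ)
  refine ⟨⌈(max x0 1) ^ (1 / α)⌉₊ + 1, ?_⟩
  intro d hd z hz Y hY
  have hd1 : ((max x0 1) ^ (1 / α) : ℝ) ≤ d := by
    have h1 := Nat.le_ceil ((max x0 1) ^ (1 / α))
    have h2 : ((⌈(max x0 1) ^ (1 / α)⌉₊ + 1 : ℕ) : ℝ) ≤ d := by exact_mod_cast hd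
    push_cast at h2
    linarith
  have hdpos : 0 < d := by omega
  have hd0 : (0 : ℝ) < d := by exact_mod_cast hdpos
  have hm0 : (0 : ℝ) ≤ max x0 1 := le_trans zero_le_one (le_max_right _ _)
  have hmx : max x0 1 ≤ (Y : ℝ) := by
    refine le_trans ?_ hY
    have h1 : max x0 1 = ((max x0 1) ^ (1 / α)) ^ α := by
      rw [← Real.rpow_mul hm0, one_div, inv_mul_cancel₀ hα.ne', Real.rpow_one]
    rw [h1]
    exact Real.rpow_le_rpow (by positivity) hd1 hα.le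
  have h := hx0 Y (le_trans (le_max_left _ _) hmx)
  rw [Nat.floor_natCast] at h
  have hYpos : (0 : ℝ) < Y := lt_of_lt_of_le (lt_of_lt_of_le one_pos (le_max_right _ _)) hmx
  have hY1 : (1 : ℝ) ≤ Y := le_trans (le_max_right _ _) hmx
  have hda : (0 : ℝ) < (d : ℝ) ^ α := by positivity
  have e2 : (d : ℝ) ^ (α / 2) ≤ (Y : ℝ) ^ (1 / 2 : ℝ) := by
    have e : (d : ℝ) ^ (α / 2) = ((d : ℝ) ^ α) ^ (1 / 2 : ℝ) := by
      rw [← Real.rpow_mul hd0.le]
      congr 1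
      ring
    rw [e]
    exact Real.rpow_le_rpow hda.le hY (by norm_num)
  have e3 : Real.log d ≤ k * Real.log Y := by
    have h1 : α * Real.log d ≤ Real.log Y := by
      rw [← Real.log_rpow hd0]
      exact Real.log_le_log hda hY
    have h2 : Real.log d = 1 / α * (α * Real.log d) := by
      field_simp
    rw [h2]
    refine le_trans (mul_le_mul_of_nonneg_left h1 (by positivity)) ?_
    exact mul_le_mul_of_nonneg_right hkα (Real.log_nonneg hY1)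
  have h2 := N3_card d z Y hdpos
  have h3 : (Nat.primeCounting Y : ℝ) ≤ (primesOff d z Y).card + z + d.primeFactors.card := by
    exact_mod_cast h2
  have h4 := N3_omega d hdpos
  have hlog2 : 0 < Real.log 2 := Real.log_pos (by norm_num)
  have h5 : (d.primeFactors.card : ℝ) ≤ k * Real.log Y / Real.log 2 := by
    rw [le_div_iff₀ hlog2]
    linarith
  have h6 : (Y : ℝ) ^ (1 - κ) ≤ (k : ℝ) * (Y : ℝ) ^ (1 - κ) := by
    have hk' : (1 : ℝ) ≤ k := by exact_mod_cast hk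
    have h7 : (0 : ℝ) ≤ (Y : ℝ) ^ (1 - κ) := by positivity
    nlinarith
  linarith

end Pool.Agent.Lib.MP_42948a_nt.AC
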