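import Pool.Agent.Lib.MP_42948a_nt.AC.N3

/-!
# Lower bound for the number of rough numbers coprime to `d` (job N4)

If `M < d^η` then `M d^(-2η) ≤ 1 ≤ #RC` as `1 ∈ RC d z M`. If `M ≥ d^η`: `primesOff d z M ⊆ RC d z M` and by `primes_unif` with
`α = κ = η` (`z ≤ d^(η/2)`) there are at least `M^(1-η) = M * M^(-η) ≥ M * d^(-2η)` of them (`M ≤ d^2`).
-/

namespace Pool.Agent.Lib.MP_42948a_nt.AC

open Finset Pool.Agent.Lib.MP_42948a_nt.OA

theorem RC_lower (η : ℝ) (hη : 0 < η) (hη1 : η < 1) :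
    ∃ d0 : ℕ, ∀ d : ℕ, d0 ≤ d → ∀ z : ℕ, (z : ℝ) ≤ (d : ℝ) ^ (η / 2) → ∀ M : ℕ, 1 ≤ M → (M : ℝ) ≤ (d : ℝ) ^ (2 : ℝ) →
      (M : ℝ) * (d : ℝ) ^ (-(2 * η)) ≤ ((RC d z M).card : ℝ) := by
  classical
  obtain ⟨d0, hd0⟩ := primes_unif η η hη hη hη1
  refine ⟨max d0 1, ?_⟩
  intro d hd z hz M hM hM2
  have hd1 : (1 : ℝ) ≤ d := by exact_mod_cast (le_max_right _ _).trans hd
  have hdpos : (0 : ℝ) < d := by linarith
  have hMpos : (0 : ℝ) < M := by exact_mod_cast hM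
  rcases lt_or_ge (M : ℝ) ((d : ℝ) ^ η) with h | h
  · have h1 : 1 ∈ RC d z M := by
      unfold RC
      rw [mem_filter, mem_Icc]
      exact ⟨⟨le_refl _, hM⟩, Rough.one z, Nat.coprime_one_left d⟩
    have h2 : (1 : ℝ) ≤ ((RC d z M).card : ℝ) := by
      exact_mod_cast Finset.card_pos.mpr ⟨1, h1⟩
    refine le_trans ?_ h2
    calc (M : ℝ) * (d : ℝ) ^ (-(2 * η)) ≤ (d : ℝ) ^ η * (d : ℝ) ^ (-(2 * η)) := by
          gcongr
      _ = (d : ℝ) ^ (η + -(2 * η)) := (Real.rpow_add hdpos _ _).symm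
      _ ≤ (d : ℝ) ^ (0 : ℝ) := Real.rpow_le_rpow_of_exponent_le hd1 (by linarith)
      _ = 1 := Real.rpow_zero _
  · have h1 := hd0 d ((le_max_left _ _).trans hd) z hz M h
    have h2 : primesOff d z M ⊆ RC d z M := by
      intro p hp
      unfold primesOff at hp
      rw [mem_filter, mem_Icc] at hp
      unfold RC
      rw [mem_filter, mem_Icc]
      refine ⟨hp.1, ⟨hp.2.1.pos, ?_⟩, (Nat.Prime.coprime_iff_not_dvd hp.2.1).2 hp.2.2.2⟩
      intro q hq hqp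
      rw [(Nat.prime_dvd_prime_iff_eq hq hp.2.1).1 hqp]
      exact hp.2.2.1
    have h3 : ((primesOff d z M).card : ℝ) ≤ ((RC d z M).card : ℝ) := by
      exact_mod_cast card_le_card h2
    refine le_trans ?_ (h1.trans h3)
    have h4 : (M : ℝ) ^ (1 - η) = M * (M : ℝ) ^ (-η) := by
      rw [sub_eq_add_neg, Real.rpow_add hMpos, Real.rpow_one]
    rw [h4]
    refine mul_le_mul_of_nonneg_left ?_ hMpos.le
    have h5 : (M : ℝ) ^ η ≤ (d : ℝ) ^ (2 * η) := by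
      calc (M : ℝ) ^ η ≤ ((d : ℝ) ^ (2 : ℝ)) ^ η := Real.rpow_le_rpow hMpos.le hM2 hη.le
        _ = (d : ℝ) ^ (2 * η) := by rw [← Real.rpow_mul hdpos.le]
    rw [Real.rpow_neg hdpos.le, Real.rpow_neg hMpos.le]
    exact inv_anti₀ (Real.rpow_pos_of_pos hMpos _) h5

end Pool.Agent.Lib.MP_42948a_nt.AC
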