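import Pool.Agent.Lib.MP_42948a_nt.AC.Defs

/-!
# Products of primes (job N5a)

As in `OA/FA.lean` (copy): for `f : Fin j → primesOff d z P` the product `∏ i, f i ≤ P^j ≤ D` lies in `SS d z w D` (rough, coprime to
`d`, prime factors among the `f i ≤ P ≤ w`), and each value is taken at most `j^j` times (all `f i` are among the at most `j` distinct
prime factors). `Finset.card_le_mul_card_image`.
-/

namespace Pool.Agent.Lib.MP_42948a_nt.AC

open Finset Pool.Agent.Lib.MP_42948a_nt.OA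

theorem SS_products (d z w D P j : ℕ) (hPw : P ≤ w) (hPD : P ^ j ≤ D) :
    ((primesOff d z P).card) ^ j ≤ j ^ j * (SS d z w D).card := by
  classical
  set Q := primesOff d z P with hQ
  set S : Finset (Fin j → ℕ) := Fintype.piFinset (fun _ : Fin j => Q) with hS
  set PR : (Fin j → ℕ) → ℕ := fun f => ∏ i, f i with hP
  have hmemQ : ∀ p ∈ Q, p.Prime ∧ z < p ∧ p ≤ P ∧ p.Coprime d := by
    intro p hp
    rw [hQ] at hp
    unfold primesOff at hp
    rw [mem_filter, mem_Icc] at hp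
    exact ⟨hp.2.1, hp.2.2.1, hp.1.2, (Nat.Prime.coprime_iff_not_dvd hp.2.1).2 hp.2.2.2⟩
  have hfS : ∀ f ∈ S, ∀ i, f i ∈ Q := fun f hf i => (Fintype.mem_piFinset.1 hf) i
  have hcardS : S.card = Q.card ^ j := by
    rw [hS, Fintype.card_piFinset_const]
  have hdvd : ∀ f ∈ S, ∀ p : ℕ, p.Prime → p ∣ PR f → ∃ i, f i = p := by
    intro f hf p hpp hd
    obtain ⟨i, _, hi⟩ := (hpp.prime.dvd_finsetProd_iff _).1 hd
    exact ⟨i, ((Nat.prime_dvd_prime_iff_eq hpp (hmemQ _ (hfS f hf i)).1).1 hi).symm⟩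
  have hfib : ∀ m ∈ S.image PR, (S.filter fun f => PR f = m).card ≤ j ^ j := by
    intro m hm
    obtain ⟨f0, hf0, rfl⟩ := mem_image.1 hm
    have h1 : (PR f0).primeFactors ⊆ univ.image f0 := by
      intro p hp
      obtain ⟨i, hi⟩ := hdvd f0 hf0 p (Nat.prime_of_mem_primeFactors hp) (Nat.dvd_of_mem_primeFactors hp)
      exact mem_image.2 ⟨i, mem_univ _, hi⟩
    have h2 : (PR f0).primeFactors.card ≤ j :=
      (card_le_card h1).trans (card_image_le.trans (by simp))
    have h3 : (S.filter fun f => PR f = PR f0) ⊆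
        Fintype.piFinset (fun _ : Fin j => (PR f0).primeFactors) := by
      intro f hf
      rw [mem_filter] at hf
      rw [Fintype.mem_piFinset]
      intro i
      have h4 := (hmemQ _ (hfS f hf.1 i)).1
      refine Nat.mem_primeFactors.2 ⟨h4, ?_, ?_⟩
      · rw [← hf.2]
        exact Finset.dvd_prod_of_mem f (mem_univ i)
      · exact Finset.prod_ne_zero_iff.2 fun k _ => (hmemQ _ (hfS f0 hf0 k)).1.ne_zero
    calc (S.filter fun f => PR f = PR f0).card ≤ _ := card_le_card h3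
      _ = (PR f0).primeFactors.card ^ j := by rw [Fintype.card_piFinset_const]
      _ ≤ j ^ j := Nat.pow_le_pow_left h2 j
  have hmain := card_le_mul_card_image S (j ^ j) hfib
  rw [hcardS] at hmain
  refine hmain.trans (Nat.mul_le_mul_left _ (card_le_card ?_))
  intro m hm
  obtain ⟨f, hf, rfl⟩ := mem_image.1 hm
  have hpos : 0 < PR f := Finset.prod_pos fun i _ => (hmemQ _ (hfS f hf i)).1.pos
  have hle : PR f ≤ D := by
    calc PR f ≤ ∏ _i : Fin j, P := Finset.prod_le_prod' fun i _ => (hmemQ _ (hfS f hf i)).2.2.1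
      _ = P ^ j := by simp
      _ ≤ D := hPD
  unfold SS
  rw [mem_filter, mem_Icc]
  refine ⟨⟨hpos, hle⟩, ⟨hpos, ?_⟩, Nat.Coprime.prod_left fun i _ => (hmemQ _ (hfS f hf i)).2.2.2, ?_⟩
  · intro p hp hpf
    obtain ⟨i, hi⟩ := hdvd f hf p hp hpf
    rw [← hi]
    exact (hmemQ _ (hfS f hf i)).2.1
  · intro p hp hpf
    obtain ⟨i, hi⟩ := hdvd f hf p hp hpf
    rw [← hi]
    exact ((hmemQ _ (hfS f hf i)).2.2.1).trans hPw

end Pool.Agent.Lib.MP_42948a_nt.AC
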