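import Pool.Agent.Lib.MP_42948a_nt.AC.N3
import Pool.Agent.Lib.MP_42948a_nt.AC.N5a

/-!
# Lower bound for the number of rough numbers with small prime factors (job N5)

Let `w = ⌊d^(20η)⌋`, `d^(10η) ≤ D ≤ d^2`, and let `j = ⌈log D / log (d^(20η))⌉ ≥ 1`, so that
`(d^(20η))^(j-1) < D ≤ (d^(20η))^j` (or `j = 1` if `D ≤ d^(20η)`), and `j ≤ J := ⌈2/(20η)⌉ + 1`. Let `P = ⌊D^(1/j)⌋`. Then
`D^(1/j) ≤ d^(20η)`, so `P ≤ w`; `P^j ≤ D`; and `D^(1/j) ≥ d^(10η)` (for `j = 1` by hypothesis; for `j ≥ 2`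
`D^(1/j) > d^(20η (j-1)/j) ≥ d^(10η)`), hence `P ≥ D^(1/j)/2` and `P ≥ d^(10η)/2 ≥ d^(9η)` for large `d`. By `primes_unif` with
`α = 9η`, `κ = η/4` (`z ≤ d^η ≤ d^(α/2)`): `#primesOff d z P ≥ P^(1-η/4) ≥ P * P^(-η/4)`, so with `SS_products`
`#SS ≥ (P^(1-η/4))^j / j^j ≥ (P^j)^(1-η/4) / j^j ≥ (D / 2^j)^(1-η/4) / j^j ≥ D * D^(-η/4) / (2j)^j ≥ D d^(-η/2) / (2J)^J ≥ D d^(-2η)`
for large `d` (`d^(3η/2) ≥ (2J)^J`).
-/

namespace Pool.Agent.Lib.MP_42948a_nt.AC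

open Finset Pool.Agent.Lib.MP_42948a_nt.OA

private theorem N5_large (r C : ℝ) (hr : 0 < r) : ∃ d0 : ℕ, ∀ d : ℕ, d0 ≤ d → C ≤ (d : ℝ) ^ r := by
  have h := (tendsto_rpow_atTop hr).comp tendsto_natCast_atTop_atTop
  obtain ⟨d0, h0⟩ := Filter.eventually_atTop.1 (h.eventually_ge_atTop C)
  exact ⟨d0, fun d hd => h0 d hd⟩

private theorem N5_exists_j (η L E : ℝ) (hη : 0 < η) (hL : 0 < L) (hE1 : 10 * η * L ≤ E)
    (hE2 : E ≤ 2 * L) :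
    ∃ j : ℕ, 1 ≤ j ∧ E ≤ j * (20 * η * L) ∧ j * (10 * η * L) ≤ E ∧ j ≤ ⌈1 / (10 * η)⌉₊ + 1 := by
  have hA : 0 < 20 * η * L := by positivity
  have hE : 0 < E := lt_of_lt_of_le (by positivity) hE1
  obtain ⟨j, hj⟩ : ∃ j : ℕ, ⌈E / (20 * η * L)⌉₊ = j := ⟨_, rfl⟩
  have h1 : 1 ≤ j := by
    rw [← hj]
    exact Nat.one_le_ceil_iff.mpr (by positivity)
  have h2 : E ≤ j * (20 * η * L) := by
    rw [← div_le_iff₀ hA, ← hj]
    exact Nat.le_ceil _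
  have h3 : ((j : ℝ) - 1) * (20 * η * L) < E := by
    rw [← lt_div_iff₀ hA]
    have h4 : (j : ℝ) < E / (20 * η * L) + 1 := by
      rw [← hj]
      exact Nat.ceil_lt_add_one (by positivity)
    linarith
  refine ⟨j, h1, h2, ?_, ?_⟩
  · rcases Nat.lt_or_ge 1 j with h5 | h5
    · have h6 : (2 : ℝ) ≤ j := by exact_mod_cast h5
      nlinarith [mul_pos hη hL]
    · have h6 : j = 1 := by omega
      rw [h6, Nat.cast_one, one_mul]
      exact hE1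
  · have h5 : ((j : ℝ) - 1) * (20 * η * L) < 2 * L := by linarith
    have h6 : (j : ℝ) - 1 < 1 / (10 * η) := by
      rw [lt_div_iff₀ (by positivity)]
      have h7 : (((j : ℝ) - 1) * (10 * η)) * (2 * L) < 1 * (2 * L) := by
        calc (((j : ℝ) - 1) * (10 * η)) * (2 * L) = ((j : ℝ) - 1) * (20 * η * L) := by ring
          _ < 2 * L := h5
          _ = 1 * (2 * L) := by ring
      exact lt_of_mul_lt_mul_right h7 (by positivity)
    have h7 : (j : ℝ) < ((⌈1 / (10 * η)⌉₊ + 1 : ℕ) : ℝ) := by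
      have h8 := Nat.le_ceil (1 / (10 * η))
      push_cast
      linarith
    have h8 : j < ⌈1 / (10 * η)⌉₊ + 1 := by exact_mod_cast h7
    omega

theorem SS_lower (η : ℝ) (hη : 0 < η) (hη1 : η ≤ 1 / 40) :
    ∃ d0 : ℕ, ∀ d : ℕ, d0 ≤ d → ∀ z : ℕ, (z : ℝ) ≤ (d : ℝ) ^ η → ∀ D : ℕ, (d : ℝ) ^ (10 * η) ≤ (D : ℝ) →
      (D : ℝ) ≤ (d : ℝ) ^ (2 : ℝ) →
      (D : ℝ) * (d : ℝ) ^ (-(2 * η)) ≤ ((SS d z ⌊(d : ℝ) ^ (20 * η)⌋₊ D).card : ℝ) := by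
  obtain ⟨d1, h1⟩ := primes_unif (9 * η) (η / 4) (by positivity) (by positivity) (by linarith)
  obtain ⟨d2, h2⟩ := N5_large η 2 hη
  obtain ⟨J, hJ⟩ : ∃ J : ℕ, ⌈1 / (10 * η)⌉₊ + 1 = J := ⟨_, rfl⟩
  obtain ⟨d3, h3⟩ := N5_large (3 * η / 2) ((2 * (J : ℝ)) ^ J) (by positivity)
  refine ⟨max (max d1 d2) (max d3 2), ?_⟩
  intro d hd z hz D hD1 hD2
  have hd1 : d1 ≤ d := le_trans (le_trans (le_max_left _ _) (le_max_left _ _)) hd
  have hd2 : d2 ≤ d := le_trans (le_trans (le_max_right _ _) (le_max_left _ _)) hd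
  have hd3 : d3 ≤ d := le_trans (le_trans (le_max_left _ _) (le_max_right _ _)) hd
  have hd4 : 2 ≤ d := le_trans (le_trans (le_max_right _ _) (le_max_right _ _)) hd
  have hdr : (2 : ℝ) ≤ d := by exact_mod_cast hd4
  have hd0 : (0 : ℝ) < d := by linarith
  have hL : 0 < Real.log d := Real.log_pos (by linarith)
  have hη2 := h2 d hd2
  have hJd := h3 d hd3
  have hda : (0 : ℝ) < (d : ℝ) ^ (10 * η) := by positivity
  have hD0 : (0 : ℝ) < D := lt_of_lt_of_le hda hD1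
  have hE1 : 10 * η * Real.log d ≤ Real.log D := by
    rw [← Real.log_rpow hd0]
    exact Real.log_le_log hda hD1
  have hE2 : Real.log D ≤ 2 * Real.log d := by
    rw [← Real.log_rpow hd0]
    exact Real.log_le_log hD0 hD2
  obtain ⟨j, hj1, hj2, hj3, hj4⟩ := N5_exists_j η (Real.log d) (Real.log D) hη hL hE1 hE2
  rw [hJ] at hj4
  have hjr : (1 : ℝ) ≤ j := by exact_mod_cast hj1
  have hj0 : (0 : ℝ) < j := by linarith
  have hjne : j ≠ 0 := by omega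
  obtain ⟨x, hx⟩ : ∃ x : ℝ, (D : ℝ) ^ (1 / (j : ℝ)) = x := ⟨_, rfl⟩
  have hx0 : 0 < x := by
    rw [← hx]
    positivity
  have hlx : (j : ℝ) * Real.log x = Real.log D := by
    rw [← hx, Real.log_rpow hD0]
    field_simp
  have hxj : x ^ j = D := by
    rw [← hx, one_div]
    exact Real.rpow_inv_natCast_pow hD0.le hjne
  have hxA : x ≤ (d : ℝ) ^ (20 * η) := by
    rw [← Real.log_le_log_iff hx0 (by positivity), Real.log_rpow hd0]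
    have h5 : (j : ℝ) * Real.log x ≤ j * (20 * η * Real.log d) := by
      rw [hlx]
      exact hj2
    exact le_of_mul_le_mul_left h5 hj0
  have hxB : (d : ℝ) ^ (10 * η) ≤ x := by
    rw [← Real.log_le_log_iff hda hx0, Real.log_rpow hd0]
    have h5 : (j : ℝ) * (10 * η * Real.log d) ≤ j * Real.log x := by
      rw [hlx]
      exact hj3
    exact le_of_mul_le_mul_left h5 hj0
  have h9 : 2 * (d : ℝ) ^ (9 * η) ≤ (d : ℝ) ^ (10 * η) := by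
    have h6 : (d : ℝ) ^ (10 * η) = (d : ℝ) ^ η * (d : ℝ) ^ (9 * η) := by
      rw [← Real.rpow_add hd0]
      congr 1
      ring
    rw [h6]
    exact mul_le_mul_of_nonneg_right hη2 (by positivity)
  have h91 : (1 : ℝ) ≤ (d : ℝ) ^ (9 * η) := Real.one_le_rpow (by linarith) (by positivity)
  obtain ⟨P, hP⟩ : ∃ P : ℕ, ⌊x⌋₊ = P := ⟨_, rfl⟩
  have hPx : (P : ℝ) ≤ x := by
    rw [← hP]
    exact Nat.floor_le hx0.le
  have hPx' : x / 2 ≤ (P : ℝ) := by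
    have h5 : x < P + 1 := by
      rw [← hP]
      exact Nat.lt_floor_add_one x
    linarith
  have hPw : P ≤ ⌊(d : ℝ) ^ (20 * η)⌋₊ := by
    rw [← hP]
    exact Nat.floor_mono hxA
  have hPD : P ^ j ≤ D := by
    have h5 : ((P : ℝ)) ^ j ≤ D := by
      rw [← hxj]
      exact pow_le_pow_left₀ (Nat.cast_nonneg _) hPx j
    exact_mod_cast h5
  have hP9 : (d : ℝ) ^ (9 * η) ≤ (P : ℝ) := by linarith
  have hz' : (z : ℝ) ≤ (d : ℝ) ^ (9 * η / 2) := by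
    refine le_trans hz ?_
    exact Real.rpow_le_rpow_of_exponent_le (by linarith) (by linarith)
  have hN := h1 d hd1 z hz' P hP9
  have hSS := SS_products d z ⌊(d : ℝ) ^ (20 * η)⌋₊ D P j hPw hPD
  obtain ⟨N, hNd⟩ : ∃ N : ℕ, (primesOff d z P).card = N := ⟨_, rfl⟩
  obtain ⟨S, hSd⟩ : ∃ S : ℕ, (SS d z ⌊(d : ℝ) ^ (20 * η)⌋₊ D).card = S := ⟨_, rfl⟩
  rw [hNd] at hN hSS
  rw [hSd] at hSS ⊢
  have hSS' : ((N : ℝ)) ^ j ≤ (j : ℝ) ^ j * S := by exact_mod_cast hSS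
  -- lower bound of `N`
  have hN2 : x ^ (1 - η / 4) / 2 ≤ (N : ℝ) := by
    refine le_trans ?_ hN
    have h5 : (x / 2) ^ (1 - η / 4) ≤ (P : ℝ) ^ (1 - η / 4) :=
      Real.rpow_le_rpow (by positivity) hPx' (by linarith)
    refine le_trans ?_ h5
    rw [Real.div_rpow hx0.le (by norm_num)]
    have h6 : (2 : ℝ) ^ (1 - η / 4) ≤ 2 := by
      have h7 : (2 : ℝ) ^ (1 - η / 4) ≤ (2 : ℝ) ^ (1 : ℝ) :=
        Real.rpow_le_rpow_of_exponent_le (by norm_num) (by linarith)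
      rwa [Real.rpow_one] at h7
    exact div_le_div_of_nonneg_left (by positivity) (by positivity) h6
  have hN3 : (D : ℝ) ^ (1 - η / 4) / 2 ^ j ≤ (N : ℝ) ^ j := by
    have h5 : (x ^ (1 - η / 4) / 2) ^ j ≤ (N : ℝ) ^ j := pow_le_pow_left₀ (by positivity) hN2 j
    refine le_trans (le_of_eq ?_) h5
    rw [div_pow, ← Real.rpow_natCast (x ^ (1 - η / 4)) j, ← Real.rpow_mul hx0.le, mul_comm (1 - η / 4),
      Real.rpow_mul hx0.le, Real.rpow_natCast, hxj]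
  have hD3 : (D : ℝ) * (d : ℝ) ^ (-(η / 2)) ≤ (D : ℝ) ^ (1 - η / 4) := by
    have h5 : (D : ℝ) ^ (1 - η / 4) = (D : ℝ) * (D : ℝ) ^ (-(η / 4)) := by
      rw [sub_eq_add_neg, Real.rpow_add hD0, Real.rpow_one]
    rw [h5]
    refine mul_le_mul_of_nonneg_left ?_ hD0.le
    have h6 : (d : ℝ) ^ (-(η / 2)) = ((d : ℝ) ^ (2 : ℝ)) ^ (-(η / 4)) := by
      rw [← Real.rpow_mul hd0.le]
      congr 1
      ring
    rw [h6]
    exact Real.rpow_le_rpow_of_nonpos hD0 hD2 (by linarith)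
  have hjJ : (2 : ℝ) ^ j * (j : ℝ) ^ j ≤ (d : ℝ) ^ (3 * η / 2) := by
    refine le_trans ?_ hJd
    rw [← mul_pow]
    have h5 : (j : ℝ) ≤ J := by exact_mod_cast hj4
    calc (2 * (j : ℝ)) ^ j ≤ (2 * (J : ℝ)) ^ j := pow_le_pow_left₀ (by positivity) (by linarith) j
      _ ≤ (2 * (J : ℝ)) ^ J := pow_le_pow_right₀ (by linarith) hj4
  have hfin : (D : ℝ) * (d : ℝ) ^ (-(η / 2)) ≤ (d : ℝ) ^ (3 * η / 2) * S := by
    have h5 : (D : ℝ) * (d : ℝ) ^ (-(η / 2)) / 2 ^ j ≤ (j : ℝ) ^ j * S := by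
      refine le_trans ?_ hSS'
      refine le_trans ?_ hN3
      exact div_le_div_of_nonneg_right hD3 (by positivity)
    rw [div_le_iff₀ (by positivity)] at h5
    refine le_trans h5 ?_
    calc (j : ℝ) ^ j * S * 2 ^ j = (2 ^ j * (j : ℝ) ^ j) * S := by ring
      _ ≤ (d : ℝ) ^ (3 * η / 2) * S := mul_le_mul_of_nonneg_right hjJ (Nat.cast_nonneg _)
  have h6 : (d : ℝ) ^ (-(2 * η)) * (d : ℝ) ^ (3 * η / 2) = (d : ℝ) ^ (-(η / 2)) := by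
    rw [← Real.rpow_add hd0]
    congr 1
    ring
  have h7 : (0 : ℝ) < (d : ℝ) ^ (3 * η / 2) := by positivity
  refine le_of_mul_le_mul_left ?_ h7
  calc (d : ℝ) ^ (3 * η / 2) * ((D : ℝ) * (d : ℝ) ^ (-(2 * η))) =
      (D : ℝ) * ((d : ℝ) ^ (-(2 * η)) * (d : ℝ) ^ (3 * η / 2)) := by ring
    _ = (D : ℝ) * (d : ℝ) ^ (-(η / 2)) := by rw [h6]
    _ ≤ (d : ℝ) ^ (3 * η / 2) * S := hfin

end Pool.Agent.Lib.MP_42948a_nt.AC
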