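import Pool.Agent.Lib.MP_42948a_nt.AC.Defs

/-!
# Rough numbers have boundedly many divisors (job N6)

`n.divisors.card = ∏ (e_p + 1) ≤ ∏ 2^(e_p) = 2^Ω(n)` (`Nat.card_divisors`, `ArithmeticFunction.cardFactors_eq_sum_factorization`, or
by induction over the prime factors with `ArithmeticFunction.cardFactors_mul`), and every prime factor is `> z = ⌊d^c⌋`, so `≥ d^c`,
and `(d^c)^Ω(n) ≤ n ≤ d^2` gives `c Ω(n) ≤ 2` (see `ZI_list`, `ZI_omega` in `OA/ZI.lean`, private, may be copied), so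
`Ω(n) ≤ ⌈2/c⌉`.
-/

namespace Pool.Agent.Lib.MP_42948a_nt.AC

open Finset Pool.Agent.Lib.MP_42948a_nt.OA

private theorem N6_list (x : ℝ) (hx : 0 ≤ x) (l : List ℕ) (hl : ∀ p ∈ l, x < (p : ℝ)) :
    x ^ l.length ≤ ((l.prod : ℕ) : ℝ) := by
  induction l with
  | nil => simp
  | cons p l ih =>
    rw [List.length_cons, List.prod_cons, Nat.cast_mul, pow_succ, mul_comm]
    exact mul_le_mul (hl p (List.mem_cons_self ..)).le (ih fun q hq => hl q (List.mem_cons_of_mem _ hq))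
      (pow_nonneg hx _) (Nat.cast_nonneg _)

private theorem N6_omega (θ c : ℝ) (hc : 0 < c) (d : ℕ) (hd : 2 ≤ d) (n : ℕ) (hn : 0 < n)
    (hn1 : (n : ℝ) ≤ (d : ℝ) ^ θ) (hn2 : ∀ p : ℕ, p.Prime → p ∣ n → (d : ℝ) ^ c < p) :
    (ArithmeticFunction.cardFactors n : ℝ) ≤ θ / c := by
  have hd1 : (1 : ℝ) < d := by
    have : (2 : ℝ) ≤ d := by exact_mod_cast hd
    linarith
  have hd0 : (0 : ℝ) < d := by linarith
  have h1 : ((d : ℝ) ^ c) ^ n.primeFactorsList.length ≤ ((n.primeFactorsList.prod : ℕ) : ℝ) :=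
    N6_list _ (Real.rpow_nonneg hd0.le _) _ fun p hp =>
      hn2 p (Nat.prime_of_mem_primeFactorsList hp) (Nat.dvd_of_mem_primeFactorsList hp)
  rw [Nat.prod_primeFactorsList hn.ne', ← Real.rpow_natCast, ← Real.rpow_mul hd0.le] at h1
  have h2 := h1.trans hn1
  have h3 : c * (n.primeFactorsList.length : ℝ) ≤ θ := (Real.rpow_le_rpow_left_iff hd1).1 h2
  rw [ArithmeticFunction.cardFactors_apply, le_div_iff₀ hc, mul_comm]
  exact h3

private theorem N6_div (n : ℕ) (hn : n ≠ 0) :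
    n.divisors.card ≤ 2 ^ ArithmeticFunction.cardFactors n := by
  rw [Nat.card_divisors hn, ArithmeticFunction.cardFactors_eq_sum_factorization, Finsupp.sum,
    Nat.support_factorization, ← Finset.prod_pow_eq_pow_sum]
  refine Finset.prod_le_prod' fun p _ => ?_
  exact Nat.lt_two_pow_self

theorem rough_divisors (c : ℝ) (hc : 0 < c) (d : ℕ) (hd : 2 ≤ d) (n : ℕ) (hn : Rough ⌊(d : ℝ) ^ c⌋₊ n)
    (hn2 : (n : ℝ) ≤ (d : ℝ) ^ (2 : ℝ)) : n.divisors.card ≤ 2 ^ ⌈2 / c⌉₊ := by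
  have h0 : (0 : ℝ) ≤ (d : ℝ) ^ c := Real.rpow_nonneg (Nat.cast_nonneg _) _
  have h1 : (ArithmeticFunction.cardFactors n : ℝ) ≤ 2 / c := by
    refine N6_omega 2 c hc d hd n hn.1 hn2 fun p hp hpn => ?_
    have h2 := hn.2 p hp hpn
    rwa [Nat.floor_lt h0] at h2
  refine (N6_div n hn.1.ne').trans ?_
  refine Nat.pow_le_pow_right (by norm_num) ?_
  have h3 := h1.trans (Nat.le_ceil (2 / c))
  exact_mod_cast h3

end Pool.Agent.Lib.MP_42948a_nt.AC
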