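import Pool.Agent.Lib.MP_42948a_nt.AC.Defs
import Pool.Agent.Lib.MP_42948a_nt.OA.EJ

/-!
# `chi ψ` is a real character (job RCh)

`mul`, `one`, `val`, `zero` are `chi_mul`, `chi_one`, `chi_val`, `chi_noncoprime` of `OA/EJ.lean`. `ne`: for `n` coprime to `d` the
class of `n` is the unit `c = ZMod.unitOfCoprime n h` and `chi ψ n = ψ c = ±1` by `chi_eq` (`Int.units_eq_one_or`).
-/

namespace Pool.Agent.Lib.MP_42948a_nt.AC

open Finset Pool.Agent.Lib.MP_42948a_nt.OA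

theorem chi_real (d : ℕ) (ψ : (ZMod d)ˣ →* ℤˣ) : RealChar d (chi ψ) := by
  refine ⟨chi_mul ψ, chi_one ψ, chi_val ψ, chi_noncoprime ψ, fun n hn => ?_⟩
  rw [chi_eq ψ n (ZMod.unitOfCoprime n hn) (ZMod.coe_unitOfCoprime n hn).symm]
  rcases Int.units_eq_one_or (ψ (ZMod.unitOfCoprime n hn)) with h | h
  · rw [h]
    norm_num
  · rw [h]
    norm_num

theorem chi_one_eq (d : ℕ) (n : ℕ) (hn : n.Coprime d) : chi (1 : (ZMod d)ˣ →* ℤˣ) n = 1 := by
  rw [chi_eq 1 n (ZMod.unitOfCoprime n hn) (ZMod.coe_unitOfCoprime n hn).symm, MonoidHom.one_apply]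
  norm_num

end Pool.Agent.Lib.MP_42948a_nt.AC
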