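import Pool.Agent.Lib.MP_42948a_nt.AC.Defs

/-!
# Cauchy's estimate (job S1b)

`x = 2 - β ∈ (1, 9/8]`. Taylor series of the entire function `Q` at `2` (`Complex.taylorSeries_eq_of_entire'`/
`Complex.hasSum_taylorSeries_of_entire`): `Q β = ∑' k, (k!)⁻¹ (β-2)^k iteratedDeriv k Q 2 = ∑' k, x^k ((b k) - c)` as
`(β-2)^k (-1)^k = x^k`. Cauchy (`Complex.norm_iteratedDeriv_le_of_forall_mem_sphere_norm_le` or
`Complex.norm_deriv_le...`; if only a version for `iteratedDeriv` at the centre of a circle exists use that):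
`‖iteratedDeriv k Q 2‖ ≤ k! D (3/2)^(-k)`, so `‖b k - c‖ ≤ D (2/3)^k` and the term of index `k` has norm `≤ D (2x/3)^k ≤ D (3/4)^k`.
Split the sum at `N`: the tail has norm `≤ D (3/4)^N * 4`; the real part of the head is
`∑_{k<N} x^k (b k - re c) ≥ 1 - re c ∑_{k<N} x^k = 1 - re c (x^N - 1)/(x - 1)`, `x - 1 = 1 - β` (`N ≥ 1`, `b 0 ≥ 1`, `b k ≥ 0`).
-/

namespace Pool.Agent.Lib.MP_42948a_nt.AC

open Finset Complex

theorem cauchy_est (Q : ℂ → ℂ) (hQ : Differentiable ℂ Q) (D : ℝ)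
    (hD : ∀ s ∈ Metric.sphere (2 : ℂ) (3 / 2), ‖Q s‖ ≤ D) (c : ℂ) (b : ℕ → ℝ) (hb : ∀ k, 0 ≤ b k) (hb1 : 1 ≤ b 0)
    (hco : ∀ k : ℕ, iteratedDeriv k Q 2 = (-1) ^ k * (k.factorial : ℂ) * ((b k : ℂ) - c))
    (β : ℝ) (hβ : 7 / 8 ≤ β) (hβ1 : β < 1) (N : ℕ) (hN : 1 ≤ N) :
    1 - c.re * (((2 - β) ^ N - 1) / (1 - β)) - 4 * D * (3 / 4) ^ N ≤ (Q (β : ℂ)).re := by
  have hD0 : 0 ≤ D := by
    have h := hD (2 + (3 / 2 : ℝ)) (by
      rw [mem_sphere_iff_norm]
      rw [add_sub_cancel_left, Complex.norm_real]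
      norm_num)
    exact (norm_nonneg _).trans h
  have hx1 : 1 < 2 - β := by linarith
  have hx2 : 2 - β ≤ 9 / 8 := by linarith
  have hsum := Complex.hasSum_taylorSeries_of_entire hQ (2 : ℂ) (β : ℂ)
  have hterm : ∀ k : ℕ, ((k.factorial : ℂ))⁻¹ • ((β : ℂ) - 2) ^ k • iteratedDeriv k Q 2
      = ((2 - β : ℝ) : ℂ) ^ k * ((b k : ℂ) - c) := by
    intro k
    rw [hco k, smul_eq_mul, smul_eq_mul]
    have hk : (k.factorial : ℂ) ≠ 0 := by exact_mod_cast k.factorial_ne_zero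
    have h2 : ((β : ℂ) - 2) ^ k * (-1) ^ k = ((2 - β : ℝ) : ℂ) ^ k := by
      rw [← mul_pow]
      congr 1
      push_cast
      ring
    calc ((k.factorial : ℂ))⁻¹ * (((β : ℂ) - 2) ^ k * ((-1) ^ k * (k.factorial : ℂ) * ((b k : ℂ) - c)))
        = ((k.factorial : ℂ))⁻¹ * (k.factorial : ℂ) * ((((β : ℂ) - 2) ^ k * (-1) ^ k) * ((b k : ℂ) - c)) := by ring
      _ = _ := by rw [inv_mul_cancel₀ hk, one_mul, h2]
  have hbound : ∀ k : ℕ, ‖((2 - β : ℝ) : ℂ) ^ k * ((b k : ℂ) - c)‖ ≤ D * (3 / 4) ^ k := by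
    intro k
    have h1 := Complex.norm_iteratedDeriv_le_of_forall_mem_sphere_norm_le (c := (2 : ℂ)) (R := 3 / 2) (C := D) k
      (by norm_num) (hQ.diffContOnCl) hD
    rw [hco k] at h1
    have hk : (0 : ℝ) < k.factorial := by exact_mod_cast k.factorial_pos
    rw [norm_mul, norm_mul, norm_pow, norm_neg, norm_one, one_pow, one_mul, Complex.norm_natCast] at h1
    have h2 : ‖(b k : ℂ) - c‖ ≤ D / (3 / 2) ^ k := by
      have h3 : (k.factorial : ℝ) * ‖(b k : ℂ) - c‖ ≤ k.factorial * (D / (3 / 2) ^ k) := by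
        rw [← mul_div_assoc]; exact h1
      exact le_of_mul_le_mul_left h3 hk
    rw [norm_mul, norm_pow, Complex.norm_real, Real.norm_of_nonneg (by linarith)]
    calc (2 - β) ^ k * ‖(b k : ℂ) - c‖ ≤ (9 / 8) ^ k * (D / (3 / 2) ^ k) := by
          apply mul_le_mul (pow_le_pow_left₀ (by linarith) hx2 k) h2 (norm_nonneg _) (by positivity)
      _ = D * (3 / 4) ^ k := by
          rw [mul_div_assoc', mul_comm ((9 / 8 : ℝ) ^ k) D, mul_div_assoc, ← div_pow]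
          norm_num
  have hs0 : HasSum (fun k : ℕ => ((2 - β : ℝ) : ℂ) ^ k * ((b k : ℂ) - c)) (Q β) := by
    have he : (fun k : ℕ => ((2 - β : ℝ) : ℂ) ^ k * ((b k : ℂ) - c))
        = fun k : ℕ => ((k.factorial : ℂ))⁻¹ • ((β : ℂ) - 2) ^ k • iteratedDeriv k Q 2 :=
      funext fun k => (hterm k).symm
    rw [he]
    exact hsum
  have hs : HasSum (fun k : ℕ => (2 - β) ^ k * (b k - c.re)) (Q β).re := by
    have h1 := Complex.hasSum_re hs0
    have he : (fun k : ℕ => (2 - β) ^ k * (b k - c.re))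
        = fun k : ℕ => (((2 - β : ℝ) : ℂ) ^ k * ((b k : ℂ) - c)).re := by
      funext k
      rw [← Complex.ofReal_pow, Complex.re_ofReal_mul]
      simp
    rw [he]
    exact h1
  have hre : ∀ k : ℕ, -(D * (3 / 4) ^ k) ≤ (2 - β) ^ k * (b k - c.re) := by
    intro k
    have h1 := (Complex.abs_re_le_norm _).trans (hbound k)
    rw [← Complex.ofReal_pow, Complex.re_ofReal_mul] at h1
    have h2 := (abs_le.mp h1).1
    simpa using h2
  have hgeo : HasSum (fun k : ℕ => -(D * (3 / 4 : ℝ) ^ (k + N))) (-(4 * D * (3 / 4) ^ N)) := by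
    have h1 := (hasSum_geometric_of_lt_one (r := (3 / 4 : ℝ)) (by norm_num) (by norm_num)).mul_left (D * (3 / 4) ^ N)
    have h2 := h1.neg
    have h3 : -(D * (3 / 4) ^ N * (1 - 3 / 4 : ℝ)⁻¹) = -(4 * D * (3 / 4) ^ N) := by
      norm_num
      ring
    have he : (fun k : ℕ => -(D * (3 / 4 : ℝ) ^ (k + N))) = fun k : ℕ => -(D * (3 / 4) ^ N * (3 / 4) ^ k) := by
      funext k
      rw [pow_add]
      ring
    rw [he, ← h3]
    exact h2
  have hsplit := hs.summable.sum_add_tsum_nat_add N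
  rw [hs.tsum_eq] at hsplit
  have htail : -(4 * D * (3 / 4) ^ N) ≤ ∑' k : ℕ, (2 - β) ^ (k + N) * (b (k + N) - c.re) := by
    rw [← hgeo.tsum_eq]
    exact hgeo.summable.tsum_le_tsum (fun k => hre (k + N)) ((summable_nat_add_iff N).mpr hs.summable)
  have hhead : 1 - c.re * (((2 - β) ^ N - 1) / (1 - β)) ≤ ∑ k ∈ Finset.range N, (2 - β) ^ k * (b k - c.re) := by
    have hg : ∑ k ∈ Finset.range N, (2 - β) ^ k = ((2 - β) ^ N - 1) / (1 - β) := by
      rw [geom_sum_eq (by linarith)]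
      congr 1
      ring
    have h1 : ∑ k ∈ Finset.range N, (2 - β) ^ k * (b k - c.re)
        = ∑ k ∈ Finset.range N, (2 - β) ^ k * b k - c.re * ∑ k ∈ Finset.range N, (2 - β) ^ k := by
      rw [Finset.mul_sum, ← Finset.sum_sub_distrib]
      exact Finset.sum_congr rfl fun k _ => by ring
    rw [h1, hg]
    have h2 : (2 - β) ^ 0 * b 0 ≤ ∑ k ∈ Finset.range N, (2 - β) ^ k * b k :=
      Finset.single_le_sum (f := fun k => (2 - β) ^ k * b k)
        (fun k _ => mul_nonneg (pow_nonneg (by linarith) _) (hb k)) (Finset.mem_range.mpr hN)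
    rw [pow_zero, one_mul] at h2
    linarith
  linarith

end Pool.Agent.Lib.MP_42948a_nt.AC
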