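import Pool.Agent.Lib.MP_42948a_nt.AC.Defs

/-!
# Numerics: choice of `N` (job S1c)

Take `N = ⌈log (8 D) / log (4/3)⌉ ≥ 1` (`8 D ≥ 8 > 1`). Then `(3/4)^N ≤ 1/(8 D)`, so the left side of `h` is `≥ 1/2`, and
`lam ≥ u/2 * (1+u)^(-N)`. `(1+u)^N ≤ exp (u N) ≤ exp (u (log (8 D)/log (4/3) + 1)) ≤ exp (1/8) (8 D)^(4 u)` because
`1/log (4/3) ≤ 4` (`log (4/3) ≥ 1/4`: `exp (1/4) ≤ 4/3`, e.g. `Real.one_sub_inv_le_log_of_pos`: `log (4/3) ≥ 1 - 3/4`), and
`exp (1/8) ≤ 2`.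
-/

namespace Pool.Agent.Lib.MP_42948a_nt.AC

open Finset Complex

theorem num_S1 (u D lam : ℝ) (hu : 0 < u) (hu1 : u ≤ 1 / 8) (hD : 1 ≤ D)
    (h : ∀ N : ℕ, 1 ≤ N → 1 - 4 * D * (3 / 4) ^ N ≤ lam * (1 + u) ^ N / u) :
    u / 4 * (8 * D) ^ (-(4 * u)) ≤ lam := by
  have hD0 : 0 < 8 * D := by linarith
  have hlD : 0 < Real.log (8 * D) := Real.log_pos (by linarith)
  have hl : 1 / 4 ≤ Real.log (4 / 3) := by
    have := Real.one_sub_inv_le_log_of_pos (x := (4 / 3 : ℝ)) (by norm_num)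
    norm_num at this ⊢
    linarith
  have hl0 : 0 < Real.log (4 / 3) := by linarith
  obtain ⟨N, hN⟩ : ∃ N : ℕ, N = ⌈Real.log (8 * D) / Real.log (4 / 3)⌉₊ := ⟨_, rfl⟩
  have hq0 : 0 < Real.log (8 * D) / Real.log (4 / 3) := div_pos hlD hl0
  have hN1 : 1 ≤ N := by
    rw [hN]
    exact Nat.one_le_iff_ne_zero.2 (Nat.ceil_pos.2 hq0).ne'
  have hNlo : Real.log (8 * D) / Real.log (4 / 3) ≤ N := by
    rw [hN]
    exact Nat.le_ceil _
  have hNhi : (N : ℝ) < Real.log (8 * D) / Real.log (4 / 3) + 1 := by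
    rw [hN]
    exact Nat.ceil_lt_add_one hq0.le
  -- `(3/4)^N ≤ 1/(8 D)`
  have h1 : (3 / 4 : ℝ) ^ N ≤ (8 * D)⁻¹ := by
    have e1 : Real.log (8 * D) ≤ N * Real.log (4 / 3) := by
      rwa [div_le_iff₀ hl0] at hNlo
    have e2 : (3 / 4 : ℝ) ^ N = Real.exp (-(N * Real.log (4 / 3))) := by
      have e3 : (3 / 4 : ℝ) = (4 / 3)⁻¹ := by norm_num
      rw [e3, inv_pow, Real.exp_neg, Real.exp_nat_mul, Real.exp_log (by norm_num)]
    have e4 : (8 * D)⁻¹ = Real.exp (-Real.log (8 * D)) := by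
      rw [Real.exp_neg, Real.exp_log hD0]
    rw [e2, e4]
    exact Real.exp_le_exp.2 (by linarith)
  have h2 : 1 / 2 ≤ lam * (1 + u) ^ N / u := by
    refine le_trans ?_ (h N hN1)
    have e1 : 4 * D * (3 / 4 : ℝ) ^ N ≤ 4 * D * (8 * D)⁻¹ :=
      mul_le_mul_of_nonneg_left h1 (by linarith)
    have e2 : 4 * D * (8 * D)⁻¹ = 1 / 2 := by
      have : D ≠ 0 := by linarith
      field_simp
      norm_num
    linarith
  have h3 : u / 2 ≤ lam * (1 + u) ^ N := by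
    rw [le_div_iff₀ hu] at h2
    linarith
  -- the bound for `(1 + u)^N`
  have h4 : (1 + u) ^ N ≤ 2 * (8 * D) ^ (4 * u) := by
    have e1 : (1 + u) ^ N ≤ Real.exp (N * u) := by
      rw [Real.exp_nat_mul]
      refine pow_le_pow_left₀ (by linarith) ?_ N
      have := Real.add_one_le_exp u
      linarith
    have e2 : (N : ℝ) * u ≤ 1 / 8 + Real.log (8 * D) * (4 * u) := by
      have e3 : Real.log (8 * D) / Real.log (4 / 3) ≤ 4 * Real.log (8 * D) := by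
        rw [div_le_iff₀ hl0]
        nlinarith
      have e4 : (N : ℝ) ≤ 4 * Real.log (8 * D) + 1 := by linarith
      have e5 : (N : ℝ) * u ≤ (4 * Real.log (8 * D) + 1) * u :=
        mul_le_mul_of_nonneg_right e4 hu.le
      linarith
    have e6 : Real.exp (1 / 8) ≤ 2 := by
      have e7 := Real.exp_bound_div_one_sub_of_interval (x := (1 / 8 : ℝ)) (by norm_num) (by norm_num)
      norm_num at e7 ⊢
      linarith
    calc (1 + u) ^ N ≤ Real.exp (N * u) := e1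
      _ ≤ Real.exp (1 / 8 + Real.log (8 * D) * (4 * u)) := Real.exp_le_exp.2 e2
      _ = Real.exp (1 / 8) * (8 * D) ^ (4 * u) := by
          rw [Real.exp_add, Real.rpow_def_of_pos hD0]
      _ ≤ 2 * (8 * D) ^ (4 * u) :=
          mul_le_mul_of_nonneg_right e6 (Real.rpow_nonneg hD0.le _)
  have hp : 0 < (1 + u) ^ N := by positivity
  have hr : 0 < (8 * D) ^ (4 * u) := Real.rpow_pos_of_pos hD0 _
  have hlam : 0 < lam := by
    by_contra hneg
    push Not at hneg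
    have : lam * (1 + u) ^ N ≤ 0 := mul_nonpos_of_nonpos_of_nonneg hneg hp.le
    linarith
  rw [Real.rpow_neg hD0.le, ← div_eq_mul_inv, div_le_iff₀ hr]
  have h5 : lam * (1 + u) ^ N ≤ lam * (2 * (8 * D) ^ (4 * u)) :=
    mul_le_mul_of_nonneg_left h4 hlam.le
  linarith

end Pool.Agent.Lib.MP_42948a_nt.AC
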