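import Pool.Agent.Lib.MP_42948a_nt.AC.S1a
import Pool.Agent.Lib.MP_42948a_nt.AC.S1b
import Pool.Agent.Lib.MP_42948a_nt.AC.S1c

/-!
# Estermann's lemma (job S1)

`C0` = a bound for `‖riemannZeta₀‖` on the compact set `closedBall 2 (3/2)` (`differentiable_riemannZeta₀`, continuity); take
`C = 8 (C0 + 4)` with `C0 ≥ 0`. Let `Q s = riemannZeta₀ s * P s + dslope P 1 s`: entire (`Differentiable.dslope`-like:
`(differentiableOn_dslope ..)`; or `Q` = update at `1`); for `s ≠ 1`, `riemannZeta s = (s-1)⁻¹ + riemannZeta₀ s`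
(`Mathlib/NumberTheory/Harmonic/ZetaAsymp.lean`) and `dslope P 1 s = (P s - P 1)/(s - 1)`, so
`riemannZeta s * P s = Q s + P 1/(s-1)`. On the sphere `‖s - 2‖ = 3/2`: `‖s - 1‖ ≥ 1/2`, `‖Q s‖ ≤ C0 B + 2 (B + B) = (C0 + 4) B =: D`
(`‖P 1‖ ≤ B` since `1 ∈ closedBall 2 (3/2)`). `taylor_coeff` and `cauchy_est` with `c = P 1`, `lam = (P 1).re`: for `N ≥ 1`
`1 - lam ((2-β)^N - 1)/(1-β) - 4 D (3/4)^N ≤ re Q(β) = re (ζ(β) P(β)) + lam/(1-β) ≤ lam/(1-β)`, so
`1 - 4 D (3/4)^N ≤ lam (1+u)^N/u` with `u = 1 - β`, and `num_S1` gives `u/4 (8 D)^(-4u) ≤ lam ≤ ‖P 1‖`.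
-/

namespace Pool.Agent.Lib.MP_42948a_nt.AC

open Finset Complex

open scoped ComplexOrder in
theorem estermann : ∃ C : ℝ, 1 ≤ C ∧ ∀ (P : ℂ → ℂ) (a : ℕ → ℂ) (B β : ℝ), Differentiable ℂ P → (∀ n, 0 ≤ a n) → a 1 = 1 →
    (∀ s : ℂ, 1 < s.re → LSeriesSummable a s) → (∀ s : ℂ, 1 < s.re → LSeries a s = riemannZeta s * P s) → 1 ≤ B →
    (∀ s ∈ Metric.closedBall (2 : ℂ) (3 / 2), ‖P s‖ ≤ B) → 7 / 8 ≤ β → β < 1 →
    (riemannZeta (β : ℂ) * P (β : ℂ)).re ≤ 0 →
    (1 - β) / 4 * (C * B) ^ (-(4 * (1 - β))) ≤ ‖P 1‖ := by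
  obtain ⟨C0, hC0⟩ := (isCompact_closedBall (2 : ℂ) (3 / 2)).exists_bound_of_continuousOn
    (f := riemannZeta₀) differentiable_riemannZeta₀.continuous.continuousOn
  have hC00 : 0 ≤ C0 := (norm_nonneg _).trans (hC0 2 (Metric.mem_closedBall_self (by norm_num)))
  refine ⟨8 * (C0 + 4), by linarith, ?_⟩
  intro P a B β hP ha ha1 hs hL hB hPB hβ hβ1 hre
  set u : ℝ := 1 - β with hu
  have hu0 : 0 < u := by rw [hu]; linarith
  have h1mem : (1 : ℂ) ∈ Metric.closedBall (2 : ℂ) (3 / 2) := by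
    rw [Metric.mem_closedBall, dist_eq_norm]
    norm_num
  have hP1 := hPB 1 h1mem
  set Q : ℂ → ℂ := fun s => riemannZeta₀ s * P s + dslope P 1 s with hQ
  have hQd : Differentiable ℂ Q := by
    refine (differentiable_riemannZeta₀.mul hP).add ?_
    rw [← differentiableOn_univ, Complex.differentiableOn_dslope Filter.univ_mem]
    exact hP.differentiableOn
  have hds : ∀ s : ℂ, s ≠ 1 → dslope P 1 s = (P s - P 1) / (s - 1) := by
    intro s h
    rw [dslope_of_ne _ h, slope_def_field]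
  have hid : ∀ s : ℂ, s ≠ 1 → riemannZeta s * P s = Q s + P 1 / (s - 1) := by
    intro s h
    have h2 : s - 1 ≠ 0 := sub_ne_zero.2 h
    have hz : riemannZeta s = (s - 1)⁻¹ + riemannZeta₀ s := by simp [riemannZeta₀, h]
    rw [hQ]
    simp only
    rw [hds s h, hz]
    field_simp
    ring
  have hF : ∀ s : ℂ, 1 < s.re → LSeries a s = Q s + P 1 / (s - 1) := by
    intro s h
    rw [hL s h]
    refine hid s ?_
    rintro rfl
    simp at h
  obtain ⟨b, hb, hb1, hco⟩ := taylor_coeff a ha ha1 hs Q hQd (P 1) hF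
  have hD : ∀ s ∈ Metric.sphere (2 : ℂ) (3 / 2), ‖Q s‖ ≤ (C0 + 4) * B := by
    intro s h
    have hcb := Metric.sphere_subset_closedBall h
    rw [mem_sphere_iff_norm] at h
    have h3 : 1 / 2 ≤ ‖s - 1‖ := by
      have e : s - 2 = (s - 1) - 1 := by ring
      have h4 := norm_sub_le (s - 1) 1
      rw [← e, h, norm_one] at h4
      linarith
    have h4 : s ≠ 1 := by
      rintro rfl
      rw [sub_self, norm_zero] at h3
      linarith
    have h5 : ‖dslope P 1 s‖ ≤ 4 * B := by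
      rw [hds s h4, norm_div, div_le_iff₀ (by linarith)]
      have h6 := norm_sub_le (P s) (P 1)
      have h7 := hPB s hcb
      nlinarith
    have h6 : ‖riemannZeta₀ s * P s‖ ≤ C0 * B := by
      rw [norm_mul]
      exact mul_le_mul (hC0 s hcb) (hPB s hcb) (norm_nonneg _) hC00
    calc ‖Q s‖ ≤ ‖riemannZeta₀ s * P s‖ + ‖dslope P 1 s‖ := norm_add_le _ _
      _ ≤ C0 * B + 4 * B := add_le_add h6 h5
      _ = _ := by ring
  have hβne : (β : ℂ) ≠ 1 := by
    intro h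
    have : β = 1 := by exact_mod_cast h
    linarith
  have hQβ : (Q (β : ℂ)).re ≤ (P 1).re / u := by
    have h2 : Q (β : ℂ) = riemannZeta (β : ℂ) * P (β : ℂ) + P 1 / ((u : ℝ) : ℂ) := by
      have h3 := hid (β : ℂ) hβne
      have h4 : ((u : ℝ) : ℂ) = -((β : ℂ) - 1) := by
        rw [hu]
        push_cast
        ring
      rw [h3, h4, div_neg]
      ring
    rw [h2, Complex.add_re, Complex.div_ofReal_re]
    linarith
  have hmain : ∀ N : ℕ, 1 ≤ N →
      1 - 4 * ((C0 + 4) * B) * (3 / 4) ^ N ≤ (P 1).re * (1 + u) ^ N / u := by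
    intro N hN
    have h2 := cauchy_est Q hQd ((C0 + 4) * B) hD (P 1) b hb hb1 hco β hβ hβ1 N hN
    have h3 : (2 - β) = 1 + u := by rw [hu]; ring
    rw [h3, ← hu] at h2
    have h4 : (P 1).re * (((1 + u) ^ N - 1) / u) + (P 1).re / u = (P 1).re * (1 + u) ^ N / u := by
      field_simp
      ring
    linarith
  have hfin := num_S1 u ((C0 + 4) * B) (P 1).re hu0 (by rw [hu]; linarith) (by nlinarith) hmain
  have e : 8 * (C0 + 4) * B = 8 * ((C0 + 4) * B) := by ring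
  rw [e]
  exact hfin.trans (Complex.re_le_norm _)

end Pool.Agent.Lib.MP_42948a_nt.AC
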