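import Pool.Agent.Lib.MP_42948a_nt.AC.S9
import Pool.Agent.Lib.MP_42948a_nt.OA.EJ
import Pool.Agent.Lib.MP_9c2ea5_nt.AChar

/-!
# Siegel's theorem for the truncated sums (job S10)

The Dirichlet character of `ψ`: `χ = MulChar.ofUnitHom ((Units.map (Int.castRingHom ℂ).toMonoidHom).comp ψ)`, so `χ (n : ZMod d) =
((chi ψ n : ℝ) : ℂ)` for all `n` (`MulChar.ofUnitHom_coe`/`MulChar.map_nonunit`; `EJ_eq`, `EJ_zero`), `χ^2 = 1` and `χ ≠ 1` (it is `-1` at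
a unit where `ψ` is `-1`; `MulChar.ext`). `siegel (η/2)`: `‖L(1, χ)‖ ≥ c d^(-η/2)`. `LFun_approx` with `s = 1`, `M = X` (`X ≥ 1`):
`‖L(1, χ) - ∑_{k ≤ X} χ(k)/k‖ ≤ 4 d / X ≤ 8 d^(-2η)`, and the sum is `LL (chi ψ) X` (cast to `ℂ`, `Ioc 0 X = Icc 1 X`), which is
`≥ 0`, so `LL (chi ψ) X ≥ c d^(-η/2) - 8 d^(-2η) ≥ d^(-η)` for large `d`.
-/

namespace Pool.Agent.Lib.MP_42948a_nt.AC

open Finset Pool.Agent.Lib.MP_42948a_nt.OA

/-- the Dirichlet character of `ψ` -/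
private noncomputable def S10_char {d : ℕ} (ψ : (ZMod d)ˣ →* ℤˣ) : DirichletCharacter ℂ d :=
  MulChar.ofUnitHom ((Units.map (Int.castRingHom ℂ).toMonoidHom).comp ψ)

private theorem S10_coe {d : ℕ} (ψ : (ZMod d)ˣ →* ℤˣ) (a : (ZMod d)ˣ) :
    S10_char ψ (a : ZMod d) = (((ψ a : ℤˣ) : ℤ) : ℂ) := by
  unfold S10_char
  rw [MulChar.ofUnitHom_coe]
  rfl

private theorem S10_nat {d : ℕ} (ψ : (ZMod d)ˣ →* ℤˣ) (n : ℕ) :
    S10_char ψ (n : ZMod d) = ((chi ψ n : ℝ) : ℂ) := by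
  by_cases h : IsUnit (n : ZMod d)
  · obtain ⟨u, hu⟩ := h
    rw [chi_eq ψ n u hu.symm, ← hu, S10_coe]
    push_cast
    rfl
  · rw [MulChar.map_nonunit _ h, EJ_zero ψ n h, Complex.ofReal_zero]

private theorem S10_sq {d : ℕ} (ψ : (ZMod d)ˣ →* ℤˣ) : S10_char ψ ^ 2 = 1 := by
  refine MulChar.ext fun a => ?_
  rw [MulChar.pow_apply_coe, S10_coe, MulChar.one_apply_coe]
  rcases Int.units_eq_one_or (ψ a) with h | h
  · rw [h]
    norm_num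
  · rw [h]
    norm_num

private theorem S10_ne {d : ℕ} (ψ : (ZMod d)ˣ →* ℤˣ) (hψ : ψ ≠ 1) : S10_char ψ ≠ 1 := by
  intro h
  apply hψ
  refine MonoidHom.ext fun a => ?_
  have h1 := S10_coe ψ a
  rw [h, MulChar.one_apply_coe] at h1
  rcases Int.units_eq_one_or (ψ a) with h2 | h2
  · rw [h2]
    rfl
  · rw [h2] at h1
    norm_num at h1

theorem LL_siegel (η : ℝ) (hη : 0 < η) : ∃ d0 : ℕ, ∀ d : ℕ, d0 ≤ d → ∀ ψ : (ZMod d)ˣ →* ℤˣ, ψ ≠ 1 →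
    ∀ X : ℕ, (d : ℝ) ^ (1 + 2 * η) / 2 ≤ (X : ℝ) → 0 ≤ LL (chi ψ) X → (d : ℝ) ^ (-η) ≤ LL (chi ψ) X := by
  obtain ⟨c, hc, hsieg⟩ := siegel (η / 2) (by positivity)
  have hev : ∀ᶠ d : ℕ in Filter.atTop, 9 / c ≤ (d : ℝ) ^ (η / 2) :=
    ((tendsto_rpow_atTop (by positivity : (0 : ℝ) < η / 2)).comp
      tendsto_natCast_atTop_atTop).eventually_ge_atTop _
  obtain ⟨d0, hd0⟩ := Filter.eventually_atTop.1 hev
  refine ⟨max d0 1, ?_⟩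
  intro d hd ψ hψ X hX hL
  have hd1 : 1 ≤ d := (le_max_right _ _).trans hd
  have hdR : (1 : ℝ) ≤ d := by exact_mod_cast hd1
  have hdp : (0 : ℝ) < d := by linarith
  have : NeZero d := ⟨by omega⟩
  have hbig := hd0 d ((le_max_left _ _).trans hd)
  have hXpos : (0 : ℝ) < X := lt_of_lt_of_le (by positivity) hX
  have hX1 : 1 ≤ X := by exact_mod_cast hXpos
  have h1 := hsieg d (S10_char ψ) (S10_sq ψ) (S10_ne ψ hψ)
  have h2 := Pool.Agent.Lib.MP_9c2ea5_nt.An.LFun_approx (S10_char ψ) (S10_ne ψ hψ) 1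
    (by simp) X hX1
  have hsum : ∑ k ∈ Finset.Ioc 0 X, S10_char ψ (k : ZMod d) * (k : ℂ) ^ (-(1 : ℂ)) =
      ((LL (chi ψ) X : ℝ) : ℂ) := by
    unfold LL
    have hI : Finset.Ioc 0 X = Finset.Icc 1 X := by
      ext x
      simp only [Finset.mem_Ioc, Finset.mem_Icc]
      omega
    rw [hI, Complex.ofReal_sum]
    refine Finset.sum_congr rfl fun k _ => ?_
    rw [S10_nat, Complex.cpow_neg_one]
    push_cast
    rfl
  rw [hsum] at h2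
  have h3 : 2 * (d : ℝ) * (1 + ‖(1 : ℂ)‖ / (1 : ℂ).re) * (X : ℝ) ^ (-(1 : ℂ).re) = 4 * d / X := by
    rw [norm_one, Complex.one_re, Real.rpow_neg_one]
    ring
  rw [h3] at h2
  have h4 : 4 * (d : ℝ) / X ≤ 8 * (d : ℝ) ^ (-(2 * η)) := by
    rw [div_le_iff₀ hXpos]
    have h5 : (d : ℝ) ^ (1 + 2 * η) = d * (d : ℝ) ^ (2 * η) := by
      rw [Real.rpow_add hdp, Real.rpow_one]
    have h6 : (d : ℝ) ^ (-(2 * η)) * (d : ℝ) ^ (2 * η) = 1 := by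
      rw [← Real.rpow_add hdp, neg_add_cancel, Real.rpow_zero]
    have h7 : 0 < (d : ℝ) ^ (-(2 * η)) := Real.rpow_pos_of_pos hdp _
    calc 4 * (d : ℝ) = 8 * (d : ℝ) ^ (-(2 * η)) * ((d : ℝ) ^ (1 + 2 * η) / 2) := by
          rw [h5]
          linear_combination (-4 * (d : ℝ)) * h6
      _ ≤ 8 * (d : ℝ) ^ (-(2 * η)) * X := mul_le_mul_of_nonneg_left hX (by positivity)
  have h8 : ‖DirichletCharacter.LFunction (S10_char ψ) 1‖ ≤ 8 * (d : ℝ) ^ (-(2 * η)) + LL (chi ψ) X := by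
    have h9 : ‖((LL (chi ψ) X : ℝ) : ℂ)‖ = LL (chi ψ) X := by
      rw [Complex.norm_real, Real.norm_of_nonneg hL]
    calc ‖DirichletCharacter.LFunction (S10_char ψ) 1‖
        = ‖(DirichletCharacter.LFunction (S10_char ψ) 1 - ((LL (chi ψ) X : ℝ) : ℂ)) +
            ((LL (chi ψ) X : ℝ) : ℂ)‖ := by rw [sub_add_cancel]
      _ ≤ ‖DirichletCharacter.LFunction (S10_char ψ) 1 - ((LL (chi ψ) X : ℝ) : ℂ)‖ +
            ‖((LL (chi ψ) X : ℝ) : ℂ)‖ := norm_add_le _ _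
      _ ≤ 8 * (d : ℝ) ^ (-(2 * η)) + LL (chi ψ) X := by
        rw [h9]
        linarith
  have h10 : (d : ℝ) ^ (-(2 * η)) ≤ (d : ℝ) ^ (-η) :=
    Real.rpow_le_rpow_of_exponent_le hdR (by linarith)
  have h11 : 9 * (d : ℝ) ^ (-η) ≤ c * (d : ℝ) ^ (-(η / 2)) := by
    have h12 : (d : ℝ) ^ (-(η / 2)) = (d : ℝ) ^ (η / 2) * (d : ℝ) ^ (-η) := by
      rw [← Real.rpow_add hdp]
      congr 1
      ring
    rw [h12, ← mul_assoc]
    refine mul_le_mul_of_nonneg_right ?_ (Real.rpow_pos_of_pos hdp _).le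
    rw [div_le_iff₀ hc] at hbig
    linarith
  linarith

end Pool.Agent.Lib.MP_42948a_nt.AC
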