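import Pool.Agent.Lib.MP_42948a_nt.AC.Defs

/-!
# Taylor coefficients at `2` (job S1a)

Let `F = LSeries a`. `abscissaOfAbsConv a ≤ 1 < 2` (`LSeries.abscissaOfAbsConv_le_of_forall_lt_LSeriesSummable`).
`LSeries.iteratedDeriv_alternating` (`Mathlib/NumberTheory/LSeries/Positivity.lean`): `0 ≤ (-1)^k * iteratedDeriv k F 2` in `ℂ`, so it
is a nonnegative real `b' k`; put `b k = b' k / k!`. `b 0 = F 2 = ∑' a n / n^2 ≥ a 1 = 1` (all terms `≥ 0`, `LSeries.positive`-like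
proof with `Summable.sum_le_tsum`/`le_tsum`). On the open set `{1 < re s}` (which contains `2`) `Q s = F s - c (s-1)⁻¹`
(`Set.EqOn.iteratedDeriv_of_isOpen`), and `iteratedDeriv k (fun s => (s - 1)⁻¹) 2 = (-1)^k k!` (`iter_deriv_inv`, composition with
`s ↦ s - 1`: `iteratedDeriv_comp_sub_const`-like, or induction proving the formula `(-1)^k k! (s-1)^(-k-1)` for all `s ≠ 1`).
-/

namespace Pool.Agent.Lib.MP_42948a_nt.AC

open Finset Complex

theorem S1a_inv (k : ℕ) : iteratedDeriv k (fun s : ℂ => (s - 1)⁻¹) 2 = (-1) ^ k * (k.factorial : ℂ) := by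
  have h := congrFun (iter_deriv_inv_linear_sub (𝕜 := ℂ) k 1 1) 2
  have e : (fun x : ℂ => (1 * x - 1)⁻¹) = fun s : ℂ => (s - 1)⁻¹ := by
    funext x
    rw [one_mul]
  rw [e] at h
  rw [iteratedDeriv_eq_iterate, h]
  have h2 : (1 : ℂ) * 2 - 1 = 1 := by norm_num
  rw [h2, one_zpow, one_pow, mul_one, mul_one]

theorem S1a_add (Q : ℂ → ℂ) (hQ : Differentiable ℂ Q) (c : ℂ) (k : ℕ) :
    iteratedDeriv k (fun s => Q s + c * (s - 1)⁻¹) 2 =
      iteratedDeriv k Q 2 + c * ((-1) ^ k * (k.factorial : ℂ)) := by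
  have h1 : ContDiffAt ℂ k Q 2 := hQ.contDiff.contDiffAt
  have h3 : ContDiffAt ℂ k (fun s : ℂ => (s - 1)⁻¹) 2 := by
    refine ContDiffAt.inv (by fun_prop) ?_
    norm_num
  have h2 : ContDiffAt ℂ k (fun s : ℂ => c * (s - 1)⁻¹) 2 := contDiffAt_const.mul h3
  have e : (fun s => Q s + c * (s - 1)⁻¹) = Q + fun s : ℂ => c * (s - 1)⁻¹ := rfl
  rw [e, iteratedDeriv_add h1 h2, iteratedDeriv_const_mul c h3, S1a_inv]

open scoped ComplexOrder in
theorem taylor_coeff (a : ℕ → ℂ) (ha : ∀ n, 0 ≤ a n) (ha1 : a 1 = 1)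
    (hs : ∀ s : ℂ, 1 < s.re → LSeriesSummable a s) (Q : ℂ → ℂ) (hQ : Differentiable ℂ Q) (c : ℂ)
    (hF : ∀ s : ℂ, 1 < s.re → LSeries a s = Q s + c / (s - 1)) :
    ∃ b : ℕ → ℝ, (∀ k, 0 ≤ b k) ∧ 1 ≤ b 0 ∧
      ∀ k : ℕ, iteratedDeriv k Q 2 = (-1) ^ k * (k.factorial : ℂ) * ((b k : ℂ) - c) := by
  have habs : LSeries.abscissaOfAbsConv a ≤ ((1 : ℝ) : EReal) :=
    LSeries.abscissaOfAbsConv_le_of_forall_lt_LSeriesSummable (fun y hy => hs y (by simpa using hy))
  have habs2 : LSeries.abscissaOfAbsConv a < ((2 : ℝ) : EReal) :=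
    lt_of_le_of_lt habs (by exact_mod_cast (by norm_num : (1 : ℝ) < 2))
  have h2 : ((2 : ℝ) : ℂ) = 2 := by norm_num
  have hpos : ∀ k, 0 ≤ (-1) ^ k * iteratedDeriv k (LSeries a) 2 := by
    intro k
    have h := LSeries.iteratedDeriv_alternating (a := a) ha habs2 k
    rw [h2] at h
    exact h
  have heq : ∀ k, iteratedDeriv k (LSeries a) 2 =
      iteratedDeriv k Q 2 + c * ((-1) ^ k * (k.factorial : ℂ)) := by
    intro k
    rw [← S1a_add Q hQ c k]
    have hE : Set.EqOn (LSeries a) (fun s => Q s + c * (s - 1)⁻¹) {s : ℂ | 1 < s.re} := by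
      intro s hs1
      show LSeries a s = Q s + c * (s - 1)⁻¹
      rw [hF s hs1, div_eq_mul_inv]
    have hO : IsOpen {s : ℂ | 1 < s.re} := continuous_re.isOpen_preimage _ isOpen_Ioi
    refine hE.iteratedDeriv_of_isOpen hO k ?_
    show (1 : ℝ) < (2 : ℂ).re
    norm_num
  have hval : ∀ k, (((((-1) ^ k * iteratedDeriv k (LSeries a) 2).re / k.factorial : ℝ)) : ℂ) *
      (k.factorial : ℂ) = (-1) ^ k * iteratedDeriv k (LSeries a) 2 := by
    intro k
    have h := Complex.nonneg_iff.1 (hpos k)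
    have hf : (k.factorial : ℂ) ≠ 0 := by exact_mod_cast k.factorial_ne_zero
    rw [Complex.ofReal_div, Complex.ofReal_natCast, div_mul_cancel₀ _ hf]
    refine Complex.ext ?_ ?_
    · rw [Complex.ofReal_re]
    · rw [Complex.ofReal_im]
      exact h.2
  refine ⟨fun k => ((-1) ^ k * iteratedDeriv k (LSeries a) 2).re / k.factorial, ?_, ?_, ?_⟩
  · intro k
    exact div_nonneg (Complex.nonneg_iff.1 (hpos k)).1 (Nat.cast_nonneg _)
  · show (1 : ℝ) ≤ ((-1) ^ 0 * iteratedDeriv 0 (LSeries a) 2).re / (Nat.factorial 0 : ℕ)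
    rw [pow_zero, one_mul, iteratedDeriv_zero, Nat.factorial_zero, Nat.cast_one, div_one]
    have hsum : Summable (LSeries.term a ((2 : ℝ) : ℂ)) := hs _ (by norm_num)
    have h1 : LSeries.term a ((2 : ℝ) : ℂ) 1 ≤ ∑' n, LSeries.term a ((2 : ℝ) : ℂ) n :=
      hsum.le_tsum 1 (fun n _ => LSeries.term_nonneg (ha n) 2)
    have h3 : LSeries.term a ((2 : ℝ) : ℂ) 1 = 1 := by
      rw [LSeries.term_of_ne_zero one_ne_zero, ha1, Nat.cast_one, Complex.one_cpow, div_one]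
    rw [h3] at h1
    have h4 := (Complex.le_def.1 h1).1
    rw [h2] at h4
    exact h4
  · intro k
    have h1 := hval k
    have h3 := heq k
    have h4 : ((-1 : ℂ) ^ k) * ((-1 : ℂ) ^ k) = 1 := by
      rw [← mul_pow]
      norm_num
    show iteratedDeriv k Q 2 = (-1) ^ k * (k.factorial : ℂ) *
      (((((-1) ^ k * iteratedDeriv k (LSeries a) 2).re / k.factorial : ℝ) : ℂ) - c)
    generalize ((((-1) ^ k * iteratedDeriv k (LSeries a) 2).re / k.factorial : ℝ) : ℂ) = B at *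
    generalize iteratedDeriv k (LSeries a) 2 = X at *
    generalize iteratedDeriv k Q 2 = Y at *
    have h5 : Y = X - c * ((-1) ^ k * (k.factorial : ℂ)) := by rw [h3]; ring
    have h6 : X = (-1) ^ k * (B * (k.factorial : ℂ)) := by
      rw [h1, ← mul_assoc, h4, one_mul]
    rw [h5, h6]
    ring

end Pool.Agent.Lib.MP_42948a_nt.AC
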