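import Pool.Agent.Lib.MP_42948a_nt.AC.Defs

/-!
# `ζ(s) L(s, χ)` (job S3)

`a = χ.zetaMul` (`Mathlib/NumberTheory/LSeries/Nonvanishing.lean`): `zetaMul_nonneg`, `isMultiplicative_zetaMul` (value `1` at `1`),
`LSeriesSummable_zetaMul`, and the identity is proved there as the private lemma `F_eq_LSeries` (copy the proof).
-/

namespace Pool.Agent.Lib.MP_42948a_nt.AC

open Finset Complex

open scoped ComplexOrder in
theorem zeta_mul_L {m : ℕ} [NeZero m] (χ : DirichletCharacter ℂ m) (hχ : χ ^ 2 = 1) :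
    ∃ a : ℕ → ℂ, (∀ n, 0 ≤ a n) ∧ a 1 = 1 ∧ (∀ s : ℂ, 1 < s.re → LSeriesSummable a s) ∧
      ∀ s : ℂ, 1 < s.re → LSeries a s = riemannZeta s * DirichletCharacter.LFunction χ s := by
  refine ⟨⇑χ.zetaMul, fun n => DirichletCharacter.zetaMul_nonneg hχ n,
    (DirichletCharacter.isMultiplicative_zetaMul χ).map_one,
    fun s hs => DirichletCharacter.LSeriesSummable_zetaMul χ hs, fun s hs => ?_⟩
  rw [DirichletCharacter.zetaMul, ← ArithmeticFunction.coe_mul, LSeries_convolution']
  · rw [DirichletCharacter.LFunction_eq_LSeries χ hs]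
    congr 1
    · simp_rw [← ArithmeticFunction.LSeries_zeta_eq_riemannZeta hs,
        ← ArithmeticFunction.natCoe_apply]
    · exact (LSeries_congr χ.apply_eq_toArithmeticFunction_apply s).symm
  · exact ArithmeticFunction.LSeriesSummable_zeta_iff.mpr hs
  · exact (LSeriesSummable_congr _ fun h ↦ (χ.apply_eq_toArithmeticFunction_apply h).symm).mpr <|
      ZMod.LSeriesSummable_of_one_lt_re χ hs

end Pool.Agent.Lib.MP_42948a_nt.AC
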