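import Pool.Agent.Lib.MP_42948a_nt.AC.Defs
import Pool.Agent.Lib.MP_9c2ea5_nt.AChar

/-!
# Positivity left of `1` (job S4)

For real `x > 0`, `L(x, χ)` is real: `χ k` is real (`χ^2 = 1`: values `0, 1, -1`, `MulChar.isQuadratic_iff_sq_eq_one`), and by
`LFun_approx` `L(x, χ)` is the limit of the real sums `∑_{k ≤ M} χ(k) k^(-x)` (the error `≤ 2 m * 2 * M^(-x) → 0`; the imaginary part
of `L` is at most the error). `L(2, χ)`: for `s = 2`, `‖L(2, χ) - 1‖ < 1`
(`L = LSeries`, `∑_{n≥2} 1/n^2 ≤ 0.65 < 1`; e.g. `DirichletCharacter.LFunction_eq_LSeries`, or take a large real `x` instead of `2`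
and use that `LSeries` tends to `1`, `LSeries.tendsto_atTop`), so `re L > 0` there. `x ↦ re L(x, χ)` is continuous on `[β, ∞)` and has
no zero there (hypothesis for `x ∈ [β, 1)`, `DirichletCharacter.LFunction_ne_zero_of_one_le_re` for `x ≥ 1`), so by the
intermediate value theorem it is positive at `β`.
-/

namespace Pool.Agent.Lib.MP_42948a_nt.AC

open Finset Complex

theorem S4_im {m : ℕ} [NeZero m] (χ : DirichletCharacter ℂ m) (hχ : χ ^ 2 = 1) (h1 : χ ≠ 1) (x : ℝ)
    (hx : 0 < x) : (DirichletCharacter.LFunction χ (x : ℂ)).im = 0 := by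
  have hq : MulChar.IsQuadratic χ := MulChar.isQuadratic_iff_sq_eq_one.2 hχ
  have hb : ∀ M : ℕ, 1 ≤ M →
      |(DirichletCharacter.LFunction χ (x : ℂ)).im| ≤ 2 * m * (1 + ‖(x : ℂ)‖ / x) * (M : ℝ) ^ (-x) := by
    intro M hM
    have h := Pool.Agent.Lib.MP_9c2ea5_nt.An.LFun_approx χ h1 (x : ℂ) (by simpa using hx) M hM
    have hs : (∑ k ∈ Finset.Ioc 0 M, χ (k : ZMod m) * (k : ℂ) ^ (-(x : ℂ))).im = 0 := by
      rw [Complex.im_sum]
      refine Finset.sum_eq_zero fun k _ => ?_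
      have e1 : (k : ℂ) ^ (-(x : ℂ)) = (((k : ℝ) ^ (-x) : ℝ) : ℂ) := by
        rw [Complex.ofReal_cpow (Nat.cast_nonneg k)]
        push_cast
        rfl
      rw [e1]
      rcases hq (k : ZMod m) with h0 | h0 | h0 <;> rw [h0] <;> simp
    have h2 := Complex.abs_im_le_norm (DirichletCharacter.LFunction χ (x : ℂ) -
      ∑ k ∈ Finset.Ioc 0 M, χ (k : ZMod m) * (k : ℂ) ^ (-(x : ℂ)))
    rw [Complex.sub_im, hs, sub_zero] at h2
    simp only [Complex.ofReal_re] at h
    exact h2.trans h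
  have ht : Filter.Tendsto (fun M : ℕ => 2 * m * (1 + ‖(x : ℂ)‖ / x) * (M : ℝ) ^ (-x))
      Filter.atTop (nhds 0) := by
    have := (tendsto_rpow_neg_atTop hx).comp (tendsto_natCast_atTop_atTop (R := ℝ))
    have h3 := this.const_mul (2 * (m : ℝ) * (1 + ‖(x : ℂ)‖ / x))
    rw [mul_zero] at h3
    exact h3
  have h4 : |(DirichletCharacter.LFunction χ (x : ℂ)).im| ≤ 0 :=
    ge_of_tendsto ht (Filter.eventually_atTop.2 ⟨1, fun M hM => hb M hM⟩)
  exact abs_nonpos_iff.1 h4

theorem L_pos {m : ℕ} [NeZero m] (χ : DirichletCharacter ℂ m) (hχ : χ ^ 2 = 1) (h1 : χ ≠ 1) (β : ℝ) (hβ : 0 < β)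
    (hz : ∀ x : ℝ, β ≤ x → x < 1 → DirichletCharacter.LFunction χ (x : ℂ) ≠ 0) :
    0 < (DirichletCharacter.LFunction χ (β : ℂ)).re ∧ (DirichletCharacter.LFunction χ (β : ℂ)).im = 0 := by
  refine ⟨?_, S4_im χ hχ h1 β hβ⟩
  have hcont : Continuous (fun x : ℝ => (DirichletCharacter.LFunction χ (x : ℂ)).re) :=
    Complex.continuous_re.comp
      ((DirichletCharacter.differentiable_LFunction h1).continuous.comp Complex.continuous_ofReal)
  have hne : ∀ x : ℝ, β ≤ x → (DirichletCharacter.LFunction χ (x : ℂ)).re ≠ 0 := by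
    intro x hx h0
    have h2 : DirichletCharacter.LFunction χ (x : ℂ) = 0 :=
      Complex.ext h0 (S4_im χ hχ h1 x (hβ.trans_le hx))
    rcases lt_or_ge x 1 with h | h
    · exact hz x hx h h2
    · exact DirichletCharacter.LFunction_ne_zero_of_one_le_re χ (Or.inl h1) (by simpa using h) h2
  have hlim : Filter.Tendsto (fun x : ℝ => (DirichletCharacter.LFunction χ (x : ℂ)).re)
      Filter.atTop (nhds 1) := by
    have h3 : Filter.Tendsto (fun x : ℝ => LSeries (fun n => χ (n : ZMod m)) (x : ℂ))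
        Filter.atTop (nhds (χ ((1 : ℕ) : ZMod m))) := by
      refine LSeries.tendsto_atTop ?_
      rw [DirichletCharacter.absicssaOfAbsConv_eq_one (NeZero.ne m) χ]
      exact EReal.coe_lt_top 1
    have h4 : Filter.Tendsto (fun x : ℝ => (LSeries (fun n => χ (n : ZMod m)) (x : ℂ)).re)
        Filter.atTop (nhds 1) := by
      have h5 := (Complex.continuous_re.tendsto _).comp h3
      have h6 : (χ ((1 : ℕ) : ZMod m)).re = 1 := by simp
      rw [h6] at h5
      exact h5
    refine h4.congr' ?_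
    filter_upwards [Filter.eventually_gt_atTop (1 : ℝ)] with x hx
    rw [DirichletCharacter.LFunction_eq_LSeries χ (by simpa using hx)]
  obtain ⟨X, hX1, hX2⟩ := ((hlim.eventually (lt_mem_nhds (show (0 : ℝ) < 1 by norm_num))).and
    (Filter.eventually_ge_atTop β)).exists
  by_contra hcon
  push Not at hcon
  have h6 : (0 : ℝ) ∈ Set.Icc ((DirichletCharacter.LFunction χ (β : ℂ)).re)
      ((DirichletCharacter.LFunction χ (X : ℂ)).re) := ⟨hcon, hX1.le⟩
  obtain ⟨x, hx, hx0⟩ := intermediate_value_Icc hX2 hcont.continuousOn h6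
  exact hne x hx.1 hx0

end Pool.Agent.Lib.MP_42948a_nt.AC
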