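import Pool.Agent.Lib.MP_42948a_nt.AC.Defs
import Pool.Agent.Lib.MP_9c2ea5_nt.AZup

/-!
# `ζ < 0` just left of `1` (job S5)

`riemannZeta β = (β - 1)⁻¹ + riemannZeta₀ β`; `‖riemannZeta₀ β‖ ≤ 10 * 4 = 40` by `zeta0_upper` (`MP_9c2ea5_nt/AZup.lean`) with
`l = 4` (`1 - 1/4 ≤ β`, `|im| + 4 = 4 ≤ exp 4`), and `(β - 1)⁻¹ ≤ -100`.
-/

namespace Pool.Agent.Lib.MP_42948a_nt.AC

open Finset Complex

theorem zeta_neg (β : ℝ) (hβ : 99 / 100 ≤ β) (hβ1 : β < 1) : (riemannZeta (β : ℂ)).re < 0 := by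
  have hne : (β : ℂ) ≠ 1 := by
    intro h
    have : β = 1 := by exact_mod_cast h
    linarith
  have h0 : riemannZeta (β : ℂ) = ((β : ℂ) - 1)⁻¹ + riemannZeta₀ (β : ℂ) := by
    simp [riemannZeta₀, hne]
  have he : (4 : ℝ) ≤ Real.exp 4 := by
    have := Real.add_one_le_exp (4 : ℝ)
    linarith
  have h1 : ‖riemannZeta₀ (β : ℂ)‖ ≤ 10 * 4 := by
    refine Pool.Agent.Lib.MP_9c2ea5_nt.An.zeta0_upper 4 le_rfl (β : ℂ) ?_ ?_
    · rw [Complex.ofReal_re]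
      linarith
    · rw [Complex.ofReal_im, abs_zero]
      linarith
  have h2 : (riemannZeta₀ (β : ℂ)).re ≤ 10 * 4 := (Complex.re_le_norm _).trans h1
  have h3 : (((β : ℂ) - 1)⁻¹).re = (β - 1)⁻¹ := by
    have : ((β : ℂ) - 1)⁻¹ = (((β - 1)⁻¹ : ℝ) : ℂ) := by push_cast; rfl
    rw [this, Complex.ofReal_re]
  rw [h0, Complex.add_re, h3]
  have h4 : (β - 1)⁻¹ ≤ -100 := by
    have h5 : (0 : ℝ) < 1 - β := by linarith
    have h6 : (100 : ℝ) ≤ (1 - β)⁻¹ := by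
      rw [le_inv_comm₀ (by norm_num) h5]
      linarith
    have h7 : (β - 1)⁻¹ = -(1 - β)⁻¹ := by
      rw [← inv_neg]
      congr 1
      ring
    rw [h7]
    linarith
  linarith

end Pool.Agent.Lib.MP_42948a_nt.AC
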