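import Pool.Agent.Lib.MP_42948a_nt.AC.Defs

/-!
# Nonnegativity at prime powers (job S6a)

Let `a`, `b ∈ {0, 1, -1}` (integers), and for sequences `u * v (k) = ∑_{i+j=k} u i v j`. If `b ≥ 0` then
`∑_{i+j=k} (∑_{s ≤ i} a^s) (b^j ∑_{t ≤ j} a^t) ≥ 0` termwise since `∑_{s ≤ i} a^s ≥ 0`. If `b = -1`: the double sum
`∑_{i+j=k} (∑_{s+s'=i} a^s) (-1)^j (∑_{t+t'=j} a^t)` equals `∑ a^s a^t (-1)^(t+t')` over `s + s' + t + t' = k`; group as
`(s', t')` with sum `q`: `∑_{t'} (-1)^{t'}` is `1` if `q` is even and `0` if odd, and `(s, t)` with sum `r`: `a^r ∑ (-1)^t`, again `0`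
for odd `r`, and `a^r ≥ 0` for even `r`. So all terms are `≥ 0`. (For the formal proof either this regrouping, e.g. through
`PowerSeries` coefficients: the generating function is
`(∑ x^k)(∑ (a x)^k)(∑ (b x)^k)(∑ (a b x)^k)`, or, in the nine cases, explicit formulas by induction on `k`:
`a = 1, b = -1`: the sum is `k/2 + 1` for even `k`, `0` for odd `k`; `a = 0`, `b = -1`: `1` or `0`;
`a = -1`, `b = -1`: `k/2 + 1` or `0`.)
-/

namespace Pool.Agent.Lib.MP_42948a_nt.AC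

open Finset Complex

private theorem S6a_neg (n : ℕ) : ∑ s ∈ Finset.range n, (-1 : ℝ) ^ s = (1 - (-1) ^ n) / 2 := by
  induction n with
  | zero => simp
  | succ n ih => rw [Finset.sum_range_succ, ih, pow_succ]; ring

private theorem S6a_zero (n : ℕ) : ∑ s ∈ Finset.range (n + 1), (0 : ℝ) ^ s = 1 := by
  induction n with
  | zero => simp
  | succ n ih => rw [Finset.sum_range_succ, ih]; simp

private theorem S6a_one (n : ℕ) : ∑ s ∈ Finset.range n, (1 : ℝ) ^ s = n := by simp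

private theorem S6a_nonneg (a : ℝ) (ha : a = 0 ∨ a = 1 ∨ a = -1) (n : ℕ) :
    0 ≤ ∑ s ∈ Finset.range (n + 1), a ^ s := by
  rcases ha with rfl | rfl | rfl
  · rw [S6a_zero]; norm_num
  · rw [S6a_one]; positivity
  · rw [S6a_neg]
    rcases neg_one_pow_eq_or ℝ (n + 1) with h | h <;> rw [h] <;> norm_num

private theorem S6a_quad (K : ℝ) (n : ℕ) :
    ∑ i ∈ Finset.range n, ((i : ℝ) + 1) * (K - i + 1) * (-1) ^ i
      = (K + 1) * ((1 - (-1) ^ n) / 2) + K * ((-1 - (-1) ^ n * (2 * n - 1)) / 4)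
        + (-1) ^ n * (n * (n - 1) / 2) := by
  induction n with
  | zero => simp
  | succ n ih =>
    rw [Finset.sum_range_succ, ih, pow_succ]
    push_cast
    ring

theorem conv_nonneg (a b : ℝ) (ha : a = 0 ∨ a = 1 ∨ a = -1) (hb : b = 0 ∨ b = 1 ∨ b = -1) (k : ℕ) :
    0 ≤ ∑ p ∈ Finset.HasAntidiagonal.antidiagonal k,
      (∑ s ∈ Finset.range (p.1 + 1), a ^ s) * (b ^ p.2 * ∑ t ∈ Finset.range (p.2 + 1), a ^ t) := by
  have hpos : 0 ≤ b → 0 ≤ ∑ p ∈ Finset.HasAntidiagonal.antidiagonal k,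
      (∑ s ∈ Finset.range (p.1 + 1), a ^ s) * (b ^ p.2 * ∑ t ∈ Finset.range (p.2 + 1), a ^ t) := by
    intro hb0
    refine Finset.sum_nonneg fun p _ => ?_
    exact mul_nonneg (S6a_nonneg a ha _) (mul_nonneg (pow_nonneg hb0 _) (S6a_nonneg a ha _))
  rcases hb with rfl | rfl | rfl
  · exact hpos le_rfl
  · exact hpos zero_le_one
  · rcases ha with rfl | rfl | rfl
    · simp only [S6a_zero, one_mul, mul_one]
      rw [Finset.Nat.sum_antidiagonal_eq_sum_range_succ (fun _ j => (-1 : ℝ) ^ j)]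
      have h1 : ∑ i ∈ Finset.range k.succ, (-1 : ℝ) ^ (k - i) = ∑ i ∈ Finset.range (k + 1), (-1 : ℝ) ^ i :=
        Finset.sum_range_reflect (fun i => (-1 : ℝ) ^ i) (k + 1) ▸ (Finset.sum_congr rfl fun i hi => by
          have : i ≤ k := Nat.lt_succ_iff.mp (Finset.mem_range.mp hi)
          congr 1)
      rw [h1]
      exact S6a_nonneg (-1) (by norm_num) k
    · simp only [S6a_one]
      rw [Finset.Nat.sum_antidiagonal_eq_sum_range_succ
        (fun i j => ((i + 1 : ℕ) : ℝ) * ((-1 : ℝ) ^ j * ((j + 1 : ℕ) : ℝ)))]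
      have h1 : ∑ i ∈ Finset.range k.succ, ((i + 1 : ℕ) : ℝ) * ((-1 : ℝ) ^ (k - i) * ((k - i + 1 : ℕ) : ℝ))
          = (-1) ^ k * ∑ i ∈ Finset.range (k + 1), ((i : ℝ) + 1) * ((k : ℝ) - i + 1) * (-1) ^ i := by
        rw [Finset.mul_sum]
        refine Finset.sum_congr rfl fun i hi => ?_
        have hik : i ≤ k := Nat.lt_succ_iff.mp (Finset.mem_range.mp hi)
        have h2 : ((-1 : ℝ)) ^ (k - i) = (-1) ^ k * (-1) ^ i := by
          have h3 : ((-1 : ℝ)) ^ k = (-1) ^ (k - i) * (-1) ^ i := by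
            rw [← pow_add, Nat.sub_add_cancel hik]
          have h4 : ((-1 : ℝ)) ^ i * (-1) ^ i = 1 := by
            rw [← pow_add, ← two_mul, pow_mul]; simp
          rw [h3, mul_assoc, h4, mul_one]
        rw [h2]
        push_cast [Nat.cast_sub hik]
        ring
      rw [h1, S6a_quad, pow_succ]
      push_cast
      rcases neg_one_pow_eq_or ℝ k with h | h <;> rw [h]
      · have : (0 : ℝ) ≤ k := Nat.cast_nonneg k
        nlinarith
      · apply le_of_eq; ring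
    · refine Finset.sum_nonneg fun p _ => ?_
      refine mul_nonneg (S6a_nonneg _ (by norm_num) _) ?_
      rw [S6a_neg, pow_succ]
      rcases neg_one_pow_eq_or ℝ p.2 with h | h <;> rw [h] <;> norm_num

end Pool.Agent.Lib.MP_42948a_nt.AC
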