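import Pool.Agent.Lib.MP_42948a_nt.AC.S1
import Pool.Agent.Lib.MP_42948a_nt.AC.S2
import Pool.Agent.Lib.MP_42948a_nt.AC.S3
import Pool.Agent.Lib.MP_42948a_nt.AC.S4
import Pool.Agent.Lib.MP_42948a_nt.AC.S5

/-!
# Siegel's theorem when there are no exceptional zeros (job S7)

`estermann` with `P = LFunction χ` (entire as `χ ≠ 1`: `DirichletCharacter.differentiable_LFunction`), `B = 17 m ≥ 1` (`LFun_disc`),
`a` from `zeta_mul_L`. `re (ζ(β) L(β)) = re ζ(β) * re L(β) < 0` as `im L(β) = 0` (`L_pos`, `zeta_neg`). The bound is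
`(1-β)/4 * (17 C m)^(-4(1-β)) = [(1-β)/4 * (17 C)^(-4(1-β))] m^(-4(1-β))`.
-/

namespace Pool.Agent.Lib.MP_42948a_nt.AC

open Finset Complex

theorem siegel_A (β : ℝ) (hβ : 99 / 100 ≤ β) (hβ1 : β < 1) :
    ∃ c : ℝ, 0 < c ∧ ∀ (m : ℕ) [NeZero m] (χ : DirichletCharacter ℂ m), χ ^ 2 = 1 → χ ≠ 1 →
      (∀ x : ℝ, β ≤ x → x < 1 → DirichletCharacter.LFunction χ (x : ℂ) ≠ 0) →
      c * (m : ℝ) ^ (-(4 * (1 - β))) ≤ ‖DirichletCharacter.LFunction χ 1‖ := by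
  obtain ⟨C, hC1, hest⟩ := estermann
  have hC0 : 0 < C := by linarith
  refine ⟨(1 - β) / 4 * (17 * C) ^ (-(4 * (1 - β))), ?_, ?_⟩
  · have h1 : 0 < (17 * C) ^ (-(4 * (1 - β))) := Real.rpow_pos_of_pos (by positivity) _
    have h2 : 0 < (1 - β) / 4 := by linarith
    exact mul_pos h2 h1
  intro m hm χ hχ hχ1 hz
  have hm1 : (1 : ℝ) ≤ (m : ℝ) := by exact_mod_cast Nat.one_le_iff_ne_zero.2 (NeZero.ne m)
  obtain ⟨a, ha0, ha1, hs, hL⟩ := zeta_mul_L χ hχ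
  have hP := hest (DirichletCharacter.LFunction χ) a (17 * m) β
    (DirichletCharacter.differentiable_LFunction hχ1) ha0 ha1 hs hL (by linarith)
    (fun s hs => LFun_disc χ hχ1 s hs) (by linarith) hβ1 ?_
  · have h1 : (C * (17 * (m : ℝ))) ^ (-(4 * (1 - β))) =
        (17 * C) ^ (-(4 * (1 - β))) * (m : ℝ) ^ (-(4 * (1 - β))) := by
      rw [← Real.mul_rpow (by positivity) (by positivity)]
      congr 1
      ring
    rw [h1, ← mul_assoc] at hP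
    exact hP
  · obtain ⟨h1, h2⟩ := L_pos χ hχ hχ1 β (by linarith) hz
    have h3 := zeta_neg β hβ hβ1
    rw [Complex.mul_re, h2, mul_zero, sub_zero]
    exact (mul_neg_of_neg_of_pos h3 h1).le

end Pool.Agent.Lib.MP_42948a_nt.AC
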