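import Pool.Agent.Lib.MP_42948a_nt.AC.Defs
import Pool.Agent.Lib.MP_42948a_nt.OA.ZA
import Pool.Agent.Lib.MP_42948a_nt.OA.ZC

/-!
# Numerics: the size of the uncovered set (job ZA1)

`z = ⌊d^c⌋ ≤ d^c` and `c (3K+4) = η/16`, so `z^(3K+4) ≤ d^(η/16)`; `BB d ≤ d^(1/2 + η/16)` for large `d` (`BB_le`);
`⌊d^κ⌋ ≥ d^κ/2` as `d^κ ≥ 1`; so `u d^(2κ)/4 * d^(2-2κ+40η) ≤ 256 d^(η/16) d^2 d^(1+η/8)`, i.e.
`u ≤ 1024 d^(1 + 3η/16 - 40η) ≤ d^(1-39η)` for large `d`.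
-/

namespace Pool.Agent.Lib.MP_42948a_nt.AC

open Finset Pool.Agent.Lib.MP_42948a_nt.OA

theorem num_cover (K : ℕ) (η c : ℝ) (hη : 0 < η) (hη1 : η ≤ 1 / 40) (hc : c * (16 * (3 * K + 4)) = η) :
    ∃ d0 : ℕ, ∀ d : ℕ, d0 ≤ d → ∀ κ : ℝ, 1 / 2 ≤ κ → κ ≤ 1 → ∀ u a : ℝ, 0 ≤ u →
      (d : ℝ) ^ (2 - 2 * κ + 40 * η) ≤ a →
      u * (⌊(d : ℝ) ^ κ⌋₊ : ℝ) ^ 2 * a ≤
        256 * (⌊(d : ℝ) ^ c⌋₊ : ℝ) ^ (3 * K + 4) * ((d : ℝ) * BB d) ^ 2 →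
      u ≤ (d : ℝ) ^ (1 - 39 * η) := by
  obtain ⟨d1, hd1⟩ := BB_le (η / 16) (by positivity)
  have h2 : ∀ᶠ x : ℝ in Filter.atTop, 1024 ≤ x ^ (13 * η / 16) :=
    (tendsto_rpow_atTop (by positivity : 0 < 13 * η / 16)).eventually_ge_atTop _
  have hT := tendsto_natCast_atTop_atTop (R := ℝ)
  have h5 : ∀ᶠ d : ℕ in Filter.atTop, d1 ≤ d ∧ 4 ≤ d ∧ 1024 ≤ (d:ℝ) ^ (13 * η / 16) := by
    filter_upwards [Filter.eventually_ge_atTop d1, Filter.eventually_ge_atTop 4, hT.eventually h2]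
      with d a b c
    exact ⟨a, b, c⟩
  obtain ⟨d0, hd0⟩ := Filter.eventually_atTop.mp h5
  refine ⟨d0, fun d hd κ hκ hκ1 u a hu ha hmain => ?_⟩
  obtain ⟨hdd1, hd4, h1024⟩ := hd0 d hd
  obtain ⟨hBB, -⟩ := hd1 d hdd1
  have hx4 : (4:ℝ) ≤ (d:ℝ) := by exact_mod_cast hd4
  have hx1 : (1:ℝ) ≤ (d:ℝ) := by linarith
  have hx0 : (0:ℝ) < (d:ℝ) := by linarith
  -- lower bound for the floor
  have hk2 : (2:ℝ) ≤ (d:ℝ) ^ κ := by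
    have h6 : (4:ℝ) ^ (1/2 : ℝ) ≤ (d:ℝ) ^ (1/2 : ℝ) :=
      Real.rpow_le_rpow (by norm_num) hx4 (by norm_num)
    have h7 : (d:ℝ) ^ (1/2 : ℝ) ≤ (d:ℝ) ^ κ := Real.rpow_le_rpow_of_exponent_le hx1 hκ
    have h8 : (4:ℝ) ^ (1/2 : ℝ) = 2 := by
      rw [← Real.sqrt_eq_rpow, show (4:ℝ) = 2 ^ 2 by norm_num]
      exact Real.sqrt_sq (by norm_num)
    linarith
  have hfl : (d:ℝ) ^ κ / 2 ≤ (⌊(d:ℝ) ^ κ⌋₊ : ℝ) := by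
    have h6 := Nat.sub_one_lt_floor ((d:ℝ) ^ κ)
    linarith
  have hkp : 0 < (d:ℝ) ^ κ := by linarith
  have hfl2 : (d:ℝ) ^ (2 * κ) / 4 ≤ (⌊(d:ℝ) ^ κ⌋₊ : ℝ) ^ 2 := by
    have h6 : (d:ℝ) ^ (2 * κ) = (d:ℝ) ^ κ * (d:ℝ) ^ κ := by
      rw [← Real.rpow_add hx0]
      congr 1
      ring
    rw [h6]
    nlinarith
  -- upper bound for the sieve factor
  have hz : ((⌊(d:ℝ) ^ c⌋₊ : ℕ) : ℝ) ^ (3 * K + 4) ≤ (d:ℝ) ^ (η / 16) := by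
    calc ((⌊(d:ℝ) ^ c⌋₊ : ℕ) : ℝ) ^ (3 * K + 4) ≤ ((d:ℝ) ^ c) ^ (3 * K + 4) :=
          pow_le_pow_left₀ (Nat.cast_nonneg _) (Nat.floor_le (Real.rpow_nonneg hx0.le c)) _
      _ = (d:ℝ) ^ (c * ((3 * K + 4 : ℕ) : ℝ)) := by
          rw [← Real.rpow_natCast, ← Real.rpow_mul hx0.le]
      _ = (d:ℝ) ^ (η / 16) := by
          congr 1
          push_cast
          linarith
  have hBn : 0 ≤ BB d := by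
    unfold BB
    have h6 : 0 ≤ Real.log (d:ℝ) := Real.log_nonneg hx1
    positivity
  have hB2 : ((d : ℝ) * BB d) ^ 2 ≤ (d:ℝ) ^ (3 + η / 8) := by
    have h6 : (d : ℝ) * BB d ≤ (d:ℝ) * (d:ℝ) ^ (1 / 2 + η / 16) :=
      mul_le_mul_of_nonneg_left hBB hx0.le
    have h7 : ((d : ℝ) * BB d) ^ 2 ≤ ((d:ℝ) * (d:ℝ) ^ (1 / 2 + η / 16)) ^ 2 :=
      pow_le_pow_left₀ (mul_nonneg hx0.le hBn) h6 2
    have h8 : ((d:ℝ) * (d:ℝ) ^ (1 / 2 + η / 16)) ^ 2 = (d:ℝ) ^ (3 + η / 8) := by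
      have h9 : (d:ℝ) * (d:ℝ) ^ (1 / 2 + η / 16) = (d:ℝ) ^ (1 + (1 / 2 + η / 16)) := by
        rw [Real.rpow_add hx0 1, Real.rpow_one]
      rw [h9, ← Real.rpow_natCast, ← Real.rpow_mul hx0.le]
      congr 1
      push_cast
      ring
    rw [← h8]
    exact h7
  have hup : 256 * (⌊(d : ℝ) ^ c⌋₊ : ℝ) ^ (3 * K + 4) * ((d : ℝ) * BB d) ^ 2 ≤
      256 * ((d:ℝ) ^ (η / 16) * (d:ℝ) ^ (3 + η / 8)) := by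
    rw [mul_assoc]
    refine mul_le_mul_of_nonneg_left ?_ (by norm_num)
    exact mul_le_mul hz hB2 (by positivity) (by positivity)
  have hlow : u * ((d:ℝ) ^ (2 * κ) / 4) * (d : ℝ) ^ (2 - 2 * κ + 40 * η) ≤
      u * (⌊(d : ℝ) ^ κ⌋₊ : ℝ) ^ 2 * a := by
    refine mul_le_mul (mul_le_mul_of_nonneg_left hfl2 hu) ha (by positivity) (by positivity)
  have e1 : u * ((d:ℝ) ^ (2 * κ) / 4) * (d : ℝ) ^ (2 - 2 * κ + 40 * η) =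
      u * (d:ℝ) ^ (2 + 40 * η) / 4 := by
    have h6 : (d:ℝ) ^ (2 + 40 * η) = (d:ℝ) ^ (2 * κ) * (d : ℝ) ^ (2 - 2 * κ + 40 * η) := by
      rw [← Real.rpow_add hx0]
      congr 1
      ring
    rw [h6]
    ring
  have e2 : (d:ℝ) ^ (η / 16) * (d:ℝ) ^ (3 + η / 8) = (d:ℝ) ^ (3 + 3 * η / 16) := by
    rw [← Real.rpow_add hx0]
    congr 1
    ring
  rw [e1] at hlow
  rw [e2] at hup
  have h6 : u * (d:ℝ) ^ (2 + 40 * η) ≤ 1024 * (d:ℝ) ^ (3 + 3 * η / 16) := by linarith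
  have h7 : 1024 * (d:ℝ) ^ (3 + 3 * η / 16) ≤
      (d:ℝ) ^ (13 * η / 16) * (d:ℝ) ^ (3 + 3 * η / 16) :=
    mul_le_mul_of_nonneg_right h1024 (by positivity)
  have h8 : (d:ℝ) ^ (13 * η / 16) * (d:ℝ) ^ (3 + 3 * η / 16) =
      (d:ℝ) ^ (1 - 39 * η) * (d:ℝ) ^ (2 + 40 * η) := by
    rw [← Real.rpow_add hx0, ← Real.rpow_add hx0]
    congr 1
    ring
  have h9 : u * (d:ℝ) ^ (2 + 40 * η) ≤ (d:ℝ) ^ (1 - 39 * η) * (d:ℝ) ^ (2 + 40 * η) := by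
    linarith
  exact le_of_mul_le_mul_right h9 (by positivity)

end Pool.Agent.Lib.MP_42948a_nt.AC
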