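import Pool.Agent.Lib.MP_42948a_nt.AC.Defs
import Pool.Agent.Lib.MP_42948a_nt.OA.ZA
import Pool.Agent.Lib.MP_42948a_nt.OA.ZC

/-!
# Numerics: number of rough elements of a coset (job ZA2)

`X2 = ⌊d^(1/2+η)⌋ ≥ d^(1/2+η)/2`, `z ≤ d^c`, `2 c ≤ η/32` and `K c ≤ η/48`, `BB d ≤ d^(1/2 + η/16)` (`BB_le`), so
`X2 h/(4 d z^2) ≥ d^(1/2 + η - η/8 - η/32)/8` and `z^K (1 + BB d) ≤ 2 d^(1/2 + η/16 + η/48)`; the difference is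
`≥ d^(1/2 + η/2) + 1` for large `d`. (Compare `num_E2` in `OA/ZC.lean`.)
-/

namespace Pool.Agent.Lib.MP_42948a_nt.AC

open Finset Pool.Agent.Lib.MP_42948a_nt.OA

private theorem ZA2_pow (x c : ℝ) (hx : 1 ≤ x) (n : ℕ) (e : ℝ) (h : c * n ≤ e) :
    ((⌊x ^ c⌋₊ : ℕ) : ℝ) ^ n ≤ x ^ e := by
  have hx0 : (0 : ℝ) ≤ x := by linarith
  calc ((⌊x ^ c⌋₊ : ℕ) : ℝ) ^ n ≤ (x ^ c) ^ n :=
        pow_le_pow_left₀ (Nat.cast_nonneg _) (Nat.floor_le (Real.rpow_nonneg hx0 c)) n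
    _ = x ^ (c * n) := by rw [← Real.rpow_natCast, ← Real.rpow_mul hx0]
    _ ≤ x ^ e := Real.rpow_le_rpow_of_exponent_le hx h

private theorem ZA2_half (x : ℝ) (hx : 2 ≤ x) : x / 2 ≤ ((⌊x⌋₊ : ℕ) : ℝ) := by
  have := Nat.sub_one_lt_floor x
  linarith

theorem num_P (K : ℕ) (η c : ℝ) (hη : 0 < η) (hη1 : η ≤ 1 / 40) (hc : c * (16 * (3 * K + 4)) = η) :
    ∃ d0 : ℕ, ∀ d : ℕ, d0 ≤ d → ∀ h : ℝ, (d : ℝ) ^ (1 - η / 8) ≤ h →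
      (d : ℝ) ^ (1 / 2 + η / 2) + 1 ≤
        (⌊(d : ℝ) ^ (1 / 2 + η)⌋₊ : ℝ) * h / (4 * d * (⌊(d : ℝ) ^ c⌋₊ : ℝ) ^ 2) -
          (⌊(d : ℝ) ^ c⌋₊ : ℝ) ^ K * (1 + BB d) := by
  have hK0 : (0:ℝ) ≤ K := Nat.cast_nonneg K
  have hden : (0:ℝ) < 16 * (3 * K + 4) := by positivity
  have hc0 : 0 < c := by
    by_contra hcon
    push Not at hcon
    have : c * (16 * (3 * K + 4)) ≤ 0 := mul_nonpos_of_nonpos_of_nonneg hcon hden.le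
    linarith
  have hcK : c * ((K : ℕ) : ℝ) ≤ η / 48 := by
    nlinarith [mul_nonneg hc0.le hK0]
  have hc2 : c * ((2 : ℕ) : ℝ) ≤ η / 32 := by
    push_cast
    nlinarith [mul_nonneg hc0.le hK0]
  obtain ⟨d1, hd1⟩ := BB_le (η / 16) (by positivity)
  have h1 : ∀ᶠ x : ℝ in Filter.atTop, 1 ≤ x ^ c :=
    (tendsto_rpow_atTop hc0).eventually_ge_atTop _
  have h2 : ∀ᶠ x : ℝ in Filter.atTop, 32 ≤ x ^ (11 * η / 32) :=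
    (tendsto_rpow_atTop (by positivity : 0 < 11 * η / 32)).eventually_ge_atTop _
  have h3 : ∀ᶠ x : ℝ in Filter.atTop, 2 ≤ x ^ (1 / 2 + η) :=
    (tendsto_rpow_atTop (by positivity : 0 < 1 / 2 + η)).eventually_ge_atTop _
  have hT := tendsto_natCast_atTop_atTop (R := ℝ)
  have h5 : ∀ᶠ d : ℕ in Filter.atTop, d1 ≤ d ∧ 2 ≤ d ∧ 1 ≤ (d:ℝ) ^ c ∧ 32 ≤ (d:ℝ) ^ (11 * η / 32) ∧
      2 ≤ (d:ℝ) ^ (1 / 2 + η) := by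
    filter_upwards [Filter.eventually_ge_atTop d1, Filter.eventually_ge_atTop 2, hT.eventually h1,
      hT.eventually h2, hT.eventually h3] with d a b c e f
    exact ⟨a, b, c, e, f⟩
  obtain ⟨d0, hd0⟩ := Filter.eventually_atTop.mp h5
  refine ⟨d0, fun d hd h hh => ?_⟩
  obtain ⟨hdd1, hd2, hdc, h32, hX2⟩ := hd0 d hd
  obtain ⟨hBB, _⟩ := hd1 d hdd1
  have hx2 : (2:ℝ) ≤ (d:ℝ) := by exact_mod_cast hd2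
  have hx1 : (1:ℝ) ≤ (d:ℝ) := by linarith
  have hx0 : (0:ℝ) < (d:ℝ) := by linarith
  have hz1 : (1:ℝ) ≤ (⌊(d : ℝ) ^ c⌋₊ : ℝ) := by
    have : 1 ≤ ⌊(d : ℝ) ^ c⌋₊ := Nat.le_floor (by exact_mod_cast hdc)
    exact_mod_cast this
  have e1 := ZA2_pow (d:ℝ) c hx1 K (η / 48) hcK
  have e2 := ZA2_pow (d:ℝ) c hx1 2 (η / 32) hc2
  have e3 := ZA2_half _ hX2
  have hB1 : 1 ≤ (d:ℝ) ^ (1 / 2 + η / 16) := Real.one_le_rpow hx1 (by positivity)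
  have hBn : 0 ≤ BB d := by
    unfold BB
    have : 0 ≤ Real.log (d:ℝ) := Real.log_nonneg hx1
    positivity
  have l1 : (⌊(d : ℝ) ^ c⌋₊ : ℝ) ^ K * (1 + BB d) ≤
      (d:ℝ) ^ (η / 48) * (2 * (d:ℝ) ^ (1 / 2 + η / 16)) := by
    apply mul_le_mul e1 _ (by linarith) (Real.rpow_nonneg hx0.le _)
    linarith
  have l1' : (d:ℝ) ^ (η / 48) * (2 * (d:ℝ) ^ (1 / 2 + η / 16)) ≤ 2 * (d:ℝ) ^ (1 / 2 + η / 2) := by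
    have : (d:ℝ) ^ (η / 48) * (d:ℝ) ^ (1 / 2 + η / 16) = (d:ℝ) ^ (η / 48 + (1 / 2 + η / 16)) := by
      rw [← Real.rpow_add hx0]
    have h7 : (d:ℝ) ^ (η / 48 + (1 / 2 + η / 16)) ≤ (d:ℝ) ^ (1 / 2 + η / 2) :=
      Real.rpow_le_rpow_of_exponent_le hx1 (by linarith)
    nlinarith
  have hone : 1 ≤ (d:ℝ) ^ (1 / 2 + η / 2) := Real.one_le_rpow hx1 (by positivity)
  have l3 : (d:ℝ) ^ (1 / 2 + η) / 2 * (d : ℝ) ^ (1 - η / 8) ≤ (⌊(d : ℝ) ^ (1 / 2 + η)⌋₊ : ℝ) * h := by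
    apply mul_le_mul e3 hh (Real.rpow_nonneg hx0.le _) (Nat.cast_nonneg _)
  have l5 : (d:ℝ) ^ (1 / 2 + η) / 2 * (d : ℝ) ^ (1 - η / 8) =
      4 * (d:ℝ) ^ (1 / 2 + η / 2) * (4 * (d:ℝ) * (d:ℝ) ^ (η / 32)) * ((d:ℝ) ^ (11 * η / 32) / 32) := by
    have h8 : (d:ℝ) ^ (1 / 2 + η) * (d : ℝ) ^ (1 - η / 8) =
        (d:ℝ) ^ (1 / 2 + η / 2) * ((d:ℝ) ^ (1:ℝ) * (d:ℝ) ^ (η / 32)) * (d:ℝ) ^ (11 * η / 32) := by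
      rw [← Real.rpow_add hx0, ← Real.rpow_add hx0, ← Real.rpow_add hx0, ← Real.rpow_add hx0]
      congr 1; ring
    rw [Real.rpow_one] at h8
    linear_combination (1 / 2) * h8
  have l6 : 4 * (d:ℝ) ^ (1 / 2 + η / 2) ≤
      (⌊(d : ℝ) ^ (1 / 2 + η)⌋₊ : ℝ) * h / (4 * d * (⌊(d : ℝ) ^ c⌋₊ : ℝ) ^ 2) := by
    rw [le_div_iff₀ (by positivity)]
    refine le_trans ?_ l3
    rw [l5]
    have h9 : 4 * (d:ℝ) ^ (1 / 2 + η / 2) * (4 * d * (⌊(d : ℝ) ^ c⌋₊ : ℝ) ^ 2) ≤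
        4 * (d:ℝ) ^ (1 / 2 + η / 2) * (4 * (d:ℝ) * (d:ℝ) ^ (η / 32)) := by
      gcongr
    refine h9.trans ?_
    have h10 : 0 ≤ 4 * (d:ℝ) ^ (1 / 2 + η / 2) * (4 * (d:ℝ) * (d:ℝ) ^ (η / 32)) := by positivity
    have h11 : 1 ≤ (d:ℝ) ^ (11 * η / 32) / 32 := by linarith
    exact le_mul_of_one_le_right h10 h11
  linarith

end Pool.Agent.Lib.MP_42948a_nt.AC
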