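import Pool.Agent.Lib.MP_42948a_nt.AC.Defs

/-!
# Numerics: the error terms (job ZA3)

`m0 ≤ d^(1-39η)`, `C ≤ d^(η/8) + 1 ≤ 2 d^(η/8)`, so `C (2k+1) m0 ≤ d^(1-38η)` for large `d` (`2 (2k+1) ≤ d^(7η/8)`), and
`3 d^(1-38η) < d^(1-η/8)`, `m0 + 2 C (2k+1) m0 ≤ 3 d^(1-38η) ≤ d^(1-32η)`. `X / d + 1 ≤ d^(2η) + 1 ≤ 2 d^(2η)`, so
`2 (...) (X/d + 1) T ≤ 12 T d^(1-36η) < d^(1+η) ≤ P * P` where `P ≥ d^(1/2+η/2)`.
-/

namespace Pool.Agent.Lib.MP_42948a_nt.AC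

open Finset Pool.Agent.Lib.MP_42948a_nt.OA

theorem ZA3_alg {u w v t Q T m0 e R : ℝ} (hu : 1 ≤ u) (hv : 0 < v) (ht : 1 ≤ t) (hQ : 1 ≤ Q)
    (hT : 0 ≤ T) (hw : 20 * Q * (T + 1) < w) (hm : m0 ≤ v) (he : e ≤ 2 * u * Q * v)
    (hR0 : 0 ≤ R) (hR : R ≤ 2 * t) :
    3 * e < u * w * v ∧ m0 + 2 * e ≤ u * w * v ∧
      2 * ((m0 + 2 * e) * R * T) < w * (u * v * t) := by
  have hp : 0 < u * v := mul_pos (by linarith) hv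
  have hQT : Q ≤ Q * (T + 1) := le_mul_of_one_le_right (by linarith) (by linarith)
  have hQT2 : Q * T ≤ Q * (T + 1) := mul_le_mul_of_nonneg_left (by linarith) (by linarith)
  have hw2 : 20 * (Q * (T + 1)) < w := by linarith
  have he2 : e ≤ 2 * (Q * (u * v)) := by linarith
  have h1 : 1 ≤ Q * u := by
    have := mul_le_mul hQ hu (by norm_num) (by linarith)
    linarith
  have h2 : v ≤ Q * (u * v) := by
    have := le_mul_of_one_le_left hv.le h1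
    linarith
  have h3 : m0 + 2 * e ≤ 5 * (Q * (u * v)) := by linarith
  have hQp : 0 < Q * (u * v) := mul_pos (by linarith) hp
  have h4 : 6 * Q * (u * v) < w * (u * v) := mul_lt_mul_of_pos_right (by linarith) hp
  refine ⟨by linarith, by linarith, ?_⟩
  have h5 : (m0 + 2 * e) * R ≤ (5 * (Q * (u * v))) * (2 * t) :=
    mul_le_mul h3 hR hR0 (by positivity)
  have h6 := mul_le_mul_of_nonneg_right h5 hT
  have huvt : 0 < u * v * t := mul_pos hp (by linarith)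
  have h7 : 20 * (Q * T) * (u * v * t) < w * (u * v * t) :=
    mul_lt_mul_of_pos_right (by linarith) huvt
  linarith

theorem num_err (η : ℝ) (hη : 0 < η) (hη1 : η ≤ 1 / 40) (k T : ℕ) :
    ∃ d0 : ℕ, ∀ d : ℕ, d0 ≤ d → ∀ m0 P : ℕ, (m0 : ℝ) ≤ (d : ℝ) ^ (1 - 39 * η) → (d : ℝ) ^ (1 / 2 + η / 2) ≤ (P : ℝ) →
      (3 * ((⌈(d : ℝ) ^ (η / 8)⌉₊ * (2 * k + 1) * m0 : ℕ) : ℝ) < (d : ℝ) ^ (1 - η / 8)) ∧
      (((m0 + 2 * (⌈(d : ℝ) ^ (η / 8)⌉₊ * (2 * k + 1) * m0) : ℕ) : ℝ) ≤ (d : ℝ) ^ (1 - 32 * η)) ∧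
      2 * ((m0 + 2 * (⌈(d : ℝ) ^ (η / 8)⌉₊ * (2 * k + 1) * m0)) * (⌊(d : ℝ) ^ (1 + 2 * η)⌋₊ / d + 1) * T) < P * P := by
  have hlim : Filter.Tendsto (fun d : ℕ => (d : ℝ) ^ (η / 2)) Filter.atTop Filter.atTop :=
    (tendsto_rpow_atTop (by positivity)).comp tendsto_natCast_atTop_atTop
  obtain ⟨d1, hd1⟩ := Filter.eventually_atTop.1
    (hlim.eventually_gt_atTop (20 * (2 * (k : ℝ) + 1) * ((T : ℝ) + 1)))
  refine ⟨max d1 1, fun d hd m0 P hm0 hP => ?_⟩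
  have hw := hd1 d (le_trans (le_max_left _ _) hd)
  have hdpos : 1 ≤ d := le_trans (le_max_right _ _) hd
  have hD1 : (1 : ℝ) ≤ (d : ℝ) := by exact_mod_cast hdpos
  have hD0 : (0 : ℝ) < (d : ℝ) := by linarith
  have hu1 : 1 ≤ (d : ℝ) ^ (η / 8) := Real.one_le_rpow hD1 (by positivity)
  have ht1 : 1 ≤ (d : ℝ) ^ (2 * η) := Real.one_le_rpow hD1 (by positivity)
  have hv0 : 0 < (d : ℝ) ^ (1 - 39 * η) := Real.rpow_pos_of_pos hD0 _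
  have hk0 : (0 : ℝ) ≤ (k : ℝ) := Nat.cast_nonneg k
  have hT0 : (0 : ℝ) ≤ (T : ℝ) := Nat.cast_nonneg T
  have hQ1 : (1 : ℝ) ≤ 2 * (k : ℝ) + 1 := by linarith
  have hm00 : (0 : ℝ) ≤ (m0 : ℝ) := Nat.cast_nonneg m0
  have hC : ((⌈(d : ℝ) ^ (η / 8)⌉₊ : ℕ) : ℝ) ≤ 2 * (d : ℝ) ^ (η / 8) := by
    have := Nat.ceil_lt_add_one (show 0 ≤ (d : ℝ) ^ (η / 8) by linarith)
    linarith
  obtain ⟨err, herr⟩ : ∃ err : ℕ, err = ⌈(d : ℝ) ^ (η / 8)⌉₊ * (2 * k + 1) * m0 := ⟨_, rfl⟩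
  rw [← herr]
  have herr1 : (err : ℝ) ≤ 2 * (d : ℝ) ^ (η / 8) * (2 * (k : ℝ) + 1) * (d : ℝ) ^ (1 - 39 * η) := by
    rw [herr]
    push_cast
    apply mul_le_mul _ hm0 hm00 (by positivity)
    exact mul_le_mul_of_nonneg_right hC (by linarith)
  have huwv : (d : ℝ) ^ (η / 8) * (d : ℝ) ^ (η / 2) * (d : ℝ) ^ (1 - 39 * η)
      ≤ (d : ℝ) ^ (1 - 32 * η) := by
    rw [← Real.rpow_add hD0, ← Real.rpow_add hD0]
    apply Real.rpow_le_rpow_of_exponent_le hD1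
    linarith
  have huwv2 : (d : ℝ) ^ (1 - 32 * η) ≤ (d : ℝ) ^ (1 - η / 8) := by
    apply Real.rpow_le_rpow_of_exponent_le hD1
    linarith
  have h3 : ((⌊(d : ℝ) ^ (1 + 2 * η)⌋₊ / d + 1 : ℕ) : ℝ) ≤ 2 * (d : ℝ) ^ (2 * η) := by
    push_cast
    have h4 : ((⌊(d : ℝ) ^ (1 + 2 * η)⌋₊ / d : ℕ) : ℝ)
        ≤ (⌊(d : ℝ) ^ (1 + 2 * η)⌋₊ : ℝ) / (d : ℝ) := Nat.cast_div_le
    have h5 : (⌊(d : ℝ) ^ (1 + 2 * η)⌋₊ : ℝ) ≤ (d : ℝ) ^ (1 + 2 * η) :=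
      Nat.floor_le (Real.rpow_nonneg hD0.le _)
    have h6 : (d : ℝ) ^ (1 + 2 * η) = d * (d : ℝ) ^ (2 * η) := by
      rw [Real.rpow_add hD0, Real.rpow_one]
    have h7 : (⌊(d : ℝ) ^ (1 + 2 * η)⌋₊ : ℝ) / (d : ℝ) ≤ (d : ℝ) ^ (2 * η) := by
      rw [div_le_iff₀ hD0]
      linarith [mul_comm (d : ℝ) ((d : ℝ) ^ (2 * η))]
    linarith
  obtain ⟨c1, c2, c3⟩ := ZA3_alg hu1 hv0 ht1 hQ1 hT0 hw hm0 herr1 (Nat.cast_nonneg _) h3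
  refine ⟨by linarith, ?_, ?_⟩
  · have h1 : ((m0 + 2 * err : ℕ) : ℝ) = (m0 : ℝ) + 2 * (err : ℝ) := by push_cast; ring
    rw [h1]
    linarith
  · have h8 : (2 * ((m0 + 2 * err) * (⌊(d : ℝ) ^ (1 + 2 * η)⌋₊ / d + 1) * T) : ℕ)
        < ((P * P : ℕ) : ℝ) := by
      have h9 : ((2 * ((m0 + 2 * err) * (⌊(d : ℝ) ^ (1 + 2 * η)⌋₊ / d + 1) * T) : ℕ) : ℝ)
          = 2 * (((m0 : ℝ) + 2 * (err : ℝ)) *
            ((⌊(d : ℝ) ^ (1 + 2 * η)⌋₊ / d + 1 : ℕ) : ℝ) * T) := by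
        push_cast
        ring
      rw [h9]
      have h13 : (d : ℝ) ^ (η / 2) * ((d : ℝ) ^ (η / 8) * (d : ℝ) ^ (1 - 39 * η) *
          (d : ℝ) ^ (2 * η)) ≤ (d : ℝ) ^ (1 + η) := by
        rw [← Real.rpow_add hD0, ← Real.rpow_add hD0, ← Real.rpow_add hD0]
        apply Real.rpow_le_rpow_of_exponent_le hD1
        linarith
      have h14 : (d : ℝ) ^ (1 + η) ≤ ((P * P : ℕ) : ℝ) := by
        have h15 : (d : ℝ) ^ (1 + η) = (d : ℝ) ^ (1 / 2 + η / 2) * (d : ℝ) ^ (1 / 2 + η / 2) := by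
          rw [← Real.rpow_add hD0]
          congr 1
          ring
        rw [h15]
        push_cast
        exact mul_le_mul hP hP (Real.rpow_nonneg hD0.le _) (Nat.cast_nonneg _)
      linarith
    exact_mod_cast h8

end Pool.Agent.Lib.MP_42948a_nt.AC
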