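import Pool.Agent.Lib.MP_42948a_nt.AC.GS
import Pool.Agent.Lib.MP_42948a_nt.AC.C3
import Pool.Agent.Lib.MP_42948a_nt.AC.N1
import Pool.Agent.Lib.MP_42948a_nt.AC.N2
import Pool.Agent.Lib.MP_42948a_nt.AC.N6
import Pool.Agent.Lib.MP_42948a_nt.AC.ZA1
import Pool.Agent.Lib.MP_42948a_nt.AC.ZA2
import Pool.Agent.Lib.MP_42948a_nt.AC.ZA3
import Pool.Agent.Lib.MP_42948a_nt.OA.EH
import Pool.Agent.Lib.MP_42948a_nt.OA.FB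
import Pool.Agent.Lib.MP_42948a_nt.OA.ZB
import Pool.Agent.Lib.MP_42948a_nt.OA.ZC

/-!
# The core theorem (job Z1)

Parameters as in `core_A` of `OA/ZH.lean` (copy the beginning of that proof): `k = ⌈1/η⌉`, `z = ⌊d^c⌋`, `X1 = ⌊d^(1+η)⌋`,
`X2 = ⌊d^(1/2+η)⌋`, `X = ⌊d^(1+2η)⌋`, `Y = ⌊d^(1/k)⌋`, `R = ⌊d^κ⌋`, `C = ⌈d^(η/8)⌉`, `m0 = ⌊d^(1-39η)⌋`, `P = ⌈d^(1/2+η/2)⌉`,
`T = 2^⌈2/c⌉`. `U = uncov z R A`: `#U ≤ m0` by `cover` and `num_cover` (with `u = #U`, `a = #A`). `F b = g (n_b)` with `n_b` rough,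
`≤ X1`, of class `b` (`exists_rough_class`). `hU`: if `b ∉ U` there are a rough `x ≤ R` and `a ∈ A` with `x b = a`; for any rough
`n ≤ X` of class `b`, `x n ≡ a`, so `g x * g n = g (x n) = σ a` by hypothesis (`x ≤ R ≤ d^κ`), in particular for `n_b` (`X1 ≤ X`), so
`g n = g n_b = F b`. `V` from `exists_V`, with `#V ≥ d^(1-η/8)` by `many_primes k hk1 (η/8)` as in `core_A`; `Nat.card Hgen ≤ #G ≤ d ≤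
C * #V`. `h3`: `num_err` and `d^(1-η/8) ≤ #V ≤ Fintype.card`. `hT`: `rough_divisors` (`X ≤ d^2` as `2η ≤ 1`). `hP`:
`card_rough_coset` with `H = Hgen d z Y`, `Nat.card H ≥ #V ≥ d^(1-η/8)` (`V ⊆ Hgen`, as words are in the closure), and `num_P`
(`P ≤ d^(1/2+η/2) + 1`). `hPP`: `num_err`. Conclude with `core_alg`; `n ≤ d^(1+2η)` iff `n ≤ X` (`Nat.le_floor_iff`).
-/

namespace Pool.Agent.Lib.MP_42948a_nt.AC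

open Finset Pool.Agent.Lib.MP_42948a_nt.OA

theorem core (K : ℕ) (hK : SieveProp K) (η c : ℝ) (hη : 0 < η) (hη1 : η ≤ 1 / 40)
    (hc : c * (16 * (3 * K + 4)) = η) :
    ∃ d0 : ℕ, ∀ d : ℕ, d0 ≤ d → ∀ g : ℕ → ℤˣ, (∀ m n : ℕ, 0 < m → 0 < n → g (m * n) = g m * g n) →
      ∀ κ : ℝ, 1 / 2 ≤ κ → κ ≤ 1 → ∀ (A : Finset (ZMod d)ˣ) (σ : (ZMod d)ˣ → ℤˣ),
      (∀ a ∈ A, ∀ x y : ℕ, Rough ⌊(d : ℝ) ^ c⌋₊ x → Rough ⌊(d : ℝ) ^ c⌋₊ y → (x : ℝ) ≤ (d : ℝ) ^ κ →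
        (y : ℝ) ≤ (d : ℝ) ^ (1 + 2 * η) → ((x * y : ℕ) : ZMod d) = (a : ZMod d) → g (x * y) = σ a) →
      (d : ℝ) ^ (2 - 2 * κ + 40 * η) ≤ (A.card : ℝ) →
      ∃ (ψ : (ZMod d)ˣ →* ℤˣ) (B : Finset (ZMod d)ˣ), (B.card : ℝ) ≤ (d : ℝ) ^ (1 - 32 * η) ∧
        ∀ b ∉ B, ∀ n : ℕ, Rough ⌊(d : ℝ) ^ c⌋₊ n → (n : ℝ) ≤ (d : ℝ) ^ (1 + 2 * η) →
          (n : ZMod d) = (b : ZMod d) → g n = ψ b := by
  classical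
  have hK0 : (0 : ℝ) ≤ (K : ℝ) := Nat.cast_nonneg K
  have h16 : (0 : ℝ) < 16 * (3 * K + 4) := by positivity
  have hc0 : 0 < c := by
    by_contra hcon
    have := mul_nonpos_of_nonpos_of_nonneg (not_lt.1 hcon) h16.le
    linarith
  have hcle : c ≤ η / 64 := by
    have h64 : c * 64 ≤ η := by
      nlinarith [mul_nonneg hc0.le hK0]
    linarith
  obtain ⟨k, hkdef⟩ : ∃ k : ℕ, k = ⌈1 / η⌉₊ := ⟨_, rfl⟩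
  have hη' : 0 < 1 / η := by positivity
  have hk1 : 1 ≤ k := by rw [hkdef]; exact Nat.one_le_ceil_iff.2 hη'
  have hkr : (0 : ℝ) < (k : ℝ) := by exact_mod_cast hk1
  have hkge : 1 / η ≤ (k : ℝ) := by rw [hkdef]; exact Nat.le_ceil _
  have hkη : 1 / (k : ℝ) ≤ η := by
    rw [div_le_iff₀ hkr]
    have := (div_le_iff₀ hη).1 hkge
    linarith
  have hkle : (k : ℝ) ≤ 2 / η := by
    have h1 : (k : ℝ) < 1 / η + 1 := by rw [hkdef]; exact Nat.ceil_lt_add_one hη'.le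
    have h2 : 1 ≤ 1 / η := by
      rw [le_div_iff₀ hη]; linarith
    have h3 : 2 / η = 1 / η + 1 / η := by ring
    linarith
  have hck : c ≤ 1 / (2 * (k : ℝ)) := by
    have h1 : (k : ℝ) * η ≤ 2 := (le_div_iff₀ hη).1 hkle
    have h2 : η / 64 ≤ 1 / (2 * (k : ℝ)) := by
      rw [div_le_div_iff₀ (by norm_num) (by positivity)]
      linarith
    linarith
  obtain ⟨d1, h1⟩ := num_E1 K η c hη hc
  obtain ⟨d2, h2⟩ := many_primes k hk1 (η / 8) (by positivity) (by linarith)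
  obtain ⟨d3, h3⟩ := num_cover K η c hη hη1 hc
  obtain ⟨d4, h4⟩ := num_P K η c hη hη1 hc
  obtain ⟨d5, h5⟩ := num_err η hη hη1 k (2 ^ ⌈2 / c⌉₊)
  refine ⟨d1 + d2 + d3 + d4 + d5 + 2, fun d hd g hg κ hκ hκ1 A σ hA hAc => ?_⟩
  have hd2 : 2 ≤ d := by omega
  have hne : NeZero d := ⟨by omega⟩
  have hdr : (1 : ℝ) ≤ (d : ℝ) := by
    have h : 1 ≤ d := by omega
    exact_mod_cast h
  have hd0 : (0 : ℝ) ≤ (d : ℝ) := by linarith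
  have hdpos : (0 : ℝ) < (d : ℝ) := by linarith
  obtain ⟨hz, hzN⟩ := h1 d (by omega)
  have hzle : ((⌊(d : ℝ) ^ c⌋₊ : ℕ) : ℝ) ≤ (d : ℝ) ^ (1 / (2 * (k : ℝ))) :=
    (Nat.floor_le (Real.rpow_nonneg hd0 c)).trans (Real.rpow_le_rpow_of_exponent_le hdr hck)
  obtain ⟨b1, b2, b3, _, b5⟩ := num_basic η hη k hk1 hkη d (by omega)
  have hmp := h2 d (by omega) _ hzle
  -- the set V
  obtain ⟨V, hV, hVc⟩ := exists_V d ⌊(d : ℝ) ^ c⌋₊ ⌊(d : ℝ) ^ (1 / (k : ℝ))⌋₊ k hd2 b5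
  have hVge : (d : ℝ) ^ (1 - η / 8) ≤ (V.card : ℝ) := by
    have e1 : (k : ℝ) ^ k * (d : ℝ) ^ (1 - η / 8) ≤ (k : ℝ) ^ k * (V.card : ℝ) := by
      have e2 : ((k : ℝ) * (d : ℝ) ^ ((1 - η / 8) / k)) ^ k = (k : ℝ) ^ k * (d : ℝ) ^ (1 - η / 8) := by
        rw [mul_pow, ← Real.rpow_natCast ((d : ℝ) ^ ((1 - η / 8) / k)) k, ← Real.rpow_mul hd0,
          div_mul_cancel₀ _ hkr.ne']
      rw [← e2]
      refine (pow_le_pow_left₀ (by positivity) hmp k).trans ?_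
      exact_mod_cast hVc
    exact le_of_mul_le_mul_left e1 (by positivity)
  have hVpos : (0 : ℝ) < (V.card : ℝ) := lt_of_lt_of_le (Real.rpow_pos_of_pos hdpos _) hVge
  have hVne : V.Nonempty := by
    rw [← card_pos]
    exact_mod_cast hVpos
  obtain ⟨H, hH⟩ : ∃ H : Subgroup (ZMod d)ˣ, H = Hgen d ⌊(d : ℝ) ^ c⌋₊ ⌊(d : ℝ) ^ (1 / (k : ℝ))⌋₊ := ⟨_, rfl⟩
  have hVH : V.card ≤ Nat.card H := by
    have hsub : (V : Set (ZMod d)ˣ) ⊆ (H : Set (ZMod d)ˣ) := by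
      intro v hv
      obtain ⟨l, -, hl, rfl⟩ := hV v (mem_coe.1 hv)
      rw [hH, Hgen_eq]
      refine Subgroup.list_prod_mem _ fun u hu => ?_
      rcases hl u hu with h | h
      · exact Subgroup.subset_closure h
      · exact (Subgroup.inv_mem_iff _).1 (Subgroup.subset_closure h)
    have h6 := Set.ncard_le_ncard hsub (Set.toFinite _)
    rwa [Set.ncard_coe_finset] at h6
  have hHge : (d : ℝ) ^ (1 - η / 8) ≤ (Nat.card H : ℝ) := by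
    have h6 : (V.card : ℝ) ≤ (Nat.card H : ℝ) := by exact_mod_cast hVH
    linarith
  have hCV : Nat.card H ≤ ⌈(d : ℝ) ^ (η / 8)⌉₊ * V.card := by
    refine (EG_card_le d H).trans ?_
    have h6 : (d : ℝ) ≤ (⌈(d : ℝ) ^ (η / 8)⌉₊ : ℝ) * (V.card : ℝ) := by
      have h7 : (d : ℝ) = (d : ℝ) ^ (η / 8) * (d : ℝ) ^ (1 - η / 8) := by
        rw [← Real.rpow_add hdpos]
        have : η / 8 + (1 - η / 8) = 1 := by ring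
        rw [this, Real.rpow_one]
      calc (d : ℝ) = (d : ℝ) ^ (η / 8) * (d : ℝ) ^ (1 - η / 8) := h7
        _ ≤ (⌈(d : ℝ) ^ (η / 8)⌉₊ : ℝ) * (V.card : ℝ) :=
          mul_le_mul (Nat.le_ceil _) hVge (Real.rpow_nonneg hd0 _) (Nat.cast_nonneg _)
    exact_mod_cast h6
  -- the uncovered set
  have hUr : ((uncov ⌊(d : ℝ) ^ c⌋₊ ⌊(d : ℝ) ^ κ⌋₊ A).card : ℝ) ≤ (d : ℝ) ^ (1 - 39 * η) :=
    h3 d (by omega) κ hκ hκ1 _ _ (Nat.cast_nonneg _) hAc (cover K hK _ d _ hz A)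
  have hUc : (uncov ⌊(d : ℝ) ^ c⌋₊ ⌊(d : ℝ) ^ κ⌋₊ A).card ≤ ⌊(d : ℝ) ^ (1 - 39 * η)⌋₊ := Nat.le_floor hUr
  have hm0 : ((⌊(d : ℝ) ^ (1 - 39 * η)⌋₊ : ℕ) : ℝ) ≤ (d : ℝ) ^ (1 - 39 * η) :=
    Nat.floor_le (Real.rpow_nonneg hd0 _)
  obtain ⟨q1, q2, q3⟩ := h5 d (by omega) ⌊(d : ℝ) ^ (1 - 39 * η)⌋₊ ⌈(d : ℝ) ^ (1 / 2 + η / 2)⌉₊ hm0 (Nat.le_ceil _)
  have hcl := fun b : (ZMod d)ˣ => exists_rough_class K hK _ d _ hz (by omega : 0 < d) hzN b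
  choose nb hnb1 hnb2 hnb3 using hcl
  have hXfl : ∀ n : ℕ, n ≤ ⌊(d : ℝ) ^ (1 + 2 * η)⌋₊ → (n : ℝ) ≤ (d : ℝ) ^ (1 + 2 * η) := fun n hn =>
    (Nat.le_floor_iff (Real.rpow_nonneg hd0 _)).1 hn
  have hUprop : ∀ b ∉ uncov ⌊(d : ℝ) ^ c⌋₊ ⌊(d : ℝ) ^ κ⌋₊ A, ∀ n : ℕ, Rough ⌊(d : ℝ) ^ c⌋₊ n →
      n ≤ ⌊(d : ℝ) ^ (1 + 2 * η)⌋₊ → (n : ZMod d) = (b : ZMod d) → g n = g (nb b) := by
    intro b hb n hn hnX hnb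
    have hex : ∃ x : ℕ, Rough ⌊(d : ℝ) ^ c⌋₊ x ∧ x ≤ ⌊(d : ℝ) ^ κ⌋₊ ∧ hit A b x := by
      by_contra h
      exact hb (mem_filter.2 ⟨mem_univ _, h⟩)
    obtain ⟨x, hx, hxR, a, ha, hxa⟩ := hex
    have key : ∀ n : ℕ, Rough ⌊(d : ℝ) ^ c⌋₊ n → n ≤ ⌊(d : ℝ) ^ (1 + 2 * η)⌋₊ → (n : ZMod d) = (b : ZMod d) →
        g x * g n = σ a := by
      intro n hn hnX hnb
      rw [← hg x n hx.pos hn.pos]
      refine hA a ha x n hx hn ((Nat.le_floor_iff (Real.rpow_nonneg hd0 _)).1 hxR) (hXfl n hnX) ?_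
      rw [Nat.cast_mul, hnb, hxa]
    exact mul_left_cancel ((key n hn hnX hnb).trans
      (key (nb b) (hnb1 b) ((hnb2 b).trans b1) (hnb3 b)).symm)
  have hG3 : 3 * (⌈(d : ℝ) ^ (η / 8)⌉₊ * (2 * k + 1) * ⌊(d : ℝ) ^ (1 - 39 * η)⌋₊) < Fintype.card (ZMod d)ˣ := by
    have h6 : V.card ≤ Fintype.card (ZMod d)ˣ := card_le_univ V
    have h7 : (3 * ((⌈(d : ℝ) ^ (η / 8)⌉₊ * (2 * k + 1) * ⌊(d : ℝ) ^ (1 - 39 * η)⌋₊ : ℕ) : ℝ)) <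
        (Fintype.card (ZMod d)ˣ : ℝ) := by
      have h8 : (V.card : ℝ) ≤ (Fintype.card (ZMod d)ˣ : ℝ) := by exact_mod_cast h6
      linarith
    exact_mod_cast h7
  have hTd : ∀ n : ℕ, Rough ⌊(d : ℝ) ^ c⌋₊ n → n ≤ ⌊(d : ℝ) ^ (1 + 2 * η)⌋₊ →
      n.divisors.card ≤ 2 ^ ⌈2 / c⌉₊ := by
    intro n hn hnX
    refine rough_divisors c hc0 d hd2 n hn ((hXfl n hnX).trans ?_)
    exact Real.rpow_le_rpow_of_exponent_le hdr (by linarith)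
  have hPc : ∀ b : (ZMod d)ˣ, ⌈(d : ℝ) ^ (1 / 2 + η / 2)⌉₊ ≤
      ((Icc 1 ⌊(d : ℝ) ^ (1 / 2 + η)⌋₊).filter (fun n => Rough ⌊(d : ℝ) ^ c⌋₊ n ∧
      ∃ h ∈ Hgen d ⌊(d : ℝ) ^ c⌋₊ ⌊(d : ℝ) ^ (1 / (k : ℝ))⌋₊,
        (n : ZMod d) = ((b * h : (ZMod d)ˣ) : ZMod d))).card := by
    intro b
    have h6 := card_rough_coset K hK ⌊(d : ℝ) ^ c⌋₊ d ⌊(d : ℝ) ^ (1 / 2 + η)⌋₊ hz H b
    have h7 := h4 d (by omega) (Nat.card H : ℝ) hHge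
    have h8 : ((⌈(d : ℝ) ^ (1 / 2 + η / 2)⌉₊ : ℕ) : ℝ) < (d : ℝ) ^ (1 / 2 + η / 2) + 1 :=
      Nat.ceil_lt_add_one (Real.rpow_nonneg hd0 _)
    rw [hH] at h6 h7
    have h9 := (h8.le.trans h7).trans h6
    have h10 := Nat.cast_le.1 h9
    exact h10
  rw [hH] at hCV
  obtain ⟨ψ, B, hB, hall⟩ := core_alg d ⌊(d : ℝ) ^ c⌋₊ ⌊(d : ℝ) ^ (1 + η)⌋₊ ⌊(d : ℝ) ^ (1 / 2 + η)⌋₊
    ⌊(d : ℝ) ^ (1 / (k : ℝ))⌋₊ ⌊(d : ℝ) ^ (1 + 2 * η)⌋₊ k ⌈(d : ℝ) ^ (η / 8)⌉₊ ⌊(d : ℝ) ^ (1 - 39 * η)⌋₊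
    (2 ^ ⌈2 / c⌉₊) ⌈(d : ℝ) ^ (1 / 2 + η / 2)⌉₊ g hg
    (uncov ⌊(d : ℝ) ^ c⌋₊ ⌊(d : ℝ) ^ κ⌋₊ A) (fun b => g (nb b)) hUprop
    (fun b => ⟨nb b, hnb1 b, hnb2 b, hnb3 b, rfl⟩) b2 b3 hUc V hV hVne hCV hG3 hTd
    hPc q3
  refine ⟨ψ, B, ?_, fun b hb n hn hnX hnb => hall b hb n hn (Nat.le_floor hnX) hnb⟩
  have h6 : (B.card : ℝ) ≤ ((⌊(d : ℝ) ^ (1 - 39 * η)⌋₊ +
      2 * (⌈(d : ℝ) ^ (η / 8)⌉₊ * (2 * k + 1) * ⌊(d : ℝ) ^ (1 - 39 * η)⌋₊) : ℕ) : ℝ) := by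
    exact_mod_cast hB
  exact h6.trans q2

end Pool.Agent.Lib.MP_42948a_nt.AC
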