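import Pool.Agent.Lib.MP_42948a_nt.AC.Defs
import Pool.Agent.Lib.MP_42948a_nt.OA.ZA

/-!
# Numerics for the contradiction (job Z2n)

`z = ⌊d^c⌋ ≤ d^c`, `X = ⌊d^(1+2η)⌋`, `d^(1+2η)/2 ≤ X ≤ d^(1+2η)`. Left side: `X d^(-η)/(8 z^2) ≥ d^(1+η-2c)/16 ≥ d^(1+31η/32)/16`
(`2 c ≤ η/32`). Right side: `τ(d) √X ≤ d^(η/16) d^(1/2+η)` (`BB_le`), `z^(3K) d^(1/2+η/4) ≤ d^(1/2 + η/4 + η/16)`,
`T d^(-28η) X (log2 X + 1) ≤ T d^(1-26η) (2 log d / log 2 + 2)`; each is `< d^(1+31η/32)/48` for large `d`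
(`Nat.log 2 X ≤ log X / log 2`, `isLittleO_log_rpow_atTop`).
-/

namespace Pool.Agent.Lib.MP_42948a_nt.AC

open Finset Pool.Agent.Lib.MP_42948a_nt.OA

theorem num_contra (K : ℕ) (η c : ℝ) (hη : 0 < η) (hη1 : η ≤ 1 / 40) (hc : c * (16 * (3 * K + 4)) = η) (T : ℕ) :
    ∃ d0 : ℕ, ∀ d : ℕ, d0 ≤ d →
      (d.divisors.card : ℝ) * √(⌊(d : ℝ) ^ (1 + 2 * η)⌋₊ : ℝ) +
          T * ((d : ℝ) ^ (-(28 * η)) * (⌊(d : ℝ) ^ (1 + 2 * η)⌋₊ : ℝ) * (Nat.log 2 ⌊(d : ℝ) ^ (1 + 2 * η)⌋₊ + 1)) +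
          (⌊(d : ℝ) ^ c⌋₊ : ℝ) ^ (3 * K) * (d : ℝ) ^ (1 / 2 + η / 4) <
        (⌊(d : ℝ) ^ (1 + 2 * η)⌋₊ : ℝ) * (d : ℝ) ^ (-η) / (8 * (⌊(d : ℝ) ^ c⌋₊ : ℝ) ^ 2) := by
  have hK0 : (0 : ℝ) ≤ K := Nat.cast_nonneg K
  have hc0 : 0 < c := by
    by_contra h
    have h1 : c * (16 * (3 * K + 4)) ≤ 0 :=
      mul_nonpos_of_nonpos_of_nonneg (not_lt.mp h) (by positivity)
    linarith
  have hcK : 0 ≤ c * K := mul_nonneg hc0.le hK0
  have hc1 : c * (3 * K) ≤ η / 16 := by nlinarith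
  have hc2 : 2 * c ≤ η / 32 := by nlinarith
  obtain ⟨d1, hd1⟩ := BB_le (η / 16) (by positivity)
  have e1 : ∀ᶠ x : ℝ in Filter.atTop, 48 < x ^ (1 / 4 : ℝ) :=
    (tendsto_rpow_atTop (by norm_num)).eventually_gt_atTop _
  have e2 : ∀ᶠ x : ℝ in Filter.atTop, 144 * (T : ℝ) < x ^ η :=
    (tendsto_rpow_atTop hη).eventually_gt_atTop _
  have e3 : ∀ᶠ x : ℝ in Filter.atTop, ‖Real.log x‖ ≤ 1 * ‖x ^ η‖ :=
    (isLittleO_log_rpow_atTop hη).bound one_pos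
  have e4 : ∀ᶠ x : ℝ in Filter.atTop, 2 ≤ x := Filter.eventually_ge_atTop 2
  have e5 : ∀ᶠ d : ℕ in Filter.atTop, d1 ≤ d ∧ 48 < (d : ℝ) ^ (1 / 4 : ℝ) ∧
      144 * (T : ℝ) < (d : ℝ) ^ η ∧ ‖Real.log (d : ℝ)‖ ≤ 1 * ‖(d : ℝ) ^ η‖ ∧ (2 : ℝ) ≤ d := by
    have ht := tendsto_natCast_atTop_atTop (R := ℝ)
    filter_upwards [Filter.eventually_ge_atTop d1, ht.eventually e1, ht.eventually e2,
      ht.eventually e3, ht.eventually e4] with d a1 a2 a3 a4 a5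
    exact ⟨a1, a2, a3, a4, a5⟩
  obtain ⟨d0, hd0⟩ := Filter.eventually_atTop.mp e5
  refine ⟨d0, fun d hd => ?_⟩
  obtain ⟨hdd1, h48, h144, hlog, h2⟩ := hd0 d hd
  have htau := (hd1 d hdd1).2
  set x : ℝ := (d : ℝ) with hx
  have hx0 : 0 < x := by linarith
  have hx1 : 1 ≤ x := by linarith
  have hxη : 1 ≤ x ^ η := Real.one_le_rpow hx1 hη.le
  have hlog' : Real.log x ≤ x ^ η := by
    rw [one_mul, Real.norm_eq_abs, Real.norm_eq_abs, abs_of_nonneg (by positivity : 0 ≤ x ^ η)] at hlog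
    exact (le_abs_self _).trans hlog
  have hbig : 2 ≤ x ^ (1 + 2 * η) := by
    calc (2 : ℝ) ≤ x := h2
      _ = x ^ (1 : ℝ) := (Real.rpow_one x).symm
      _ ≤ x ^ (1 + 2 * η) := Real.rpow_le_rpow_of_exponent_le hx1 (by linarith)
  have hN1 : (⌊x ^ (1 + 2 * η)⌋₊ : ℝ) ≤ x ^ (1 + 2 * η) := Nat.floor_le (by positivity)
  have hN2 : x ^ (1 + 2 * η) / 2 ≤ (⌊x ^ (1 + 2 * η)⌋₊ : ℝ) := by
    have h3 := Nat.lt_floor_add_one (x ^ (1 + 2 * η))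
    linarith
  have hNpos : (0 : ℝ) < (⌊x ^ (1 + 2 * η)⌋₊ : ℝ) := by linarith
  have hz1 : (⌊x ^ c⌋₊ : ℝ) ≤ x ^ c := Nat.floor_le (by positivity)
  have hz2 : (1 : ℝ) ≤ (⌊x ^ c⌋₊ : ℝ) := by
    have h3 : (1 : ℕ) ≤ ⌊x ^ c⌋₊ := by
      refine Nat.le_floor ?_
      rw [Nat.cast_one]
      exact Real.one_le_rpow hx1 hc0.le
    exact_mod_cast h3
  set N : ℝ := (⌊x ^ (1 + 2 * η)⌋₊ : ℝ) with hN
  set z : ℝ := (⌊x ^ c⌋₊ : ℝ) with hz
  have hz0 : 0 < z := by linarith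
  -- the right side
  have hR : x ^ (1 + 31 * η / 32) / 16 ≤ N * x ^ (-η) / (8 * z ^ 2) := by
    rw [div_le_div_iff₀ (by norm_num) (by positivity)]
    have h3 : z ^ 2 ≤ x ^ (2 * c) := by
      calc z ^ 2 ≤ (x ^ c) ^ 2 := pow_le_pow_left₀ hz0.le hz1 2
        _ = x ^ (2 * c) := by rw [← Real.rpow_natCast, ← Real.rpow_mul hx0.le]; congr 1; push_cast; ring
    have h4 : x ^ (1 + 31 * η / 32) * x ^ (2 * c) ≤ x ^ (1 + η) := by
      rw [← Real.rpow_add hx0]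
      exact Real.rpow_le_rpow_of_exponent_le hx1 (by linarith)
    have h5 : x ^ (1 + η) = x ^ (1 + 2 * η) * x ^ (-η) := by
      rw [← Real.rpow_add hx0]
      congr 1
      ring
    have hE : 0 < x ^ (1 + 31 * η / 32) := by positivity
    have hM : 0 < x ^ (-η) := by positivity
    calc x ^ (1 + 31 * η / 32) * (8 * z ^ 2) ≤ x ^ (1 + 31 * η / 32) * (8 * x ^ (2 * c)) := by
          gcongr
      _ = 8 * (x ^ (1 + 31 * η / 32) * x ^ (2 * c)) := by ring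
      _ ≤ 8 * x ^ (1 + η) := by gcongr
      _ = (x ^ (1 + 2 * η) / 2) * x ^ (-η) * 16 := by rw [h5]; ring
      _ ≤ N * x ^ (-η) * 16 := by gcongr
  -- first term
  have hT1 : (d.divisors.card : ℝ) * √N < x ^ (1 + 31 * η / 32) / 48 := by
    have h3 : √N ≤ x ^ (1 / 2 + η) := by
      calc √N ≤ √(x ^ (1 + 2 * η)) := Real.sqrt_le_sqrt hN1
        _ = x ^ (1 / 2 + η) := by
          rw [Real.sqrt_eq_rpow, ← Real.rpow_mul hx0.le]
          congr 1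
          ring
    have h4 : (d.divisors.card : ℝ) * √N ≤ x ^ (η / 16) * x ^ (1 / 2 + η) :=
      mul_le_mul htau h3 (Real.sqrt_nonneg _) (by positivity)
    rw [← Real.rpow_add hx0] at h4
    have h5 : x ^ (η / 16 + (1 / 2 + η)) * 48 < x ^ (η / 16 + (1 / 2 + η)) * x ^ (1 / 4 : ℝ) :=
      mul_lt_mul_of_pos_left h48 (by positivity)
    rw [← Real.rpow_add hx0] at h5
    have h6 : x ^ (η / 16 + (1 / 2 + η) + 1 / 4) ≤ x ^ (1 + 31 * η / 32) :=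
      Real.rpow_le_rpow_of_exponent_le hx1 (by linarith)
    linarith
  -- second term
  have hT2 : (T : ℝ) * (x ^ (-(28 * η)) * N * (Nat.log 2 ⌊x ^ (1 + 2 * η)⌋₊ + 1)) ≤
      x ^ (1 + 31 * η / 32) / 48 := by
    have h3 : ((Nat.log 2 ⌊x ^ (1 + 2 * η)⌋₊ : ℕ) : ℝ) ≤ 2 * Real.log x := by
      have h4 := Real.natLog_le_logb ⌊x ^ (1 + 2 * η)⌋₊ 2
      have h5 : Real.logb (2 : ℕ) (⌊x ^ (1 + 2 * η)⌋₊ : ℝ) = Real.log N / Real.log 2 := by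
        rw [Real.logb, Nat.cast_ofNat]
      rw [h5] at h4
      have h6 : Real.log N ≤ (1 + 2 * η) * Real.log x := by
        rw [← Real.log_rpow hx0]
        exact Real.log_le_log hNpos hN1
      have h7 : 0 ≤ Real.log x := Real.log_nonneg hx1
      have h8 := Real.log_two_gt_d9
      have h9 : Real.log N / Real.log 2 ≤ 2 * Real.log x := by
        rw [div_le_iff₀ (by linarith)]
        have h10 : (1 + 2 * η) * Real.log x ≤ (2 * Real.log 2) * Real.log x := by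
          apply mul_le_mul_of_nonneg_right _ h7
          linarith
        linarith
      exact h4.trans h9
    have h4 : ((Nat.log 2 ⌊x ^ (1 + 2 * η)⌋₊ : ℕ) : ℝ) + 1 ≤ 3 * x ^ η := by linarith
    have h5 : x ^ (-(28 * η)) * N * (Nat.log 2 ⌊x ^ (1 + 2 * η)⌋₊ + 1) ≤
        x ^ (-(28 * η)) * x ^ (1 + 2 * η) * (3 * x ^ η) := by
      gcongr
    have h6 : x ^ (-(28 * η)) * x ^ (1 + 2 * η) * (3 * x ^ η) = 3 * x ^ (1 - 25 * η) := by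
      have h7 : x ^ (-(28 * η)) * x ^ (1 + 2 * η) * (3 * x ^ η) =
        3 * (x ^ (-(28 * η)) * x ^ (1 + 2 * η) * x ^ η) := by ring
      rw [h7, ← Real.rpow_add hx0, ← Real.rpow_add hx0]
      congr 2
      ring
    rw [h6] at h5
    have hT0 : (0 : ℝ) ≤ T := Nat.cast_nonneg T
    have h7 : (T : ℝ) * (x ^ (-(28 * η)) * N * (Nat.log 2 ⌊x ^ (1 + 2 * η)⌋₊ + 1)) ≤
        T * (3 * x ^ (1 - 25 * η)) := mul_le_mul_of_nonneg_left h5 hT0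
    have h8 : 144 * (T : ℝ) * x ^ (1 - 25 * η) ≤ x ^ η * x ^ (1 - 25 * η) :=
      mul_le_mul_of_nonneg_right h144.le (by positivity)
    rw [← Real.rpow_add hx0] at h8
    have h9 : x ^ (η + (1 - 25 * η)) ≤ x ^ (1 + 31 * η / 32) :=
      Real.rpow_le_rpow_of_exponent_le hx1 (by linarith)
    linarith
  -- third term
  have hT3 : z ^ (3 * K) * x ^ (1 / 2 + η / 4) < x ^ (1 + 31 * η / 32) / 48 := by
    have h3 : z ^ (3 * K) ≤ x ^ (η / 16) := by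
      calc z ^ (3 * K) ≤ (x ^ c) ^ (3 * K) := pow_le_pow_left₀ hz0.le hz1 _
        _ = x ^ (c * (3 * K)) := by
          rw [← Real.rpow_natCast, ← Real.rpow_mul hx0.le]
          congr 1
          push_cast
          ring
        _ ≤ x ^ (η / 16) := Real.rpow_le_rpow_of_exponent_le hx1 hc1
    have h4 : z ^ (3 * K) * x ^ (1 / 2 + η / 4) ≤ x ^ (η / 16) * x ^ (1 / 2 + η / 4) :=
      mul_le_mul_of_nonneg_right h3 (by positivity)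
    rw [← Real.rpow_add hx0] at h4
    have h5 : x ^ (η / 16 + (1 / 2 + η / 4)) * 48 < x ^ (η / 16 + (1 / 2 + η / 4)) * x ^ (1 / 4 : ℝ) :=
      mul_lt_mul_of_pos_left h48 (by positivity)
    rw [← Real.rpow_add hx0] at h5
    have h6 : x ^ (η / 16 + (1 / 2 + η / 4) + 1 / 4) ≤ x ^ (1 + 31 * η / 32) :=
      Real.rpow_le_rpow_of_exponent_le hx1 (by linarith)
    linarith
  refine lt_of_lt_of_le ?_ hR
  linarith

end Pool.Agent.Lib.MP_42948a_nt.AC
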