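import Pool.Agent.Lib.MP_42948a_nt.AC.F3
import Pool.Agent.Lib.MP_42948a_nt.AC.F4
import Pool.Agent.Lib.MP_42948a_nt.AC.S10
import Pool.Agent.Lib.MP_42948a_nt.AC.Z2n
import Pool.Agent.Lib.MP_42948a_nt.AC.N6
import Pool.Agent.Lib.MP_42948a_nt.AC.RCh
import Pool.Agent.Lib.MP_42948a_nt.OA.RG
import Pool.Agent.Lib.MP_42948a_nt.OA.RE
import Pool.Agent.Lib.MP_42948a_nt.OA.ZD
import Pool.Agent.Lib.MP_42948a_nt.OA.ZC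

/-!
# A nontrivial character has many split primes (job Z2b)

Let `χ = chi ψ`, `z`, `X` as usual, `M = 2 BB d` (`chi_sum`), `E = d^(1/2+η/4)`; `num_E3` gives `M (2 + log X) ≤ E`, `1 ≤ E`,
`(12 E)^2 ≤ X`, so with `Sw_bound` and `LL_lower` (as in `no_imitation` in `OA/RI.lean`) `0 < LL χ X`, and `LL_siegel` gives
`d^(-η) ≤ LL χ X` (`d^(1+2η)/2 ≤ X`). Combine `lower_sum`, `upper_sum` (`δ = d^(-28η)`, `T = 2^⌈2/c⌉`, `rough_divisors`) and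
`num_contra`.
-/

namespace Pool.Agent.Lib.MP_42948a_nt.AC

open Finset Pool.Agent.Lib.MP_42948a_nt.OA

theorem many_split (K : ℕ) (hK : SieveProp K) (η c : ℝ) (hη : 0 < η) (hη1 : η ≤ 1 / 40)
    (hc : c * (16 * (3 * K + 4)) = η) :
    ∃ d0 : ℕ, ∀ d : ℕ, d0 ≤ d → ∀ ψ : (ZMod d)ˣ →* ℤˣ, ψ ≠ 1 →
      ¬ ∀ D : ℕ, 1 ≤ D → ((PD d ⌊(d : ℝ) ^ c⌋₊ ⌊(d : ℝ) ^ (1 + 2 * η)⌋₊ (chi ψ) D).card : ℝ) ≤
        (d : ℝ) ^ (-(28 * η)) * D := by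
  have hK0 : (0 : ℝ) ≤ (K : ℝ) := Nat.cast_nonneg K
  have h16 : (0 : ℝ) < 16 * (3 * K + 4) := by positivity
  have hc0 : 0 < c := by
    by_contra hcon
    have := mul_nonpos_of_nonpos_of_nonneg (not_lt.1 hcon) h16.le
    linarith
  obtain ⟨d1, h1⟩ := num_E1 K η c hη hc
  obtain ⟨d2, h2⟩ := num_E3 K η c hη hc
  obtain ⟨d3, h3⟩ := LL_siegel η hη
  obtain ⟨d4, h4⟩ := num_contra K η c hη hη1 hc (2 ^ ⌈2 / c⌉₊)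
  refine ⟨d1 + d2 + d3 + d4 + 2, fun d hd ψ hψ hP => ?_⟩
  have hd2 : 2 ≤ d := by omega
  have hne : NeZero d := ⟨by omega⟩
  have hdr : (1 : ℝ) ≤ (d : ℝ) := by
    have h : 1 ≤ d := by omega
    exact_mod_cast h
  have hd0 : (0 : ℝ) ≤ (d : ℝ) := by linarith
  have hdpos : (0 : ℝ) < (d : ℝ) := by linarith
  have hz := (h1 d (by omega)).1
  obtain ⟨e1, e2, e3, _⟩ := h2 d (by omega)
  have hχ := chi_real d ψ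
  have hM := chi_sum d ψ hψ
  have hx1 : (1 : ℝ) ≤ (d : ℝ) ^ (1 + 2 * η) := Real.one_le_rpow hdr (by linarith)
  have hX1 : 1 ≤ ⌊(d : ℝ) ^ (1 + 2 * η)⌋₊ := by
    rw [Nat.one_le_floor_iff]
    exact hx1
  have hXr : (1 : ℝ) ≤ (⌊(d : ℝ) ^ (1 + 2 * η)⌋₊ : ℝ) := by exact_mod_cast hX1
  have hXhalf : (d : ℝ) ^ (1 + 2 * η) / 2 ≤ (⌊(d : ℝ) ^ (1 + 2 * η)⌋₊ : ℝ) := by
    have h5 := Nat.lt_floor_add_one ((d : ℝ) ^ (1 + 2 * η))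
    linarith
  have hbase : ∀ t : ℝ, 0 < t → t ≤ (⌊(d : ℝ) ^ (1 + 2 * η)⌋₊ : ℝ) →
      |SwT (chi ψ) ⌊(d : ℝ) ^ (1 + 2 * η)⌋₊ ∅ t - t / 2 * LL (chi ψ) ⌊(d : ℝ) ^ (1 + 2 * η)⌋₊| ≤
        (d : ℝ) ^ (1 / 2 + η / 4) := by
    intro t ht htN
    exact (Sw_bound (chi ψ) (2 * BB d) hM _ hX1 t ht htN).trans e1
  have hLL := LL_lower (chi ψ) hχ.mul hχ.one hχ.val ⌊(d : ℝ) ^ (1 + 2 * η)⌋₊ ((d : ℝ) ^ (1 / 2 + η / 4)) e2 e3 hbase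
  have hE0 : (0 : ℝ) < (d : ℝ) ^ (1 / 2 + η / 4) := by linarith
  have hLL0 : 0 ≤ LL (chi ψ) ⌊(d : ℝ) ^ (1 + 2 * η)⌋₊ := le_trans (by positivity) hLL
  have hsieg := h3 d (by omega) ψ hψ ⌊(d : ℝ) ^ (1 + 2 * η)⌋₊ hXhalf hLL0
  have hlow := lower_sum K hK ⌊(d : ℝ) ^ c⌋₊ ⌊(d : ℝ) ^ (1 + 2 * η)⌋₊ hz hX1 (chi ψ) hχ.mul hχ.one hχ.val
    (2 * BB d) ((d : ℝ) ^ (1 / 2 + η / 4)) hM e1 hE0 hLL0
  have hTd : ∀ n : ℕ, Rough ⌊(d : ℝ) ^ c⌋₊ n → n ≤ ⌊(d : ℝ) ^ (1 + 2 * η)⌋₊ →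
      n.divisors.card ≤ 2 ^ ⌈2 / c⌉₊ := by
    intro n hn hnX
    refine rough_divisors c hc0 d hd2 n hn
      (((Nat.le_floor_iff (Real.rpow_nonneg hd0 _)).1 hnX).trans ?_)
    exact Real.rpow_le_rpow_of_exponent_le hdr (by linarith)
  have hup := upper_sum d (by omega) ⌊(d : ℝ) ^ c⌋₊ ⌊(d : ℝ) ^ (1 + 2 * η)⌋₊ (2 ^ ⌈2 / c⌉₊) (chi ψ) hχ
    ((d : ℝ) ^ (-(28 * η))) (Real.rpow_nonneg hd0 _) hP hTd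
  have hnum := h4 d (by omega)
  have hz0 : (0 : ℝ) < (⌊(d : ℝ) ^ c⌋₊ : ℝ) := by
    have : 0 < ⌊(d : ℝ) ^ c⌋₊ := by omega
    exact_mod_cast this
  have hmono : (⌊(d : ℝ) ^ (1 + 2 * η)⌋₊ : ℝ) * (d : ℝ) ^ (-η) / (8 * (⌊(d : ℝ) ^ c⌋₊ : ℝ) ^ 2) ≤
      (⌊(d : ℝ) ^ (1 + 2 * η)⌋₊ : ℝ) * LL (chi ψ) ⌊(d : ℝ) ^ (1 + 2 * η)⌋₊ / (8 * (⌊(d : ℝ) ^ c⌋₊ : ℝ) ^ 2) := by
    apply div_le_div_of_nonneg_right _ (by positivity)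
    exact mul_le_mul_of_nonneg_left hsieg (by positivity)
  push_cast at hup hnum
  linarith

end Pool.Agent.Lib.MP_42948a_nt.AC
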