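import Pool.Agent.Lib.MP_42948a_nt.AC.Z2a
import Pool.Agent.Lib.MP_42948a_nt.AC.Z2b
import Pool.Agent.Lib.MP_42948a_nt.AC.F0
import Pool.Agent.Lib.MP_42948a_nt.AC.N3
import Pool.Agent.Lib.MP_42948a_nt.AC.RCh

/-!
# The Liouville function is not almost a character (job Z2)

Suppose the property holds, `χ = chi ψ`, `z = ⌊d^c⌋`, `X = ⌊d^(1+2η)⌋`. `lio n = (((-1 : ℤˣ)^Ω(n) : ℤˣ) : ℤ) = ((ψ b : ℤˣ) : ℤ) =
chi ψ n` (`chi_eq`), so by `card_Nm` `#Nm ≤ #B (X / d + 1) ≤ d^(1-32η) (d^(2η) + 1) ≤ 2 d^(1-30η)`. If `ψ ≠ 1`: `split_all` and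
`many_split`. If `ψ = 1`: every `p ∈ primesOff d z d` is in `RC d z X` (`d ≤ X`) and `χ p = 1 ≠ -1 = lio p`, so
`#Nm ≥ #primesOff d z d ≥ d^(1-η)` by `primes_unif` with `α = 1`, `κ = η`, `Y = d` (`z ≤ d^(1/2)`), and `d^(1-η) > 2 d^(1-30η)` for
large `d`.
-/

namespace Pool.Agent.Lib.MP_42948a_nt.AC

open Finset Pool.Agent.Lib.MP_42948a_nt.OA

private theorem Z2_large (r C : ℝ) (hr : 0 < r) : ∃ d0 : ℕ, ∀ d : ℕ, d0 ≤ d → C ≤ (d : ℝ) ^ r := by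
  have h := (tendsto_rpow_atTop hr).comp tendsto_natCast_atTop_atTop
  obtain ⟨d0, h0⟩ := Filter.eventually_atTop.1 (h.eventually_ge_atTop C)
  exact ⟨d0, fun d hd => h0 d hd⟩

private theorem Z2_lio {d : ℕ} (ψ : (ZMod d)ˣ →* ℤˣ) (b : (ZMod d)ˣ) (n : ℕ) (h : (n : ZMod d) = (b : ZMod d))
    (h2 : (-1 : ℤˣ) ^ (ArithmeticFunction.cardFactors n) = ψ b) : lio n = chi ψ n := by
  rw [chi_eq ψ n b h, ← h2]
  unfold lio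
  push_cast
  rfl

private theorem Z2_subset {d : ℕ} (z X : ℕ) (hX : d ≤ X) :
    primesOff d z d ⊆ Nm d z X (chi (1 : (ZMod d)ˣ →* ℤˣ)) := by
  classical
  intro p hp
  unfold primesOff at hp
  rw [mem_filter, mem_Icc] at hp
  obtain ⟨⟨hp1, hp2⟩, hp3, hp4, hp5⟩ := hp
  have hcop : p.Coprime d := (Nat.Prime.coprime_iff_not_dvd hp3).2 hp5
  unfold Nm RC
  rw [mem_filter, mem_filter, mem_Icc]
  refine ⟨⟨⟨hp1, hp2.trans hX⟩, ⟨hp3.pos, fun q hq hqp => ?_⟩, hcop⟩, ?_⟩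
  · rw [(Nat.prime_dvd_prime_iff_eq hq hp3).1 hqp]
    exact hp4
  · rw [chi_one_eq d p hcop, lio_prime hp3]
    norm_num

theorem contra (K : ℕ) (hK : SieveProp K) (η c : ℝ) (hη : 0 < η) (hη1 : η ≤ 1 / 40)
    (hc : c * (16 * (3 * K + 4)) = η) :
    ∃ d0 : ℕ, ∀ d : ℕ, d0 ≤ d → ∀ (ψ : (ZMod d)ˣ →* ℤˣ) (B : Finset (ZMod d)ˣ),
      (B.card : ℝ) ≤ (d : ℝ) ^ (1 - 32 * η) →
      ¬ ∀ b ∉ B, ∀ n : ℕ, Rough ⌊(d : ℝ) ^ c⌋₊ n → (n : ℝ) ≤ (d : ℝ) ^ (1 + 2 * η) →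
          (n : ZMod d) = (b : ZMod d) → (-1 : ℤˣ) ^ (ArithmeticFunction.cardFactors n) = ψ b := by
  have hK0 : (0 : ℝ) < 16 * (3 * K + 4) := by positivity
  have hK1 : (64 : ℝ) ≤ 16 * (3 * K + 4) := by
    have : (0 : ℝ) ≤ K := Nat.cast_nonneg K
    linarith
  have hc0 : 0 < c := by
    by_contra h
    have h1 : c * (16 * (3 * K + 4)) ≤ 0 := mul_nonpos_of_nonpos_of_nonneg (not_lt.mp h) hK0.le
    linarith
  have hc1 : c ≤ 1 / 2 := by nlinarith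
  obtain ⟨d1, h1⟩ := split_all K η c hη hη1 hc
  obtain ⟨d2, h2⟩ := many_split K hK η c hη hη1 hc
  obtain ⟨d3, h3⟩ := primes_unif 1 η one_pos hη (by linarith)
  obtain ⟨d4, h4⟩ := Z2_large (29 * η) 3 (by positivity)
  refine ⟨max (max d1 d2) (max (max d3 d4) 2), ?_⟩
  intro d hd ψ B hBc hB
  have hd1 : d1 ≤ d := le_trans (le_trans (le_max_left _ _) (le_max_left _ _)) hd
  have hd2 : d2 ≤ d := le_trans (le_trans (le_max_right _ _) (le_max_left _ _)) hd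
  have hd3 : d3 ≤ d := le_trans (le_trans (le_trans (le_max_left _ _) (le_max_left _ _)) (le_max_right _ _)) hd
  have hd4 : d4 ≤ d := le_trans (le_trans (le_trans (le_max_right _ _) (le_max_left _ _)) (le_max_right _ _)) hd
  have hd5 : 2 ≤ d := le_trans (le_trans (le_max_right _ _) (le_max_right _ _)) hd
  have hdr : (2 : ℝ) ≤ d := by exact_mod_cast hd5
  have hd0 : (0 : ℝ) < d := by linarith
  have : NeZero d := ⟨by omega⟩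
  have hX0 : (0 : ℝ) ≤ (d : ℝ) ^ (1 + 2 * η) := by positivity
  have hlio : ∀ b ∉ B, ∀ n : ℕ, Rough ⌊(d : ℝ) ^ c⌋₊ n → n ≤ ⌊(d : ℝ) ^ (1 + 2 * η)⌋₊ →
      (n : ZMod d) = (b : ZMod d) → lio n = chi ψ n := by
    intro b hb n hn hnX hnb
    exact Z2_lio ψ b n hnb (hB b hb n hn ((Nat.le_floor_iff hX0).1 hnX) hnb)
  have hNm0 := card_Nm d ⌊(d : ℝ) ^ c⌋₊ ⌊(d : ℝ) ^ (1 + 2 * η)⌋₊ ψ B hlio
  have hNm : ((Nm d ⌊(d : ℝ) ^ c⌋₊ ⌊(d : ℝ) ^ (1 + 2 * η)⌋₊ (chi ψ)).card : ℝ) ≤ 2 * (d : ℝ) ^ (1 - 30 * η) := by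
    have h5 : ((Nm d ⌊(d : ℝ) ^ c⌋₊ ⌊(d : ℝ) ^ (1 + 2 * η)⌋₊ (chi ψ)).card : ℝ) ≤
        (B.card : ℝ) * ((⌊(d : ℝ) ^ (1 + 2 * η)⌋₊ / d : ℕ) + 1) := by exact_mod_cast hNm0
    refine le_trans h5 ?_
    have h6 : ((⌊(d : ℝ) ^ (1 + 2 * η)⌋₊ / d : ℕ) : ℝ) ≤ (d : ℝ) ^ (2 * η) := by
      refine le_trans Nat.cast_div_le ?_
      rw [div_le_iff₀ hd0]
      refine le_trans (Nat.floor_le hX0) (le_of_eq ?_)
      rw [add_comm, Real.rpow_add hd0, Real.rpow_one]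
    have h7 : (1 : ℝ) ≤ (d : ℝ) ^ (2 * η) := Real.one_le_rpow (by linarith) (by positivity)
    have h8 : (d : ℝ) ^ (1 - 30 * η) = (d : ℝ) ^ (1 - 32 * η) * (d : ℝ) ^ (2 * η) := by
      rw [← Real.rpow_add hd0]
      congr 1
      ring
    rw [h8]
    have h9 : (0 : ℝ) ≤ (d : ℝ) ^ (1 - 32 * η) := by positivity
    calc (B.card : ℝ) * ((⌊(d : ℝ) ^ (1 + 2 * η)⌋₊ / d : ℕ) + 1) ≤
        (d : ℝ) ^ (1 - 32 * η) * (2 * (d : ℝ) ^ (2 * η)) := by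
          refine mul_le_mul hBc (by linarith) (by positivity) h9
      _ = 2 * ((d : ℝ) ^ (1 - 32 * η) * (d : ℝ) ^ (2 * η)) := by ring
  by_cases hψ : ψ = 1
  · subst hψ
    have hdX : d ≤ ⌊(d : ℝ) ^ (1 + 2 * η)⌋₊ := by
      rw [Nat.le_floor_iff hX0]
      have h5 : (d : ℝ) ^ (1 : ℝ) ≤ (d : ℝ) ^ (1 + 2 * η) :=
        Real.rpow_le_rpow_of_exponent_le (by linarith) (by linarith)
      rwa [Real.rpow_one] at h5
    have h5 := card_le_card (Z2_subset (d := d) ⌊(d : ℝ) ^ c⌋₊ _ hdX)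
    have h6 : ((primesOff d ⌊(d : ℝ) ^ c⌋₊ d).card : ℝ) ≤ 2 * (d : ℝ) ^ (1 - 30 * η) :=
      le_trans (by exact_mod_cast h5) hNm
    have hz : ((⌊(d : ℝ) ^ c⌋₊ : ℕ) : ℝ) ≤ (d : ℝ) ^ ((1 : ℝ) / 2) :=
      le_trans (Nat.floor_le (by positivity)) (Real.rpow_le_rpow_of_exponent_le (by linarith) hc1)
    have h7 := h3 d hd3 ⌊(d : ℝ) ^ c⌋₊ hz d (by rw [Real.rpow_one])
    have h8 := h4 d hd4
    have h9 : (d : ℝ) ^ (1 - η) = (d : ℝ) ^ (29 * η) * (d : ℝ) ^ (1 - 30 * η) := by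
      rw [← Real.rpow_add hd0]
      congr 1
      ring
    have h10 : (0 : ℝ) < (d : ℝ) ^ (1 - 30 * η) := by positivity
    nlinarith
  · exact h2 d hd2 ψ hψ (h1 d hd1 (chi ψ) (chi_real d ψ) hNm)

end Pool.Agent.Lib.MP_42948a_nt.AC
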