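import Pool.Agent.Lib.MP_42948a_nt.AC.F1
import Pool.Agent.Lib.MP_42948a_nt.AC.F2
import Pool.Agent.Lib.MP_42948a_nt.AC.F2b
import Pool.Agent.Lib.MP_42948a_nt.AC.N4
import Pool.Agent.Lib.MP_42948a_nt.AC.N5
import Pool.Agent.Lib.MP_42948a_nt.AC.N6

/-!
# Few split primes in every dyadic interval (job Z2a)

Let `z = ⌊d^c⌋`, `X = ⌊d^(1+2η)⌋`, `w = ⌊d^(20η)⌋`, `T = 2^⌈2/c⌉`, `nm = #Nm ≤ 2 d^(1-30η)`. `0 < c ≤ η/64`, so `z ≤ d^(η/2) ≤ d^η`.
(1) `X / w ≥ d^(1-18η)/2 - 1 ≥ d^(1-18η)/4` so by `RC_lower` `#RC d z (X / w) ≥ d^(1-20η)/4 > 2 nm` and `small_agree` applies.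
(2) If `2 D ≤ w`: `split_small`. (3) If `X < 2 D`: `split_le`, `#PD ≤ 2 d^(1-30η) ≤ d^(-28η) D` as `D > X/2 ≥ d^(1+2η)/4` and
`8 ≤ d^(4η)`. (4) If `w < 2 D ≤ X`: `D ≥ w/2 ≥ d^(20η)/4 ≥ d^(10η)`, `D ≤ X ≤ d^2`; `X / (2D) ≥ 1`, so
`X / (2D) ≥ X/(4D) ≥ d^(1+2η)/(8D)` and `#RC d z (X/(2D)) ≥ d/(8D)`; `#SS d z w D ≥ D d^(-2η)` (`SS_lower`); the product is
`≥ d^(1-2η)/8 ≥ 4 T d^(1-30η) ≥ 2 T nm` for large `d`; `split_count` gives `#PD ≤ 2 T nm / #RC ≤ 32 T d^(-30η) D ≤ d^(-28η) D`.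
(`hT`: `rough_divisors`.)
-/

namespace Pool.Agent.Lib.MP_42948a_nt.AC

open Finset Pool.Agent.Lib.MP_42948a_nt.OA

/-- the case `w < 2 D ≤ X` -/
private theorem Z2a_mid (N A D PDc RCc nm T Xr Mr : ℝ) (hN : 1 ≤ N) (hT : 1 ≤ T)
    (hA : 32 * T ≤ A) (hD : 0 < D) (hPD : 0 ≤ PDc) (hM : Xr < Mr * (4 * D)) (hX : N * A ^ 16 / 2 ≤ Xr)
    (hRC : Mr * A⁻¹ ≤ RCc) (h : PDc * RCc ≤ 2 * T * nm) (hnm : nm ≤ 2 * N) :
    PDc ≤ A⁻¹ ^ 14 * D := by
  have hA0 : 0 < A := by linarith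
  have hN0 : 0 < N := by linarith
  have h1 : N * A ^ 15 / (8 * D) ≤ RCc := by
    refine le_trans ?_ hRC
    rw [div_le_iff₀ (by positivity)]
    have h2 : N * A ^ 16 ≤ 2 * (Mr * (4 * D)) := by linarith
    have h3 : Mr * A⁻¹ * (8 * D) = 2 * (Mr * (4 * D)) * A⁻¹ := by ring
    rw [h3]
    have h4 : N * A ^ 15 = N * A ^ 16 * A⁻¹ := by
      field_simp
    rw [h4]
    exact mul_le_mul_of_nonneg_right h2 (by positivity)
  have h5 : PDc * (N * A ^ 15 / (8 * D)) ≤ 4 * T * N := by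
    have h6 := mul_le_mul_of_nonneg_left h1 hPD
    have h7 : 2 * T * nm ≤ 2 * T * (2 * N) := mul_le_mul_of_nonneg_left hnm (by positivity)
    linarith
  have h8 : PDc * A ^ 15 ≤ 32 * T * D := by
    have h9 : PDc * (N * A ^ 15 / (8 * D)) = PDc * A ^ 15 * (N / (8 * D)) := by ring
    rw [h9] at h5
    have h10 : 4 * T * N = 32 * T * D * (N / (8 * D)) := by
      field_simp
      ring
    rw [h10] at h5
    exact le_of_mul_le_mul_right h5 (by positivity)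
  have h11 : PDc * A ^ 15 ≤ A * D :=
    h8.trans (mul_le_mul_of_nonneg_right hA hD.le)
  have h12 : A⁻¹ ^ 14 * D = A * D / A ^ 15 := by
    field_simp
  rw [h12, le_div_iff₀ (by positivity)]
  exact h11

theorem split_all (K : ℕ) (η c : ℝ) (hη : 0 < η) (hη1 : η ≤ 1 / 40) (hc : c * (16 * (3 * K + 4)) = η) :
    ∃ d0 : ℕ, ∀ d : ℕ, d0 ≤ d → ∀ χ : ℕ → ℝ, RealChar d χ →
      ((Nm d ⌊(d : ℝ) ^ c⌋₊ ⌊(d : ℝ) ^ (1 + 2 * η)⌋₊ χ).card : ℝ) ≤ 2 * (d : ℝ) ^ (1 - 30 * η) →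
      ∀ D : ℕ, 1 ≤ D → ((PD d ⌊(d : ℝ) ^ c⌋₊ ⌊(d : ℝ) ^ (1 + 2 * η)⌋₊ χ D).card : ℝ) ≤ (d : ℝ) ^ (-(28 * η)) * D := by
  obtain ⟨d1, hd1⟩ := RC_lower η hη (by linarith)
  obtain ⟨d2, hd2⟩ := SS_lower η hη hη1
  have hK0 : (0 : ℝ) ≤ K := Nat.cast_nonneg K
  have hc0 : 0 < c := by
    by_contra hcon
    push Not at hcon
    have h1 : c * (16 * (3 * (K : ℝ) + 4)) ≤ 0 := mul_nonpos_of_nonpos_of_nonneg hcon (by positivity)
    linarith
  have hc64 : c * 64 ≤ η := by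
    rw [← hc]
    refine mul_le_mul_of_nonneg_left ?_ hc0.le
    linarith
  obtain ⟨T, hTdef⟩ : ∃ T : ℕ, T = 2 ^ ⌈2 / c⌉₊ := ⟨_, rfl⟩
  have hT1 : 1 ≤ T := by rw [hTdef]; exact Nat.one_le_two_pow
  have hT1r : (1 : ℝ) ≤ T := by exact_mod_cast hT1
  have hev : ∀ᶠ d : ℕ in Filter.atTop, 32 * (T : ℝ) ≤ (d : ℝ) ^ (2 * η) :=
    ((tendsto_rpow_atTop (by linarith : 0 < 2 * η)).comp
      tendsto_natCast_atTop_atTop).eventually_ge_atTop _
  obtain ⟨d3, hd3⟩ := Filter.eventually_atTop.1 hev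
  refine ⟨max (max d1 d2) (max d3 2), fun d hd χ hχ hnm D hD => ?_⟩
  have hdd1 : d1 ≤ d := (le_max_left _ _).trans ((le_max_left _ _).trans hd)
  have hdd2 : d2 ≤ d := (le_max_right _ _).trans ((le_max_left _ _).trans hd)
  have hdd3 : d3 ≤ d := (le_max_left _ _).trans ((le_max_right _ _).trans hd)
  have hd22 : 2 ≤ d := (le_max_right _ _).trans ((le_max_right _ _).trans hd)
  have hR1 : (1 : ℝ) ≤ d := by exact_mod_cast (by omega : 1 ≤ d)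
  have hR0 : (0 : ℝ) < d := by linarith
  obtain ⟨A, hAdef⟩ : ∃ A : ℝ, A = (d : ℝ) ^ (2 * η) := ⟨_, rfl⟩
  obtain ⟨N, hNdef⟩ : ∃ N : ℝ, N = (d : ℝ) ^ (1 - 30 * η) := ⟨_, rfl⟩
  have hA : 32 * (T : ℝ) ≤ A := by rw [hAdef]; exact hd3 d hdd3
  have hA32 : 32 ≤ A := by linarith
  have hA1 : 1 ≤ A := by linarith
  have hA0 : 0 < A := by linarith
  have hN1 : 1 ≤ N := by
    rw [hNdef]
    exact Real.one_le_rpow hR1 (by linarith)
  have hN0 : 0 < N := by linarith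
  -- powers of d
  have hpow : ∀ m : ℕ, A ^ m = (d : ℝ) ^ (2 * η * m) := by
    intro m
    rw [hAdef, ← Real.rpow_natCast, ← Real.rpow_mul hR0.le]
  have hNpow : ∀ m : ℕ, N * A ^ m = (d : ℝ) ^ (1 - 30 * η + 2 * η * m) := by
    intro m
    rw [hpow, hNdef, ← Real.rpow_add hR0]
  have eX : (d : ℝ) ^ (1 + 2 * η) = N * A ^ 16 := by
    rw [hNpow]
    congr 1
    push_cast
    ring
  have ew : (d : ℝ) ^ (20 * η) = A ^ 10 := by
    rw [hpow]
    congr 1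
    push_cast
    ring
  have e10 : (d : ℝ) ^ (10 * η) = A ^ 5 := by
    rw [hpow]
    congr 1
    push_cast
    ring
  have em2 : (d : ℝ) ^ (-(2 * η)) = A⁻¹ := by
    rw [Real.rpow_neg hR0.le, hAdef]
  have em28 : (d : ℝ) ^ (-(28 * η)) = A⁻¹ ^ 14 := by
    rw [Real.rpow_neg hR0.le, inv_pow, hpow]
    congr 2
    push_cast
    ring
  obtain ⟨z, hzdef⟩ : ∃ z : ℕ, z = ⌊(d : ℝ) ^ c⌋₊ := ⟨_, rfl⟩
  obtain ⟨X, hXdef⟩ : ∃ X : ℕ, X = ⌊(d : ℝ) ^ (1 + 2 * η)⌋₊ := ⟨_, rfl⟩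
  obtain ⟨w, hwdef⟩ : ∃ w : ℕ, w = ⌊(d : ℝ) ^ (20 * η)⌋₊ := ⟨_, rfl⟩
  have hTr : ∀ n : ℕ, Rough z n → n ≤ X → n.divisors.card ≤ T := by
    intro n hn hnX
    rw [hTdef]
    rw [hzdef] at hn
    refine rough_divisors c hc0 d hd22 n hn ?_
    have h1 : (n : ℝ) ≤ X := by exact_mod_cast hnX
    have h2 : (X : ℝ) ≤ (d : ℝ) ^ (1 + 2 * η) := by
      rw [hXdef]
      exact Nat.floor_le (by positivity)
    exact (h1.trans h2).trans (Real.rpow_le_rpow_of_exponent_le hR1 (by linarith))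
  rw [← hzdef, ← hXdef] at hnm ⊢
  rw [em28]
  have hz : (z : ℝ) ≤ (d : ℝ) ^ c := by
    rw [hzdef]
    exact Nat.floor_le (by positivity)
  have hz1 : (z : ℝ) ≤ (d : ℝ) ^ (η / 2) :=
    hz.trans (Real.rpow_le_rpow_of_exponent_le hR1 (by linarith))
  have hz2 : (z : ℝ) ≤ (d : ℝ) ^ η :=
    hz.trans (Real.rpow_le_rpow_of_exponent_le hR1 (by linarith))
  have hXle : (X : ℝ) ≤ N * A ^ 16 := by
    rw [hXdef, ← eX]
    exact Nat.floor_le (by positivity)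
  have hX2 : (X : ℝ) ≤ (d : ℝ) ^ (2 : ℝ) := by
    refine hXle.trans ?_
    rw [← eX]
    exact Real.rpow_le_rpow_of_exponent_le hR1 (by linarith)
  have hXgt : N * A ^ 16 - 1 < X := by
    rw [hXdef, ← eX]
    exact Nat.sub_one_lt_floor _
  have hwle : (w : ℝ) ≤ A ^ 10 := by
    rw [hwdef, ew]
    exact Nat.floor_le (by positivity)
  have hwgt : A ^ 10 - 1 < w := by
    rw [hwdef, ew]
    exact Nat.sub_one_lt_floor _
  have hA2 : 1 ≤ A ^ 2 := one_le_pow₀ hA1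
  have hA5 : 32 ≤ A ^ 5 := hA32.trans (le_self_pow₀ hA1 (by norm_num))
  have hA6 : 32 ≤ A ^ 6 := hA32.trans (le_self_pow₀ hA1 (by norm_num))
  have hA10 : 32 ≤ A ^ 10 := hA32.trans (le_self_pow₀ hA1 (by norm_num))
  have hA14 : 32 * (T : ℝ) ≤ A ^ 14 := hA.trans (le_self_pow₀ hA1 (by norm_num))
  have hA16 : 32 ≤ A ^ 16 := hA32.trans (le_self_pow₀ hA1 (by norm_num))
  have hNA16 : 32 ≤ N * A ^ 16 := by
    have := mul_le_mul hN1 hA16 (by norm_num) hN0.le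
    linarith
  have hXhalf : N * A ^ 16 / 2 ≤ X := by linarith
  have hw1 : 1 ≤ w := by
    have : (1 : ℝ) < w := by linarith
    exact_mod_cast this.le
  have hwr0 : (0 : ℝ) < w := by exact_mod_cast hw1
  -- small rough numbers agree
  have hagree : ∀ u : ℕ, Rough z u → u ≤ w → u.Coprime d → χ u = lio u := by
    refine small_agree d z X w χ hχ hw1 ?_
    have hM0 : N * A ^ 6 / 2 ≤ ((X / w : ℕ) : ℝ) := by
      have h1 : X < w * (X / w + 1) := Nat.lt_mul_div_succ X hw1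
      have h2 : (X : ℝ) < w * (((X / w : ℕ) : ℝ) + 1) := by exact_mod_cast h1
      have h3 : (X : ℝ) < A ^ 10 * (((X / w : ℕ) : ℝ) + 1) := by
        refine h2.trans_le ?_
        exact mul_le_mul_of_nonneg_right hwle (by positivity)
      have h4 : N * A ^ 16 = A ^ 10 * (N * A ^ 6) := by ring
      have h5 : A ^ 10 * (N * A ^ 6) < A ^ 10 * (((X / w : ℕ) : ℝ) + 2) := by
        have : A ^ 10 * (((X / w : ℕ) : ℝ) + 2) = A ^ 10 * (((X / w : ℕ) : ℝ) + 1) + A ^ 10 := by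
          ring
        linarith
      have h6 := lt_of_mul_lt_mul_left h5 (by positivity)
      have h7 : 32 ≤ N * A ^ 6 := by
        have := mul_le_mul hN1 hA6 (by norm_num) hN0.le
        linarith
      linarith
    have hM1 : 1 ≤ X / w := by
      have h7 : 32 ≤ N * A ^ 6 := by
        have := mul_le_mul hN1 hA6 (by norm_num) hN0.le
        linarith
      have : (1 : ℝ) ≤ ((X / w : ℕ) : ℝ) := by linarith
      exact_mod_cast this
    have hM2 : ((X / w : ℕ) : ℝ) ≤ (d : ℝ) ^ (2 : ℝ) := by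
      refine le_trans ?_ hX2
      exact_mod_cast Nat.div_le_self X w
    have h1 := hd1 d hdd1 z hz1 (X / w) hM1 hM2
    rw [em2] at h1
    have h2 : N * A ^ 5 / 2 ≤ ((RC d z (X / w)).card : ℝ) := by
      refine le_trans ?_ h1
      have h3 : N * A ^ 5 / 2 = N * A ^ 6 / 2 * A⁻¹ := by
        field_simp
      rw [h3]
      exact mul_le_mul_of_nonneg_right hM0 (by positivity)
    have h4 : N * 32 ≤ N * A ^ 5 := mul_le_mul_of_nonneg_left hA5 hN0.le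
    rw [← hNdef] at hnm
    have h5 : (2 : ℝ) * ((Nm d z X χ).card : ℝ) < ((RC d z (X / w)).card : ℝ) := by linarith
    exact_mod_cast h5
  rw [← hNdef] at hnm
  have hDr : (1 : ℝ) ≤ D := by exact_mod_cast hD
  have hDr0 : (0 : ℝ) < D := by linarith
  by_cases hcase1 : 2 * D ≤ w
  · rw [split_small d z X w D χ hχ hagree hcase1, Finset.card_empty, Nat.cast_zero]
    positivity
  by_cases hcase2 : X < 2 * D
  · have h1 : ((PD d z X χ D).card : ℝ) ≤ (Nm d z X χ).card := by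
      exact_mod_cast split_le d z X D χ hχ
    refine (h1.trans hnm).trans ?_
    have h2 : (X : ℝ) < 2 * D := by exact_mod_cast hcase2
    have h3 : N * A ^ 16 / 4 ≤ D := by linarith
    have h4 : A⁻¹ ^ 14 * (N * A ^ 16 / 4) ≤ A⁻¹ ^ 14 * D :=
      mul_le_mul_of_nonneg_left h3 (by positivity)
    refine le_trans ?_ h4
    have h5 : A⁻¹ ^ 14 * (N * A ^ 16 / 4) = N * (A * A) / 4 := by
      field_simp
    rw [h5]
    have h6 : 32 * 1 ≤ A * A := mul_le_mul hA32 hA1 (by norm_num) hA0.le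
    have h7 := mul_le_mul_of_nonneg_left h6 hN0.le
    linarith
  push Not at hcase1 hcase2
  have hw2D : (w : ℝ) < 2 * D := by exact_mod_cast hcase1
  have hD10 : (d : ℝ) ^ (10 * η) ≤ (D : ℝ) := by
    rw [e10]
    have h1 : A ^ 10 / 4 ≤ D := by linarith
    refine le_trans ?_ h1
    have h2 : A ^ 10 = A ^ 5 * A ^ 5 := by ring
    rw [h2]
    have h3 := mul_le_mul_of_nonneg_right hA5 (by positivity : 0 ≤ A ^ 5)
    linarith [pow_pos hA0 5]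
  have hDX : (D : ℝ) ≤ (d : ℝ) ^ (2 : ℝ) := by
    refine le_trans ?_ hX2
    exact_mod_cast (by omega : D ≤ X)
  have hSS := hd2 d hdd2 z hz2 D hD10 hDX
  rw [em2, ← hwdef] at hSS
  have hM1 : 1 ≤ X / (2 * D) := by
    rw [Nat.one_le_div_iff (by omega)]
    exact hcase2
  have hM2 : ((X / (2 * D) : ℕ) : ℝ) ≤ (d : ℝ) ^ (2 : ℝ) := by
    refine le_trans ?_ hX2
    exact_mod_cast Nat.div_le_self X (2 * D)
  have hRC := hd1 d hdd1 z hz1 (X / (2 * D)) hM1 hM2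
  rw [em2] at hRC
  have hM3 : (X : ℝ) < ((X / (2 * D) : ℕ) : ℝ) * (4 * D) := by
    have h1 : X < 2 * D * (X / (2 * D) + 1) := Nat.lt_mul_div_succ X (by omega)
    have h2 : 2 * D * (X / (2 * D) + 1) ≤ X / (2 * D) * (4 * D) := by
      have h3 : 2 * D * 1 ≤ 2 * D * (X / (2 * D)) := Nat.mul_le_mul_left _ hM1
      calc 2 * D * (X / (2 * D) + 1) = 2 * D * (X / (2 * D)) + 2 * D * 1 := by ring
        _ ≤ 2 * D * (X / (2 * D)) + 2 * D * (X / (2 * D)) := Nat.add_le_add_left h3 _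
        _ = X / (2 * D) * (4 * D) := by ring
    exact_mod_cast h1.trans_le h2
  -- RC ≥ N A^15 / (8 D)
  have hRC2 : N * A ^ 15 / (8 * D) ≤ ((RC d z (X / (2 * D))).card : ℝ) := by
    refine le_trans ?_ hRC
    rw [div_le_iff₀ (by positivity)]
    have h2 : N * A ^ 16 ≤ 2 * (((X / (2 * D) : ℕ) : ℝ) * (4 * D)) := by linarith
    have h3 : ((X / (2 * D) : ℕ) : ℝ) * A⁻¹ * (8 * D) =
        2 * (((X / (2 * D) : ℕ) : ℝ) * (4 * D)) * A⁻¹ := by ring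
    rw [h3]
    have h4 : N * A ^ 15 = N * A ^ 16 * A⁻¹ := by
      field_simp
    rw [h4]
    exact mul_le_mul_of_nonneg_right h2 (by positivity)
  have hprod : N * A ^ 14 / 8 ≤ ((RC d z (X / (2 * D))).card : ℝ) * ((SS d z w D).card : ℝ) := by
    have h1 : N * A ^ 14 / 8 = N * A ^ 15 / (8 * D) * (D * A⁻¹) := by
      field_simp
    rw [h1]
    exact mul_le_mul hRC2 hSS (by positivity) (Nat.cast_nonneg _)
  have hcond : 2 * T * (Nm d z X χ).card ≤ (RC d z (X / (2 * D))).card * (SS d z w D).card := by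
    have h1 : (2 : ℝ) * T * ((Nm d z X χ).card : ℝ) ≤ 2 * T * (2 * N) :=
      mul_le_mul_of_nonneg_left hnm (by positivity)
    have h2 : 32 * (T : ℝ) * N ≤ A ^ 14 * N := mul_le_mul_of_nonneg_right hA14 hN0.le
    have h3 : (2 : ℝ) * T * ((Nm d z X χ).card : ℝ) ≤
        ((RC d z (X / (2 * D))).card : ℝ) * ((SS d z w D).card : ℝ) := by linarith
    exact_mod_cast h3
  have hfin := split_count d z X w D T χ hχ hagree hTr hD hcond
  have hfinr : ((PD d z X χ D).card : ℝ) * ((RC d z (X / (2 * D))).card : ℝ) ≤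
      2 * T * ((Nm d z X χ).card : ℝ) := by exact_mod_cast hfin
  exact Z2a_mid N A D _ _ _ T X _ hN1 hT1r hA hDr0 (Nat.cast_nonneg _)
    hM3 hXhalf hRC hfinr hnm

end Pool.Agent.Lib.MP_42948a_nt.AC
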