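import Pool.Agent.Lib.MP_42948a_nt.AC.Z1
import Pool.Agent.Lib.MP_42948a_nt.AC.Z2
import Pool.Agent.Lib.MP_42948a_nt.OA.SO

/-!
# The theorem (job Z3)

`sieve` gives `K`, `SieveProp K`. Let `η = min ε 1 / 40`, `c = η/(16 (3K+4))`. For large `d` suppose the count is
`> d^(2-2κ+ε) ≥ d^(2-2κ+40η)`. Let `A` be the set of the units of the classes of the bad `a` (`ZMod.unitOfCoprime`, injective for
`a < d`), `#A` = the count. For bad `a` there is a parity `s < 2` not attained; put `σ a = -(-1)^s` (as element of `ℤˣ`; choose by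
`Classical.choose`). If `x y ≡ a` with `x`, `y` rough (`x ≤ d^κ`, `y ≤ d^(1+2η) ≤ d^(1+ε)`), then `Ω(x y) % 2 ≠ s`, so
`(-1)^Ω(x y) = σ a`. Apply `core` with `g n = (-1)^Ω(n)` and `contra`. (`Rough ⌊d^c⌋ n` iff `0 < n` and all primes `p ∣ n` have
`d^c < p`, `Nat.floor_lt`/`Nat.lt_of_floor_lt`; a prime factor of `x y` divides `x` or `y`.)
-/

namespace Pool.Agent.Lib.MP_42948a_nt.AC

open Finset Pool.Agent.Lib.MP_42948a_nt.OA Classical

theorem almost_all (ε : ℝ) (hε : 0 < ε) : ∃ c : ℝ, 0 < c ∧ ∃ d₀ : ℕ, ∀ d : ℕ, d₀ ≤ d → ∀ κ : ℝ, 1 / 2 ≤ κ → κ ≤ 1 →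
    (((Finset.range d).filter (fun a : ℕ => a.Coprime d ∧ ∃ s : ℕ, s < 2 ∧
      ¬ ∃ x y : ℕ, 0 < x ∧ 0 < y ∧ (x : ℝ) ≤ (d : ℝ) ^ κ ∧ (y : ℝ) ≤ (d : ℝ) ^ (1 + ε) ∧ x * y ≡ a [MOD d] ∧
        (∀ p : ℕ, p.Prime → p ∣ x * y → (d : ℝ) ^ c < p) ∧
        ArithmeticFunction.cardFactors (x * y) % 2 = s)).card : ℝ) ≤ (d : ℝ) ^ (2 - 2 * κ + ε) := by
  obtain ⟨K, hK⟩ := sieve
  have hm0 : 0 < min ε 1 := lt_min hε one_pos
  obtain ⟨η, hη⟩ : ∃ η : ℝ, η = min ε 1 / 40 := ⟨_, rfl⟩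
  have hη0 : 0 < η := by rw [hη]; positivity
  have hη1 : η ≤ 1 / 40 := by
    rw [hη]
    exact div_le_div_of_nonneg_right (min_le_right _ _) (by norm_num)
  have hηε : 40 * η ≤ ε := by
    have := min_le_left ε 1
    rw [hη]; linarith
  have hKr : (0 : ℝ) ≤ (K : ℝ) := Nat.cast_nonneg K
  obtain ⟨c, hcdef⟩ : ∃ c : ℝ, c = η / (16 * (3 * K + 4)) := ⟨_, rfl⟩
  have hc0 : 0 < c := by rw [hcdef]; positivity
  have hc : c * (16 * (3 * K + 4)) = η := by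
    rw [hcdef]
    exact div_mul_cancel₀ _ (by positivity)
  obtain ⟨d1, h1⟩ := core K hK η c hη0 hη1 hc
  obtain ⟨d2, h2⟩ := contra K hK η c hη0 hη1 hc
  refine ⟨c, hc0, max (max d1 d2) 2, fun d hd κ hκ hκ1 => ?_⟩
  have hd1 : d1 ≤ d := (le_max_left _ _).trans ((le_max_left _ _).trans hd)
  have hd2 : d2 ≤ d := (le_max_right _ _).trans ((le_max_left _ _).trans hd)
  have hd3 : 2 ≤ d := (le_max_right _ _).trans hd
  have : NeZero d := ⟨by omega⟩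
  have hdr : (1 : ℝ) ≤ (d : ℝ) := by
    have h : 1 ≤ d := by omega
    exact_mod_cast h
  have hd0 : (0 : ℝ) ≤ (d : ℝ) := by linarith
  by_contra hcon
  rw [not_le] at hcon
  obtain ⟨S, hS⟩ : ∃ S : Finset ℕ, S = ((Finset.range d).filter (fun a : ℕ => a.Coprime d ∧ ∃ s : ℕ, s < 2 ∧
      ¬ ∃ x y : ℕ, 0 < x ∧ 0 < y ∧ (x : ℝ) ≤ (d : ℝ) ^ κ ∧ (y : ℝ) ≤ (d : ℝ) ^ (1 + ε) ∧ x * y ≡ a [MOD d] ∧
        (∀ p : ℕ, p.Prime → p ∣ x * y → (d : ℝ) ^ c < p) ∧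
        ArithmeticFunction.cardFactors (x * y) % 2 = s)) := ⟨_, rfl⟩
  rw [← hS] at hcon
  have hSmem : ∀ a : ℕ, a ∈ S ↔ a < d ∧ a.Coprime d ∧ ∃ s : ℕ, s < 2 ∧
      ¬ ∃ x y : ℕ, 0 < x ∧ 0 < y ∧ (x : ℝ) ≤ (d : ℝ) ^ κ ∧ (y : ℝ) ≤ (d : ℝ) ^ (1 + ε) ∧ x * y ≡ a [MOD d] ∧
        (∀ p : ℕ, p.Prime → p ∣ x * y → (d : ℝ) ^ c < p) ∧
        ArithmeticFunction.cardFactors (x * y) % 2 = s := by
    intro a
    rw [hS, mem_filter, mem_range]
  obtain ⟨A, hA⟩ : ∃ A : Finset (ZMod d)ˣ, A = univ.filter (fun u : (ZMod d)ˣ => (u : ZMod d).val ∈ S) := ⟨_, rfl⟩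
  have hcard : S.card ≤ A.card := by
    have hsub : S ⊆ A.image (fun u : (ZMod d)ˣ => (u : ZMod d).val) := by
      intro a ha
      have ha' := (hSmem a).1 ha
      have hval : ((ZMod.unitOfCoprime a ha'.2.1 : (ZMod d)ˣ) : ZMod d).val = a := by
        rw [ZMod.coe_unitOfCoprime, ZMod.val_natCast_of_lt ha'.1]
      refine mem_image.2 ⟨ZMod.unitOfCoprime a ha'.2.1, ?_, hval⟩
      rw [hA, mem_filter]
      refine ⟨mem_univ _, ?_⟩
      rw [hval]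
      exact ha
    exact (card_le_card hsub).trans card_image_le
  have hbig : (d : ℝ) ^ (2 - 2 * κ + 40 * η) ≤ (A.card : ℝ) := by
    have e1 : (d : ℝ) ^ (2 - 2 * κ + 40 * η) ≤ (d : ℝ) ^ (2 - 2 * κ + ε) :=
      Real.rpow_le_rpow_of_exponent_le hdr (by linarith)
    have e2 : (S.card : ℝ) ≤ (A.card : ℝ) := by exact_mod_cast hcard
    linarith
  have hex : ∀ u : (ZMod d)ˣ, ∃ τ : ℤˣ, u ∈ A → ∀ x y : ℕ, Rough ⌊(d : ℝ) ^ c⌋₊ x → Rough ⌊(d : ℝ) ^ c⌋₊ y →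
      (x : ℝ) ≤ (d : ℝ) ^ κ → (y : ℝ) ≤ (d : ℝ) ^ (1 + 2 * η) → ((x * y : ℕ) : ZMod d) = (u : ZMod d) →
      (-1 : ℤˣ) ^ (ArithmeticFunction.cardFactors (x * y)) = τ := by
    intro u
    by_cases huA : u ∈ A
    swap
    · exact ⟨1, fun h => absurd h huA⟩
    have huS : (u : ZMod d).val ∈ S := by
      rw [hA, mem_filter] at huA
      exact huA.2
    obtain ⟨_, _, s, hs2, hs⟩ := (hSmem _).1 huS
    refine ⟨-(-1) ^ s, fun _ x y hx hy hxk hyk hxy => ?_⟩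
    by_contra hne
    apply hs
    have hrough : Rough ⌊(d : ℝ) ^ c⌋₊ (x * y) := hx.mul hy
    refine ⟨x, y, hx.pos, hy.pos, hxk, ?_, ?_, ?_, ?_⟩
    · exact hyk.trans (Real.rpow_le_rpow_of_exponent_le hdr (by linarith))
    · rw [← ZMod.natCast_eq_natCast_iff, hxy, ZMod.natCast_zmod_val]
    · intro p hp hpd
      exact Nat.lt_of_floor_lt (hrough.2 p hp hpd)
    · rcases Nat.even_or_odd (ArithmeticFunction.cardFactors (x * y)) with he | ho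
      · rw [he.neg_one_pow] at hne
        have hs0 : s = 0 := by
          interval_cases s
          · rfl
          · exfalso
            apply hne
            rw [pow_one, neg_neg]
        rw [hs0]
        exact Nat.even_iff.1 he
      · rw [ho.neg_one_pow] at hne
        have hs1 : s = 1 := by
          interval_cases s
          · exfalso
            apply hne
            rw [pow_zero]
          · rfl
        rw [hs1]
        exact Nat.odd_iff.1 ho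
  choose σ hσ using hex
  obtain ⟨ψ, B, hB, hall⟩ := h1 d hd1 (fun n => (-1 : ℤˣ) ^ (ArithmeticFunction.cardFactors n))
    (fun m n hm hn => by
      show (-1 : ℤˣ) ^ (ArithmeticFunction.cardFactors (m * n)) = _
      rw [ArithmeticFunction.cardFactors_mul hm.ne' hn.ne', pow_add])
    κ hκ hκ1 A σ (fun a ha x y hx hy hxk hyk hxy => hσ a ha x y hx hy hxk hyk hxy) hbig
  exact h2 d hd2 ψ B hB hall

end Pool.Agent.Lib.MP_42948a_nt.AC
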