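import Pool.Agent.Lib.MP_42948a_nt.AC.Z1
import Pool.Agent.Lib.MP_42948a_nt.OA.SO

/-!
# The inverse theorem for completely multiplicative signs
-/

namespace Pool.Agent.Lib.MP_42948a_nt.AC

open Finset Pool.Agent.Lib.MP_42948a_nt.OA Classical

theorem inverse (ε : ℝ) (hε : 0 < ε) (hε1 : ε ≤ 1) : ∃ c : ℝ, 0 < c ∧ ∃ d₀ : ℕ, ∀ d : ℕ, d₀ ≤ d → ∀ g : ℕ → ℤ,
    (∀ m n : ℕ, 0 < m → 0 < n → g (m * n) = g m * g n) → (∀ n : ℕ, 0 < n → g n = 1 ∨ g n = -1) →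
    ∀ κ : ℝ, 1 / 2 ≤ κ → κ ≤ 1 →
    (((Finset.range d).filter (fun a : ℕ => a.Coprime d ∧ ∃ s : ℤ, (s = 1 ∨ s = -1) ∧
      ¬ ∃ x y : ℕ, 0 < x ∧ 0 < y ∧ (x : ℝ) ≤ (d : ℝ) ^ κ ∧ (y : ℝ) ≤ (d : ℝ) ^ (1 + ε) ∧ x * y ≡ a [MOD d] ∧
        (∀ p : ℕ, p.Prime → p ∣ x * y → (d : ℝ) ^ c < p) ∧ g (x * y) = s)).card : ℝ) ≤
      (d : ℝ) ^ (2 - 2 * κ + ε) ∨
    ∃ (ψ : (ZMod d)ˣ →* ℤˣ) (B : Finset ℕ), (B.card : ℝ) ≤ (d : ℝ) ^ (1 - 4 * ε / 5) ∧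
      ∀ (n : ℕ) (h : n.Coprime d), 0 < n → (n : ℝ) ≤ (d : ℝ) ^ (1 + ε / 20) →
        (∀ p : ℕ, p.Prime → p ∣ n → (d : ℝ) ^ c < p) → n % d ∉ B →
        g n = ((ψ (ZMod.unitOfCoprime n h) : ℤˣ) : ℤ) := by
  obtain ⟨K, hK⟩ := sieve
  obtain ⟨η, hη⟩ : ∃ η : ℝ, η = ε / 40 := ⟨_, rfl⟩
  have hη0 : 0 < η := by rw [hη]; positivity
  have hη1 : η ≤ 1 / 40 := by
    rw [hη]
    exact div_le_div_of_nonneg_right hε1 (by norm_num)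
  have hKr : (0 : ℝ) ≤ (K : ℝ) := Nat.cast_nonneg K
  obtain ⟨c, hcdef⟩ : ∃ c : ℝ, c = η / (16 * (3 * K + 4)) := ⟨_, rfl⟩
  have hc0 : 0 < c := by rw [hcdef]; positivity
  have hc : c * (16 * (3 * K + 4)) = η := by
    rw [hcdef]
    exact div_mul_cancel₀ _ (by positivity)
  obtain ⟨d1, h1⟩ := core K hK η c hη0 hη1 hc
  refine ⟨c, hc0, max d1 2, fun d hd g hg hv κ hκ hκ1 => ?_⟩
  have hd1 : d1 ≤ d := (le_max_left _ _).trans hd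
  have hd3 : 2 ≤ d := (le_max_right _ _).trans hd
  have : NeZero d := ⟨by omega⟩
  have hdr : (1 : ℝ) ≤ (d : ℝ) := by
    have h : 1 ≤ d := by omega
    exact_mod_cast h
  have hd0 : (0 : ℝ) ≤ (d : ℝ) := by linarith
  rw [or_iff_not_imp_left]
  intro hcon
  rw [not_le] at hcon
  obtain ⟨S, hS⟩ : ∃ S : Finset ℕ, S = ((Finset.range d).filter (fun a : ℕ => a.Coprime d ∧
      ∃ s : ℤ, (s = 1 ∨ s = -1) ∧
      ¬ ∃ x y : ℕ, 0 < x ∧ 0 < y ∧ (x : ℝ) ≤ (d : ℝ) ^ κ ∧ (y : ℝ) ≤ (d : ℝ) ^ (1 + ε) ∧ x * y ≡ a [MOD d] ∧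
        (∀ p : ℕ, p.Prime → p ∣ x * y → (d : ℝ) ^ c < p) ∧ g (x * y) = s)) := ⟨_, rfl⟩
  rw [← hS] at hcon
  have hSmem : ∀ a : ℕ, a ∈ S ↔ a < d ∧ a.Coprime d ∧ ∃ s : ℤ, (s = 1 ∨ s = -1) ∧
      ¬ ∃ x y : ℕ, 0 < x ∧ 0 < y ∧ (x : ℝ) ≤ (d : ℝ) ^ κ ∧ (y : ℝ) ≤ (d : ℝ) ^ (1 + ε) ∧ x * y ≡ a [MOD d] ∧
        (∀ p : ℕ, p.Prime → p ∣ x * y → (d : ℝ) ^ c < p) ∧ g (x * y) = s := by
    intro a
    rw [hS, mem_filter, mem_range]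
  obtain ⟨A, hA⟩ : ∃ A : Finset (ZMod d)ˣ, A = univ.filter (fun u : (ZMod d)ˣ => (u : ZMod d).val ∈ S) := ⟨_, rfl⟩
  have hcard : S.card ≤ A.card := by
    have hsub : S ⊆ A.image (fun u : (ZMod d)ˣ => (u : ZMod d).val) := by
      intro a ha
      have ha' := (hSmem a).1 ha
      have hval : ((ZMod.unitOfCoprime a ha'.2.1 : (ZMod d)ˣ) : ZMod d).val = a := by
        rw [ZMod.coe_unitOfCoprime, ZMod.val_natCast_of_lt ha'.1]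
      refine mem_image.2 ⟨ZMod.unitOfCoprime a ha'.2.1, ?_, hval⟩
      rw [hA, mem_filter]
      refine ⟨mem_univ _, ?_⟩
      rw [hval]
      exact ha
    exact (card_le_card hsub).trans card_image_le
  have hbig : (d : ℝ) ^ (2 - 2 * κ + 40 * η) ≤ (A.card : ℝ) := by
    have e1 : (d : ℝ) ^ (2 - 2 * κ + 40 * η) = (d : ℝ) ^ (2 - 2 * κ + ε) := by
      congr 1
      rw [hη]; ring
    have e2 : (S.card : ℝ) ≤ (A.card : ℝ) := by exact_mod_cast hcard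
    linarith
  obtain ⟨G, hG⟩ : ∃ G : ℕ → ℤˣ, ∀ n : ℕ, 0 < n → ((G n : ℤˣ) : ℤ) = g n := by
    refine ⟨fun n => if g n = 1 then 1 else -1, fun n hn => ?_⟩
    rcases hv n hn with h | h
    · simp only [h, if_true, Units.val_one]
    · have h2 : ¬ ((-1 : ℤ) = 1) := by norm_num
      simp only [h, if_neg h2, Units.val_neg, Units.val_one]
  have hGmul : ∀ m n : ℕ, 0 < m → 0 < n → G (m * n) = G m * G n := by
    intro m n hm hn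
    apply Units.ext
    rw [Units.val_mul, hG _ (Nat.mul_pos hm hn), hG m hm, hG n hn, hg m n hm hn]
  have hex : ∀ u : (ZMod d)ˣ, ∃ τ : ℤˣ, u ∈ A → ∀ x y : ℕ, Rough ⌊(d : ℝ) ^ c⌋₊ x → Rough ⌊(d : ℝ) ^ c⌋₊ y →
      (x : ℝ) ≤ (d : ℝ) ^ κ → (y : ℝ) ≤ (d : ℝ) ^ (1 + 2 * η) → ((x * y : ℕ) : ZMod d) = (u : ZMod d) →
      G (x * y) = τ := by
    intro u
    by_cases huA : u ∈ A
    swap
    · exact ⟨1, fun h => absurd h huA⟩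
    have huS : (u : ZMod d).val ∈ S := by
      rw [hA, mem_filter] at huA
      exact huA.2
    obtain ⟨_, _, s, hs2, hs⟩ := (hSmem _).1 huS
    obtain ⟨t, ht⟩ : ∃ t : ℤˣ, (t : ℤ) = s := by
      rcases hs2 with h | h
      · exact ⟨1, by rw [h]; rfl⟩
      · exact ⟨-1, by rw [h]; rfl⟩
    refine ⟨-t, fun _ x y hx hy hxk hyk hxy => ?_⟩
    by_contra hne
    apply hs
    have hrough : Rough ⌊(d : ℝ) ^ c⌋₊ (x * y) := hx.mul hy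
    refine ⟨x, y, hx.pos, hy.pos, hxk, ?_, ?_, ?_, ?_⟩
    · exact hyk.trans (Real.rpow_le_rpow_of_exponent_le hdr (by rw [hη]; linarith))
    · rw [← ZMod.natCast_eq_natCast_iff, hxy, ZMod.natCast_zmod_val]
    · intro p hp hpd
      exact Nat.lt_of_floor_lt (hrough.2 p hp hpd)
    · rw [← hG _ hrough.pos, ← ht]
      congr 1
      rcases Int.units_eq_one_or (G (x * y)) with h1 | h1 <;> rcases Int.units_eq_one_or t with h2 | h2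
      · rw [h1, h2]
      · exfalso; apply hne; rw [h1, h2, neg_neg]
      · exfalso; apply hne; rw [h1, h2]
      · rw [h1, h2]
  choose σ hσ using hex
  obtain ⟨ψ, B, hB, hall⟩ := h1 d hd1 G hGmul κ hκ hκ1 A σ
    (fun a ha x y hx hy hxk hyk hxy => hσ a ha x y hx hy hxk hyk hxy) hbig
  refine ⟨ψ, B.image (fun u : (ZMod d)ˣ => (u : ZMod d).val), ?_, fun n h hn hnX hnp hnB => ?_⟩
  · have e1 : ((B.image (fun u : (ZMod d)ˣ => (u : ZMod d).val)).card : ℝ) ≤ (B.card : ℝ) := by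
      exact_mod_cast card_image_le
    have e2 : (d : ℝ) ^ (1 - 32 * η) = (d : ℝ) ^ (1 - 4 * ε / 5) := by
      congr 1
      rw [hη]; ring
    linarith
  · rw [← hG n hn]
    congr 1
    refine hall (ZMod.unitOfCoprime n h) ?_ n ⟨hn, fun p hp hpn => ?_⟩ ?_ ?_
    · intro hmem
      apply hnB
      refine mem_image.2 ⟨_, hmem, ?_⟩
      rw [ZMod.coe_unitOfCoprime, ZMod.val_natCast]
    · exact (Nat.floor_lt (Real.rpow_nonneg hd0 _)).2 (hnp p hp hpn)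
    · refine hnX.trans (Real.rpow_le_rpow_of_exponent_le hdr ?_)
      rw [hη]; linarith
    · rw [ZMod.coe_unitOfCoprime]

end Pool.Agent.Lib.MP_42948a_nt.AC
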